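import Mathlib

/-!
# JOB AvgAbs (about 150 lines): from one-sided bounds and a mean lower bound to asymptotics (abstract)

Copy of `averaged` in MP_00e05b_nt/Mont/T1B.lean (`T1B_unif`, `T1B_sub`, `hΨ`, `hΨlim`), with interval integrability instead of continuity.
-/

open Set Filter Topology MeasureTheory

namespace Pool.Agent.Lib.MP_2a816b_nt.PV

/-- uniform upper bounds from a grid -/
private theorem AvgAbs_unif {f : ℝ → ℝ → ℝ}
    (hint : ∀ᶠ T : ℝ in atTop, ∀ a b : ℝ, a ≤ b → IntervalIntegrable (f T) volume a b)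
    (hnn : ∀ᶠ T : ℝ in atTop, ∀ α : ℝ, 0 ≤ f T α)
    (h : ∀ a b : ℝ, 1 ≤ a → a < b → ∀ ε > 0, ∀ᶠ T : ℝ in atTop, ∫ α in a..b, f T α ≤ b - a + ε)
    {a A : ℝ} (ha : 1 ≤ a) {ε : ℝ} (hε : 0 < ε) :
    ∀ᶠ T : ℝ in atTop, ∀ y ∈ Icc a A, ∫ α in a..y, f T α ≤ y - a + ε := by
  set δ : ℝ := ε / 2 with hδ
  have hδ0 : 0 < δ := by positivity
  set N : ℕ := ⌊(A - a) / δ⌋₊ with hN
  have hgrid : ∀ᶠ T : ℝ in atTop, ∀ j ∈ Finset.range (N + 1),
      ∫ α in a..(a + ((j : ℝ) + 1) * δ), f T α ≤ ((j : ℝ) + 1) * δ + δ := by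
    rw [eventually_all_finset]
    intro j _
    have h1 := h a (a + ((j : ℝ) + 1) * δ) ha (by have : 0 < ((j : ℝ) + 1) * δ := by positivity
                                                  linarith) δ hδ0
    filter_upwards [h1] with T hT
    linarith
  filter_upwards [hgrid, hint, hnn] with T hT hi hn y hy
  set j : ℕ := ⌊(y - a) / δ⌋₊ with hj
  have hya : 0 ≤ (y - a) / δ := div_nonneg (by linarith [hy.1]) hδ0.le
  have hjN : j ≤ N := Nat.floor_le_floor (by gcongr; exact hy.2)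
  have hj1 : (j : ℝ) ≤ (y - a) / δ := Nat.floor_le hya
  have hj2 : (y - a) / δ < (j : ℝ) + 1 := Nat.lt_floor_add_one _
  have hj3 : (j : ℝ) * δ ≤ y - a := by rwa [le_div_iff₀ hδ0] at hj1
  have hj4 : y - a < ((j : ℝ) + 1) * δ := by rwa [div_lt_iff₀ hδ0] at hj2
  have h2 := hT j (Finset.mem_range.2 (by omega))
  have h3 : ∫ α in a..y, f T α ≤ ∫ α in a..(a + ((j : ℝ) + 1) * δ), f T α := by
    rw [← intervalIntegral.integral_add_adjacent_intervals (hi a y hy.1)
      (hi y (a + ((j : ℝ) + 1) * δ) (by linarith))]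
    have h4 : 0 ≤ ∫ α in y..(a + ((j : ℝ) + 1) * δ), f T α :=
      intervalIntegral.integral_nonneg (by linarith) fun α _ => hn α
    linarith
  have h5 : ((j : ℝ) + 1) * δ + δ = (j : ℝ) * δ + ε := by rw [hδ]; ring
  linarith

private theorem AvgAbs_sub {g : ℝ → ℝ} {a y : ℝ} (hg : IntervalIntegrable g volume a y) :
    ∫ α in a..y, (g α - 1) = (∫ α in a..y, g α) - (y - a) := by
  rw [intervalIntegral.integral_sub hg (by simp),
    intervalIntegral.integral_const, smul_eq_mul, mul_one]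

theorem averaged_abs {f : ℝ → ℝ → ℝ}
    (hint : ∀ᶠ T : ℝ in atTop, ∀ a b : ℝ, a ≤ b → IntervalIntegrable (f T) volume a b)
    (hnn : ∀ᶠ T : ℝ in atTop, ∀ α : ℝ, 0 ≤ f T α)
    (hup : ∀ a b : ℝ, 1 ≤ a → a < b → ∀ ε > 0, ∀ᶠ T : ℝ in atTop, ∫ α in a..b, f T α ≤ b - a + ε)
    (hlow : ∀ A : ℝ, 1 < A → ∀ ε > 0, ∀ᶠ T : ℝ in atTop,
      -(1 / 6) - ε ≤ ∫ y in (1 : ℝ)..A, ∫ α in (1 : ℝ)..y, (f T α - 1)) :
    ∀ a b : ℝ, 1 ≤ a → a < b → Tendsto (fun T : ℝ => ∫ α in a..b, f T α) atTop (𝓝 (b - a)) := by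
  have hint' : ∀ᶠ T : ℝ in atTop, ∀ a b : ℝ, IntervalIntegrable (f T) volume a b := by
    filter_upwards [hint] with T hT a b
    rcases le_total a b with hab | hab
    · exact hT a b hab
    · exact (hT b a hab).symm
  -- lower bound for the primitive
  have hΨ : ∀ b : ℝ, 1 ≤ b → ∀ η : ℝ, 0 < η → ∀ᶠ T : ℝ in atTop, -η ≤ ∫ α in (1 : ℝ)..b, (f T α - 1) := by
    intro b hb η hη
    set A : ℝ := b + 1 / (3 * η) with hA
    have hAb : 0 < A - b := by rw [hA]; simp only [add_sub_cancel_left]; positivity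
    have hA1 : 1 < A := by linarith
    have hA0 : 0 < A := by linarith
    obtain ⟨ε, hε, hε1⟩ : ∃ ε : ℝ, 0 < ε ∧ ε * A ≤ 1 / 6 := by
      refine ⟨1 / 6 / A, by positivity, ?_⟩
      rw [div_mul_cancel₀ _ hA0.ne']
    filter_upwards [hlow A hA1 ε hε, AvgAbs_unif hint hnn hup (a := 1) (A := A) le_rfl hε,
      AvgAbs_unif hint hnn hup (a := b) (A := A) hb hε, hint'] with T h1 h3 h4 hi
    have hc : ∀ a b : ℝ, IntervalIntegrable (fun α => f T α - 1) volume a b :=
      fun a b => (hi a b).sub (by simp)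
    have hcΨ : Continuous (fun y => ∫ α in (1 : ℝ)..y, (f T α - 1)) :=
      intervalIntegral.continuous_primitive hc 1
    set P : ℝ := ∫ α in (1 : ℝ)..b, (f T α - 1) with hP
    have h5 : ∫ y in (1 : ℝ)..b, (∫ α in (1 : ℝ)..y, (f T α - 1)) ≤ (b - 1) * ε := by
      calc ∫ y in (1 : ℝ)..b, (∫ α in (1 : ℝ)..y, (f T α - 1)) ≤ ∫ _y in (1 : ℝ)..b, ε := by
            refine intervalIntegral.integral_mono_on hb (hcΨ.intervalIntegrable _ _) (by simp) fun y hy => ?_
            have := h3 y ⟨hy.1, by linarith [hy.2]⟩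
            rw [AvgAbs_sub (hi _ _)]
            linarith
        _ = (b - 1) * ε := by rw [intervalIntegral.integral_const, smul_eq_mul]
    have h6 : ∫ y in b..A, (∫ α in (1 : ℝ)..y, (f T α - 1)) ≤ (A - b) * (P + ε) := by
      calc ∫ y in b..A, (∫ α in (1 : ℝ)..y, (f T α - 1)) ≤ ∫ _y in b..A, (P + ε) := by
            refine intervalIntegral.integral_mono_on (by linarith) (hcΨ.intervalIntegrable _ _) (by simp) fun y hy => ?_
            have h7 := h4 y hy
            have h8 := intervalIntegral.integral_add_adjacent_intervals (hc 1 b) (hc b y)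
            rw [AvgAbs_sub (a := b) (hi _ _)] at h8
            linarith
        _ = (A - b) * (P + ε) := by rw [intervalIntegral.integral_const, smul_eq_mul]
    have h9 := intervalIntegral.integral_add_adjacent_intervals (hcΨ.intervalIntegrable (μ := volume) 1 b)
      (hcΨ.intervalIntegrable (μ := volume) b A)
    have h12 : -(1 / 3) ≤ (A - b) * P := by nlinarith
    have h13 : (A - b) * η = 1 / 3 := by
      rw [hA]
      simp only [add_sub_cancel_left]
      field_simp
    by_contra hcon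
    push Not at hcon
    have h14 : (A - b) * P < (A - b) * (-η) := mul_lt_mul_of_pos_left hcon hAb
    linarith
  have hΨlim : ∀ b : ℝ, 1 ≤ b → Tendsto (fun T : ℝ => ∫ α in (1 : ℝ)..b, (f T α - 1)) atTop (𝓝 0) := by
    intro b hb
    rw [Metric.tendsto_atTop']
    intro η hη
    have hup' : ∀ᶠ T : ℝ in atTop, ∫ α in (1 : ℝ)..b, (f T α - 1) ≤ η / 2 := by
      filter_upwards [AvgAbs_unif hint hnn hup (a := 1) (A := b) le_rfl (half_pos hη), hint'] with T h1 hi
      rw [AvgAbs_sub (hi _ _)]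
      have := h1 b ⟨hb, le_rfl⟩
      linarith
    obtain ⟨N, hN⟩ := eventually_atTop.1 ((hΨ b hb (η / 2) (half_pos hη)).and hup')
    refine ⟨N, fun T hT => ?_⟩
    obtain ⟨h1, h2⟩ := hN T hT.le
    rw [Real.dist_eq, sub_zero, abs_lt]
    constructor <;> linarith
  intro a b ha hab
  have h1 := ((hΨlim b (by linarith)).sub (hΨlim a ha)).add_const (b - a)
  rw [sub_zero, zero_add] at h1
  refine h1.congr' ?_
  filter_upwards [hint'] with T hi
  rw [AvgAbs_sub (hi _ _), AvgAbs_sub (hi _ _)]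
  have h8 := intervalIntegral.integral_add_adjacent_intervals (hi 1 a) (hi a b)
  linarith

/-- integration by parts (`g` is only integrable; Fubini on the triangle `1 ≤ α ≤ y ≤ A`) -/
theorem mean_parts {g : ℝ → ℝ} {A : ℝ} (hA : 1 < A) (hg : IntervalIntegrable g volume 1 A) :
    ∫ α in (1 : ℝ)..A, g α * (1 - α / A) = (1 / A) * ∫ y in (1 : ℝ)..A, ∫ α in (1 : ℝ)..y, g α := by
  have hA0 : A ≠ 0 := by positivity
  set μ : Measure ℝ := volume.restrict (Ioc 1 A) with hμ
  have hgi : Integrable g μ := by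
    rw [hμ]
    exact (intervalIntegrable_iff_integrableOn_Ioc_of_le hA.le).1 hg
  have hfin : IsFiniteMeasure μ := by
    rw [hμ]
    infer_instance
  -- the function on the square
  set F : ℝ → ℝ → ℝ := fun y α => if α ≤ y then g α else 0 with hF
  have hFi : Integrable (Function.uncurry F) (μ.prod μ) := by
    have h1 : Integrable (fun p : ℝ × ℝ => g p.2) (μ.prod μ) := hgi.comp_snd μ
    have h2 : MeasurableSet {p : ℝ × ℝ | p.2 ≤ p.1} := measurableSet_le measurable_snd measurable_fst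
    have h3 := h1.indicator h2
    refine h3.congr (Eventually.of_forall fun p => ?_)
    simp only [hF, Function.uncurry, Set.indicator, Set.mem_ofPred_eq]
  have hswap : ∫ y, ∫ α, F y α ∂μ ∂μ = ∫ α, ∫ y, F y α ∂μ ∂μ := integral_integral_swap hFi
  have hl : ∫ y in (1 : ℝ)..A, ∫ α in (1 : ℝ)..y, g α = ∫ y, ∫ α, F y α ∂μ ∂μ := by
    rw [intervalIntegral.integral_of_le hA.le]
    refine setIntegral_congr_fun measurableSet_Ioc fun y hy => ?_
    show ∫ α in (1 : ℝ)..y, g α = ∫ α, F y α ∂μ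
    rw [intervalIntegral.integral_of_le hy.1.le]
    have h1 : (fun α => F y α) = (Iic y).indicator g := by
      funext α
      simp only [hF, Set.indicator, Set.mem_Iic]
    rw [h1, integral_indicator measurableSet_Iic, hμ, Measure.restrict_restrict measurableSet_Iic]
    congr 2
    ext α
    simp only [Set.mem_Ioc, Set.mem_inter_iff, Set.mem_Iic]
    constructor
    · rintro ⟨h2, h3⟩
      exact ⟨h3, h2, h3.trans hy.2⟩
    · rintro ⟨h2, h3, _⟩
      exact ⟨h3, h2⟩
  have hr : ∫ α, ∫ y, F y α ∂μ ∂μ = ∫ α in (1 : ℝ)..A, g α * (A - α) := by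
    rw [intervalIntegral.integral_of_le hA.le]
    refine setIntegral_congr_fun measurableSet_Ioc fun α hα => ?_
    show ∫ y, F y α ∂μ = g α * (A - α)
    have h1 : (fun y => F y α) = (Ici α).indicator (fun _ => g α) := by
      funext y
      simp only [hF, Set.indicator, Set.mem_Ici]
    rw [h1, integral_indicator measurableSet_Ici, hμ, Measure.restrict_restrict measurableSet_Ici]
    have h2 : Ici α ∩ Ioc 1 A = Icc α A := by
      ext y
      simp only [Set.mem_inter_iff, Set.mem_Ici, Set.mem_Ioc, Set.mem_Icc]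
      constructor
      · rintro ⟨h3, _, h4⟩
        exact ⟨h3, h4⟩
      · rintro ⟨h3, h4⟩
        exact ⟨h3, hα.1.trans_le h3, h4⟩
    rw [h2, setIntegral_const, measureReal_def, Real.volume_Icc, ENNReal.toReal_ofReal (by linarith [hα.2]),
      smul_eq_mul, mul_comm]
  rw [hl, hswap, hr, ← intervalIntegral.integral_const_mul]
  refine intervalIntegral.integral_congr fun α _ => ?_
  show g α * (1 - α / A) = 1 / A * (g α * (A - α))
  field_simp

end Pool.Agent.Lib.MP_2a816b_nt.PV
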