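import Pool.Agent.Lib.MP_2a816b_nt.PV.Defs

/-!
# JOB WinA (about 150 lines): averaging over windows

For continuous `g` this is `MassP_bounds` (private, MP_00e05b_nt/Mont/MassP.lean); here `g` is only locally integrable.
-/

open Complex Set Filter Topology MeasureTheory

namespace Pool.Agent.Lib.MP_2a816b_nt.PV

open Pool.Agent.Lib.MP_00e05b_nt Pool.Agent.Lib.MP_00e05b_nt.Mont

private theorem WinA_zero {W : ℝ → ℝ} {s : ℝ} (hW : EB W s) {v : ℝ} (hv : v ∉ Ioc (-s) s) : W v = 0 := by
  refine hW.supp v ?_
  simp only [mem_Ioc, not_and_or, not_lt, not_le] at hv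
  rcases hv with hv | hv
  · exact le_trans (by linarith) (neg_le_abs v)
  · exact le_trans hv.le (le_abs_self v)

private theorem WinA_supp {W : ℝ → ℝ} {s : ℝ} (hW : EB W s) : HasCompactSupport (fun v => W v ^ 2) := by
  refine HasCompactSupport.intro (isCompact_Icc (a := -s) (b := s)) ?_
  intro v hv
  have : W v = 0 := WinA_zero hW (fun h => hv ⟨h.1.le, h.2⟩)
  simp [this]

private theorem WinA_int {W : ℝ → ℝ} {s : ℝ} (hW : EB W s) : Integrable (fun v => W v ^ 2) :=
  ((hW.smooth.continuous).pow 2).integrable_of_hasCompactSupport (WinA_supp hW)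

private theorem WinA_I_eq {W : ℝ → ℝ} {s : ℝ} (hW : EB W s) (hs0 : 0 < s) :
    ∫ u, W u ^ 2 = ∫ v in (-s)..s, W v ^ 2 := by
  rw [intervalIntegral.integral_of_le (by linarith), setIntegral_eq_integral_of_forall_compl_eq_zero]
  intro v hv
  simp [WinA_zero hW hv]

theorem II_pos {W : ℝ → ℝ} {s : ℝ} (hW : EB W s) (hs : 0 < s) : 0 < II W := by
  unfold II
  rw [WinA_I_eq hW hs]
  have hc : Continuous (fun v => W v ^ 2) := (hW.smooth.continuous).pow 2
  apply intervalIntegral.integral_pos (by linarith) hc.continuousOn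
  · intro x _; positivity
  · refine ⟨0, ⟨by linarith, by linarith⟩, ?_⟩
    rw [hW.one 0 (by simp; linarith)]
    norm_num

/-- continuity under the integral (`W` is continuous with compact support) -/
theorem win_cont {W g : ℝ → ℝ} {s : ℝ} (hW : EB W s) (hs : 0 < s) (hg : LocallyIntegrable g) :
    Continuous (fun c => ∫ u, W (u - c) ^ 2 * g u) := by
  have hc : Continuous (fun v => W v ^ 2) := (hW.smooth.continuous).pow 2
  have h := HasCompactSupport.continuous_convolution_right (ContinuousLinearMap.mul ℝ ℝ) (WinA_supp hW) hg hc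
  refine h.congr ?_
  intro c
  rw [convolution_def]
  refine integral_congr_ae (Eventually.of_forall ?_)
  intro u
  simp only [ContinuousLinearMap.mul_apply']
  have : W (c - u) = W (u - c) := by rw [← hW.even (u - c)]; congr 1; ring
  rw [this, mul_comm]

/-- Fubini: `∫_{c1}^{c2} ∫ W(u - c)² g u du dc = ∫ κ u g u du`, `κ u = ∫_{c1}^{c2} W(u - c)² dc`: `0 ≤ κ ≤ II W`, `κ = II W` on
`[c1 + s, c2 - s]` and `κ = 0` off `[c1 - s, c2 + s]`. (If `c2 - s < c1 + s` the first left side is `≤ 0`.) -/
theorem win_bounds {W g : ℝ → ℝ} {s : ℝ} (hW : EB W s) (hs : 0 < s) (hg : LocallyIntegrable g) (h0 : ∀ u, 0 ≤ g u)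
    {c1 c2 : ℝ} (hc : c1 ≤ c2) :
    II W * (∫ u in (c1 + s)..(c2 - s), g u) ≤ (∫ c in c1..c2, ∫ u, W (u - c) ^ 2 * g u) ∧
    (∫ c in c1..c2, ∫ u, W (u - c) ^ 2 * g u) ≤ II W * ∫ u in (c1 - s)..(c2 + s), g u := by
  have hWc := hW.smooth.continuous
  have hIpos := II_pos hW hs
  set μ : Measure ℝ := volume.restrict (Ioc c1 c2) with hμ
  set ν : Measure ℝ := volume.restrict (Ioc (c1 - s) (c2 + s)) with hν
  have : IsFiniteMeasure μ := ⟨by rw [hμ, Measure.restrict_apply_univ]; exact measure_Ioc_lt_top⟩
  have : IsFiniteMeasure ν := ⟨by rw [hν, Measure.restrict_apply_univ]; exact measure_Ioc_lt_top⟩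
  have hgI : ∀ a b : ℝ, IntegrableOn g (Ioc a b) := fun a b =>
    (hg.integrableOn_isCompact isCompact_Icc).mono_set Ioc_subset_Icc_self
  have hgν : Integrable g ν := hgI _ _
  have hF : Integrable (fun p : ℝ × ℝ => W (p.2 - p.1) ^ 2 * g p.2) (μ.prod ν) := by
    have h1 : Integrable (fun p : ℝ × ℝ => g p.2) (μ.prod ν) := hgν.comp_snd μ
    refine h1.bdd_mul (c := 1) ?_ ?_
    · exact (Continuous.pow (hWc.comp (by fun_prop)) 2).aestronglyMeasurable
    · refine Eventually.of_forall ?_
      intro p
      rw [Real.norm_eq_abs, abs_of_nonneg (by positivity)]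
      exact pow_le_one₀ (hW.nonneg _) (hW.le_one _)
  set κ : ℝ → ℝ := fun u => ∫ c, W (u - c) ^ 2 ∂μ with hκ
  have hWu : ∀ u : ℝ, Integrable (fun c => W (u - c) ^ 2) := fun u => (WinA_int hW).comp_sub_left u
  have hIu : ∀ u : ℝ, ∫ c, W (u - c) ^ 2 = II W := fun u => by
    unfold II
    exact integral_sub_left_eq_self (fun v => W v ^ 2) volume u
  have hκ0 : ∀ u, 0 ≤ κ u := fun u => integral_nonneg (fun c => by positivity)
  have hκ1 : ∀ u, κ u ≤ II W := by
    intro u
    rw [← hIu u]
    exact setIntegral_le_integral (hWu u) (Eventually.of_forall (fun c => by positivity))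
  have hκ2 : ∀ u, c1 + s ≤ u → u ≤ c2 - s → κ u = II W := by
    intro u h1 h2
    rw [← hIu u]
    refine setIntegral_eq_integral_of_forall_compl_eq_zero ?_
    intro c hc'
    have : W (u - c) = 0 := by
      refine hW.supp _ ?_
      simp only [mem_Ioc, not_and_or, not_lt, not_le] at hc'
      rcases hc' with h | h
      · exact le_trans (by linarith) (le_abs_self _)
      · exact le_trans (by linarith) (neg_le_abs _)
    simp [this]
  have hswap : (∫ c in c1..c2, ∫ u, W (u - c) ^ 2 * g u) = ∫ u, κ u * g u ∂ν := by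
    rw [intervalIntegral.integral_of_le hc]
    have h1 : ∫ c in Ioc c1 c2, ∫ u, W (u - c) ^ 2 * g u = ∫ c, ∫ u, W (u - c) ^ 2 * g u ∂ν ∂μ := by
      refine setIntegral_congr_fun measurableSet_Ioc ?_
      intro c hc'
      refine (setIntegral_eq_integral_of_forall_compl_eq_zero ?_).symm
      intro u hu
      have : W (u - c) = 0 := by
        refine hW.supp _ ?_
        simp only [mem_Ioc, not_and_or, not_lt, not_le] at hu
        rcases hu with h | h
        · exact le_trans (by linarith [hc'.1]) (neg_le_abs _)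
        · exact le_trans (by linarith [hc'.2]) (le_abs_self _)
      simp [this]
    rw [h1, integral_integral_swap hF]
    refine integral_congr_ae (Eventually.of_forall ?_)
    intro u
    exact integral_mul_const (g u) (fun c => W (u - c) ^ 2)
  have hκg : Integrable (fun u => κ u * g u) ν := by
    have h1 := hF.integral_prod_right
    refine h1.congr (Eventually.of_forall ?_)
    intro u
    exact integral_mul_const (g u) (fun c => W (u - c) ^ 2)
  rw [hswap]
  constructor
  · by_cases hlt : c2 - s < c1 + s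
    · have h1 : ∫ u in (c1 + s)..(c2 - s), g u ≤ 0 := by
        rw [intervalIntegral.integral_symm]
        have := intervalIntegral.integral_nonneg_of_forall (μ := volume) hlt.le h0
        linarith
      have h2 : 0 ≤ ∫ u, κ u * g u ∂ν := integral_nonneg (fun u => mul_nonneg (hκ0 u) (h0 u))
      have h3 : II W * (∫ u in (c1 + s)..(c2 - s), g u) ≤ 0 := mul_nonpos_of_nonneg_of_nonpos hIpos.le h1
      linarith
    · push Not at hlt
      rw [intervalIntegral.integral_of_le hlt, ← integral_const_mul]
      have h1 : ∫ u in Ioc (c1 + s) (c2 - s), II W * g u = ∫ u in Ioc (c1 + s) (c2 - s), κ u * g u := by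
        refine setIntegral_congr_fun measurableSet_Ioc ?_
        intro u hu
        simp only
        rw [hκ2 u hu.1.le hu.2]
      rw [h1]
      refine setIntegral_mono_set hκg (Eventually.of_forall (fun u => mul_nonneg (hκ0 u) (h0 u))) ?_
      exact (Ioc_subset_Ioc (by linarith) (by linarith)).eventuallyLE
  · rw [intervalIntegral.integral_of_le (by linarith), ← integral_const_mul]
    exact integral_mono hκg (hgν.const_mul _) (fun u => mul_le_mul_of_nonneg_right (hκ1 u) (h0 u))

end Pool.Agent.Lib.MP_2a816b_nt.PV
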