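import Pool.Agent.Lib.MP_2a816b_nt.PV.AAreg
import Pool.Agent.Lib.MP_2a816b_nt.PV.WinA

/-!
# JOB ACQS (about 150 lines): `AC` and `QS`
-/

open Complex Set Filter Topology MeasureTheory

namespace Pool.Agent.Lib.MP_2a816b_nt.PV

open Pool.Agent.Lib.MP_00e05b_nt Pool.Agent.Lib.MP_00e05b_nt.Mont

theorem ACQS_cont (f : ℝ → ℝ → ℝ) (hf : Continuous fun p : ℝ × ℝ => f p.1 p.2) (a b : ℝ) :
    Continuous fun c : ℝ => ∫ τ in a..b, f τ c :=
  intervalIntegral.continuous_parametric_intervalIntegral_of_continuous'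
    (f := fun c τ => f τ c) (hf.comp (continuous_snd.prodMk continuous_fst)) a b

theorem ACQS_swap (f : ℝ → ℝ → ℝ) (hf : Continuous fun p : ℝ × ℝ => f p.1 p.2) {a b c d : ℝ}
    (hab : a ≤ b) (hcd : c ≤ d) :
    ∫ x in a..b, ∫ y in c..d, f x y = ∫ y in c..d, ∫ x in a..b, f x y := by
  simp only [intervalIntegral.integral_of_le hab, intervalIntegral.integral_of_le hcd]
  apply integral_integral_swap
  have h1 : IntegrableOn (fun p : ℝ × ℝ => f p.1 p.2) (Icc a b ×ˢ Icc c d) (volume.prod volume) :=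
    hf.continuousOn.integrableOn_compact (isCompact_Icc.prod isCompact_Icc)
  have h2 : IntegrableOn (fun p : ℝ × ℝ => f p.1 p.2) (Ioc a b ×ˢ Ioc c d) (volume.prod volume) :=
    h1.mono_set (prod_mono Ioc_subset_Icc_self Ioc_subset_Icc_self)
  rw [IntegrableOn, ← Measure.prod_restrict] at h2
  exact h2

theorem ACQS_fin {p I q1 q2 A w C e L : ℝ} (l1 : p * (I * q1) ≤ p * w) (l2 : p * w ≤ p * (I * q2))
    (h1 : -(C * L * e) ≤ p * w - A) (h2 : p * w - A ≤ C * L * e) :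
    p * I * q1 - C * e * L ≤ A ∧ A ≤ p * I * q2 + C * e * L := by
  constructor <;> nlinarith

/-- Fubini (`AA_cont2`): `AC W c1 c2 t = ∫_{c1}^{c2} ∫_0^t ‖AA W τ c‖² dτ dc`. By `trunc` and `planch`
`|∫_0^t ‖AA W τ c‖² dτ - 2π ∫ W(u - c)² ‖SS t u‖² du| ≤ C log³ t`; `win_bounds` with `g u = ‖SS t u‖²`, `s = 1/8`. -/
theorem AC_QS (hRH : RiemannHypothesis) {W : ℝ → ℝ} (hW : EB W (1 / 8)) :
    ∃ C : ℝ, 0 ≤ C ∧ ∀ t : ℝ, 2 ≤ t → ∀ c1 c2 : ℝ, c1 ≤ c2 →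
      2 * Real.pi * II W * QS t (c1 + 1 / 8) (c2 - 1 / 8) - C * (c2 - c1) * Real.log t ^ 3 ≤ AC W c1 c2 t ∧
      AC W c1 c2 t ≤ 2 * Real.pi * II W * QS t (c1 - 1 / 8) (c2 + 1 / 8) + C * (c2 - c1) * Real.log t ^ 3 := by
  have hs : (1 / 8 : ℝ) ≤ 3 / 4 := by norm_num
  obtain ⟨C, hC0, hC⟩ := trunc hRH hW.es hs
  refine ⟨C, hC0, fun t ht c1 c2 hc => ?_⟩
  have hAA := AA_cont2 hW.es hs
  have hf : Continuous (fun p : ℝ × ℝ => ‖AA W p.1 p.2‖ ^ 2) := (hAA.norm).pow 2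
  -- Fubini
  have hfub : AC W c1 c2 t = ∫ c in c1..c2, ∫ τ in (0 : ℝ)..t, ‖AA W τ c‖ ^ 2 := by
    unfold AC GG
    exact ACQS_swap (fun τ c => ‖AA W τ c‖ ^ 2) hf (by linarith) hc
  have hcA : Continuous fun c : ℝ => ∫ τ in (0 : ℝ)..t, ‖AA W τ c‖ ^ 2 :=
    ACQS_cont (fun τ c => ‖AA W τ c‖ ^ 2) hf 0 t
  have hg : Continuous fun u : ℝ => ‖SS t u‖ ^ 2 := ((continuous_SS t).norm).pow 2
  have hcW := win_cont hW (by norm_num) (hg.locallyIntegrable (μ := volume))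
  have hb := win_bounds hW (by norm_num) (hg.locallyIntegrable (μ := volume))
    (fun u => by positivity) hc
  have hpt : ∀ c : ℝ, |2 * Real.pi * (∫ u, W (u - c) ^ 2 * ‖SS t u‖ ^ 2) -
      ∫ τ in (0 : ℝ)..t, ‖AA W τ c‖ ^ 2| ≤ C * Real.log t ^ 3 := by
    intro c
    rw [← (planch hW.es t c).2]
    exact hC t c ht
  have i1 : IntervalIntegrable (fun c : ℝ => 2 * Real.pi * ∫ u, W (u - c) ^ 2 * ‖SS t u‖ ^ 2)
      volume c1 c2 := (continuous_const.mul hcW).intervalIntegrable _ _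
  have i2 : IntervalIntegrable (fun c : ℝ => ∫ τ in (0 : ℝ)..t, ‖AA W τ c‖ ^ 2) volume c1 c2 :=
    hcA.intervalIntegrable _ _
  have hdiff : |(2 * Real.pi * ∫ c in c1..c2, ∫ u, W (u - c) ^ 2 * ‖SS t u‖ ^ 2) - AC W c1 c2 t| ≤
      C * Real.log t ^ 3 * (c2 - c1) := by
    rw [hfub, ← intervalIntegral.integral_const_mul, ← intervalIntegral.integral_sub i1 i2]
    have h := intervalIntegral.norm_integral_le_of_norm_le_const (a := c1) (b := c2)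
      (C := C * Real.log t ^ 3) (f := fun c : ℝ => 2 * Real.pi * (∫ u, W (u - c) ^ 2 * ‖SS t u‖ ^ 2) -
        ∫ τ in (0 : ℝ)..t, ‖AA W τ c‖ ^ 2) (fun c _ => by rw [Real.norm_eq_abs]; exact hpt c)
    rw [Real.norm_eq_abs, abs_of_nonneg (by linarith : 0 ≤ c2 - c1)] at h
    exact h
  have hd := abs_le.1 hdiff
  have hpi := Real.pi_pos
  have l1 := mul_le_mul_of_nonneg_left hb.1 (by positivity : (0 : ℝ) ≤ 2 * Real.pi)
  have l2 := mul_le_mul_of_nonneg_left hb.2 (by positivity : (0 : ℝ) ≤ 2 * Real.pi)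
  exact ACQS_fin l1 l2 hd.1 hd.2

end Pool.Agent.Lib.MP_2a816b_nt.PV
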