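import Pool.Agent.Lib.MP_2a816b_nt.PV.Defs

/-!
# JOB FFQS (about 200 lines): `QS` and `FF`
-/

open Complex Set Filter Topology MeasureTheory

namespace Pool.Agent.Lib.MP_2a816b_nt.PV

open Pool.Agent.Lib.MP_00e05b_nt Pool.Agent.Lib.MP_00e05b_nt.Mont

private lemma FFQS_Scont (t : ℝ) : Continuous (fun u : ℝ => ‖SS t u‖ ^ 2) := by
  have := continuous_SS t
  fun_prop

private lemma FFQS_Sint (t a b : ℝ) : IntervalIntegrable (fun u : ℝ => ‖SS t u‖ ^ 2) volume a b :=
  (FFQS_Scont t).intervalIntegrable a b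

private lemma FFQS_Sle (t u : ℝ) : ‖SS t u‖ ^ 2 ≤ (∑ γ ∈ ordinates t, (mult γ : ℝ)) ^ 2 :=
  pow_le_pow_left₀ (norm_nonneg _) (SS_bound t u) 2

private lemma FFQS_shift (t p q v : ℝ) : QS t (p + v) (q + v) = ∫ u in p..q, ‖SS t (u + v)‖ ^ 2 := by
  unfold QS
  rw [intervalIntegral.integral_comp_add_right (fun u => ‖SS t u‖ ^ 2) v]

private lemma FFQS_cont (t p q : ℝ) : Continuous (fun v : ℝ => QS t (p + v) (q + v)) := by
  have h : (fun v : ℝ => QS t (p + v) (q + v)) = fun v => ∫ u in p..q, ‖SS t (u + v)‖ ^ 2 := by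
    funext v
    exact FFQS_shift t p q v
  rw [h]
  have hc := continuous_SS t
  apply intervalIntegral.continuous_parametric_intervalIntegral_of_continuous'
  fun_prop

private lemma FFQS_abs (t p q : ℝ) : |QS t p q| ≤ (∑ γ ∈ ordinates t, (mult γ : ℝ)) ^ 2 * |q - p| := by
  unfold QS
  have := intervalIntegral.norm_integral_le_of_norm_le_const (a := p) (b := q)
    (f := fun u => ‖SS t u‖ ^ 2) (C := (∑ γ ∈ ordinates t, (mult γ : ℝ)) ^ 2) (fun u _ => by
      rw [Real.norm_eq_abs, abs_of_nonneg (by positivity)]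
      exact FFQS_Sle t u)
  rwa [Real.norm_eq_abs] at this

private lemma FFQS_nonneg (t : ℝ) {p q : ℝ} (h : p ≤ q) : 0 ≤ QS t p q :=
  intervalIntegral.integral_nonneg h (fun u _ => by positivity)

private lemma FFQS_mono (t : ℝ) {p q p' q' : ℝ} (h1 : p' ≤ p) (h : p ≤ q) (h2 : q ≤ q') :
    QS t p q ≤ QS t p' q' := by
  unfold QS
  exact intervalIntegral.integral_mono_interval h1 h h2 (Eventually.of_forall fun u => by positivity)
    (FFQS_Sint t p' q')

private lemma FFQS_int (t p q : ℝ) : Integrable (fun v : ℝ => Real.exp (-(2 * |v|)) * QS t (p + v) (q + v)) := by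
  have h1 : Integrable (fun v : ℝ => (∑ γ ∈ ordinates t, (mult γ : ℝ)) ^ 2 * |q - p| * Real.exp (-(2 * |v|))) :=
    exp_abs_integrable.const_mul _
  have hc := FFQS_cont t p q
  refine h1.mono' (Continuous.aestronglyMeasurable (by fun_prop)) (Eventually.of_forall fun v => ?_)
  rw [Real.norm_eq_abs, abs_mul, Real.abs_exp, mul_comm]
  have h2 := FFQS_abs t (p + v) (q + v)
  have h3 : q + v - (p + v) = q - p := by ring
  rw [h3] at h2
  exact mul_le_mul_of_nonneg_right h2 (Real.exp_pos _).le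

/-- `FF_eq` and Fubini: `N0 t * ℓ * ∫_x^y FF = ∫ e^(-2|v|) QS t (x ℓ + v) (y ℓ + v) dv`, `ℓ = log t` (`‖SS t u‖ ≤ NN t`, `SS_le`). -/
theorem FF_QS {t : ℝ} (ht : 1 < t) (x y : ℝ) :
    Integrable (fun v : ℝ => Real.exp (-(2 * |v|)) * QS t (x * Real.log t + v) (y * Real.log t + v)) ∧
    N0 t * Real.log t * ∫ α in x..y, FF α t =
      ∫ v : ℝ, Real.exp (-(2 * |v|)) * QS t (x * Real.log t + v) (y * Real.log t + v) := by
  refine ⟨FFQS_int t _ _, ?_⟩
  have hL : 0 < Real.log t := Real.log_pos ht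
  have hN : 0 < N0 t := N0_pos ht
  have hcS := continuous_SS t
  -- the case x ≤ y
  have key : ∀ x y : ℝ, x ≤ y → N0 t * Real.log t * ∫ α in x..y, FF α t =
      ∫ v : ℝ, Real.exp (-(2 * |v|)) * QS t (x * Real.log t + v) (y * Real.log t + v) := by
    intro x y hxy
    have h2 : ∫ α in x..y, FF α t =
        (N0 t)⁻¹ * ∫ α in Ioc x y, ∫ v : ℝ, ‖SS t (α * Real.log t + v)‖ ^ 2 * Real.exp (-(2 * |v|)) := by
      rw [intervalIntegral.integral_of_le hxy, ← integral_const_mul]
      simp only [FF_eq (by linarith : (0 : ℝ) < t)]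
    have hint : Integrable (Function.uncurry fun (α v : ℝ) => ‖SS t (α * Real.log t + v)‖ ^ 2 * Real.exp (-(2 * |v|)))
        ((volume.restrict (Ioc x y)).prod volume) := by
      have h3 : Integrable (fun p : ℝ × ℝ => (fun _ : ℝ => (∑ γ ∈ ordinates t, (mult γ : ℝ)) ^ 2) p.1 *
          (fun u : ℝ => Real.exp (-(2 * |u|))) p.2) ((volume.restrict (Ioc x y)).prod volume) :=
        Integrable.mul_prod (integrable_const _) exp_abs_integrable
      refine Integrable.mono' h3 (Continuous.aestronglyMeasurable (by fun_prop)) (Eventually.of_forall fun p => ?_)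
      simp only [Function.uncurry]
      rw [Real.norm_eq_abs, abs_of_nonneg (by positivity)]
      exact mul_le_mul_of_nonneg_right (FFQS_Sle t _) (Real.exp_pos _).le
    rw [h2, integral_integral_swap hint, ← mul_assoc]
    have h5 : N0 t * Real.log t * (N0 t)⁻¹ = Real.log t := by field_simp
    rw [h5, ← integral_const_mul]
    congr 1
    funext v
    rw [integral_mul_const, ← intervalIntegral.integral_of_le hxy]
    have h6 := intervalIntegral.integral_comp_mul_right (a := x) (b := y) (fun w => ‖SS t (w + v)‖ ^ 2) hL.ne'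
    rw [h6, smul_eq_mul, FFQS_shift]
    field_simp
  rcases le_total x y with h | h
  · exact key x y h
  · have h1 := key y x h
    rw [intervalIntegral.integral_symm, mul_neg, h1, ← integral_neg]
    congr 1
    funext v
    have : QS t (x * Real.log t + v) (y * Real.log t + v) = -QS t (y * Real.log t + v) (x * Real.log t + v) := by
      unfold QS
      exact intervalIntegral.integral_symm _ _
    rw [this]
    ring

private lemma FFQS_expm {m : ℝ} (hm : 0 ≤ m) : ∫ v in (-m)..m, Real.exp (-(2 * |v|)) = 1 - Real.exp (-(2 * m)) := by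
  have hc : Continuous (fun v : ℝ => Real.exp (-(2 * |v|))) := by fun_prop
  rw [← intervalIntegral.integral_add_adjacent_intervals (hc.intervalIntegrable (-m) 0) (hc.intervalIntegrable 0 m)]
  have h1 : ∫ v in (-m)..0, Real.exp (-(2 * |v|)) = ∫ v in (-m)..0, Real.exp (2 * v) := by
    apply intervalIntegral.integral_congr
    intro v hv
    rw [Set.uIcc_of_le (by linarith)] at hv
    simp only
    rw [abs_of_nonpos hv.2]
    congr 1
    ring
  have h2 : ∫ v in (0 : ℝ)..m, Real.exp (-(2 * |v|)) = ∫ v in (0 : ℝ)..m, Real.exp (-2 * v) := by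
    apply intervalIntegral.integral_congr
    intro v hv
    rw [Set.uIcc_of_le hm] at hv
    simp only
    rw [abs_of_nonneg hv.1]
    congr 1
    ring
  rw [h1, h2, intervalIntegral.integral_comp_mul_left (fun u => Real.exp u) (two_ne_zero),
    intervalIntegral.integral_comp_mul_left (fun u => Real.exp u) (by norm_num : (-2 : ℝ) ≠ 0),
    integral_exp, integral_exp, smul_eq_mul, smul_eq_mul, mul_zero, mul_zero, Real.exp_zero]
  have h3 : (2 : ℝ) * -m = -(2 * m) := by ring
  have h4 : (-2 : ℝ) * m = -(2 * m) := by ring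
  rw [h3, h4]
  ring

/-- `FF_QS` restricted to `|v| ≤ m`, with `x ℓ = c1 - m`, `y ℓ = c2 + m`: `[c1, c2] ⊂ [x ℓ + v, y ℓ + v]`;
`∫_{|v| ≤ m} e^(-2|v|) = 1 - e^(-2m)`. -/
theorem QS_le {t : ℝ} (ht : 1 < t) {c1 c2 m : ℝ} (hc : c1 ≤ c2) (hm : 0 ≤ m) :
    (1 - Real.exp (-(2 * m))) * QS t c1 c2 ≤
      N0 t * Real.log t * ∫ α in ((c1 - m) / Real.log t)..((c2 + m) / Real.log t), FF α t := by
  have hL : 0 < Real.log t := Real.log_pos ht
  obtain ⟨hi, he⟩ := FF_QS ht ((c1 - m) / Real.log t) ((c2 + m) / Real.log t)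
  rw [div_mul_cancel₀ _ hL.ne', div_mul_cancel₀ _ hL.ne'] at hi he
  rw [he, ← FFQS_expm hm, ← intervalIntegral.integral_mul_const, intervalIntegral.integral_of_le (by linarith)]
  have h1 : ∫ v in Ioc (-m) m, Real.exp (-(2 * |v|)) * QS t (c1 - m + v) (c2 + m + v) ≤
      ∫ v, Real.exp (-(2 * |v|)) * QS t (c1 - m + v) (c2 + m + v) :=
    setIntegral_le_integral hi (Eventually.of_forall fun v => mul_nonneg (Real.exp_pos _).le
      (FFQS_nonneg t (by linarith)))
  refine le_trans ?_ h1
  refine setIntegral_mono_on ?_ hi.integrableOn measurableSet_Ioc fun v hv => ?_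
  · exact (exp_abs_integrable.mul_const _).integrableOn
  · exact mul_le_mul_of_nonneg_left (FFQS_mono t (by linarith [hv.2]) hc (by linarith [hv.1])) (Real.exp_pos _).le

/-- `FF_QS`: the part `|v| ≤ m` is at most `QS t (x ℓ - m) (y ℓ + m)`; in the part `v > m` put `v = m + v'`:
`≤ e^(-2m) ∫ e^(-2|v'|) QS t (x ℓ + m + v') (y ℓ + m + v') dv' = e^(-2m) N0 ℓ ∫_{x + m/ℓ}^{y + m/ℓ} FF`, similarly `v < -m`. -/
theorem QS_ge {t : ℝ} (ht : 1 < t) {x y m : ℝ} (hxy : x ≤ y) (hm : 0 ≤ m) :
    N0 t * Real.log t * (∫ α in x..y, FF α t) ≤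
      QS t (x * Real.log t - m) (y * Real.log t + m) + Real.exp (-(2 * m)) * (N0 t * Real.log t) *
        ((∫ α in (x + m / Real.log t)..(y + m / Real.log t), FF α t) +
          ∫ α in (x - m / Real.log t)..(y - m / Real.log t), FF α t) := by
  have hL : 0 < Real.log t := Real.log_pos ht
  have hxL : x * Real.log t ≤ y * Real.log t := mul_le_mul_of_nonneg_right hxy hL.le
  obtain ⟨hi0, he0⟩ := FF_QS ht x y
  obtain ⟨hi1, he1⟩ := FF_QS ht (x + m / Real.log t) (y + m / Real.log t)
  obtain ⟨hi2, he2⟩ := FF_QS ht (x - m / Real.log t) (y - m / Real.log t)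
  have e1 : ∀ z : ℝ, (z + m / Real.log t) * Real.log t = z * Real.log t + m := fun z => by
    rw [add_mul, div_mul_cancel₀ _ hL.ne']
  have e2 : ∀ z : ℝ, (z - m / Real.log t) * Real.log t = z * Real.log t - m := fun z => by
    rw [sub_mul, div_mul_cancel₀ _ hL.ne']
  rw [e1, e1] at hi1 he1
  rw [e2, e2] at hi2 he2
  set a := x * Real.log t with ha
  set b := y * Real.log t with hb
  have hE : Real.exp (-(2 * m)) * (N0 t * Real.log t) *
        ((∫ α in (x + m / Real.log t)..(y + m / Real.log t), FF α t) +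
          ∫ α in (x - m / Real.log t)..(y - m / Real.log t), FF α t) =
      Real.exp (-(2 * m)) * ((∫ v : ℝ, Real.exp (-(2 * |v|)) * QS t (a + m + v) (b + m + v)) +
        ∫ v : ℝ, Real.exp (-(2 * |v|)) * QS t (a - m + v) (b - m + v)) := by
    rw [← he1, ← he2]
    ring
  rw [hE, he0]
  have s1 : ∫ v : ℝ, Real.exp (-(2 * |v|)) * QS t (a + m + v) (b + m + v) =
      ∫ v : ℝ, Real.exp (-(2 * |v - m|)) * QS t (a + v) (b + v) := by
    rw [← integral_add_right_eq_self (fun v : ℝ => Real.exp (-(2 * |v - m|)) * QS t (a + v) (b + v)) m]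
    congr 1
    funext v
    rw [add_sub_cancel_right]
    congr 2 <;> ring
  have s2 : ∫ v : ℝ, Real.exp (-(2 * |v|)) * QS t (a - m + v) (b - m + v) =
      ∫ v : ℝ, Real.exp (-(2 * |v + m|)) * QS t (a + v) (b + v) := by
    rw [← integral_sub_right_eq_self (fun v : ℝ => Real.exp (-(2 * |v + m|)) * QS t (a + v) (b + v)) m]
    congr 1
    funext v
    rw [sub_add_cancel]
    congr 2 <;> ring
  have i1 : Integrable (fun v : ℝ => Real.exp (-(2 * |v - m|)) * QS t (a + v) (b + v)) := by
    refine (hi1.comp_sub_right m).congr (Eventually.of_forall fun v => ?_)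
    simp only
    congr 2 <;> ring
  have i2 : Integrable (fun v : ℝ => Real.exp (-(2 * |v + m|)) * QS t (a + v) (b + v)) := by
    refine (hi2.comp_add_right m).congr (Eventually.of_forall fun v => ?_)
    simp only
    congr 2 <;> ring
  rw [s1, s2]
  have hone : ∫ v : ℝ, Real.exp (-(2 * |v|)) = 1 := by
    have h := integral_comp_abs (f := fun v : ℝ => Real.exp (-2 * v))
    have h' : ∫ v : ℝ, Real.exp (-(2 * |v|)) = ∫ v : ℝ, Real.exp (-2 * |v|) := by
      congr 1
      funext v
      congr 1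
      ring
    rw [h', h, integral_exp_mul_Ioi (by norm_num) 0, mul_zero, Real.exp_zero]
    norm_num
  have hQ : ∫ v : ℝ, Real.exp (-(2 * |v|)) * QS t (a - m) (b + m) = QS t (a - m) (b + m) := by
    rw [integral_mul_const, hone, one_mul]
  have i3 : Integrable (fun v : ℝ => Real.exp (-(2 * |v|)) * QS t (a - m) (b + m)) :=
    exp_abs_integrable.mul_const _
  have i4 : Integrable (fun v : ℝ => Real.exp (-(2 * m)) * (Real.exp (-(2 * |v - m|)) * QS t (a + v) (b + v) +
      Real.exp (-(2 * |v + m|)) * QS t (a + v) (b + v))) := (i1.add i2).const_mul _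
  rw [← hQ, ← integral_add i1 i2, ← integral_const_mul, ← integral_add i3 i4]
  refine integral_mono hi0 (i3.add i4) fun v => ?_
  have hJ : 0 ≤ QS t (a + v) (b + v) := FFQS_nonneg t (by linarith)
  have hQ0 : 0 ≤ QS t (a - m) (b + m) := FFQS_nonneg t (by linarith)
  simp only
  have p0 := mul_nonneg (Real.exp_pos (-(2 * |v|))).le hQ0
  have p1 := mul_nonneg (Real.exp_pos (-(2 * |v - m|))).le hJ
  have p2 := mul_nonneg (Real.exp_pos (-(2 * |v + m|))).le hJ
  have pm := (Real.exp_pos (-(2 * m))).le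
  by_cases hv : |v| ≤ m
  · have hv' := abs_le.mp hv
    have h1 : Real.exp (-(2 * |v|)) * QS t (a + v) (b + v) ≤ Real.exp (-(2 * |v|)) * QS t (a - m) (b + m) :=
      mul_le_mul_of_nonneg_left (FFQS_mono t (by linarith [hv'.1]) (by linarith) (by linarith [hv'.2]))
        (Real.exp_pos _).le
    have h2 := mul_nonneg pm (add_nonneg p1 p2)
    linarith
  · rw [not_le] at hv
    rcases le_total 0 v with h0 | h0
    · rw [abs_of_nonneg h0] at hv
      have h1 : Real.exp (-(2 * |v|)) = Real.exp (-(2 * m)) * Real.exp (-(2 * |v - m|)) := by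
        rw [← Real.exp_add, abs_of_nonneg h0, abs_of_nonneg (by linarith : 0 ≤ v - m)]
        congr 1
        ring
      have h2 : Real.exp (-(2 * |v|)) * QS t (a + v) (b + v) =
          Real.exp (-(2 * m)) * (Real.exp (-(2 * |v - m|)) * QS t (a + v) (b + v)) := by
        rw [h1]
        ring
      have h3 := mul_nonneg pm p2
      nlinarith [h3, p0, h2]
    · rw [abs_of_nonpos h0] at hv
      have h1 : Real.exp (-(2 * |v|)) = Real.exp (-(2 * m)) * Real.exp (-(2 * |v + m|)) := by
        rw [← Real.exp_add, abs_of_nonpos h0, abs_of_nonpos (by linarith : v + m ≤ 0)]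
        congr 1
        ring
      have h2 : Real.exp (-(2 * |v|)) * QS t (a + v) (b + v) =
          Real.exp (-(2 * m)) * (Real.exp (-(2 * |v + m|)) * QS t (a + v) (b + v)) := by
        rw [h1]
        ring
      have h3 := mul_nonneg pm p1
      nlinarith [h3, p0, h2]

end Pool.Agent.Lib.MP_2a816b_nt.PV
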