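import Pool.Agent.Lib.MP_2a816b_nt.PV.Defs

/-!
# JOB MassBd (about 150 lines): `∫ FF` over any interval
-/

open Complex Set Filter Topology MeasureTheory

namespace Pool.Agent.Lib.MP_2a816b_nt.PV

open Pool.Agent.Lib.MP_00e05b_nt Pool.Agent.Lib.MP_00e05b_nt.Mont

/-- the inner integral as a window -/
theorem MassBd_inner (t b q : ℝ) :
    ∫ b' in q..(q + 1), FF (b - b') t = ∫ x in (b - (q + 1))..(b - q), FF x t :=
  intervalIntegral.integral_comp_sub_left (fun x => FF x t) b

theorem MassBd_cont {t : ℝ} (ht : 1 < t) (q : ℝ) :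
    Continuous fun b : ℝ => ∫ b' in q..(q + 1), FF (b - b') t := by
  have hc := FF_continuous (T := t) (by linarith)
  exact intervalIntegral.continuous_parametric_intervalIntegral_of_continuous'
    (f := fun b b' => FF (b - b') t) (by fun_prop) q (q + 1)

theorem MassBd_mono {t : ℝ} (ht : 1 < t) {a b c d : ℝ} (h1 : c ≤ a) (_h2 : a ≤ b) (h3 : b ≤ d) :
    ∫ x in a..b, FF x t ≤ ∫ x in c..d, FF x t := by
  have hc := FF_continuous (T := t) (by linarith)
  have i : ∀ a b, IntervalIntegrable (fun α => FF α t) volume a b :=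
    fun a b => hc.intervalIntegrable a b
  have s1 := intervalIntegral.integral_add_adjacent_intervals (i c a) (i a b)
  have s2 := intervalIntegral.integral_add_adjacent_intervals (i c b) (i b d)
  have s3 : 0 ≤ ∫ α in c..a, FF α t :=
    intervalIntegral.integral_nonneg h1 fun α _ => FF_nonneg ht α
  have s4 : 0 ≤ ∫ α in b..d, FF α t :=
    intervalIntegral.integral_nonneg h3 fun α _ => FF_nonneg ht α
  linarith

theorem MassBd_nonneg {t : ℝ} (ht : 1 < t) (p q : ℝ) :
    0 ≤ ∫ b in p..(p + 1), ∫ b' in q..(q + 1), FF (b - b') t :=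
  intervalIntegral.integral_nonneg (by linarith) fun _ _ =>
    intervalIntegral.integral_nonneg (by linarith) fun _ _ => FF_nonneg ht _

theorem MassBd_up {t : ℝ} (ht : 1 < t) (p : ℝ) :
    ∫ b in p..(p + 1), ∫ b' in p..(p + 1), FF (b - b') t ≤ ∫ x in (-1 : ℝ)..1, FF x t := by
  have h1 : ∫ _ in p..(p + 1), (∫ x in (-1 : ℝ)..1, FF x t) = ∫ x in (-1 : ℝ)..1, FF x t := by
    rw [intervalIntegral.integral_const, smul_eq_mul]
    ring
  rw [← h1]
  refine intervalIntegral.integral_mono_on (by linarith) ((MassBd_cont ht p).intervalIntegrable _ _)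
    intervalIntegrable_const fun b hb => ?_
  rw [MassBd_inner]
  exact MassBd_mono ht (by linarith [hb.1]) (by linarith) (by linarith [hb.2])

theorem MassBd_low {t : ℝ} (ht : 1 < t) (p q : ℝ) :
    (1 / 2) * ∫ x in (p - q - 1 / 4)..(p - q + 1 / 4), FF x t ≤
      ∫ b in p..(p + 1), ∫ b' in q..(q + 1), FF (b - b') t := by
  have hc := MassBd_cont ht q
  have i : ∀ a b, IntervalIntegrable (fun b : ℝ => ∫ b' in q..(q + 1), FF (b - b') t) volume a b :=
    fun a b => hc.intervalIntegrable a b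
  have hn : ∀ b : ℝ, 0 ≤ ∫ b' in q..(q + 1), FF (b - b') t := fun b =>
    intervalIntegral.integral_nonneg (by linarith) fun _ _ => FF_nonneg ht _
  have s1 := intervalIntegral.integral_add_adjacent_intervals (i p (p + 1 / 4))
    (i (p + 1 / 4) (p + 3 / 4))
  have s2 := intervalIntegral.integral_add_adjacent_intervals (i p (p + 3 / 4))
    (i (p + 3 / 4) (p + 1))
  have s3 : 0 ≤ ∫ b in p..(p + 1 / 4), ∫ b' in q..(q + 1), FF (b - b') t :=
    intervalIntegral.integral_nonneg (by linarith) fun b _ => hn b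
  have s4 : 0 ≤ ∫ b in (p + 3 / 4)..(p + 1), ∫ b' in q..(q + 1), FF (b - b') t :=
    intervalIntegral.integral_nonneg (by linarith) fun b _ => hn b
  have h1 : ∫ _ in (p + 1 / 4)..(p + 3 / 4), (∫ x in (p - q - 1 / 4)..(p - q + 1 / 4), FF x t) =
      (1 / 2) * ∫ x in (p - q - 1 / 4)..(p - q + 1 / 4), FF x t := by
    rw [intervalIntegral.integral_const, smul_eq_mul]
    ring
  have h2 : (1 / 2) * ∫ x in (p - q - 1 / 4)..(p - q + 1 / 4), FF x t ≤
      ∫ b in (p + 1 / 4)..(p + 3 / 4), ∫ b' in q..(q + 1), FF (b - b') t := by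
    rw [← h1]
    refine intervalIntegral.integral_mono_on (by linarith) intervalIntegrable_const (i _ _)
      fun b hb => ?_
    rw [MassBd_inner]
    exact MassBd_mono ht (by linarith [hb.2]) (by linarith) (by linarith [hb.1])
  linarith

/-- every interval of length `1/2` -/
theorem MassBd_half {t : ℝ} (ht : 1 < t) (z : ℝ) :
    ∫ x in (z - 1 / 4)..(z + 1 / 4), FF x t ≤ 4 * ∫ x in (-1 : ℝ)..1, FF x t := by
  have h := posdef ht (n := 2) ![1, -1] ![0, -z] ![0 + 1, -z + 1]
  simp only [Fin.sum_univ_two, Matrix.cons_val_zero, Matrix.cons_val_one] at h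
  have h1 := MassBd_up ht 0
  have h2 := MassBd_up ht (-z)
  have h3 := MassBd_low ht 0 (-z)
  have h4 := MassBd_nonneg ht (-z) 0
  rw [sub_neg_eq_add] at h3
  simp only [zero_add, one_mul, mul_one, neg_mul, mul_neg, neg_neg] at h h1 h3 h4
  linarith

theorem MassBd_cover {t B : ℝ} (ht : 1 < t) (hB : ∀ z : ℝ, ∫ x in (z - 1 / 4)..(z + 1 / 4), FF x t ≤ B)
    (hB0 : 0 ≤ B) (n : ℕ) : ∀ x y : ℝ, x ≤ y → y - x ≤ n / 2 → ∫ α in x..y, FF α t ≤ B * n := by
  have hB' : ∀ x : ℝ, ∫ α in x..(x + 1 / 2), FF α t ≤ B := by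
    intro x
    have h := hB (x + 1 / 4)
    have e1 : x + 1 / 4 - 1 / 4 = x := by ring
    have e2 : x + 1 / 4 + 1 / 4 = x + 1 / 2 := by ring
    rwa [e1, e2] at h
  induction n with
  | zero =>
    intro x y hxy h
    have : x = y := by
      push_cast at h
      linarith
    rw [this]
    simp
  | succ n ih =>
    intro x y hxy h
    push_cast at h ⊢
    have hn : (0 : ℝ) ≤ n := Nat.cast_nonneg n
    rcases le_total y (x + 1 / 2) with h1 | h1
    · have h2 := MassBd_mono ht le_rfl hxy h1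
      have h3 := hB' x
      nlinarith
    · have hc := FF_continuous (T := t) (by linarith)
      have i : ∀ a b, IntervalIntegrable (fun α => FF α t) volume a b :=
        fun a b => hc.intervalIntegrable a b
      have s1 := intervalIntegral.integral_add_adjacent_intervals (i x (x + 1 / 2))
        (i (x + 1 / 2) y)
      have h2 := ih (x + 1 / 2) y h1 (by linarith)
      have h3 := hB' x
      linarith

/-- `posdef` (MP_00e05b_nt/Mont/PD.lean) with `n = 2`, `c = (1, -1)` and the intervals `[0, 1]`, `[y, y + 1]`. With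
`J z = ∫_{b ∈ [0,1]} ∫_{b' ∈ [z, z + 1]} FF (b - b') = ∫ FF x * max (1 - |x - z|) 0 dx` (`FF_even`) it says `2 J 0 - 2 J y ≥ 0`.
`J 0 → 1 + 1/3` by `base_sym` (BaseF.lean) with `r x = max (1 - |x|) 0`. So `J y ≤ 3/2` for `t` large and all `y`, and
`max (1 - |x - y|) 0 ≥ 1/2` for `|x - y| ≤ 1/2` gives `∫_{y - 1/2}^{y + 1/2} FF ≤ 3`. Cover `[x, y]` by at most `y - x + 1` unit
intervals. -/
theorem mass_bd (hRH : RiemannHypothesis) :
    ∃ C : ℝ, 0 ≤ C ∧ ∀ᶠ t : ℝ in atTop, ∀ x y : ℝ, x ≤ y → ∫ α in x..y, FF α t ≤ C * (y - x + 1) := by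
  refine ⟨24, by norm_num, ?_⟩
  have h1 := FF_mass hRH one_pos le_rfl
  have h2 : (1 : ℝ) + 1 ^ 2 < 3 := by norm_num
  filter_upwards [eventually_gt_atTop 1, h1.eventually_lt_const h2] with t ht h3 x y hxy
  have h4 : ∀ z : ℝ, ∫ x in (z - 1 / 4)..(z + 1 / 4), FF x t ≤ 12 := by
    intro z
    have := MassBd_half ht z
    linarith
  have h5 := MassBd_cover ht h4 (by norm_num) ⌈2 * (y - x)⌉₊ x y hxy (by
    have := Nat.le_ceil (2 * (y - x))
    linarith)
  have h6 : (⌈2 * (y - x)⌉₊ : ℝ) < 2 * (y - x) + 1 := Nat.ceil_lt_add_one (by linarith)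
  linarith

end Pool.Agent.Lib.MP_2a816b_nt.PV
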