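import Pool.Agent.Lib.MP_2a816b_nt.PV.AAbd
import Pool.Agent.Lib.MP_2a816b_nt.PV.ACQS
import Pool.Agent.Lib.MP_2a816b_nt.PV.FFQS
import Pool.Agent.Lib.MP_2a816b_nt.PV.MassBd

/-!
# JOB MBd (about 200 lines): domination
-/

open Complex Set Filter Topology MeasureTheory

namespace Pool.Agent.Lib.MP_2a816b_nt.PV

open Pool.Agent.Lib.MP_00e05b_nt Pool.Agent.Lib.MP_00e05b_nt.Mont

private lemma MBd_log_le : ∀ᶠ T : ℝ in atTop, Real.log T ≤ √√T := by
  have h := (isLittleO_log_rpow_atTop (show (0 : ℝ) < 1 / 4 by norm_num)).bound (zero_lt_one)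
  filter_upwards [h, eventually_ge_atTop (1 : ℝ)] with T hT hT1
  have h1 : √√T = T ^ (1 / 4 : ℝ) := by
    rw [Real.sqrt_eq_rpow, Real.sqrt_eq_rpow, ← Real.rpow_mul (by linarith)]
    norm_num
  rw [h1]
  rw [one_mul, Real.norm_eq_abs, Real.norm_eq_abs, abs_of_nonneg (Real.rpow_nonneg (by linarith) _)] at hT
  exact (le_abs_self _).trans hT

/-- the bound of `AC` by the mass of `FF` for large `t` -/
private lemma MBd_large (hRH : RiemannHypothesis) {W : ℝ → ℝ} (hW : EB W (1 / 8)) :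
    ∃ C1 C2 t1 : ℝ, 0 ≤ C1 ∧ 0 ≤ C2 ∧ 2 ≤ t1 ∧ ∀ t : ℝ, t1 ≤ t → ∀ c1 c2 : ℝ, c1 ≤ c2 →
      AC W c1 c2 t ≤ C2 * (t * Real.log t * (c2 - c1 + 5 / 4 + Real.log t)) + C1 * (c2 - c1) * Real.log t ^ 3 := by
  obtain ⟨C1, hC1, h1⟩ := AC_QS hRH hW
  obtain ⟨C2, hC2, h2⟩ := mass_bd hRH
  obtain ⟨t0, ht0⟩ := eventually_atTop.1 h2
  have hII : 0 ≤ II W := integral_nonneg (fun u => sq_nonneg _)
  refine ⟨C1, 2 * II W * C2, max t0 2, hC1, by positivity, le_max_right _ _, ?_⟩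
  intro t ht c1 c2 hc
  have ht2 : 2 ≤ t := (le_max_right _ _).trans ht
  have htt : t0 ≤ t := (le_max_left _ _).trans ht
  have hl : 0 < Real.log t := Real.log_pos (by linarith)
  have hN : 0 < N0 t := N0_pos (by linarith)
  have hA := (h1 t ht2 c1 c2 hc).2
  have hQ := QS_le (t := t) (by linarith) (c1 := c1 - 1 / 8) (c2 := c2 + 1 / 8) (m := 1 / 2) (by linarith) (by norm_num)
  have hM := ht0 t htt ((c1 - 1 / 8 - 1 / 2) / Real.log t) ((c2 + 1 / 8 + 1 / 2) / Real.log t)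
    (by
      apply div_le_div_of_nonneg_right _ hl.le
      linarith)
  have hQ0 : 0 ≤ QS t (c1 - 1 / 8) (c2 + 1 / 8) := by
    unfold QS
    exact intervalIntegral.integral_nonneg (by linarith) (fun u _ => sq_nonneg _)
  have he : Real.exp (-(2 * (1 / 2))) ≤ 1 / 2 := by
    have h3 : (2 : ℝ) ≤ Real.exp 1 := by
      have := Real.add_one_le_exp (1 : ℝ)
      linarith
    have h4 : Real.exp (-(2 * (1 / 2))) = (Real.exp 1)⁻¹ := by
      rw [← Real.exp_neg]
      norm_num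
    rw [h4, one_div]
    exact inv_anti₀ (by norm_num) h3
  have hQ1 : QS t (c1 - 1 / 8) (c2 + 1 / 8) ≤
      2 * (N0 t * Real.log t * (C2 * ((c2 + 1 / 8 + 1 / 2) / Real.log t - (c1 - 1 / 8 - 1 / 2) / Real.log t + 1))) := by
    have h5 : 1 / 2 * QS t (c1 - 1 / 8) (c2 + 1 / 8) ≤
        (1 - Real.exp (-(2 * (1 / 2)))) * QS t (c1 - 1 / 8) (c2 + 1 / 8) :=
      mul_le_mul_of_nonneg_right (by linarith) hQ0
    have h6 := mul_le_mul_of_nonneg_left hM (by positivity : 0 ≤ N0 t * Real.log t)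
    linarith
  have hN1 : N0 t = t / (2 * Real.pi) * Real.log t := rfl
  have hpi := Real.pi_pos
  have h7 : 2 * Real.pi * II W *
      (2 * (N0 t * Real.log t * (C2 * ((c2 + 1 / 8 + 1 / 2) / Real.log t - (c1 - 1 / 8 - 1 / 2) / Real.log t + 1)))) =
      2 * II W * C2 * (t * Real.log t * (c2 - c1 + 5 / 4 + Real.log t)) := by
    rw [hN1]
    field_simp
    ring
  have h8 := mul_le_mul_of_nonneg_left hQ1 (by positivity : 0 ≤ 2 * Real.pi * II W)
  rw [h7] at h8
  linarith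

/-- `1 + log⁺ w`: its square is at most `16 √w` for `w ≥ 1` -/
private lemma MBd_mu {w : ℝ} (hw : 1 ≤ w) : 1 + Real.log w ≤ 4 * √√w := by
  have h0 : 0 < √√w := Real.sqrt_pos.2 (Real.sqrt_pos.2 (by linarith))
  have h1 : w = (√√w) ^ 4 := by
    have h2 : (√√w) ^ 2 = √w := Real.sq_sqrt (Real.sqrt_nonneg _)
    have h3 : (√w) ^ 2 = w := Real.sq_sqrt (by linarith)
    calc w = ((√√w) ^ 2) ^ 2 := by rw [h2, h3]
      _ = _ := by ring
  have h2 : Real.log w = 4 * Real.log (√√w) := by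
    conv_lhs => rw [h1]
    rw [Real.log_pow]
    norm_num
  have h3 := Real.log_le_sub_one_of_pos h0
  rw [h2]
  linarith

/-- the two elementary inequalities -/
private lemma MBd_elem {w T L : ℝ} (hw : 0 < w) (hT : 1 ≤ T) (hL1 : 1 ≤ L) (hLT : L ≤ √√T) (hwT : 1 ≤ w * √T) :
    ∃ μ : ℝ, 1 ≤ μ ∧ Real.log w ≤ μ - 1 ∧ w * μ ^ 2 ≤ 16 * (√w + w * √w) ∧
      L ^ 2 * μ ^ 3 ≤ 64 * (T * (√w + w * √w)) := by
  have hs0 : 0 ≤ √w := Real.sqrt_nonneg w
  have hq0 : 0 ≤ √√T := Real.sqrt_nonneg _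
  have hq2 : (√√T) ^ 2 = √T := Real.sq_sqrt (Real.sqrt_nonneg _)
  have hT2 : (√T) ^ 2 = T := Real.sq_sqrt (by linarith)
  have hq1 : 1 ≤ √√T := by
    rw [Real.one_le_sqrt, Real.one_le_sqrt]
    exact hT
  have hL2 : L ^ 2 ≤ √T := by
    rw [← hq2]
    exact pow_le_pow_left₀ (by linarith) hLT 2
  have hsT : 1 ≤ √T := by
    rw [Real.one_le_sqrt]
    exact hT
  have hss : √w * √w = w := Real.mul_self_sqrt hw.le
  rcases le_total w 1 with h | h
  · refine ⟨1, le_refl _, ?_, ?_, ?_⟩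
    · have := Real.log_nonpos hw.le h
      linarith
    · have h1 : w ≤ √w := by
        have h2 : √w ≤ 1 := Real.sqrt_le_one.mpr h
        nlinarith
      have h3 : 0 ≤ w * √w := by positivity
      nlinarith
    · have h1 : 1 ≤ √w * √√T := by
        rw [← Real.sqrt_mul hw.le, Real.one_le_sqrt]
        exact hwT
      have h2 : √T ≤ T * √w := by
        have h3 : √T * 1 ≤ √T * (√w * √√T) := mul_le_mul_of_nonneg_left h1 (by positivity)
        have h4 : √√T ≤ √T := by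
          have h40 : √√T ≤ (√√T) ^ 2 := by nlinarith
          linarith
        have h5 : √T * (√w * √√T) ≤ √T * (√w * √T) := by
          apply mul_le_mul_of_nonneg_left _ (by positivity)
          exact mul_le_mul_of_nonneg_left h4 hs0
        have h6 : √T * (√w * √T) = T * √w := by
          calc √T * (√w * √T) = (√T) ^ 2 * √w := by ring
            _ = T * √w := by rw [hT2]
        linarith
      have h7 : 0 ≤ T * (w * √w) := by positivity
      nlinarith
  · have hμ := MBd_mu h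
    have hlog : 0 ≤ Real.log w := Real.log_nonneg h
    have hr0 : 0 ≤ √√w := Real.sqrt_nonneg _
    have hr2 : (√√w) ^ 2 = √w := Real.sq_sqrt (Real.sqrt_nonneg _)
    have hr1 : 1 ≤ √√w := by
      rw [Real.one_le_sqrt, Real.one_le_sqrt]
      exact h
    have hs1 : 1 ≤ √w := by
      rw [Real.one_le_sqrt]
      exact h
    refine ⟨1 + Real.log w, by linarith, by linarith, ?_, ?_⟩
    · have h1 : (1 + Real.log w) ^ 2 ≤ 16 * √w := by
        have h2 : (1 + Real.log w) ^ 2 ≤ (4 * √√w) ^ 2 := pow_le_pow_left₀ (by linarith) hμ 2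
        have h3 : (4 * √√w) ^ 2 = 16 * √w := by
          rw [mul_pow, hr2]
          norm_num
        linarith
      have h4 : w * (1 + Real.log w) ^ 2 ≤ w * (16 * √w) := mul_le_mul_of_nonneg_left h1 hw.le
      nlinarith
    · have h1 : (1 + Real.log w) ^ 3 ≤ 64 * (w * √w) := by
        have h2 : (1 + Real.log w) ^ 3 ≤ (4 * √√w) ^ 3 := pow_le_pow_left₀ (by linarith) hμ 3
        have h3 : (4 * √√w) ^ 3 = 64 * (√w * √√w) := by
          calc (4 * √√w) ^ 3 = 64 * ((√√w) ^ 2 * √√w) := by ring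
            _ = _ := by rw [hr2]
        have h4 : √√w ≤ √w := by
          have h40 : √√w ≤ (√√w) ^ 2 := by nlinarith
          linarith
        have h5 : √w * √√w ≤ √w * √w := mul_le_mul_of_nonneg_left h4 hs0
        have h6 : w ≤ w * √w := by nlinarith
        linarith
      have h2 : √T ≤ T := by
        nlinarith
      have h3 : 0 ≤ (1 + Real.log w) ^ 3 := by positivity
      have h4 : L ^ 2 * (1 + Real.log w) ^ 3 ≤ T * (64 * (w * √w)) :=
        mul_le_mul (hL2.trans h2) h1 h3 (by linarith)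
      have h5 : 0 ≤ T * √w := by positivity
      nlinarith

/-- `t = w T`, `ℓ = log t`, `Λ = log⁺ w`. Case `w < T^(-1/2)`: `AC_le`, `AC ≤ C B L w T log² (2 + T^(1/2)) ≤ C' B L³ w T` and
`w = √w √w ≤ √w T^(-1/4)`, `L T^(-1/4) ≤ 1`. Case `w ≥ T^(-1/2)`: `t ≥ T^(1/2)` is large, so `AC_QS`, `QS_le` with `m = 1/2`
and `mass_bd`: `AC ≤ C N0 t ℓ ((c2 - c1 + 2)/ℓ + 1) + C (c2 - c1) ℓ³ ≤ C' t ℓ (B L + ℓ + 2) + C B L ℓ³` with `L/2 ≤ ℓ ≤ L + Λ`, so
`≤ C'' w T L² (1 + Λ)² + C'' L⁴ (1 + Λ)³`; `w (1 + Λ)² ≤ C (√w + w √w)`, and `L⁴ (1 + Λ)³ ≤ T L² (√w + w √w)` for `T` large because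
`√w ≥ T^(-1/4)` and `(1 + Λ)³ ≤ C (1 + w √w)`. -/
theorem AC_dom (hRH : RiemannHypothesis) {W : ℝ → ℝ} (hW : EB W (1 / 8)) {B : ℝ} (hB : 0 ≤ B) :
    ∃ C : ℝ, 0 ≤ C ∧ ∀ᶠ T : ℝ in atTop, ∀ c1 c2 w : ℝ, c1 ≤ c2 → c2 - c1 ≤ B * Real.log T → 0 < w →
      AC W c1 c2 (w * T) ≤ C * (T * Real.log T ^ 2) * (√w + w * √w) := by
  obtain ⟨C0, hC0, h0⟩ := AC_le hRH hW.es (by norm_num)
  obtain ⟨C1, C2, t1, hC1, hC2, ht1, h1⟩ := MBd_large hRH hW
  refine ⟨C0 * B + 16 * C2 * (B + 9 / 4) + 64 * C1 * B, by positivity, ?_⟩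
  filter_upwards [MBd_log_le, eventually_ge_atTop (4 : ℝ), eventually_ge_atTop (t1 ^ 2),
    eventually_ge_atTop (Real.exp 1)] with T hLT hT4 hTt hTe
  intro c1 c2 w hc hcB hw
  have hT0 : 0 < T := by linarith
  have hL1 : 1 ≤ Real.log T := by
    rw [Real.le_log_iff_exp_le hT0]
    exact hTe
  set L : ℝ := Real.log T with hL
  have hL0 : 0 < L := by linarith
  have hs0 : 0 ≤ √w := Real.sqrt_nonneg w
  have hss : √w * √w = w := Real.mul_self_sqrt hw.le
  have hTT : √T * √T = T := Real.mul_self_sqrt hT0.le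
  have hsT2 : 2 ≤ √T := by
    apply Real.le_sqrt_of_sq_le
    linarith
  have hcc : 0 ≤ c2 - c1 := by linarith
  have hwT0 : 0 < w * T := by positivity
  have hS0 : 0 ≤ √w + w * √w := by positivity
  rcases lt_or_ge (w * √T) 1 with h | h
  · -- small `w`
    have hA := h0 c1 c2 (w * T) hc hwT0.le
    have h2 : w * T ≤ √T := by
      calc w * T = (w * √T) * √T := by rw [mul_assoc, hTT]
        _ ≤ 1 * √T := mul_le_mul_of_nonneg_right h.le (by positivity)
        _ = √T := one_mul _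
    have h3 : Real.log (2 + w * T) ≤ L := by
      apply Real.log_le_log (by positivity)
      nlinarith
    have h30 : 0 ≤ Real.log (2 + w * T) := Real.log_nonneg (by linarith)
    have h4 : Real.log (2 + w * T) ^ 2 ≤ L ^ 2 := pow_le_pow_left₀ h30 h3 2
    have h5 : C0 * (c2 - c1) * (w * T * Real.log (2 + w * T) ^ 2) ≤ C0 * (B * L) * (w * T * L ^ 2) := by
      apply mul_le_mul
      · exact mul_le_mul_of_nonneg_left hcB hC0
      · exact mul_le_mul_of_nonneg_left h4 hwT0.le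
      · positivity
      · positivity
    have h6 : L * √w ≤ 1 := by
      calc L * √w ≤ √√T * √w := mul_le_mul_of_nonneg_right hLT hs0
        _ = √(√T * w) := by rw [Real.sqrt_mul (Real.sqrt_nonneg _)]
        _ ≤ 1 := by
            apply Real.sqrt_le_one.mpr
            linarith
    have h7 : L * w ≤ √w := by
      calc L * w = (L * √w) * √w := by rw [mul_assoc, hss]
        _ ≤ 1 * √w := mul_le_mul_of_nonneg_right h6 hs0
        _ = √w := one_mul _
    have h8 : C0 * (B * L) * (w * T * L ^ 2) = C0 * B * (T * L ^ 2) * (L * w) := by ring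
    have h9 : C0 * B * (T * L ^ 2) * (L * w) ≤ C0 * B * (T * L ^ 2) * (√w + w * √w) := by
      apply mul_le_mul_of_nonneg_left _ (by positivity)
      have : 0 ≤ w * √w := by positivity
      linarith
    have h10 : C0 * B * (T * L ^ 2) * (√w + w * √w) ≤
        (C0 * B + 16 * C2 * (B + 9 / 4) + 64 * C1 * B) * (T * L ^ 2) * (√w + w * √w) := by
      apply mul_le_mul_of_nonneg_right _ hS0
      apply mul_le_mul_of_nonneg_right _ (by positivity)
      have : 0 ≤ 16 * C2 * (B + 9 / 4) + 64 * C1 * B := by positivity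
      linarith
    linarith
  · -- large `w`
    obtain ⟨μ, hμ1, hμw, hμ2, hμ3⟩ := MBd_elem hw (by linarith : (1 : ℝ) ≤ T) hL1 hLT h
    have h2 : √T ≤ w * T := by
      calc √T = 1 * √T := (one_mul _).symm
        _ ≤ (w * √T) * √T := mul_le_mul_of_nonneg_right h (by positivity)
        _ = w * T := by rw [mul_assoc, hTT]
    have h3 : t1 ≤ w * T := by
      refine le_trans ?_ h2
      exact Real.le_sqrt_of_sq_le hTt
    have hA := h1 (w * T) h3 c1 c2 hc
    have hl : Real.log (w * T) = Real.log w + L := Real.log_mul hw.ne' hT0.ne'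
    have hl0 : 0 ≤ Real.log (w * T) := Real.log_nonneg (by linarith)
    have hl1 : Real.log (w * T) ≤ L * μ := by
      rw [hl]
      nlinarith
    set ℓ : ℝ := Real.log (w * T) with hℓ
    have hμ0 : 0 ≤ μ := by linarith
    have h4 : c2 - c1 + 5 / 4 + ℓ ≤ (B + 9 / 4) * (L * μ) := by
      have h5 : B * L ≤ B * (L * μ) := by
        apply mul_le_mul_of_nonneg_left _ hB
        nlinarith
      have h6 : 5 / 4 ≤ 5 / 4 * (L * μ) := by nlinarith
      nlinarith
    have h5 : w * T * ℓ * (c2 - c1 + 5 / 4 + ℓ) ≤ w * T * (L * μ) * ((B + 9 / 4) * (L * μ)) := by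
      apply mul_le_mul
      · exact mul_le_mul_of_nonneg_left hl1 hwT0.le
      · exact h4
      · linarith
      · positivity
    have h6 : w * T * (L * μ) * ((B + 9 / 4) * (L * μ)) = (B + 9 / 4) * (T * L ^ 2) * (w * μ ^ 2) := by ring
    have h7 : (B + 9 / 4) * (T * L ^ 2) * (w * μ ^ 2) ≤ (B + 9 / 4) * (T * L ^ 2) * (16 * (√w + w * √w)) :=
      mul_le_mul_of_nonneg_left hμ2 (by positivity)
    have h8 : C2 * (w * T * ℓ * (c2 - c1 + 5 / 4 + ℓ)) ≤ C2 * ((B + 9 / 4) * (T * L ^ 2) * (16 * (√w + w * √w))) := by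
      apply mul_le_mul_of_nonneg_left _ hC2
      linarith
    have h9 : C1 * (c2 - c1) * ℓ ^ 3 ≤ C1 * (B * L) * (L * μ) ^ 3 := by
      apply mul_le_mul
      · exact mul_le_mul_of_nonneg_left hcB hC1
      · exact pow_le_pow_left₀ hl0 hl1 3
      · positivity
      · positivity
    have h10 : C1 * (B * L) * (L * μ) ^ 3 = C1 * B * L ^ 2 * (L ^ 2 * μ ^ 3) := by ring
    have h11 : C1 * B * L ^ 2 * (L ^ 2 * μ ^ 3) ≤ C1 * B * L ^ 2 * (64 * (T * (√w + w * √w))) :=
      mul_le_mul_of_nonneg_left hμ3 (by positivity)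
    have h12 : 0 ≤ C0 * B * (T * L ^ 2) * (√w + w * √w) := by positivity
    have h13 : (C0 * B + 16 * C2 * (B + 9 / 4) + 64 * C1 * B) * (T * L ^ 2) * (√w + w * √w) =
        C0 * B * (T * L ^ 2) * (√w + w * √w) + C2 * ((B + 9 / 4) * (T * L ^ 2) * (16 * (√w + w * √w))) +
          C1 * B * L ^ 2 * (64 * (T * (√w + w * √w))) := by ring
    rw [h13]
    linarith

end Pool.Agent.Lib.MP_2a816b_nt.PV
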