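import Pool.Agent.Lib.MP_2a816b_nt.PV.Defs

/-!
# JOB PlanchB (about 120 lines): Plancherel for bounded functions of compact support

Model: `Pool/Agent/Lib/MP_40a0b6_an/S_Planch.lean` (the lemma `s_Planch_ae`: for `u ∈ L¹ ∩ L²` the integral formula represents the
`L²` Fourier transform almost everywhere; copy its proof), Mathlib's Plancherel on `Lp ℂ 2` (`MeasureTheory.Lp.norm_fourier_eq` or the
current name), and the substitution `t = 2π ξ` as in `plancherel_cs` (MP_00e05b_nt/Mont/Planch.lean).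
-/

open Complex Set Filter Topology MeasureTheory

namespace Pool.Agent.Lib.MP_2a816b_nt.PV

open Pool.Agent.Lib.MP_00e05b_nt Pool.Agent.Lib.MP_00e05b_nt.Mont

open scoped FourierTransform SchwartzMap ContDiff in
private theorem PlanchB_ae (u : ℝ → ℂ) (h1 : Integrable u) (h2 : MemLp u 2) :
    ∀ᵐ ξ, FourierTransform.fourier u ξ =
      (FourierTransform.fourier (h2.toLp u) : Lp ℂ 2 (volume : Measure ℝ)) ξ := by
  apply ae_eq_of_integral_contDiff_smul_eq
  · have hc : Continuous (FourierTransform.fourier u) :=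
      VectorFourier.fourierIntegral_continuous Real.continuous_fourierChar
        (by exact continuous_inner) h1
    exact hc.locallyIntegrable
  · exact (Lp.memLp _).locallyIntegrable (by norm_num)
  · intro g g_smooth g_cpt
    have hg₁ : HasCompactSupport (Complex.ofRealCLM ∘ g) := g_cpt.comp_left rfl
    have hg₂ : ContDiff ℝ ∞ (Complex.ofRealCLM ∘ g) := by fun_prop
    set ψ : 𝓢(ℝ, ℂ) := hg₁.toSchwartzMap hg₂ with hψ
    have e1 : ∫ x, g x • (FourierTransform.fourier (h2.toLp u) : Lp ℂ 2 (volume : Measure ℝ)) x =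
        Lp.toTemperedDistribution
          (FourierTransform.fourier (h2.toLp u) : Lp ℂ 2 (volume : Measure ℝ)) ψ := by
      rw [Lp.toTemperedDistribution_apply]
      simp [hψ]
    have e2 : ∫ x, g x • FourierTransform.fourier u x =
        ∫ x, ψ x • FourierTransform.fourier u x := by
      simp [hψ]
    rw [e1, ← Lp.fourier_toTemperedDistribution_eq, TemperedDistribution.fourier_apply,
      Lp.toTemperedDistribution_apply, e2]
    have e3 : ∫ x, (FourierTransform.fourier ψ) x • (h2.toLp u) x =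
        ∫ x, (FourierTransform.fourier ψ) x • u x := by
      refine integral_congr_ae ?_
      filter_upwards [h2.coeFn_toLp] with x hx
      rw [hx]
    rw [e3]
    have := VectorFourier.integral_fourierIntegral_smul_eq_flip (L := innerₗ ℝ)
      (μ := (volume : Measure ℝ)) (ν := (volume : Measure ℝ)) (f := (ψ : ℝ → ℂ)) (g := u)
      Real.continuous_fourierChar continuous_inner ψ.integrable h1
    rw [flip_innerₗ] at this
    exact this.symm

private theorem PlanchB_norm (g : Lp ℂ 2 (volume : Measure ℝ)) : ∫ x, ‖g x‖ ^ 2 = ‖g‖ ^ 2 := by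
  have h : (inner ℂ g g : ℂ) = ∫ x, (inner ℂ (g x) (g x) : ℂ) := L2.inner_def g g
  have hn : ∀ z : ℂ, (inner ℂ z z : ℂ) = ((‖z‖ ^ 2 : ℝ) : ℂ) := by
    intro z
    rw [inner_self_eq_norm_sq_to_K]
    push_cast
    rfl
  have hg : (inner ℂ g g : ℂ) = ((‖g‖ ^ 2 : ℝ) : ℂ) := by
    rw [inner_self_eq_norm_sq_to_K]
    push_cast
    rfl
  have h2 : ∫ x, (inner ℂ (g x) (g x) : ℂ) = ((∫ x, ‖g x‖ ^ 2 : ℝ) : ℂ) := by
    simp_rw [hn]
    exact integral_ofReal
  rw [hg, h2] at h
  exact (Complex.ofReal_injective h).symm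

private theorem PlanchB_memLp {f : ℝ → ℂ} (hm : AEStronglyMeasurable f volume) {C M : ℝ}
    (hb : ∀ u, ‖f u‖ ≤ C) (hs : ∀ u, M < |u| → f u = 0) (p : ENNReal) : MemLp f p volume := by
  have hind : Set.indicator (Set.Icc (-M) M) f = f := by
    rw [Set.indicator_eq_self]
    intro u hu
    rw [Function.mem_support] at hu
    rw [Set.mem_Icc, ← abs_le]
    by_contra hc
    exact hu (hs u (not_le.1 hc))
  rw [← hind, memLp_indicator_iff_restrict measurableSet_Icc]
  exact MemLp.of_bound hm.restrict C (Eventually.of_forall hb)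

theorem planchB {f : ℝ → ℂ} (hm : AEStronglyMeasurable f volume) {C M : ℝ} (hb : ∀ u, ‖f u‖ ≤ C)
    (hs : ∀ u, M < |u| → f u = 0) :
    Integrable (fun t : ℝ => ‖∫ u, f u * cexp (((-(t * u) : ℝ) : ℂ) * I)‖ ^ 2) ∧
    ∫ t : ℝ, ‖∫ u, f u * cexp (((-(t * u) : ℝ) : ℂ) * I)‖ ^ 2 = 2 * Real.pi * ∫ u, ‖f u‖ ^ 2 := by
  have hpi : (0 : ℝ) < 2 * Real.pi := by positivity
  have h1 : Integrable f := memLp_one_iff_integrable.mp (PlanchB_memLp hm hb hs 1)
  have h2 : MemLp f 2 := PlanchB_memLp hm hb hs 2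
  have hae := PlanchB_ae f h1 h2
  have hΦ : ∀ t : ℝ, ‖∫ u, f u * cexp (((-(t * u) : ℝ) : ℂ) * I)‖ ^ 2 =
      ‖FourierTransform.fourier f (t / (2 * Real.pi))‖ ^ 2 := by
    intro t
    congr 2
    rw [Real.fourier_real_eq_integral_exp_smul]
    apply integral_congr_ae
    refine Eventually.of_forall fun u => ?_
    show f u * cexp (((-(t * u) : ℝ) : ℂ) * I) =
      cexp (((-2 * Real.pi * u * (t / (2 * Real.pi)) : ℝ) : ℂ) * I) • f u
    rw [smul_eq_mul, mul_comm]
    congr 4
    field_simp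
  simp_rw [hΦ]
  set g : Lp ℂ 2 (volume : Measure ℝ) := FourierTransform.fourier (h2.toLp f) with hg
  have hint : Integrable (fun ξ : ℝ => ‖FourierTransform.fourier f ξ‖ ^ 2) := by
    have h3 : Integrable (fun ξ : ℝ => ‖g ξ‖ ^ 2) :=
      (memLp_two_iff_integrable_sq_norm (Lp.memLp g).1).1 (Lp.memLp g)
    refine h3.congr ?_
    filter_upwards [hae] with ξ hξ
    rw [hξ]
  refine ⟨hint.comp_div hpi.ne', ?_⟩
  rw [Measure.integral_comp_div (fun ξ : ℝ => ‖FourierTransform.fourier f ξ‖ ^ 2) (2 * Real.pi),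
    abs_of_pos hpi, smul_eq_mul]
  congr 1
  have h4 : ∫ ξ : ℝ, ‖FourierTransform.fourier f ξ‖ ^ 2 = ∫ ξ : ℝ, ‖g ξ‖ ^ 2 := by
    refine integral_congr_ae ?_
    filter_upwards [hae] with ξ hξ
    rw [hξ]
  have h5 : ∫ u, ‖f u‖ ^ 2 = ∫ u, ‖(h2.toLp f) u‖ ^ 2 := by
    refine integral_congr_ae ?_
    filter_upwards [h2.coeFn_toLp] with u hu
    rw [hu]
  rw [h4, h5, PlanchB_norm, PlanchB_norm, hg, Lp.norm_fourier_eq]

end Pool.Agent.Lib.MP_2a816b_nt.PV
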