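import Pool.Agent.Lib.MP_2a816b_nt.PV.Elem
import Pool.Agent.Lib.MP_2a816b_nt.PV.PlanchB

/-!
# JOB SinI (about 100 lines): two integrals
-/

open Complex Set Filter Topology MeasureTheory

namespace Pool.Agent.Lib.MP_2a816b_nt.PV

open Pool.Agent.Lib.MP_00e05b_nt Pool.Agent.Lib.MP_00e05b_nt.Mont

/-- the square of the multiplier -/
private noncomputable def SinI_g (t : ℝ) : ℝ := 4 * Real.sin (t / 2) ^ 2 / t ^ 2

/-- indicator function -/
private noncomputable def SinI_f : ℝ → ℂ := (Ioc (-(1 / 2) : ℝ) (1 / 2)).indicator (fun _ => (1 : ℂ))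

private theorem SinI_four {t : ℝ} (ht : t ≠ 0) :
    ‖∫ u, SinI_f u * cexp (((-(t * u) : ℝ) : ℂ) * I)‖ ^ 2 = SinI_g t := by
  have h1 : (fun u : ℝ => SinI_f u * cexp (((-(t * u) : ℝ) : ℂ) * I)) =
      (Ioc (-(1 / 2) : ℝ) (1 / 2)).indicator (fun u : ℝ => cexp (-(t : ℂ) * I * (u : ℂ))) := by
    funext u
    unfold SinI_f
    by_cases hu : u ∈ Ioc (-(1 / 2) : ℝ) (1 / 2)
    · rw [indicator_of_mem hu, indicator_of_mem hu, one_mul]
      congr 1
      push_cast
      ring
    · rw [indicator_of_notMem hu, indicator_of_notMem hu, zero_mul]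
  have hc : -(t : ℂ) * I ≠ 0 := by
    have : (t : ℂ) ≠ 0 := by exact_mod_cast ht
    exact mul_ne_zero (neg_ne_zero.mpr this) I_ne_zero
  have h2 : ∫ u, SinI_f u * cexp (((-(t * u) : ℝ) : ℂ) * I) = ((2 * Real.sin (t / 2) / t : ℝ) : ℂ) := by
    rw [h1, integral_indicator measurableSet_Ioc,
      ← intervalIntegral.integral_of_le (by norm_num : (-(1 / 2) : ℝ) ≤ 1 / 2), integral_exp_mul_complex hc]
    have htc : (t : ℂ) ≠ 0 := by exact_mod_cast ht
    push_cast
    rw [Complex.sin]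
    have e1 : -(t : ℂ) * I * (1 / 2) = -((t : ℂ) / 2) * I := by ring
    have e2 : -(t : ℂ) * I * (-(1 / 2)) = (t : ℂ) / 2 * I := by ring
    rw [e1, e2]
    field_simp
    ring_nf
    rw [I_sq]
    ring
  rw [h2, Complex.norm_real, Real.norm_eq_abs, sq_abs]
  unfold SinI_g
  field_simp
  ring

private theorem SinI_main : Integrable SinI_g ∧ ∫ t, SinI_g t = 2 * Real.pi := by
  have hm : AEStronglyMeasurable SinI_f volume :=
    (stronglyMeasurable_const.indicator measurableSet_Ioc).aestronglyMeasurable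
  have hb : ∀ u, ‖SinI_f u‖ ≤ 1 := by
    intro u
    unfold SinI_f
    by_cases hu : u ∈ Ioc (-(1 / 2) : ℝ) (1 / 2)
    · rw [indicator_of_mem hu]; simp
    · rw [indicator_of_notMem hu]; simp
  have hs : ∀ u, (1 : ℝ) < |u| → SinI_f u = 0 := by
    intro u hu
    unfold SinI_f
    refine indicator_of_notMem ?_ _
    rintro ⟨h1, h2⟩
    have : |u| ≤ 1 / 2 := abs_le.mpr ⟨by linarith, h2⟩
    linarith
  obtain ⟨h1, h2⟩ := planchB hm hb hs
  have hae : (fun t : ℝ => ‖∫ u, SinI_f u * cexp (((-(t * u) : ℝ) : ℂ) * I)‖ ^ 2) =ᵐ[volume] SinI_g := by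
    have h0 : ∀ᵐ t : ℝ, t ≠ 0 := by
      rw [ae_iff]
      simp
    filter_upwards [h0] with t ht
    exact SinI_four ht
  have h3 : ∫ u, ‖SinI_f u‖ ^ 2 = 1 := by
    have h4 : (fun u : ℝ => ‖SinI_f u‖ ^ 2) = (Ioc (-(1 / 2) : ℝ) (1 / 2)).indicator (fun _ => (1 : ℝ)) := by
      funext u
      unfold SinI_f
      by_cases hu : u ∈ Ioc (-(1 / 2) : ℝ) (1 / 2)
      · rw [indicator_of_mem hu, indicator_of_mem hu]; simp
      · rw [indicator_of_notMem hu, indicator_of_notMem hu]; simp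
    rw [h4, integral_indicator measurableSet_Ioc]
    simp
    norm_num
  refine ⟨h1.congr hae, ?_⟩
  rw [← integral_congr_ae hae, h2, h3, mul_one]

/-- `planchB` for the indicator of `[-1/2, 1/2]`: `∫_ℝ (2 sin (t/2)/t)² dt = 2π`; even integrand. -/
theorem qq_w_eq : ∫ w in Ioi (0 : ℝ), qq w * w = Real.pi := by
  have h1 : ∫ w in Ioi (0 : ℝ), qq w * w = ∫ w in Ioi (0 : ℝ), SinI_g w := by
    refine setIntegral_congr_fun measurableSet_Ioi ?_
    intro w hw
    have hw' : w ≠ 0 := ne_of_gt hw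
    simp only [qq, SinI_g]
    field_simp
  have h2 : ∫ w, SinI_g |w| = 2 * ∫ w in Ioi (0 : ℝ), SinI_g w := integral_comp_abs
  have h3 : ∫ w, SinI_g |w| = ∫ w, SinI_g w := by
    congr 1
    funext w
    rcases abs_choice w with h | h
    · rw [h]
    · rw [h]
      simp only [SinI_g]
      rw [neg_div, Real.sin_neg]
      ring
  rw [h1]
  have h4 := SinI_main.2
  rw [← h3, h2] at h4
  linarith

/-- `planchB` for the triangle function or scaling and the previous theorem: `∫_ℝ FK n y dy = 2π` (`y = w/n`). -/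
theorem FK_int {n : ℝ} (hn : 0 < n) : Integrable (FK n) ∧ ∫ y : ℝ, FK n y = 2 * Real.pi := by
  have h1 : FK n = fun y => n * SinI_g (n * y) := by
    funext y
    have h2 : 1 - Real.cos (n * y) = 2 * Real.sin (n * y / 2) ^ 2 := by
      have h3 := Real.cos_sq_add_sin_sq (n * y / 2)
      have h4 := Real.cos_two_mul (n * y / 2)
      rw [mul_div_cancel₀ _ (two_ne_zero' ℝ)] at h4
      linarith
    simp only [FK, SinI_g]
    rw [h2]
    by_cases hy : y = 0
    · simp [hy]
    · field_simp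
      ring
  obtain ⟨h2, h3⟩ := SinI_main
  rw [h1]
  refine ⟨(h2.comp_mul_left' hn.ne').const_mul n, ?_⟩
  rw [integral_const_mul, Measure.integral_comp_mul_left, h3, abs_of_pos (inv_pos.mpr hn), smul_eq_mul]
  field_simp

end Pool.Agent.Lib.MP_2a816b_nt.PV
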