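import Pool.Agent.Lib.MP_2a816b_nt.PV.TauA
import Pool.Agent.Lib.MP_2a816b_nt.PV.SinI

/-!
# JOB TauB (about 200 lines): Tauberian theorem, second half
-/

open Complex Set Filter Topology MeasureTheory

namespace Pool.Agent.Lib.MP_2a816b_nt.PV

open Pool.Agent.Lib.MP_00e05b_nt Pool.Agent.Lib.MP_00e05b_nt.Mont

private theorem TauB_FK_nonneg {n : ℝ} (hn : 0 < n) (y : ℝ) : 0 ≤ FK n y := by
  unfold FK
  have h1 : 0 ≤ 1 - Real.cos (n * y) := by linarith [Real.cos_le_one (n * y)]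
  have h2 : 0 ≤ y ^ 2 := sq_nonneg y
  positivity

private theorem TauB_FK_le {n y : ℝ} (hn : 0 < n) (hy : y ≠ 0) : FK n y ≤ 4 / (n * y ^ 2) := by
  unfold FK
  have h2 : 0 < y ^ 2 := by positivity
  have h1 : 2 * (1 - Real.cos (n * y)) ≤ 4 := by linarith [Real.neg_one_le_cos (n * y)]
  gcongr

private theorem TauB_FK_even (n y : ℝ) : FK n (-y) = FK n y := by
  unfold FK
  rw [mul_neg, Real.cos_neg, neg_sq]

private theorem TauB_KK_nonneg {n : ℝ} (hn : 0 < n) (x0 x : ℝ) : 0 ≤ KK n x0 x := by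
  unfold KK
  have h1 := TauB_FK_nonneg hn (x - x0)
  have h2 := TauB_FK_nonneg hn (x + x0)
  linarith

/-- `∫_{|y| > δ} FK ≤ 8/(n δ)`, in the form of a lower bound for the rest -/
private theorem TauB_mass {n δ : ℝ} (hn : 0 < n) (hδ : 0 < δ) :
    2 * Real.pi - 8 / (n * δ) ≤ ∫ y in Icc (-δ) δ, FK n y := by
  obtain ⟨hi, hv⟩ := FK_int hn
  have hsplit : ∫ y : ℝ, FK n y = (∫ y in Icc (-δ) δ, FK n y) + ∫ y in (Icc (-δ) δ)ᶜ, FK n y :=
    (integral_add_compl measurableSet_Icc hi).symm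
  have hcompl : (Icc (-δ) δ)ᶜ = Iio (-δ) ∪ Ioi δ := by
    ext y
    simp only [mem_compl_iff, mem_Icc, not_and, not_le, mem_union, mem_Iio, mem_Ioi]
    constructor
    · intro h
      by_cases h1 : -δ ≤ y
      · exact Or.inr (h h1)
      · exact Or.inl (not_le.1 h1)
    · rintro (h | h) h1
      · linarith
      · exact h
  have hdisj : Disjoint (Iio (-δ)) (Ioi δ) := by
    rw [Set.disjoint_left]
    intro y h1 h2
    have h1' : y < -δ := h1
    have h2' : δ < y := h2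
    linarith
  have hsum : ∫ y in (Icc (-δ) δ)ᶜ, FK n y = (∫ y in Iio (-δ), FK n y) + ∫ y in Ioi δ, FK n y := by
    rw [hcompl, setIntegral_union hdisj measurableSet_Ioi hi.integrableOn hi.integrableOn]
  have hneg : ∫ y in Iio (-δ), FK n y = ∫ y in Ioi δ, FK n y := by
    have h1 := integral_comp_neg_Ioi δ (FK n)
    rw [integral_Iic_eq_integral_Iio] at h1
    rw [← h1]
    exact setIntegral_congr_fun measurableSet_Ioi fun y _ => TauB_FK_even n y
  have hbd : ∫ y in Ioi δ, FK n y ≤ 4 / (n * δ) := by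
    have h1 : IntegrableOn (fun y : ℝ => y ^ (-2 : ℝ)) (Ioi δ) :=
      integrableOn_Ioi_rpow_of_lt (by norm_num) hδ
    have h2 : ∫ y in Ioi δ, (4 / n) * y ^ (-2 : ℝ) = 4 / (n * δ) := by
      rw [integral_const_mul, integral_Ioi_rpow_of_lt (by norm_num) hδ]
      have e : δ ^ ((-2 : ℝ) + 1) = δ⁻¹ := by
        rw [show (-2 : ℝ) + 1 = -1 by norm_num, Real.rpow_neg_one]
      rw [e]
      field_simp
      norm_num
    rw [← h2]
    refine setIntegral_mono_on hi.integrableOn (h1.const_mul _) measurableSet_Ioi fun y hy => ?_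
    have hy0 : 0 < y := hδ.trans hy
    refine (TauB_FK_le hn hy0.ne').trans (le_of_eq ?_)
    have e : y ^ (-2 : ℝ) = (y ^ 2)⁻¹ := by
      rw [Real.rpow_neg hy0.le]
      norm_num
    rw [e]
    field_simp
  have h8 : 8 / (n * δ) = 4 / (n * δ) + 4 / (n * δ) := by ring
  rw [h8]
  linarith [hv, hsplit, hsum, hneg, hbd]

/-- `∫_{x > 0} KK n x0 x dx = π` -/
private theorem TauB_KK_int {n : ℝ} (hn : 0 < n) (x0 : ℝ) :
    IntegrableOn (KK n x0) (Ioi 0) ∧ ∫ x in Ioi (0 : ℝ), KK n x0 x = Real.pi := by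
  obtain ⟨hi, hv⟩ := FK_int hn
  have h1 : Integrable (fun x => FK n (x - x0)) := hi.comp_sub_right x0
  have h2 : Integrable (fun x => FK n (x + x0)) := hi.comp_add_right x0
  have hK : Integrable (KK n x0) := (h1.add h2).div_const 2
  refine ⟨hK.integrableOn, ?_⟩
  have h3 : ∫ x in Ioi (0 : ℝ), FK n (x + x0) = ∫ x in Iic (0 : ℝ), FK n (x - x0) := by
    have h4 := integral_comp_neg_Ioi (0 : ℝ) (fun x => FK n (x - x0))
    rw [neg_zero] at h4
    rw [← h4]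
    refine setIntegral_congr_fun measurableSet_Ioi fun x _ => ?_
    show FK n (x + x0) = FK n (-x - x0)
    rw [← TauB_FK_even n (x + x0)]
    congr 1
    ring
  have h5 : (∫ x in Iic (0 : ℝ), FK n (x - x0)) + ∫ x in Ioi (0 : ℝ), FK n (x - x0) = 2 * Real.pi := by
    rw [intervalIntegral.integral_Iic_add_Ioi h1.integrableOn h1.integrableOn,
      integral_sub_right_eq_self (FK n) x0, hv]
  have h6 : ∫ x in Ioi (0 : ℝ), KK n x0 x =
      ((∫ x in Ioi (0 : ℝ), FK n (x - x0)) + ∫ x in Ioi (0 : ℝ), FK n (x + x0)) / 2 := by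
    rw [← integral_add h1.integrableOn h2.integrableOn, ← integral_div]
    rfl
  rw [h6, h3]
  linarith

/-- the far part -/
private noncomputable def TauB_far (C x0 x : ℝ) : ℝ := C * ((√x + x * √x) / (x * (x - x0) ^ 2))

private theorem TauB_far_int {C x0 δ : ℝ} (hδ : 0 < δ) (hx0 : 0 < x0 - δ) :
    IntegrableOn (TauB_far C x0) (Ioi 0 \ Icc (x0 - δ) (x0 + δ)) := by
  have hsub : Ioi (0 : ℝ) \ Icc (x0 - δ) (x0 + δ) ⊆
      Ioc 0 (x0 - δ) ∪ (Ioc (x0 + δ) (2 * x0 + 2 * δ) ∪ Ioi (2 * x0 + 2 * δ)) := by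
    rintro x ⟨h1, h2⟩
    have h1' : 0 < x := h1
    simp only [mem_Icc, not_and, not_le] at h2
    simp only [mem_union, mem_Ioc, mem_Ioi]
    by_cases h3 : x ≤ x0 - δ
    · exact Or.inl ⟨h1', h3⟩
    · right
      have h4 := h2 (not_le.1 h3).le
      by_cases h5 : x ≤ 2 * x0 + 2 * δ
      · exact Or.inl ⟨h4, h5⟩
      · exact Or.inr (not_le.1 h5)
  refine IntegrableOn.mono_set ?_ hsub
  have hmeas : Measurable (TauB_far C x0) := by
    unfold TauB_far
    fun_prop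
  have hkey : ∀ x : ℝ, 0 < x → (√x + x * √x) / x = x ^ (-(1 / 2) : ℝ) + x ^ ((1 / 2) : ℝ) := by
    intro x hx
    have h4 : x ^ (-(1 / 2) : ℝ) = √x / x := by
      rw [Real.sqrt_eq_rpow, ← Real.rpow_sub_one hx.ne']
      norm_num
    rw [h4, ← Real.sqrt_eq_rpow]
    field_simp
  have hnear : ∀ a b : ℝ, 0 ≤ a → (∀ x ∈ Ioc a b, δ ^ 2 ≤ (x - x0) ^ 2) →
      IntegrableOn (TauB_far C x0) (Ioc a b) := by
    intro a b ha hab
    by_cases hle : a ≤ b
    swap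
    · rw [Ioc_eq_empty (fun h => hle h.le)]
      exact integrableOn_empty
    have h1 : IntegrableOn (fun x : ℝ => |C| / δ ^ 2 * (x ^ (-(1 / 2) : ℝ) + x ^ ((1 / 2) : ℝ))) (Ioc a b) := by
      have h2 := ((intervalIntegral.intervalIntegrable_rpow' (a := a) (b := b)
        (show (-1 : ℝ) < -(1 / 2) by norm_num)).add
        (intervalIntegral.intervalIntegrable_rpow' (a := a) (b := b)
        (show (-1 : ℝ) < 1 / 2 by norm_num))).const_mul (|C| / δ ^ 2)
      exact (intervalIntegrable_iff_integrableOn_Ioc_of_le hle).1 h2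
    refine Integrable.mono' h1 hmeas.aestronglyMeasurable ?_
    rw [ae_restrict_iff' measurableSet_Ioc]
    refine Eventually.of_forall fun x hx => ?_
    have hx0' : 0 < x := ha.trans_lt hx.1
    have h3 := hab x hx
    rw [← hkey x hx0']
    unfold TauB_far
    have h4 : 0 < (x - x0) ^ 2 := lt_of_lt_of_le (by positivity) h3
    rw [Real.norm_eq_abs, abs_mul, abs_of_nonneg (by positivity : 0 ≤ (√x + x * √x) / (x * (x - x0) ^ 2))]
    have h5 : (√x + x * √x) / (x * (x - x0) ^ 2) ≤ (√x + x * √x) / (x * δ ^ 2) := by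
      gcongr
    calc |C| * ((√x + x * √x) / (x * (x - x0) ^ 2)) ≤ |C| * ((√x + x * √x) / (x * δ ^ 2)) := by
          gcongr
      _ = |C| / δ ^ 2 * ((√x + x * √x) / x) := by
          field_simp
  refine (hnear 0 (x0 - δ) le_rfl ?_).union ((hnear (x0 + δ) (2 * x0 + 2 * δ) (by linarith) ?_).union ?_)
  · intro x hx
    have h1 : x ≤ x0 - δ := hx.2
    have h2 : 0 < x := hx.1
    nlinarith
  · intro x hx
    have h1 : x0 + δ < x := hx.1
    nlinarith
  · have ha : 0 < 2 * x0 + 2 * δ := by linarith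
    have h1 : IntegrableOn (fun x : ℝ => 4 * |C| * (x ^ (-(5 / 2) : ℝ) + x ^ (-(3 / 2) : ℝ)))
        (Ioi (2 * x0 + 2 * δ)) :=
      ((integrableOn_Ioi_rpow_of_lt (by norm_num) ha).add
        (integrableOn_Ioi_rpow_of_lt (by norm_num) ha)).const_mul _
    refine Integrable.mono' h1 hmeas.aestronglyMeasurable ?_
    rw [ae_restrict_iff' measurableSet_Ioi]
    refine Eventually.of_forall fun x hx => ?_
    have hx1 : 2 * x0 + 2 * δ < x := hx
    have hx0' : 0 < x := by linarith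
    have h4 : x ^ (-(5 / 2) : ℝ) = √x / x ^ 3 := by
      rw [Real.sqrt_eq_rpow, ← Real.rpow_natCast x 3, ← Real.rpow_sub hx0']
      norm_num
    have h5 : x ^ (-(3 / 2) : ℝ) = x * √x / x ^ 3 := by
      have e : x * √x = x ^ ((3 / 2 : ℝ)) := by
        rw [Real.sqrt_eq_rpow]
        nth_rw 1 [← Real.rpow_one x]
        rw [← Real.rpow_add hx0']
        norm_num
      rw [e, ← Real.rpow_natCast x 3, ← Real.rpow_sub hx0']
      norm_num
    rw [h4, h5]
    unfold TauB_far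
    have h6 : x ^ 2 / 4 ≤ (x - x0) ^ 2 := by nlinarith
    have h7 : 0 < (x - x0) ^ 2 := lt_of_lt_of_le (by positivity) h6
    rw [Real.norm_eq_abs, abs_mul, abs_of_nonneg (by positivity : 0 ≤ (√x + x * √x) / (x * (x - x0) ^ 2))]
    have h8 : (√x + x * √x) / (x * (x - x0) ^ 2) ≤ (√x + x * √x) / (x * (x ^ 2 / 4)) := by
      gcongr
    calc |C| * ((√x + x * √x) / (x * (x - x0) ^ 2)) ≤ |C| * ((√x + x * √x) / (x * (x ^ 2 / 4))) := by
          gcongr
      _ = 4 * |C| * (√x / x ^ 3 + x * √x / x ^ 3) := by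
          field_simp

private theorem TauB_KK_meas (n x0 : ℝ) : Measurable (KK n x0) := by
  unfold KK FK
  fun_prop

private theorem TauB_KK_le {n x0 x : ℝ} (hn : 0 < n) (hx0 : 0 < x0) (hx : 0 < x) (hne : x ≠ x0) :
    KK n x0 x ≤ 4 / n * (1 / (x - x0) ^ 2) := by
  have hm : x - x0 ≠ 0 := sub_ne_zero.2 hne
  have hp : 0 < x + x0 := by linarith
  have h1 := TauB_FK_le hn hm
  have h2 := TauB_FK_le hn hp.ne'
  have h3 : (x - x0) ^ 2 ≤ (x + x0) ^ 2 := by nlinarith [mul_pos hx hx0]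
  have h4 : 0 < (x - x0) ^ 2 := by positivity
  have h5 : 4 / (n * (x + x0) ^ 2) ≤ 4 / (n * (x - x0) ^ 2) := by gcongr
  have h6 : 4 / (n * (x - x0) ^ 2) = 4 / n * (1 / (x - x0) ^ 2) := by
    field_simp
  unfold KK
  linarith

private theorem TauB_f_meas {f : ℝ → ℝ} (hf : MonotoneOn f (Ioi 0)) :
    AEStronglyMeasurable (fun x => f x / x) (volume.restrict (Ioi (0 : ℝ))) := by
  have h1 : AEMeasurable f (volume.restrict (Ioi (0 : ℝ))) :=
    aemeasurable_restrict_of_monotoneOn measurableSet_Ioi hf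
  exact (h1.div (by fun_prop)).aestronglyMeasurable

private theorem TauB_far_bd {f : ℝ → ℝ} {C n x0 x : ℝ} (hn : 0 < n) (hx0 : 0 < x0) (hx : 0 < x)
    (hne : x ≠ x0) (hf : 0 ≤ f x ∧ f x ≤ C * (√x + x * √x)) :
    KK n x0 x * (f x / x) ≤ 4 / n * TauB_far C x0 x := by
  have h1 := TauB_KK_le hn hx0 hx hne
  have h2 := TauB_KK_nonneg hn x0 x
  have hm : x - x0 ≠ 0 := sub_ne_zero.2 hne
  have h4 : 0 < (x - x0) ^ 2 := by positivity
  have h5 : f x / x ≤ C * (√x + x * √x) / x := by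
    gcongr
    exact hf.2
  calc KK n x0 x * (f x / x) ≤ (4 / n * (1 / (x - x0) ^ 2)) * (C * (√x + x * √x) / x) :=
        mul_le_mul h1 h5 (div_nonneg hf.1 hx.le) (h2.trans h1)
    _ = 4 / n * TauB_far C x0 x := by
        unfold TauB_far
        field_simp

private theorem TauB_far_int2 {f : ℝ → ℝ} {C n x0 δ : ℝ} (hn : 0 < n) (hδ : 0 < δ) (hx0 : 0 < x0 - δ)
    (hm : MonotoneOn f (Ioi 0)) (hf : ∀ w : ℝ, 0 < w → 0 ≤ f w ∧ f w ≤ C * (√w + w * √w)) :
    IntegrableOn (fun x => KK n x0 x * (f x / x)) (Ioi 0 \ Icc (x0 - δ) (x0 + δ)) := by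
  refine Integrable.mono' ((TauB_far_int (C := C) hδ hx0).const_mul (4 / n)) ?_ ?_
  · exact (TauB_KK_meas n x0).aestronglyMeasurable.mul
      ((TauB_f_meas hm).mono_measure (Measure.restrict_mono sdiff_subset le_rfl))
  · rw [ae_restrict_iff' (measurableSet_Ioi.diff measurableSet_Icc)]
    refine Eventually.of_forall fun x hx => ?_
    have hx1 : 0 < x := hx.1
    have hne : x ≠ x0 := by
      intro h
      apply hx.2
      rw [h]
      constructor <;> linarith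
    rw [Real.norm_eq_abs, abs_of_nonneg (mul_nonneg (TauB_KK_nonneg hn x0 x)
      (div_nonneg (hf x hx1).1 hx1.le))]
    exact TauB_far_bd hn (by linarith) hx1 hne (hf x hx1)

private theorem TauB_near_int {f : ℝ → ℝ} {C n x0 δ : ℝ} (hn : 0 < n) (hδ : 0 < δ) (hx0 : 0 < x0 - δ)
    (hm : MonotoneOn f (Ioi 0)) (hf : ∀ w : ℝ, 0 < w → 0 ≤ f w ∧ f w ≤ C * (√w + w * √w)) :
    IntegrableOn (fun x => KK n x0 x * (f x / x)) (Icc (x0 - δ) (x0 + δ)) := by
  have hsub : Icc (x0 - δ) (x0 + δ) ⊆ Ioi 0 := fun x hx => lt_of_lt_of_le hx0 hx.1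
  have hK := (TauB_KK_int hn x0).1
  have hp : 0 < x0 + δ := by linarith
  refine Integrable.mono' ((hK.mono_set hsub).const_mul (f (x0 + δ) / (x0 - δ))) ?_ ?_
  · exact (TauB_KK_meas n x0).aestronglyMeasurable.mul
      ((TauB_f_meas hm).mono_measure (Measure.restrict_mono hsub le_rfl))
  · rw [ae_restrict_iff' measurableSet_Icc]
    refine Eventually.of_forall fun x hx => ?_
    have hx1 : 0 < x := hsub hx
    have h1 : f x ≤ f (x0 + δ) := hm hx1 hp hx.2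
    have h2 := (hf x hx1).1
    rw [Real.norm_eq_abs, abs_of_nonneg (mul_nonneg (TauB_KK_nonneg hn x0 x)
      (div_nonneg h2 hx1.le)), mul_comm]
    refine mul_le_mul_of_nonneg_right ?_ (TauB_KK_nonneg hn x0 x)
    have h3 : 0 ≤ f (x0 + δ) := h2.trans h1
    exact div_le_div₀ h3 h1 hx0 hx.1

private theorem TauB_split {f : ℝ → ℝ} {C n x0 δ : ℝ} (hn : 0 < n) (hδ : 0 < δ) (hx0 : 0 < x0 - δ)
    (hm : MonotoneOn f (Ioi 0)) (hf : ∀ w : ℝ, 0 < w → 0 ≤ f w ∧ f w ≤ C * (√w + w * √w)) :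
    ∫ x in Ioi (0 : ℝ), KK n x0 x * (f x / x) =
      (∫ x in Icc (x0 - δ) (x0 + δ), KK n x0 x * (f x / x)) +
        ∫ x in Ioi 0 \ Icc (x0 - δ) (x0 + δ), KK n x0 x * (f x / x) := by
  have hsub : Icc (x0 - δ) (x0 + δ) ⊆ Ioi 0 := fun x hx => lt_of_lt_of_le hx0 hx.1
  have hu : Ioi (0 : ℝ) = Icc (x0 - δ) (x0 + δ) ∪ (Ioi 0 \ Icc (x0 - δ) (x0 + δ)) :=
    (union_sdiff_cancel hsub).symm
  conv_lhs => rw [hu]
  exact setIntegral_union disjoint_sdiff_right (measurableSet_Ioi.diff measurableSet_Icc)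
    (TauB_near_int hn hδ hx0 hm hf) (TauB_far_int2 hn hδ hx0 hm hf)

/-- upper bound for `f 1` -/
private theorem TauB_up {f : ℝ → ℝ} {C n δ : ℝ} (hn : 0 < n) (hδ : 0 < δ)
    (hm : MonotoneOn f (Ioi 0)) (hf : ∀ w : ℝ, 0 < w → 0 ≤ f w ∧ f w ≤ C * (√w + w * √w)) :
    f 1 * Real.pi ≤ (1 + 2 * δ) * (∫ x in Ioi (0 : ℝ), KK n (1 + δ) x * (f x / x)) + 8 * C / (n * δ) := by
  have hx0 : 0 < (1 + δ) - δ := by linarith
  have h1 := TauB_split (n := n) (x0 := 1 + δ) hn hδ hx0 hm hf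
  have e1 : (1 + δ) - δ = 1 := by ring
  have e2 : (1 + δ) + δ = 1 + 2 * δ := by ring
  rw [e1, e2] at h1
  have h2 : 0 ≤ ∫ x in Ioi 0 \ Icc 1 (1 + 2 * δ), KK n (1 + δ) x * (f x / x) := by
    refine setIntegral_nonneg (measurableSet_Ioi.diff measurableSet_Icc) fun x hx => ?_
    have hx1 : 0 < x := hx.1
    exact mul_nonneg (TauB_KK_nonneg hn _ x) (div_nonneg (hf x hx1).1 hx1.le)
  have hsub : Icc (1 : ℝ) (1 + 2 * δ) ⊆ Ioi 0 := fun x hx => lt_of_lt_of_le one_pos hx.1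
  have hKi := ((TauB_KK_int hn (1 + δ)).1).mono_set hsub
  have hni := TauB_near_int (n := n) (x0 := 1 + δ) hn hδ hx0 hm hf
  rw [e1, e2] at hni
  have hf1 := hf 1 one_pos
  have hf2 : f 1 ≤ 2 * C := by
    have := hf1.2
    rw [Real.sqrt_one] at this
    linarith
  have h3 : f 1 / (1 + 2 * δ) * ∫ x in Icc (1 : ℝ) (1 + 2 * δ), KK n (1 + δ) x ≤
      ∫ x in Icc (1 : ℝ) (1 + 2 * δ), KK n (1 + δ) x * (f x / x) := by
    rw [← integral_const_mul]
    refine setIntegral_mono_on (hKi.const_mul _) hni measurableSet_Icc fun x hx => ?_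
    have hx1 : 0 < x := hsub hx
    show f 1 / (1 + 2 * δ) * KK n (1 + δ) x ≤ KK n (1 + δ) x * (f x / x)
    rw [mul_comm]
    refine mul_le_mul_of_nonneg_left ?_ (TauB_KK_nonneg hn _ x)
    exact div_le_div₀ (hf x hx1).1 (hm (mem_Ioi.2 one_pos) hx1 hx.1) hx1 hx.2
  have h4 : Real.pi - 4 / (n * δ) ≤ ∫ x in Icc (1 : ℝ) (1 + 2 * δ), KK n (1 + δ) x := by
    obtain ⟨hi, _⟩ := FK_int hn
    have h5 : ∫ x in Icc (1 : ℝ) (1 + 2 * δ), FK n (x - (1 + δ)) = ∫ y in Icc (-δ) δ, FK n y := by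
      rw [integral_Icc_eq_integral_Ioc, integral_Icc_eq_integral_Ioc,
        ← intervalIntegral.integral_of_le (by linarith), ← intervalIntegral.integral_of_le (by linarith),
        intervalIntegral.integral_comp_sub_right (FK n) (1 + δ)]
      congr 1 <;> ring
    have h6 := TauB_mass hn hδ
    have h7 : (∫ x in Icc (1 : ℝ) (1 + 2 * δ), FK n (x - (1 + δ))) / 2 ≤
        ∫ x in Icc (1 : ℝ) (1 + 2 * δ), KK n (1 + δ) x := by
      rw [← integral_div]
      refine setIntegral_mono_on ((hi.comp_sub_right (1 + δ)).integrableOn.div_const 2) hKi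
        measurableSet_Icc fun x _ => ?_
      unfold KK
      have := TauB_FK_nonneg hn (x + (1 + δ))
      linarith
    rw [h5] at h7
    have e3 : 8 / (n * δ) = 2 * (4 / (n * δ)) := by ring
    linarith
  have h8 : f 1 / (1 + 2 * δ) * (Real.pi - 4 / (n * δ)) ≤ ∫ x in Ioi (0 : ℝ), KK n (1 + δ) x * (f x / x) := by
    have h9 : 0 ≤ f 1 / (1 + 2 * δ) := div_nonneg hf1.1 (by linarith)
    have h10 := mul_le_mul_of_nonneg_left h4 h9
    linarith
  have hd : 0 < 1 + 2 * δ := by linarith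
  have h11 : f 1 * (Real.pi - 4 / (n * δ)) ≤
      (1 + 2 * δ) * ∫ x in Ioi (0 : ℝ), KK n (1 + δ) x * (f x / x) := by
    have h12 := mul_le_mul_of_nonneg_left h8 hd.le
    have e4 : (1 + 2 * δ) * (f 1 / (1 + 2 * δ) * (Real.pi - 4 / (n * δ))) =
        f 1 * (Real.pi - 4 / (n * δ)) := by
      field_simp
    rwa [e4] at h12
  have h13 : f 1 * (4 / (n * δ)) ≤ 8 * C / (n * δ) := by
    have h14 : 0 ≤ 4 / (n * δ) := by positivity
    calc f 1 * (4 / (n * δ)) ≤ 2 * C * (4 / (n * δ)) := mul_le_mul_of_nonneg_right hf2 h14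
      _ = 8 * C / (n * δ) := by ring
  rw [mul_sub] at h11
  linarith

/-- lower bound for `f 1` -/
private theorem TauB_low {f : ℝ → ℝ} {C n δ : ℝ} (hn : 0 < n) (hδ : 0 < δ) (hδ1 : δ ≤ 1 / 4)
    (hm : MonotoneOn f (Ioi 0)) (hf : ∀ w : ℝ, 0 < w → 0 ≤ f w ∧ f w ≤ C * (√w + w * √w)) :
    ∫ x in Ioi (0 : ℝ), KK n (1 - δ) x * (f x / x) ≤ f 1 / (1 - 2 * δ) * Real.pi +
      4 / n * ∫ x in Ioi 0 \ Icc (1 - 2 * δ) 1, TauB_far C (1 - δ) x := by
  have hx0 : 0 < (1 - δ) - δ := by linarith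
  have h1 := TauB_split (n := n) (x0 := 1 - δ) hn hδ hx0 hm hf
  have hfi := TauB_far_int (C := C) (x0 := 1 - δ) hδ hx0
  have hfi2 := TauB_far_int2 (n := n) (x0 := 1 - δ) hn hδ hx0 hm hf
  have hni := TauB_near_int (n := n) (x0 := 1 - δ) hn hδ hx0 hm hf
  have e1 : (1 - δ) - δ = 1 - 2 * δ := by ring
  have e2 : (1 - δ) + δ = 1 := by ring
  rw [e1, e2] at h1 hfi hfi2 hni
  have hd : 0 < 1 - 2 * δ := by linarith
  have hsub : Icc (1 - 2 * δ) (1 : ℝ) ⊆ Ioi 0 := fun x hx => lt_of_lt_of_le hd hx.1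
  have hKK := TauB_KK_int hn (1 - δ)
  have hf1 := hf 1 one_pos
  have h2 : ∫ x in Icc (1 - 2 * δ) (1 : ℝ), KK n (1 - δ) x * (f x / x) ≤
      f 1 / (1 - 2 * δ) * ∫ x in Icc (1 - 2 * δ) (1 : ℝ), KK n (1 - δ) x := by
    rw [← integral_const_mul]
    refine setIntegral_mono_on hni ((hKK.1.mono_set hsub).const_mul _) measurableSet_Icc fun x hx => ?_
    have hx1 : 0 < x := hsub hx
    show KK n (1 - δ) x * (f x / x) ≤ f 1 / (1 - 2 * δ) * KK n (1 - δ) x
    rw [mul_comm (f 1 / (1 - 2 * δ))]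
    refine mul_le_mul_of_nonneg_left ?_ (TauB_KK_nonneg hn _ x)
    exact div_le_div₀ hf1.1 (hm hx1 (mem_Ioi.2 one_pos) hx.2) hd hx.1
  have h3 : ∫ x in Icc (1 - 2 * δ) (1 : ℝ), KK n (1 - δ) x ≤ Real.pi := by
    rw [← hKK.2]
    exact setIntegral_mono_set hKK.1 (Eventually.of_forall fun x => TauB_KK_nonneg hn _ x)
      (HasSubset.Subset.eventuallyLE hsub)
  have h4 : ∫ x in Ioi 0 \ Icc (1 - 2 * δ) 1, KK n (1 - δ) x * (f x / x) ≤
      4 / n * ∫ x in Ioi 0 \ Icc (1 - 2 * δ) 1, TauB_far C (1 - δ) x := by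
    rw [← integral_const_mul]
    refine setIntegral_mono_on hfi2 (hfi.const_mul _) (measurableSet_Ioi.diff measurableSet_Icc)
      fun x hx => ?_
    have hx1 : 0 < x := hx.1
    have hne : x ≠ 1 - δ := by
      intro h
      apply hx.2
      rw [h]
      constructor <;> linarith
    exact TauB_far_bd hn (by linarith) hx1 hne (hf x hx1)
  have h5 : f 1 / (1 - 2 * δ) * ∫ x in Icc (1 - 2 * δ) (1 : ℝ), KK n (1 - δ) x ≤
      f 1 / (1 - 2 * δ) * Real.pi :=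
    mul_le_mul_of_nonneg_left h3 (div_nonneg hf1.1 hd.le)
  rw [h1]
  linarith

/-- `0 ≤ FK`, `∫ FK = 2π` (`FK_int`), `FK n y ≤ 4/(n y²)`, so `∫_{|y| > δ} FK ≤ 8/(n δ)`; `∫_{x > 0} KK n x0 x dx = π` (symmetry).
Upper bound: `x0 = 1 + δ`; `N T x ≥ N T 1` and `1/x ≥ 1/(1 + 2δ)` on `[1, 1 + 2δ]`, so
`∫ KK N/x ≥ N T 1/(1 + 2δ) · (π - 4/(n δ))`. Lower bound: `x0 = 1 - δ` (`δ ≤ 1/4`): on `[1 - 2δ, 1]` `N T x/x ≤ N T 1/(1 - 2δ)`; off this
interval (`|x - x0| > δ`) `KK ≤ 4/(n (x - x0)²)` and `N T x/x ≤ C (x^(-1/2) + x^(1/2))`, so that part is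
`≤ (1/n) ∫_{|x - x0| > δ} 4 C (x^(-1/2) + x^(1/2))/(x - x0)² dx = C(δ)/n`. Use `tauA`, then `n → ∞`, `δ → 0`. -/
theorem tauB {N : ℝ → ℝ → ℝ} {m C : ℝ}
    (hN : ∀ᶠ T : ℝ in atTop, MonotoneOn (N T) (Ioi 0) ∧ ∀ w : ℝ, 0 < w → 0 ≤ N T w ∧ N T w ≤ C * (√w + w * √w))
    (hlim : ∀ ξ : ℝ, 0 < ξ → Tendsto (fun T : ℝ => ∫ w in Ioi (0 : ℝ), qq w * N T (ξ * w)) atTop (𝓝 (Real.pi * (ξ * m)))) :
    Tendsto (fun T : ℝ => N T 1) atTop (𝓝 m) := by
  have hC : 0 ≤ C := by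
    obtain ⟨T, hT⟩ := hN.exists
    obtain ⟨h1, h2⟩ := hT.2 1 one_pos
    rw [Real.sqrt_one] at h2
    linarith
  have hpi := Real.pi_pos
  have hU : ∀ δ : ℝ, 0 < δ → ∀ c : ℝ, (1 + 2 * δ) * m < c → ∀ᶠ T : ℝ in atTop, N T 1 < c := by
    intro δ hδ c hc
    have hg : 0 < c - (1 + 2 * δ) * m := by linarith
    set g : ℝ := c - (1 + 2 * δ) * m with hgdef
    set n : ℝ := 8 * (C + 1) / (δ * (Real.pi * g)) with hndef
    have hn : 0 < n := by positivity
    have h1 : 8 * C / (n * δ) < Real.pi * g := by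
      have e : n * δ = 8 * (C + 1) / (Real.pi * g) := by
        rw [hndef]
        field_simp
      rw [e, div_div_eq_mul_div, div_lt_iff₀ (by positivity)]
      have h3 : 0 < Real.pi * g := by positivity
      nlinarith
    have h2 : Tendsto (fun T : ℝ => (1 + 2 * δ) * (∫ x in Ioi (0 : ℝ), KK n (1 + δ) x * (N T x / x)) +
        8 * C / (n * δ)) atTop (𝓝 ((1 + 2 * δ) * (Real.pi * m) + 8 * C / (n * δ))) :=
      ((tauA hN hlim hn (by linarith)).const_mul _).add_const _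
    have h3 : (1 + 2 * δ) * (Real.pi * m) + 8 * C / (n * δ) < c * Real.pi := by
      have e : c * Real.pi = (1 + 2 * δ) * (Real.pi * m) + Real.pi * g := by
        rw [hgdef]
        ring
      rw [e]
      linarith
    filter_upwards [hN, h2.eventually (gt_mem_nhds h3)] with T hT h4
    have h5 := TauB_up hn hδ hT.1 hT.2
    exact lt_of_mul_lt_mul_right (lt_of_le_of_lt h5 h4) hpi.le
  have hL : ∀ δ : ℝ, 0 < δ → δ ≤ 1 / 4 → ∀ c : ℝ, c < (1 - 2 * δ) * m → ∀ᶠ T : ℝ in atTop, c < N T 1 := by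
    intro δ hδ hδ1 c hc
    have hd : 0 < 1 - 2 * δ := by linarith
    have hg : 0 < m - c / (1 - 2 * δ) := by
      rw [sub_pos, div_lt_iff₀ hd]
      linarith
    set g : ℝ := m - c / (1 - 2 * δ) with hgdef
    set F : ℝ := ∫ x in Ioi 0 \ Icc (1 - 2 * δ) 1, TauB_far C (1 - δ) x with hF
    set n : ℝ := 4 * (|F| + 1) / (Real.pi * g) with hndef
    have hn : 0 < n := by positivity
    have h1 : 4 / n * F < Real.pi * g := by
      have e : 4 / n = Real.pi * g / (|F| + 1) := by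
        rw [hndef]
        field_simp
      rw [e, div_mul_eq_mul_div, div_lt_iff₀ (by positivity)]
      have h3 : 0 < Real.pi * g := by positivity
      have h4 := le_abs_self F
      nlinarith
    have h2 : Tendsto (fun T : ℝ => (∫ x in Ioi (0 : ℝ), KK n (1 - δ) x * (N T x / x)) - 4 / n * F) atTop
        (𝓝 (Real.pi * m - 4 / n * F)) :=
      (tauA hN hlim hn (by linarith)).sub_const _
    have h3 : c / (1 - 2 * δ) * Real.pi < Real.pi * m - 4 / n * F := by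
      have e : c / (1 - 2 * δ) * Real.pi = Real.pi * m - Real.pi * g := by
        rw [hgdef]
        ring
      rw [e]
      linarith
    filter_upwards [hN, h2.eventually (lt_mem_nhds h3)] with T hT h4
    have h5 := TauB_low hn hδ hδ1 hT.1 hT.2
    have h6 : c / (1 - 2 * δ) * Real.pi < N T 1 / (1 - 2 * δ) * Real.pi := by
      linarith
    have h7 := lt_of_mul_lt_mul_right h6 hpi.le
    exact (div_lt_div_iff_of_pos_right hd).1 h7
  refine tendsto_order.2 ⟨fun a ha => ?_, fun a ha => ?_⟩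
  · have h1 : Tendsto (fun δ : ℝ => (1 - 2 * δ) * m) (𝓝[>] 0) (𝓝 m) := by
      have h2 : Tendsto (fun δ : ℝ => (1 - 2 * δ) * m) (𝓝 0) (𝓝 ((1 - 2 * 0) * m)) :=
        (by fun_prop : Continuous fun δ : ℝ => (1 - 2 * δ) * m).tendsto 0
      rw [mul_zero, sub_zero, one_mul] at h2
      exact h2.mono_left nhdsWithin_le_nhds
    have h3 : ∀ᶠ δ : ℝ in 𝓝[>] 0, δ < 1 / 4 :=
      (gt_mem_nhds (show (0 : ℝ) < 1 / 4 by norm_num)).filter_mono nhdsWithin_le_nhds
    obtain ⟨δ, h4, h5, h6⟩ := ((h1.eventually (lt_mem_nhds ha)).and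
      (h3.and self_mem_nhdsWithin)).exists
    exact hL δ h6 h5.le a h4
  · have h1 : Tendsto (fun δ : ℝ => (1 + 2 * δ) * m) (𝓝[>] 0) (𝓝 m) := by
      have h2 : Tendsto (fun δ : ℝ => (1 + 2 * δ) * m) (𝓝 0) (𝓝 ((1 + 2 * 0) * m)) :=
        (by fun_prop : Continuous fun δ : ℝ => (1 + 2 * δ) * m).tendsto 0
      rw [mul_zero, add_zero, one_mul] at h2
      exact h2.mono_left nhdsWithin_le_nhds
    obtain ⟨δ, h4, h6⟩ := ((h1.eventually (gt_mem_nhds ha)).and self_mem_nhdsWithin).exists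
    exact hU δ h6 a h4

end Pool.Agent.Lib.MP_2a816b_nt.PV
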