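import Pool.Agent.Lib.MP_2a816b_nt.PV.MqLim
import Pool.Agent.Lib.MP_2a816b_nt.PV.MBd
import Pool.Agent.Lib.MP_2a816b_nt.PV.TauB

/-!
# JOB ACLim (about 100 lines): from `Mq` to `AC`
-/

open Complex Set Filter Topology MeasureTheory

namespace Pool.Agent.Lib.MP_2a816b_nt.PV

open Pool.Agent.Lib.MP_00e05b_nt Pool.Agent.Lib.MP_00e05b_nt.Mont

/-- `tauB` for `N T w = (T L² II)⁻¹ AC W (a L) (b L) (w T)`, `m = b - a` (`AC_mono`, `AC_nonneg`, `AC_dom`, `Mq_lim`). -/
theorem AC_lim (hRH : RiemannHypothesis) {W : ℝ → ℝ} (hW : EB W (1 / 8))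
    (hU : ∀ a b : ℝ, 1 ≤ a → a < b → Tendsto (fun T : ℝ => ∫ α in a..b, RR α T) atTop (𝓝 (b - a)))
    {a b : ℝ} (ha : 1 < a) (hab : a < b) :
    Tendsto (fun T : ℝ => (T * Real.log T ^ 2 * II W)⁻¹ * AC W (a * Real.log T) (b * Real.log T) T)
      atTop (𝓝 (b - a)) := by
  have hII : 0 < II W := II_pos hW (by norm_num)
  obtain ⟨C0, hC0, hdom⟩ := AC_dom hRH hW (B := b - a) (by linarith)
  have h := tauB (N := fun T w => (T * Real.log T ^ 2 * II W)⁻¹ *
    AC W (a * Real.log T) (b * Real.log T) (w * T)) (m := b - a) (C := C0 / II W) ?_ ?_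
  · simpa only [one_mul] using h
  · filter_upwards [hdom, eventually_gt_atTop (1 : ℝ)] with T hT hT1
    have hL : 0 < Real.log T := Real.log_pos hT1
    have hT0 : 0 < T := by linarith
    have hK : 0 < (T * Real.log T ^ 2 * II W)⁻¹ := by positivity
    have hab' : a * Real.log T ≤ b * Real.log T := mul_le_mul_of_nonneg_right hab.le hL.le
    refine ⟨?_, fun w hw => ⟨?_, ?_⟩⟩
    · intro w _ w' _ hww
      exact mul_le_mul_of_nonneg_left (AC_mono hW.es (by norm_num) hab'
        (mul_le_mul_of_nonneg_right hww hT0.le)) hK.le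
    · exact mul_nonneg hK.le (AC_nonneg W hab' (by positivity))
    · have h1 := hT _ _ w hab' (le_of_eq (by ring)) hw
      calc (T * Real.log T ^ 2 * II W)⁻¹ * AC W (a * Real.log T) (b * Real.log T) (w * T)
          ≤ (T * Real.log T ^ 2 * II W)⁻¹ * (C0 * (T * Real.log T ^ 2) * (√w + w * √w)) :=
            mul_le_mul_of_nonneg_left h1 hK.le
        _ = C0 / II W * (√w + w * √w) := by
            field_simp
  · intro ξ hξ
    have h1 := (Mq_lim hRH hW hU ha hab hξ).const_mul Real.pi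
    refine h1.congr fun T => ?_
    show Real.pi * ((Real.pi * (T * Real.log T ^ 2) * II W)⁻¹ *
      Mq W (a * Real.log T) (b * Real.log T) (ξ * T)) =
      ∫ w in Ioi (0 : ℝ), qq w * ((T * Real.log T ^ 2 * II W)⁻¹ *
        AC W (a * Real.log T) (b * Real.log T) (ξ * w * T))
    have h2 : Real.pi * (Real.pi * (T * Real.log T ^ 2) * II W)⁻¹ = (T * Real.log T ^ 2 * II W)⁻¹ := by
      rw [mul_assoc Real.pi, mul_inv Real.pi, mul_inv_cancel_left₀ Real.pi_ne_zero]
    unfold Mq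
    rw [← mul_assoc, h2, ← integral_const_mul]
    refine setIntegral_congr_fun measurableSet_Ioi fun w _ => ?_
    show (T * Real.log T ^ 2 * II W)⁻¹ * (qq w * AC W (a * Real.log T) (b * Real.log T) (w * (ξ * T))) =
      qq w * ((T * Real.log T ^ 2 * II W)⁻¹ * AC W (a * Real.log T) (b * Real.log T) (ξ * w * T))
    rw [show ξ * w * T = w * (ξ * T) by ring]
    ring

end Pool.Agent.Lib.MP_2a816b_nt.PV
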