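import Pool.Agent.Lib.MP_2a816b_nt.PV.ACQS
import Pool.Agent.Lib.MP_2a816b_nt.PV.FFQS
import Pool.Agent.Lib.MP_2a816b_nt.PV.MassBd

/-!
# JOB FfA (about 180 lines): from `AC` to `FF`
-/

open Complex Set Filter Topology MeasureTheory

namespace Pool.Agent.Lib.MP_2a816b_nt.PV

open Pool.Agent.Lib.MP_00e05b_nt Pool.Agent.Lib.MP_00e05b_nt.Mont

private lemma FfA_err (K : ℝ) : Tendsto (fun t : ℝ => K * (Real.log t ^ 2 / t)) atTop (𝓝 0) := by
  have h := (Real.isLittleO_pow_log_id_atTop (n := 2)).tendsto_div_nhds_zero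
  have h2 := h.const_mul K
  rw [mul_zero] at h2
  exact h2

private lemma FfA_m {K ε : ℝ} (hK : 0 ≤ K) (hε : 0 < ε) : ∃ m : ℝ, 0 ≤ m ∧ Real.exp (-(2 * m)) * K ≤ ε := by
  refine ⟨K / ε, by positivity, ?_⟩
  have h1 := Real.add_one_le_exp (2 * (K / ε))
  have h2 : Real.exp (-(2 * (K / ε))) = (Real.exp (2 * (K / ε)))⁻¹ := Real.exp_neg _
  have h3 : (Real.exp (2 * (K / ε)))⁻¹ ≤ (2 * (K / ε) + 1)⁻¹ := inv_anti₀ (by positivity) h1
  rw [h2]
  have h4 : (2 * (K / ε) + 1)⁻¹ * K ≤ ε := by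
    rw [inv_mul_le_iff₀ (by positivity)]
    have h5 : (2 * (K / ε) + 1) * ε = 2 * K + ε := by
      field_simp
    rw [h5]
    linarith
  exact (mul_le_mul_of_nonneg_right h3 hK).trans h4

private lemma FfA_N0 (t : ℝ) : 2 * Real.pi * (N0 t * Real.log t) = t * Real.log t ^ 2 := by
  have hN1 : N0 t = t / (2 * Real.pi) * Real.log t := rfl
  have hpi := Real.pi_pos
  rw [hN1]
  field_simp

private lemma FfA_upper (hRH : RiemannHypothesis) {W : ℝ → ℝ} (hW : EB W (1 / 8))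
    (h : ∀ a b : ℝ, 1 < a → a < b →
      Tendsto (fun T : ℝ => (T * Real.log T ^ 2 * II W)⁻¹ * AC W (a * Real.log T) (b * Real.log T) T) atTop (𝓝 (b - a)))
    {a b : ℝ} (ha : 1 < a) (hab : a < b) {y : ℝ} (hy : b - a < y) :
    ∀ᶠ t : ℝ in atTop, ∫ α in a..b, FF α t < y := by
  obtain ⟨C1, hC1, h1⟩ := AC_QS hRH hW
  obtain ⟨C2, hC2, h2⟩ := mass_bd hRH
  have hII : 0 < II W := II_pos hW (by norm_num)
  set ε : ℝ := y - (b - a) with hε
  have hε0 : 0 < ε := by linarith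
  set δ : ℝ := min ((a - 1) / 2) (ε / 16) with hδ
  have hδ0 : 0 < δ := lt_min (by linarith) (by linarith)
  have hδ1 : δ ≤ (a - 1) / 2 := min_le_left _ _
  have hδ2 : δ ≤ ε / 16 := min_le_right _ _
  have hba : 0 < b - a := by linarith
  obtain ⟨m, hm0, hm⟩ := FfA_m (K := 2 * C2 * (b - a + 1)) (ε := ε / 8) (by positivity) (by linarith)
  have hA := (tendsto_order.1 (h (a - δ) (b + δ) (by linarith) (by linarith))).2 ((b + δ) - (a - δ) + ε / 8)
    (by linarith)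
  have hE := (tendsto_order.1 (FfA_err (C1 * (b - a + 2 * δ) / II W))).2 (ε / 8) (by linarith)
  have hlog := Real.tendsto_log_atTop.eventually_ge_atTop ((m + 1 / 8) / δ)
  filter_upwards [hA, hE, h2, hlog, eventually_ge_atTop (2 : ℝ)] with t hA hE hM hlt ht
  have ht1 : 1 < t := by linarith
  have hl : 0 < Real.log t := Real.log_pos ht1
  set ℓ : ℝ := Real.log t with hℓ
  have hN : 0 < N0 t := N0_pos ht1
  have hN0 := FfA_N0 t
  have hml : m + 1 / 8 ≤ δ * ℓ := by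
    rw [div_le_iff₀ hδ0] at hlt
    linarith
  have hQ := QS_ge ht1 hab.le hm0
  have hM1 := hM (a + m / ℓ) (b + m / ℓ) (by linarith)
  have hM2 := hM (a - m / ℓ) (b - m / ℓ) (by linarith)
  have hab' : a * ℓ ≤ b * ℓ := mul_le_mul_of_nonneg_right hab.le hl.le
  have hA1 := (h1 t ht (a * ℓ - m - 1 / 8) (b * ℓ + m + 1 / 8) (by linarith)).1
  have e1 : a * ℓ - m - 1 / 8 + 1 / 8 = a * ℓ - m := by ring
  have e2 : b * ℓ + m + 1 / 8 - 1 / 8 = b * ℓ + m := by ring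
  rw [e1, e2] at hA1
  have hA2 := AC_mono_c hW.es (by norm_num) (c1 := a * ℓ - m - 1 / 8) (c2 := b * ℓ + m + 1 / 8) (d1 := (a - δ) * ℓ)
    (d2 := (b + δ) * ℓ) (t := t) (by nlinarith) (by nlinarith) (by nlinarith) (by linarith)
  have hP : 0 < t * ℓ ^ 2 * II W := by positivity
  have hAC : AC W ((a - δ) * ℓ) ((b + δ) * ℓ) t <
      (t * ℓ ^ 2 * II W) * ((b + δ) - (a - δ) + ε / 8) := by
    rw [inv_mul_lt_iff₀ hP] at hA
    exact hA
  have hE2 : C1 * ((b * ℓ + m + 1 / 8) - (a * ℓ - m - 1 / 8)) * ℓ ^ 3 ≤ (t * ℓ ^ 2 * II W) * (ε / 8) := by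
    have h3 : C1 * ((b * ℓ + m + 1 / 8) - (a * ℓ - m - 1 / 8)) * ℓ ^ 3 ≤ C1 * ((b - a + 2 * δ) * ℓ) * ℓ ^ 3 := by
      apply mul_le_mul_of_nonneg_right _ (by positivity)
      apply mul_le_mul_of_nonneg_left _ hC1
      nlinarith
    have h4 : C1 * ((b - a + 2 * δ) * ℓ) * ℓ ^ 3 =
        (t * ℓ ^ 2 * II W) * (C1 * (b - a + 2 * δ) / II W * (ℓ ^ 2 / t)) := by
      field_simp
    have h5 := mul_le_mul_of_nonneg_left hE.le hP.le
    linarith
  have hM3 : Real.exp (-(2 * m)) * (N0 t * ℓ) *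
      ((∫ α in (a + m / ℓ)..(b + m / ℓ), FF α t) + ∫ α in (a - m / ℓ)..(b - m / ℓ), FF α t) ≤
      (N0 t * ℓ) * (ε / 8) := by
    have h3 : (∫ α in (a + m / ℓ)..(b + m / ℓ), FF α t) + (∫ α in (a - m / ℓ)..(b - m / ℓ), FF α t) ≤
        2 * C2 * (b - a + 1) := by
      have e3 : C2 * (b + m / ℓ - (a + m / ℓ) + 1) = C2 * (b - a + 1) := by ring
      have e4 : C2 * (b - m / ℓ - (a - m / ℓ) + 1) = C2 * (b - a + 1) := by ring
      rw [e3] at hM1
      rw [e4] at hM2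
      linarith
    have h4 := mul_le_mul_of_nonneg_left h3 (by positivity : 0 ≤ Real.exp (-(2 * m)) * (N0 t * ℓ))
    have h5 := mul_le_mul_of_nonneg_left hm (by positivity : 0 ≤ N0 t * ℓ)
    have h6 : Real.exp (-(2 * m)) * (N0 t * ℓ) * (2 * C2 * (b - a + 1)) =
        N0 t * ℓ * (Real.exp (-(2 * m)) * (2 * C2 * (b - a + 1))) := by ring
    linarith
  have hfin : (t * ℓ ^ 2 * II W) * (∫ α in a..b, FF α t) < (t * ℓ ^ 2 * II W) * y := by
    have h3 : (t * ℓ ^ 2 * II W) * (∫ α in a..b, FF α t) =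
        2 * Real.pi * II W * (N0 t * ℓ * ∫ α in a..b, FF α t) := by
      rw [← hN0]
      ring
    have h4 := mul_le_mul_of_nonneg_left hQ (by positivity : 0 ≤ 2 * Real.pi * II W)
    have h5 := mul_le_mul_of_nonneg_left hM3 (by positivity : 0 ≤ 2 * Real.pi * II W)
    have h6 : 2 * Real.pi * II W * ((N0 t * ℓ) * (ε / 8)) = (t * ℓ ^ 2 * II W) * (ε / 8) := by
      rw [← hN0]
      ring
    have h7 : (t * ℓ ^ 2 * II W) * ((b + δ) - (a - δ) + ε / 8 + ε / 8 + ε / 8) < (t * ℓ ^ 2 * II W) * y := by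
      apply mul_lt_mul_of_pos_left _ hP
      linarith
    rw [h3]
    rw [h6] at h5
    calc 2 * Real.pi * II W * (N0 t * ℓ * ∫ α in a..b, FF α t)
        ≤ 2 * Real.pi * II W * (QS t (a * ℓ - m) (b * ℓ + m)) + (t * ℓ ^ 2 * II W) * (ε / 8) := by
          linarith
      _ ≤ AC W (a * ℓ - m - 1 / 8) (b * ℓ + m + 1 / 8) t +
          C1 * ((b * ℓ + m + 1 / 8) - (a * ℓ - m - 1 / 8)) * ℓ ^ 3 + (t * ℓ ^ 2 * II W) * (ε / 8) := by
          linarith
      _ < (t * ℓ ^ 2 * II W) * ((b + δ) - (a - δ) + ε / 8 + ε / 8 + ε / 8) := by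
          nlinarith
      _ < _ := h7
  exact lt_of_mul_lt_mul_left hfin hP.le

private lemma FfA_lower (hRH : RiemannHypothesis) {W : ℝ → ℝ} (hW : EB W (1 / 8))
    (h : ∀ a b : ℝ, 1 < a → a < b →
      Tendsto (fun T : ℝ => (T * Real.log T ^ 2 * II W)⁻¹ * AC W (a * Real.log T) (b * Real.log T) T) atTop (𝓝 (b - a)))
    {a b : ℝ} (ha : 1 < a) (hab : a < b) {y : ℝ} (hy : y < b - a) :
    ∀ᶠ t : ℝ in atTop, y < ∫ α in a..b, FF α t := by
  obtain ⟨C1, hC1, h1⟩ := AC_QS hRH hW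
  have hII : 0 < II W := II_pos hW (by norm_num)
  have hba : 0 < b - a := by linarith
  set ε : ℝ := (b - a) - y with hε
  have hε0 : 0 < ε := by linarith
  set δ : ℝ := min ((b - a) / 4) (ε / 16) with hδ
  have hδ0 : 0 < δ := lt_min (by linarith) (by linarith)
  have hδ1 : δ ≤ (b - a) / 4 := min_le_left _ _
  have hδ2 : δ ≤ ε / 16 := min_le_right _ _
  obtain ⟨m, hm0, hm⟩ := FfA_m (K := b - a) (ε := ε / 8) hba.le (by linarith)
  have hA := (tendsto_order.1 (h (a + δ) (b - δ) (by linarith) (by linarith))).1 ((b - δ) - (a + δ) - ε / 8)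
    (by linarith)
  have hE := (tendsto_order.1 (FfA_err (C1 * (b - a) / II W))).2 (ε / 8) (by linarith)
  have hlog := Real.tendsto_log_atTop.eventually_ge_atTop ((m + 1 / 8) / δ)
  filter_upwards [hA, hE, hlog, eventually_ge_atTop (2 : ℝ)] with t hA hE hlt ht
  have ht1 : 1 < t := by linarith
  have hl : 0 < Real.log t := Real.log_pos ht1
  set ℓ : ℝ := Real.log t with hℓ
  have hN : 0 < N0 t := N0_pos ht1
  have hN0 := FfA_N0 t
  have hml : m + 1 / 8 ≤ δ * ℓ := by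
    rw [div_le_iff₀ hδ0] at hlt
    linarith
  have hP : 0 < t * ℓ ^ 2 * II W := by positivity
  have hcc : (a + δ) * ℓ ≤ (b - δ) * ℓ := by
    apply mul_le_mul_of_nonneg_right _ hl.le
    linarith
  have hA1 := (h1 t ht ((a + δ) * ℓ) ((b - δ) * ℓ) hcc).2
  have hQ := QS_le ht1 (c1 := (a + δ) * ℓ - 1 / 8) (c2 := (b - δ) * ℓ + 1 / 8) (by linarith) hm0
  have hAC : (t * ℓ ^ 2 * II W) * ((b - δ) - (a + δ) - ε / 8) <
      AC W ((a + δ) * ℓ) ((b - δ) * ℓ) t := by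
    rw [lt_inv_mul_iff₀ hP] at hA
    exact hA
  have hcont : Continuous (fun α => FF α t) := FF_continuous (by linarith)
  have hI : ∫ α in (((a + δ) * ℓ - 1 / 8 - m) / ℓ)..(((b - δ) * ℓ + 1 / 8 + m) / ℓ), FF α t ≤ ∫ α in a..b, FF α t := by
    apply intervalIntegral.integral_mono_interval
    · rw [le_div_iff₀ hl]
      nlinarith
    · apply div_le_div_of_nonneg_right _ hl.le
      linarith
    · rw [div_le_iff₀ hl]
      nlinarith
    · exact Filter.Eventually.of_forall (fun α => FF_nonneg ht1 α)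
    · exact hcont.intervalIntegrable _ _
  set e : ℝ := Real.exp (-(2 * m)) with he
  have he0 : 0 < e := Real.exp_pos _
  have he1 : e ≤ 1 := by
    rw [he]
    exact Real.exp_le_one_iff.2 (by linarith)
  have hI0 : 0 ≤ ∫ α in a..b, FF α t := intervalIntegral.integral_nonneg hab.le (fun α _ => FF_nonneg ht1 α)
  have hE2 : C1 * ((b - δ) * ℓ - (a + δ) * ℓ) * ℓ ^ 3 ≤ (t * ℓ ^ 2 * II W) * (ε / 8) := by
    have h3 : C1 * ((b - δ) * ℓ - (a + δ) * ℓ) * ℓ ^ 3 ≤ C1 * ((b - a) * ℓ) * ℓ ^ 3 := by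
      apply mul_le_mul_of_nonneg_right _ (by positivity)
      apply mul_le_mul_of_nonneg_left _ hC1
      nlinarith
    have h4 : C1 * ((b - a) * ℓ) * ℓ ^ 3 =
        (t * ℓ ^ 2 * II W) * (C1 * (b - a) / II W * (ℓ ^ 2 / t)) := by
      field_simp
    have h5 := mul_le_mul_of_nonneg_left hE.le hP.le
    linarith
  -- `(1 - e) AC ≤ P I + P ε/8`
  have h3 : (1 - e) * AC W ((a + δ) * ℓ) ((b - δ) * ℓ) t ≤
      (t * ℓ ^ 2 * II W) * (∫ α in a..b, FF α t) + (t * ℓ ^ 2 * II W) * (ε / 8) := by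
    have h4 : (1 - e) * AC W ((a + δ) * ℓ) ((b - δ) * ℓ) t ≤
        (1 - e) * (2 * Real.pi * II W * QS t ((a + δ) * ℓ - 1 / 8) ((b - δ) * ℓ + 1 / 8) +
          (t * ℓ ^ 2 * II W) * (ε / 8)) := by
      apply mul_le_mul_of_nonneg_left _ (by linarith)
      linarith
    have h5 : (1 - e) * ((t * ℓ ^ 2 * II W) * (ε / 8)) ≤ 1 * ((t * ℓ ^ 2 * II W) * (ε / 8)) := by
      apply mul_le_mul_of_nonneg_right _ (by positivity)
      linarith
    have h6 : 2 * Real.pi * II W * ((1 - e) * QS t ((a + δ) * ℓ - 1 / 8) ((b - δ) * ℓ + 1 / 8)) ≤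
        2 * Real.pi * II W * (N0 t * ℓ * ∫ α in a..b, FF α t) := by
      apply mul_le_mul_of_nonneg_left _ (by positivity)
      refine hQ.trans ?_
      exact mul_le_mul_of_nonneg_left hI (by positivity)
    have h7 : (t * ℓ ^ 2 * II W) * (∫ α in a..b, FF α t) =
        2 * Real.pi * II W * (N0 t * ℓ * ∫ α in a..b, FF α t) := by
      rw [← hN0]
      ring
    rw [h7]
    nlinarith
  have h8 : (1 - e) * ((t * ℓ ^ 2 * II W) * ((b - δ) - (a + δ) - ε / 8)) ≤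
      (1 - e) * AC W ((a + δ) * ℓ) ((b - δ) * ℓ) t :=
    mul_le_mul_of_nonneg_left hAC.le (by linarith)
  have h9 : (t * ℓ ^ 2 * II W) * y <
      (1 - e) * ((t * ℓ ^ 2 * II W) * ((b - δ) - (a + δ) - ε / 8)) - (t * ℓ ^ 2 * II W) * (ε / 8) := by
    have h10 : y < (1 - e) * ((b - δ) - (a + δ) - ε / 8) - ε / 8 := by
      have h11 : e * ((b - δ) - (a + δ) - ε / 8) ≤ e * (b - a) := by
        apply mul_le_mul_of_nonneg_left _ he0.le
        linarith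
      nlinarith
    have h12 := mul_lt_mul_of_pos_left h10 hP
    linarith
  have hfin : (t * ℓ ^ 2 * II W) * y < (t * ℓ ^ 2 * II W) * (∫ α in a..b, FF α t) := by
    linarith
  exact lt_of_mul_lt_mul_left hfin hP.le

/-- `ℓ = log t`, `2π N0 t ℓ = t ℓ²`. Upper bound: `QS_ge` on `[a, b]` with a fixed large `m`, `mass_bd` for the two shifted integrals, and
`AC_QS` with `c1 + 1/8 = a ℓ - m`, `c2 - 1/8 = b ℓ + m`, `AC_mono_c` to pass to `AC W ((a - δ) ℓ) ((b + δ) ℓ) t` (`a - δ > 1`):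
`∫_a^b FF ≤ (t ℓ² II)⁻¹ AC W ((a - δ) ℓ) ((b + δ) ℓ) t + o(1) + 2 C e^(-2m) (b - a + 1)`. Lower bound: `AC_QS`, `QS_le`:
`(t ℓ² II)⁻¹ AC W ((a + δ) ℓ) ((b - δ) ℓ) t ≤ (1 - e^(-2m))⁻¹ ∫_a^b FF + o(1)`. -/
theorem FF_of_AC (hRH : RiemannHypothesis) {W : ℝ → ℝ} (hW : EB W (1 / 8))
    (h : ∀ a b : ℝ, 1 < a → a < b →
      Tendsto (fun T : ℝ => (T * Real.log T ^ 2 * II W)⁻¹ * AC W (a * Real.log T) (b * Real.log T) T) atTop (𝓝 (b - a)))
    {a b : ℝ} (ha : 1 < a) (hab : a < b) :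
    Tendsto (fun t : ℝ => ∫ α in a..b, FF α t) atTop (𝓝 (b - a)) :=
  tendsto_order.2 ⟨fun _ hy => FfA_lower hRH hW h ha hab hy, fun _ hy => FfA_upper hRH hW h ha hab hy⟩

end Pool.Agent.Lib.MP_2a816b_nt.PV
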