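import Pool.Agent.Lib.MP_2a816b_nt.PV.Fend
import Pool.Agent.Lib.MP_2a816b_nt.PV.FfA
import Pool.Agent.Lib.MP_2a816b_nt.PV.ACLim

/-!
# JOB FFRR (about 80 lines): from the variance to `FF`
-/

open Complex Set Filter Topology MeasureTheory

namespace Pool.Agent.Lib.MP_2a816b_nt.PV

open Pool.Agent.Lib.MP_00e05b_nt Pool.Agent.Lib.MP_00e05b_nt.Mont

/-- `AC_lim`, `FF_of_AC` for `a > 1`; for `a = 1` split at `1 + δ`, `F_end`, `FF_nonneg`, `δ → 0`. (`exists_EB`.) -/
theorem FF_of_RR (hRH : RiemannHypothesis)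
    (hU : ∀ a b : ℝ, 1 ≤ a → a < b → Tendsto (fun T : ℝ => ∫ α in a..b, RR α T) atTop (𝓝 (b - a))) :
    ∀ a b : ℝ, 1 ≤ a → a < b → Tendsto (fun t : ℝ => ∫ α in a..b, FF α t) atTop (𝓝 (b - a)) := by
  obtain ⟨W, hW⟩ := exists_EB (1 / 8) (by norm_num)
  have hFF : ∀ a b : ℝ, 1 < a → a < b →
      Tendsto (fun t : ℝ => ∫ α in a..b, FF α t) atTop (𝓝 (b - a)) :=
    fun a b ha hab => FF_of_AC hRH hW (fun a b ha hab => AC_lim hRH hW hU ha hab) ha hab
  intro a b ha hab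
  rcases ha.lt_or_eq with ha1 | ha1
  · exact hFF a b ha1 hab
  subst ha1
  obtain ⟨C, hC, hend⟩ := F_end hRH hW hU
  have hsplit : ∀ δ : ℝ, ∀ t : ℝ, 1 < t → ∫ α in (1 : ℝ)..b, FF α t =
      (∫ α in (1 : ℝ)..(1 + δ), FF α t) + ∫ α in (1 + δ)..b, FF α t := by
    intro δ t ht
    have hc : Continuous (fun α => FF α t) := FF_continuous (by linarith)
    exact (intervalIntegral.integral_add_adjacent_intervals (hc.intervalIntegrable _ _)
      (hc.intervalIntegrable _ _)).symm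
  refine tendsto_order.2 ⟨fun c hc => ?_, fun c hc => ?_⟩
  · obtain ⟨δ, hδ, hδ1, hδ2⟩ : ∃ δ : ℝ, 0 < δ ∧ 1 + δ < b ∧ c < b - (1 + δ) := by
      refine ⟨min ((b - 1) / 2) ((b - 1 - c) / 2), lt_min (by linarith) (by linarith), ?_, ?_⟩
      · have := min_le_left ((b - 1) / 2) ((b - 1 - c) / 2)
        linarith
      · have := min_le_right ((b - 1) / 2) ((b - 1 - c) / 2)
        linarith
    filter_upwards [(hFF (1 + δ) b (by linarith) hδ1).eventually (lt_mem_nhds hδ2),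
      eventually_gt_atTop (1 : ℝ)] with t h1 ht
    have h2 : 0 ≤ ∫ α in (1 : ℝ)..(1 + δ), FF α t :=
      intervalIntegral.integral_nonneg (by linarith) fun α _ => FF_nonneg ht α
    rw [hsplit δ t ht]
    linarith
  · obtain ⟨δ, hδ, hδ0, hδ1, hδ2⟩ : ∃ δ : ℝ, 0 < δ ∧ δ ≤ 1 / 4 ∧ 1 + δ < b ∧
        b - (1 + δ) < c - C * δ := by
      have hg : 0 < (c - (b - 1)) / (2 * (C + 1)) := div_pos (by linarith) (by linarith)
      refine ⟨min (1 / 4) (min ((b - 1) / 2) ((c - (b - 1)) / (2 * (C + 1)))),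
        lt_min (by norm_num) (lt_min (by linarith) hg), min_le_left _ _, ?_, ?_⟩
      · have := (min_le_right (1 / 4) (min ((b - 1) / 2) ((c - (b - 1)) / (2 * (C + 1))))).trans
          (min_le_left _ _)
        linarith
      · set δ : ℝ := min (1 / 4) (min ((b - 1) / 2) ((c - (b - 1)) / (2 * (C + 1)))) with hδdef
        have h1 : δ ≤ (c - (b - 1)) / (2 * (C + 1)) :=
          (min_le_right (1 / 4) (min ((b - 1) / 2) ((c - (b - 1)) / (2 * (C + 1))))).trans
            (min_le_right _ _)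
        have h0 : 0 < δ := lt_min (by norm_num) (lt_min (by linarith) hg)
        rw [le_div_iff₀ (by linarith)] at h1
        nlinarith
    filter_upwards [(hFF (1 + δ) b (by linarith) hδ1).eventually (gt_mem_nhds hδ2), hend δ hδ hδ0,
      eventually_gt_atTop (1 : ℝ)] with t h1 h2 ht
    rw [hsplit δ t ht]
    linarith

end Pool.Agent.Lib.MP_2a816b_nt.PV
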