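import Pool.Agent.Lib.MP_2a816b_nt.PV.ACQS
import Pool.Agent.Lib.MP_2a816b_nt.PV.FFQS
import Pool.Agent.Lib.MP_00e05b_nt.Mont.FMass

/-!
# JOB ACup (about 160 lines): upper bound for `AC` from `FF`
-/

open Complex Set Filter Topology MeasureTheory

namespace Pool.Agent.Lib.MP_2a816b_nt.PV

open Pool.Agent.Lib.MP_00e05b_nt Pool.Agent.Lib.MP_00e05b_nt.Mont

private theorem ACup_half {t z : ℝ} (ht : 0 < t) :
    ∫ α in z..1, FF α t = ((∫ α in (-1 : ℝ)..1, FF α t) - ∫ α in (-z)..z, FF α t) / 2 := by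
  have hc : ∀ a b : ℝ, IntervalIntegrable (fun α => FF α t) volume a b := fun a b =>
    (FF_continuous ht).intervalIntegrable a b
  have h1 : (∫ α in (-1 : ℝ)..(-z), FF α t) + (∫ α in (-z)..z, FF α t) = ∫ α in (-1 : ℝ)..z, FF α t :=
    intervalIntegral.integral_add_adjacent_intervals (hc _ _) (hc _ _)
  have h2 : (∫ α in (-1 : ℝ)..z, FF α t) + (∫ α in z..1, FF α t) = ∫ α in (-1 : ℝ)..1, FF α t :=
    intervalIntegral.integral_add_adjacent_intervals (hc _ _) (hc _ _)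
  have h3 : (∫ α in (-1 : ℝ)..(-z), FF α t) = ∫ α in z..1, FF α t := by
    have h4 : (∫ α in z..1, FF (-α) t) = ∫ α in (-1 : ℝ)..(-z), FF α t :=
      intervalIntegral.integral_comp_neg (fun α => FF α t)
    rw [← h4]
    apply intervalIntegral.integral_congr
    intro α _
    exact FF_even ht α
  linarith

private theorem ACup_FFlim (hRH : RiemannHypothesis)
    (hF : ∀ a b : ℝ, 1 ≤ a → a < b → Tendsto (fun t : ℝ => ∫ α in a..b, FF α t) atTop (𝓝 (b - a)))
    {z Y : ℝ} (hz : 0 < z) (hY : 1 < Y) (hzY : z < Y) :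
    ∃ M : ℝ, M ≤ Y - z ∧ Tendsto (fun t : ℝ => ∫ α in z..Y, FF α t) atTop (𝓝 M) := by
  by_cases h : 1 ≤ z
  · exact ⟨Y - z, le_rfl, hF z Y h hzY⟩
  · push Not at h
    refine ⟨((1 + 1 ^ 2) - (1 + z ^ 2)) / 2 + (Y - 1), by nlinarith, ?_⟩
    have h1 := FF_mass hRH (x := 1) one_pos le_rfl
    have h2 := FF_mass hRH (x := z) hz h.le
    have h3 := hF 1 Y le_rfl hY
    have h4 := ((h1.sub h2).div_const 2).add h3
    refine h4.congr' ?_
    filter_upwards [eventually_gt_atTop (0 : ℝ)] with t ht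
    have hc : ∀ a b : ℝ, IntervalIntegrable (fun α => FF α t) volume a b := fun a b =>
      (FF_continuous ht).intervalIntegrable a b
    have h5 : (∫ α in z..1, FF α t) + (∫ α in (1 : ℝ)..Y, FF α t) = ∫ α in z..Y, FF α t :=
      intervalIntegral.integral_add_adjacent_intervals (hc _ _) (hc _ _)
    rw [← h5, ACup_half (z := z) ht]

private theorem ACup_log {w : ℝ} (hw : 0 < w) :
    Tendsto (fun T : ℝ => Real.log (w * T) / Real.log T) atTop (𝓝 1) := by
  have h1 : Tendsto (fun T : ℝ => Real.log w / Real.log T + 1) atTop (𝓝 (0 + 1)) :=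
    (Tendsto.div_atTop tendsto_const_nhds Real.tendsto_log_atTop).add_const 1
  rw [zero_add] at h1
  refine h1.congr' ?_
  filter_upwards [eventually_gt_atTop (1 : ℝ)] with T hT
  have hL : 0 < Real.log T := Real.log_pos hT
  rw [Real.log_mul hw.ne' (by linarith)]
  field_simp

private theorem ACup_lin {w : ℝ} (hw : 0 < w) (x q : ℝ) :
    Tendsto (fun T : ℝ => (x * Real.log T + q) / Real.log (w * T)) atTop (𝓝 x) := by
  have h0 := ACup_log hw
  have h1 : Tendsto (fun T : ℝ => x + q / Real.log T) atTop (𝓝 (x + 0)) :=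
    tendsto_const_nhds.add (Tendsto.div_atTop tendsto_const_nhds Real.tendsto_log_atTop)
  have h2 := h1.div h0 one_ne_zero
  rw [add_zero, div_one] at h2
  refine h2.congr' ?_
  have h3 : ∀ᶠ T : ℝ in atTop, 1 < w * T := by
    have := (tendsto_id (α := ℝ) (x := atTop)).const_mul_atTop hw
    exact this.eventually_gt_atTop 1
  filter_upwards [eventually_gt_atTop (1 : ℝ), h3] with T hT hT3
  have hL : 0 < Real.log T := Real.log_pos hT
  have hL2 : 0 < Real.log (w * T) := Real.log_pos hT3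
  simp only [Pi.div_apply]
  field_simp

private theorem ACup_err {w : ℝ} (hw : 0 < w) (x y C I : ℝ) (hI : 0 < I) :
    Tendsto (fun T : ℝ => (T * Real.log T ^ 2 * I)⁻¹ *
      (C * ((y * Real.log T + 1) - (x * Real.log T - 2)) * Real.log (w * T) ^ 3)) atTop (𝓝 0) := by
  have h0 := ACup_log hw
  have h1 : Tendsto (fun T : ℝ => (y - x) + 3 / Real.log T) atTop (𝓝 ((y - x) + 0)) :=
    tendsto_const_nhds.add (Tendsto.div_atTop tendsto_const_nhds Real.tendsto_log_atTop)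
  have h2 : Tendsto (fun T : ℝ => Real.log T ^ 2 / T) atTop (𝓝 0) := by
    have := (Real.isLittleO_pow_log_id_atTop (n := 2)).tendsto_div_nhds_zero
    simpa using this
  have h3 := ((h1.mul (h0.pow 3)).mul h2).const_mul (C * I⁻¹)
  rw [mul_zero, mul_zero] at h3
  refine h3.congr' ?_
  filter_upwards [eventually_gt_atTop (1 : ℝ)] with T hT
  have hL : 0 < Real.log T := Real.log_pos hT
  have hT0 : 0 < T := by linarith
  field_simp
  ring

/-- `t = w T`, `ℓ = log t`, `ℓ/L → 1`. `AC_QS`, `QS_le` with a large fixed `m`: with `x' = (x L - 2 - 1/8 - m)/ℓ ≥ x - κ'`,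
`y' = (y L + 1 + 1/8 + m)/ℓ ≤ y + κ'`: `(T L² II)⁻¹ AC ≤ (1 - e^(-2m))⁻¹ w (ℓ/L)² ∫_{x - κ'}^{y + κ'} FF α t + o(1)`. If `x - κ' < 1`
split at `1`: `∫_z^1 FF → (1 - z²)/2 ≤ 1 - z` for `0 < z < 1` (`FF_mass`, `FF_even`). So the limsup is `≤ w (y - x + ..)`. -/
theorem AC_upper (hRH : RiemannHypothesis) {W : ℝ → ℝ} (hW : EB W (1 / 8))
    (hF : ∀ a b : ℝ, 1 ≤ a → a < b → Tendsto (fun t : ℝ => ∫ α in a..b, FF α t) atTop (𝓝 (b - a)))
    {x y κ w : ℝ} (hx : 1 / 2 ≤ x) (hy : 1 < y) (hxy : x < y) (hκ : 0 < κ) (hw : 0 < w) :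
    ∀ᶠ T : ℝ in atTop, (T * Real.log T ^ 2 * II W)⁻¹ *
      AC W (x * Real.log T - 2) (y * Real.log T + 1) (w * T) ≤ w * (y - x + κ) := by
  have hII : 0 < II W := II_pos hW (by norm_num)
  obtain ⟨C, hC, hQ⟩ := AC_QS hRH hW
  obtain ⟨k, hk0, hk1, hk2⟩ : ∃ k : ℝ, 0 < k ∧ k ≤ κ / 8 ∧ k ≤ 1 / 4 :=
    ⟨min (κ / 8) (1 / 4), lt_min (by positivity) (by norm_num), min_le_left _ _, min_le_right _ _⟩
  obtain ⟨M, hM, hMt⟩ := ACup_FFlim hRH hF (z := x - k) (Y := y + k) (by linarith) (by linarith) (by linarith)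
  obtain ⟨m, hm0, hm⟩ : ∃ m : ℝ, 0 < m ∧ (1 - Real.exp (-(2 * m)))⁻¹ * (y - x + 2 * k) < y - x + κ / 2 := by
    have h1 : Tendsto (fun m : ℝ => Real.exp (-(2 * m))) atTop (𝓝 0) :=
      Real.tendsto_exp_neg_atTop_nhds_zero.comp (tendsto_id.const_mul_atTop (by norm_num : (0 : ℝ) < 2))
    have h2 : Tendsto (fun m : ℝ => (1 - Real.exp (-(2 * m)))⁻¹ * (y - x + 2 * k)) atTop
        (𝓝 ((1 - 0)⁻¹ * (y - x + 2 * k))) :=
      ((tendsto_const_nhds.sub h1).inv₀ (by norm_num)).mul_const _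
    have h3 : (1 - 0)⁻¹ * (y - x + 2 * k) < y - x + κ / 2 := by
      rw [sub_zero, inv_one, one_mul]; linarith
    obtain ⟨m, hm1, hm2⟩ := ((h2.eventually_lt_const h3).and (eventually_gt_atTop (0 : ℝ))).exists
    exact ⟨m, hm2, hm1⟩
  have hE1 : Real.exp (-(2 * m)) < 1 := by
    rw [← Real.exp_zero]
    exact Real.exp_lt_exp.2 (by linarith)
  have hE : 0 < 1 - Real.exp (-(2 * m)) := by linarith
  have hwT : Tendsto (fun T : ℝ => w * T) atTop atTop := tendsto_id.const_mul_atTop hw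
  have hlim : Tendsto (fun T : ℝ => (1 - Real.exp (-(2 * m)))⁻¹ * (w * (Real.log (w * T) / Real.log T) ^ 2) *
      (∫ α in (x - k)..(y + k), FF α (w * T)) + (T * Real.log T ^ 2 * II W)⁻¹ *
      (C * ((y * Real.log T + 1) - (x * Real.log T - 2)) * Real.log (w * T) ^ 3)) atTop
      (𝓝 ((1 - Real.exp (-(2 * m)))⁻¹ * (w * 1 ^ 2) * M + 0)) :=
    (((((ACup_log hw).pow 2).const_mul w).const_mul _).mul (hMt.comp hwT)).add (ACup_err hw x y C (II W) hII)
  have hfin : (1 - Real.exp (-(2 * m)))⁻¹ * (w * 1 ^ 2) * M + 0 < w * (y - x + κ) := by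
    have h1 : (1 - Real.exp (-(2 * m)))⁻¹ * M ≤ (1 - Real.exp (-(2 * m)))⁻¹ * (y - x + 2 * k) := by
      apply mul_le_mul_of_nonneg_left _ (inv_nonneg.2 hE.le)
      linarith
    have h2 : (1 - Real.exp (-(2 * m)))⁻¹ * M < y - x + κ := by linarith
    have h3 : (1 - Real.exp (-(2 * m)))⁻¹ * (w * 1 ^ 2) * M + 0 = w * ((1 - Real.exp (-(2 * m)))⁻¹ * M) := by ring
    rw [h3]
    exact mul_lt_mul_of_pos_left h2 hw
  have hlo : ∀ᶠ T : ℝ in atTop, x - k < (x * Real.log T + (-2 - 1 / 8 - m)) / Real.log (w * T) :=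
    (ACup_lin hw x _).eventually_const_lt (by linarith)
  have hhi : ∀ᶠ T : ℝ in atTop, (y * Real.log T + (1 + 1 / 8 + m)) / Real.log (w * T) < y + k :=
    (ACup_lin hw y _).eventually_lt_const (by linarith)
  filter_upwards [hlim.eventually_lt_const hfin, hlo, hhi, eventually_gt_atTop (1 : ℝ), hwT.eventually_ge_atTop 2]
    with T h1 h2 h3 hT hT2
  refine le_trans ?_ h1.le
  have hT0 : 0 < T := by linarith
  have hL : 0 < Real.log T := Real.log_pos hT
  have hl : 0 < Real.log (w * T) := Real.log_pos (by linarith)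
  have hc : x * Real.log T - 2 ≤ y * Real.log T + 1 := by nlinarith
  have hq := (hQ (w * T) hT2 (x * Real.log T - 2) (y * Real.log T + 1) hc).2
  have hqs := QS_le (t := w * T) (by linarith) (c1 := x * Real.log T - 2 - 1 / 8) (c2 := y * Real.log T + 1 + 1 / 8)
    (m := m) (by linarith) hm0.le
  have hFF : (∫ α in ((x * Real.log T - 2 - 1 / 8 - m) / Real.log (w * T))..((y * Real.log T + 1 + 1 / 8 + m) /
      Real.log (w * T)), FF α (w * T)) ≤ ∫ α in (x - k)..(y + k), FF α (w * T) := by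
    have e1 : (x * Real.log T - 2 - 1 / 8 - m) / Real.log (w * T) =
        (x * Real.log T + (-2 - 1 / 8 - m)) / Real.log (w * T) := by ring
    have e2 : (y * Real.log T + 1 + 1 / 8 + m) / Real.log (w * T) =
        (y * Real.log T + (1 + 1 / 8 + m)) / Real.log (w * T) := by ring
    rw [e1, e2]
    apply intervalIntegral.integral_mono_interval h2.le _ h3.le
    · exact Filter.Eventually.of_forall fun α => FF_nonneg (by linarith) α
    · exact (FF_continuous (by linarith)).intervalIntegrable _ _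
    · apply div_le_div_of_nonneg_right _ hl.le
      nlinarith
  have hN : N0 (w * T) = w * T / (2 * Real.pi) * Real.log (w * T) := rfl
  have hpi := Real.pi_pos
  have hN0 : 0 ≤ N0 (w * T) * Real.log (w * T) := (mul_pos (N0_pos (by linarith)) hl).le
  have hqs2 : QS (w * T) (x * Real.log T - 2 - 1 / 8) (y * Real.log T + 1 + 1 / 8) ≤
      (1 - Real.exp (-(2 * m)))⁻¹ * (N0 (w * T) * Real.log (w * T) * ∫ α in (x - k)..(y + k), FF α (w * T)) := by
    have h5 : (1 - Real.exp (-(2 * m))) * QS (w * T) (x * Real.log T - 2 - 1 / 8) (y * Real.log T + 1 + 1 / 8) ≤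
        N0 (w * T) * Real.log (w * T) * ∫ α in (x - k)..(y + k), FF α (w * T) :=
      hqs.trans (mul_le_mul_of_nonneg_left hFF hN0)
    rw [inv_mul_eq_div, le_div_iff₀ hE]
    linarith
  have hpos : 0 < (T * Real.log T ^ 2 * II W)⁻¹ := by positivity
  have h6 : AC W (x * Real.log T - 2) (y * Real.log T + 1) (w * T) ≤
      2 * Real.pi * II W * ((1 - Real.exp (-(2 * m)))⁻¹ * (N0 (w * T) * Real.log (w * T) *
        ∫ α in (x - k)..(y + k), FF α (w * T))) +
      C * ((y * Real.log T + 1) - (x * Real.log T - 2)) * Real.log (w * T) ^ 3 := by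
    have h7 : 2 * Real.pi * II W * QS (w * T) (x * Real.log T - 2 - 1 / 8) (y * Real.log T + 1 + 1 / 8) ≤
        2 * Real.pi * II W * ((1 - Real.exp (-(2 * m)))⁻¹ * (N0 (w * T) * Real.log (w * T) *
        ∫ α in (x - k)..(y + k), FF α (w * T))) :=
      mul_le_mul_of_nonneg_left hqs2 (by positivity)
    linarith
  refine (mul_le_mul_of_nonneg_left h6 hpos.le).trans (le_of_eq ?_)
  rw [hN]
  field_simp

end Pool.Agent.Lib.MP_2a816b_nt.PV
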