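import Pool.Agent.Lib.MP_2a816b_nt.PV.SUp
import Pool.Agent.Lib.MP_2a816b_nt.PV.MBd
import Pool.Agent.Lib.MP_2a816b_nt.PV.SinI
import Pool.Agent.Lib.MP_2a816b_nt.PV.ACup

/-!
# JOB Fwd (about 150 lines): from `FF` to the variance
-/

open Complex Set Filter Topology MeasureTheory

namespace Pool.Agent.Lib.MP_2a816b_nt.PV

open Pool.Agent.Lib.MP_00e05b_nt Pool.Agent.Lib.MP_00e05b_nt.Mont

private theorem Fwd_meas {W : ℝ → ℝ} (hW : EB W (1 / 8)) (c c1 c2 T M : ℝ) :
    Measurable (fun w : ℝ => qq w * max (c * AC W c1 c2 (w * T) - w * M) 0) := by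
  have h1 : Continuous (fun w : ℝ => c * AC W c1 c2 (w * T) - w * M) := by
    have h2 := AC_cont hW.es (by norm_num : (1 / 8 : ℝ) ≤ 3 / 4)
    have h3 : Continuous (fun w : ℝ => AC W c1 c2 (w * T)) :=
      h2.comp (by fun_prop : Continuous (fun w : ℝ => ((c1, c2, w * T) : ℝ × ℝ × ℝ)))
    fun_prop
  exact qq_meas.mul (h1.measurable.max measurable_const)

private theorem Fwd_bd (hRH : RiemannHypothesis) {W : ℝ → ℝ} (hW : EB W (1 / 8)) {x y : ℝ} (hxy : x < y) :
    ∃ C : ℝ, 0 ≤ C ∧ ∀ᶠ T : ℝ in atTop, ∀ w : ℝ, 0 < w →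
      (T * Real.log T ^ 2 * II W)⁻¹ * AC W (x * Real.log T - 2) (y * Real.log T + 1) (w * T) ≤
        C * (√w + w * √w) := by
  have hII : 0 < II W := II_pos hW (by norm_num)
  obtain ⟨C, hC, hdom⟩ := AC_dom hRH hW (B := y - x + 3) (by linarith)
  refine ⟨C / II W, by positivity, ?_⟩
  filter_upwards [hdom, eventually_gt_atTop (1 : ℝ), Real.tendsto_log_atTop.eventually_ge_atTop 1] with T h1 hT hL w hw
  have hT0 : 0 < T := by linarith
  have hL0 : 0 < Real.log T := by linarith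
  have h2 := h1 (x * Real.log T - 2) (y * Real.log T + 1) w (by nlinarith) (by nlinarith) hw
  have hpos : 0 < (T * Real.log T ^ 2 * II W)⁻¹ := by positivity
  refine (mul_le_mul_of_nonneg_left h2 hpos.le).trans (le_of_eq ?_)
  field_simp

private theorem Fwd_lim (hRH : RiemannHypothesis)
    (hF : ∀ a b : ℝ, 1 ≤ a → a < b → Tendsto (fun t : ℝ => ∫ α in a..b, FF α t) atTop (𝓝 (b - a)))
    {W : ℝ → ℝ} (hW : EB W (1 / 8)) {x y κ : ℝ} (hx : 1 / 2 ≤ x) (hy : 1 < y) (hxy : x < y) (hκ : 0 < κ) :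
    ∀ᶠ T : ℝ in atTop, (Real.pi * (T * Real.log T ^ 2) * II W)⁻¹ *
      Mq W (x * Real.log T - 2) (y * Real.log T + 1) T ≤ y - x + 2 * κ := by
  have hII : 0 < II W := II_pos hW (by norm_num)
  have hpi := Real.pi_pos
  obtain ⟨C, hC, hb⟩ := Fwd_bd hRH hW hxy
  have hM : 0 < y - x + κ := by linarith
  have hint : IntegrableOn (fun w : ℝ => C * (qq w * (√w + w * √w))) (Ioi 0) := qq_int.const_mul C
  have hbnd : ∀ᶠ T : ℝ in atTop, ∀ᵐ w ∂(volume.restrict (Ioi (0 : ℝ))),
      ‖qq w * max ((T * Real.log T ^ 2 * II W)⁻¹ * AC W (x * Real.log T - 2) (y * Real.log T + 1) (w * T) -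
        w * (y - x + κ)) 0‖ ≤ C * (qq w * (√w + w * √w)) := by
    filter_upwards [hb] with T h1
    refine (ae_restrict_iff' measurableSet_Ioi).2 (Filter.Eventually.of_forall fun w hw => ?_)
    have hw0 : 0 < w := hw
    have h2 := h1 w hw0
    have hq : 0 ≤ qq w := qq_nonneg hw0.le
    have hn : 0 ≤ max ((T * Real.log T ^ 2 * II W)⁻¹ * AC W (x * Real.log T - 2) (y * Real.log T + 1) (w * T) -
        w * (y - x + κ)) 0 := le_max_right _ _
    rw [Real.norm_of_nonneg (mul_nonneg hq hn)]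
    have h3 : max ((T * Real.log T ^ 2 * II W)⁻¹ * AC W (x * Real.log T - 2) (y * Real.log T + 1) (w * T) -
        w * (y - x + κ)) 0 ≤ C * (√w + w * √w) := by
      apply max_le
      · have : 0 < w * (y - x + κ) := mul_pos hw0 hM
        linarith
      · positivity
    calc qq w * max ((T * Real.log T ^ 2 * II W)⁻¹ * AC W (x * Real.log T - 2) (y * Real.log T + 1) (w * T) -
        w * (y - x + κ)) 0 ≤ qq w * (C * (√w + w * √w)) := mul_le_mul_of_nonneg_left h3 hq
      _ = C * (qq w * (√w + w * √w)) := by ring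
  have hG : Tendsto (fun T : ℝ => ∫ w in Ioi (0 : ℝ), qq w *
      max ((T * Real.log T ^ 2 * II W)⁻¹ * AC W (x * Real.log T - 2) (y * Real.log T + 1) (w * T) -
        w * (y - x + κ)) 0) atTop (𝓝 (∫ w in Ioi (0 : ℝ), (0 : ℝ))) := by
    apply tendsto_integral_filter_of_dominated_convergence (fun w => C * (qq w * (√w + w * √w)))
    · exact Filter.Eventually.of_forall fun T => (Fwd_meas hW _ _ _ _ _).aestronglyMeasurable
    · exact hbnd
    · exact hint
    · refine (ae_restrict_iff' measurableSet_Ioi).2 (Filter.Eventually.of_forall fun w hw => ?_)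
      have hw0 : 0 < w := hw
      apply tendsto_const_nhds.congr'
      filter_upwards [AC_upper hRH hW hF hx hy hxy hκ hw0] with T h1
      rw [max_eq_right (by linarith), mul_zero]
  rw [integral_zero] at hG
  have hsm := hG.eventually_lt_const (mul_pos hpi hκ)
  filter_upwards [hsm, hbnd, eventually_gt_atTop (1 : ℝ), Real.tendsto_log_atTop.eventually_ge_atTop 1]
    with T h1 h2 hT hL
  have hT0 : 0 < T := by linarith
  have hL0 : 0 < Real.log T := by linarith
  have hc : x * Real.log T - 2 ≤ y * Real.log T + 1 := by nlinarith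
  have hGi : Integrable (fun w : ℝ => qq w *
      max ((T * Real.log T ^ 2 * II W)⁻¹ * AC W (x * Real.log T - 2) (y * Real.log T + 1) (w * T) -
        w * (y - x + κ)) 0) (volume.restrict (Ioi (0 : ℝ))) :=
    Integrable.mono' hint (Fwd_meas hW _ _ _ _ _).aestronglyMeasurable h2
  have hwi : Integrable (fun w : ℝ => (y - x + κ) * (qq w * w)) (volume.restrict (Ioi (0 : ℝ))) :=
    qq_w_int.const_mul _
  have hpos : 0 < (T * Real.log T ^ 2 * II W)⁻¹ := by positivity
  have hmain : (∫ w in Ioi (0 : ℝ), qq w * ((T * Real.log T ^ 2 * II W)⁻¹ *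
      AC W (x * Real.log T - 2) (y * Real.log T + 1) (w * T))) ≤
      ∫ w in Ioi (0 : ℝ), ((y - x + κ) * (qq w * w) + qq w *
      max ((T * Real.log T ^ 2 * II W)⁻¹ * AC W (x * Real.log T - 2) (y * Real.log T + 1) (w * T) -
        w * (y - x + κ)) 0) := by
    apply integral_mono_of_nonneg
    · refine (ae_restrict_iff' measurableSet_Ioi).2 (Filter.Eventually.of_forall fun w hw => ?_)
      have hw0 : 0 < w := hw
      exact mul_nonneg (qq_nonneg hw0.le) (mul_nonneg hpos.le (AC_nonneg W hc (by positivity)))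
    · exact hwi.add hGi
    · refine (ae_restrict_iff' measurableSet_Ioi).2 (Filter.Eventually.of_forall fun w hw => ?_)
      have hw0 : 0 < w := hw
      have hq : 0 ≤ qq w := qq_nonneg hw0.le
      have h3 : (T * Real.log T ^ 2 * II W)⁻¹ * AC W (x * Real.log T - 2) (y * Real.log T + 1) (w * T) ≤
          w * (y - x + κ) +
          max ((T * Real.log T ^ 2 * II W)⁻¹ * AC W (x * Real.log T - 2) (y * Real.log T + 1) (w * T) -
            w * (y - x + κ)) 0 := by
        have := le_max_left ((T * Real.log T ^ 2 * II W)⁻¹ *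
          AC W (x * Real.log T - 2) (y * Real.log T + 1) (w * T) - w * (y - x + κ)) 0
        linarith
      have h4 := mul_le_mul_of_nonneg_left h3 hq
      refine h4.trans (le_of_eq ?_)
      ring
  rw [integral_add hwi hGi, integral_const_mul, qq_w_eq] at hmain
  have heq : (Real.pi * (T * Real.log T ^ 2) * II W)⁻¹ * Mq W (x * Real.log T - 2) (y * Real.log T + 1) T =
      Real.pi⁻¹ * ∫ w in Ioi (0 : ℝ), qq w * ((T * Real.log T ^ 2 * II W)⁻¹ *
      AC W (x * Real.log T - 2) (y * Real.log T + 1) (w * T)) := by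
    have h5 : (∫ w in Ioi (0 : ℝ), qq w * ((T * Real.log T ^ 2 * II W)⁻¹ *
      AC W (x * Real.log T - 2) (y * Real.log T + 1) (w * T))) =
      (T * Real.log T ^ 2 * II W)⁻¹ * ∫ w in Ioi (0 : ℝ), qq w *
      AC W (x * Real.log T - 2) (y * Real.log T + 1) (w * T) := by
      rw [← integral_const_mul]
      congr 1
      funext w
      ring
    have h6 : (Real.pi * (T * Real.log T ^ 2) * II W)⁻¹ = Real.pi⁻¹ * (T * Real.log T ^ 2 * II W)⁻¹ := by
      field_simp
    rw [h5, h6]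
    unfold Mq
    exact mul_assoc _ _ _
  rw [heq, inv_mul_le_iff₀ hpi]
  nlinarith

/-- `S_upper` with `δ ≤ 1/2` small. With `N T w = (T L² II)⁻¹ AC W ((a - δ) L - 2) (b L + 1) (w T)` and `M = b - a + δ + κ`:
`π⁻¹ ∫ qq w N T w dw ≤ π⁻¹ ∫ qq w (w M) dw + π⁻¹ ∫ qq w max (N T w - w M) 0 dw`; the first is `M` (`qq_w_eq`), the second tends to `0` by
dominated convergence (`AC_upper` for each `w`; bound `C qq w (√w + w √w)` from `AC_dom`, `qq_int`). -/
theorem RR_of_FF (hRH : RiemannHypothesis)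
    (hF : ∀ a b : ℝ, 1 ≤ a → a < b → Tendsto (fun t : ℝ => ∫ α in a..b, FF α t) atTop (𝓝 (b - a))) :
    ∀ a b : ℝ, 1 ≤ a → a < b → ∀ ε > 0, ∀ᶠ T : ℝ in atTop, ∫ α in a..b, RR α T ≤ b - a + ε := by
  intro a b ha hab ε hε
  obtain ⟨W, hW⟩ := exists_EB (1 / 8) (by norm_num)
  obtain ⟨δ, hδ0, hδ1, hδ2⟩ : ∃ δ : ℝ, 0 < δ ∧ δ ≤ ε / 8 ∧ δ ≤ 1 / 2 :=
    ⟨min (ε / 8) (1 / 2), lt_min (by positivity) (by norm_num), min_le_left _ _, min_le_right _ _⟩
  have h1 := S_upper hRH hW (δ := δ) (κ := ε / 8) (B := b) hδ0 (by linarith) (by positivity)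
  have h2 := Fwd_lim hRH hF hW (x := a - δ) (y := b) (κ := ε / 8) (by linarith) (by linarith) (by linarith)
    (by positivity)
  filter_upwards [h1, h2] with T h3 h4
  have h5 := h3 a b ha hab.le le_rfl
  linarith

end Pool.Agent.Lib.MP_2a816b_nt.PV
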