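import Pool.Agent.Lib.MP_2a816b_nt.PV.AAreg

/-!
# JOB AAbd (about 180 lines): crude bounds of `GG`, `AC`, `Mq`
-/

open Complex Set Filter Topology MeasureTheory

namespace Pool.Agent.Lib.MP_2a816b_nt.PV

open Pool.Agent.Lib.MP_00e05b_nt Pool.Agent.Lib.MP_00e05b_nt.Mont

private theorem AAbd_log_sq {x : ℝ} (hx : 0 ≤ x) :
    Real.log (2 + x) ^ 2 ≤ 16 * (2 + √x) := by
  have h0 : (0 : ℝ) < 2 + x := by linarith
  have h1 : 0 ≤ Real.log (2 + x) := Real.log_nonneg (by linarith)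
  set y : ℝ := √(√(2 + x)) with hy
  have hy2 : y ^ 2 = √(2 + x) := Real.sq_sqrt (Real.sqrt_nonneg _)
  have hy4 : (y ^ 2) ^ 2 = 2 + x := by rw [hy2]; exact Real.sq_sqrt h0.le
  have hy0 : 0 < y := Real.sqrt_pos.2 (Real.sqrt_pos.2 h0)
  have h2 : Real.log (2 + x) ≤ 4 * y := by
    rw [← hy4, Real.log_pow, Real.log_pow]
    have := Real.log_le_sub_one_of_pos hy0
    push_cast
    linarith
  have h3 : Real.log (2 + x) ^ 2 ≤ (4 * y) ^ 2 := pow_le_pow_left₀ h1 h2 2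
  have h4 : √(2 + x) ≤ 2 + √x := by
    rw [Real.sqrt_le_left (by positivity)]
    have := Real.sq_sqrt hx
    have := Real.sqrt_nonneg x
    nlinarith
  have h5 : (4 * y) ^ 2 = 16 * √(2 + x) := by rw [mul_pow, hy2]; norm_num
  rw [h5] at h3
  linarith

private theorem AAbd_log_mul {w τ : ℝ} (hw : 0 ≤ w) (hτ : 0 ≤ τ) :
    Real.log (2 + w * τ) ^ 2 ≤ 2 * Real.log (2 + τ) ^ 2 + 32 * (2 + √w) := by
  have h1 : Real.log (2 + w * τ) ≤ Real.log (2 + w) + Real.log (2 + τ) := by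
    rw [← Real.log_mul (by positivity) (by positivity)]
    refine Real.log_le_log (by positivity) ?_
    nlinarith [mul_nonneg hw hτ]
  have h0 : 0 ≤ Real.log (2 + w * τ) :=
    Real.log_nonneg (by nlinarith [mul_nonneg hw hτ])
  have h2 := pow_le_pow_left₀ h0 h1 2
  have h3 := AAbd_log_sq hw
  nlinarith [sq_nonneg (Real.log (2 + w) - Real.log (2 + τ))]

private theorem AAbd_GG_t {W : ℝ → ℝ} {s : ℝ} (hW : ES W s) (hs : s ≤ 3 / 4) (c1 c2 : ℝ) :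
    Continuous (fun τ : ℝ => GG W c1 c2 τ) := by
  have h := (GG_cont hW hs).comp
    (continuous_const.prodMk (continuous_const.prodMk continuous_id) :
      Continuous (fun τ : ℝ => ((c1, c2, τ) : ℝ × ℝ × ℝ)))
  exact h

private theorem AAbd_AC_t {W : ℝ → ℝ} {s : ℝ} (hW : ES W s) (hs : s ≤ 3 / 4) (c1 c2 τ : ℝ) :
    Continuous (fun w : ℝ => AC W c1 c2 (w * τ)) := by
  have h := (AC_cont hW hs).comp
    (continuous_const.prodMk (continuous_const.prodMk (continuous_id.mul continuous_const)) :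
      Continuous (fun w : ℝ => ((c1, c2, w * τ) : ℝ × ℝ × ℝ)))
  exact h

private theorem AAbd_GG_swap (W : ℝ → ℝ) (c1 c2 t : ℝ) : GG W c1 c2 t = - GG W c2 c1 t := by
  unfold GG
  exact intervalIntegral.integral_symm _ _

private theorem AAbd_AC_swap (W : ℝ → ℝ) (c1 c2 t : ℝ) : AC W c1 c2 t = - AC W c2 c1 t := by
  unfold AC
  rw [← intervalIntegral.integral_neg]
  refine intervalIntegral.integral_congr fun τ _ => ?_
  exact AAbd_GG_swap W c1 c2 τ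

/-- `AA_le` -/
theorem GG_le (hRH : RiemannHypothesis) {W : ℝ → ℝ} {s : ℝ} (hW : ES W s) (hs : s ≤ 3 / 4) :
    ∃ C : ℝ, 0 ≤ C ∧ ∀ c1 c2 t : ℝ, c1 ≤ c2 → GG W c1 c2 t ≤ C * (c2 - c1) * Real.log (2 + |t|) ^ 2 := by
  obtain ⟨C, hC, hb⟩ := AA_le hRH hW hs
  refine ⟨C ^ 2, sq_nonneg C, fun c1 c2 t h => ?_⟩
  have hc : Continuous (fun c : ℝ => ‖AA W t c‖ ^ 2) :=
    ((AA_cont2 hW hs).comp (continuous_const.prodMk continuous_id)).norm.pow 2
  have h1 : GG W c1 c2 t ≤ ∫ _c in c1..c2, C ^ 2 * Real.log (2 + |t|) ^ 2 := by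
    unfold GG
    refine intervalIntegral.integral_mono_on h (hc.intervalIntegrable _ _)
      (continuous_const.intervalIntegrable _ _) fun c _ => ?_
    have h2 := pow_le_pow_left₀ (norm_nonneg _) (hb t c) 2
    rwa [mul_pow] at h2
  rw [intervalIntegral.integral_const, smul_eq_mul] at h1
  linarith

theorem AC_le (hRH : RiemannHypothesis) {W : ℝ → ℝ} {s : ℝ} (hW : ES W s) (hs : s ≤ 3 / 4) :
    ∃ C : ℝ, 0 ≤ C ∧ ∀ c1 c2 t : ℝ, c1 ≤ c2 → 0 ≤ t → AC W c1 c2 t ≤ C * (c2 - c1) * (t * Real.log (2 + t) ^ 2) := by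
  obtain ⟨C, hC, hb⟩ := GG_le hRH hW hs
  refine ⟨C, hC, fun c1 c2 t h ht => ?_⟩
  have hc : Continuous (fun τ : ℝ => GG W c1 c2 τ) := AAbd_GG_t hW hs c1 c2
  have h1 : AC W c1 c2 t ≤ ∫ _τ in (0 : ℝ)..t, C * (c2 - c1) * Real.log (2 + t) ^ 2 := by
    unfold AC
    refine intervalIntegral.integral_mono_on ht (hc.intervalIntegrable _ _)
      (continuous_const.intervalIntegrable _ _) fun τ hτ => ?_
    refine (hb c1 c2 τ h).trans ?_
    have h2 : 0 ≤ Real.log (2 + |τ|) := Real.log_nonneg (by linarith [abs_nonneg τ])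
    have h3 : Real.log (2 + |τ|) ≤ Real.log (2 + t) := by
      refine Real.log_le_log (by linarith [abs_nonneg τ]) ?_
      rw [abs_of_nonneg hτ.1]
      linarith [hτ.2]
    exact mul_le_mul_of_nonneg_left (pow_le_pow_left₀ h2 h3 2)
      (mul_nonneg hC (sub_nonneg.2 h))
  rw [intervalIntegral.integral_const, smul_eq_mul, sub_zero] at h1
  refine h1.trans (le_of_eq ?_)
  ring

private theorem AAbd_AC_abs (hRH : RiemannHypothesis) {W : ℝ → ℝ} {s : ℝ} (hW : ES W s)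
    (hs : s ≤ 3 / 4) :
    ∃ C : ℝ, 0 ≤ C ∧ ∀ c1 c2 t : ℝ, 0 ≤ t →
      |AC W c1 c2 t| ≤ C * |c2 - c1| * (t * Real.log (2 + t) ^ 2) := by
  obtain ⟨C, hC, hb⟩ := AC_le hRH hW hs
  refine ⟨C, hC, fun c1 c2 t ht => ?_⟩
  rcases le_total c1 c2 with h | h
  · rw [abs_of_nonneg (AC_nonneg W h ht), abs_of_nonneg (sub_nonneg.2 h)]
    exact hb c1 c2 t h ht
  · rw [AAbd_AC_swap, abs_neg, abs_of_nonneg (AC_nonneg W h ht), abs_sub_comm,
      abs_of_nonneg (sub_nonneg.2 h)]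
    exact hb c2 c1 t h ht

/-- the majorant of the integrand of `Mq` -/
private noncomputable def AAbd_maj (A τ w : ℝ) : ℝ :=
  A * τ * ((2 * Real.log (2 + τ) ^ 2 + 64) * (qq w * w) + 32 * (qq w * (√w + w * √w)))

private theorem AAbd_maj_int (A τ : ℝ) : IntegrableOn (AAbd_maj A τ) (Ioi 0) := by
  unfold AAbd_maj
  exact ((qq_w_int.const_mul _).add (qq_int.const_mul _)).const_mul _

private theorem AAbd_maj_le {B A τ w : ℝ} (hA : 0 ≤ A) (hτ : 0 ≤ τ) (hw : 0 < w)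
    (hB : |B| ≤ A * (w * τ * Real.log (2 + w * τ) ^ 2)) :
    |qq w * B| ≤ AAbd_maj A τ w := by
  have hq := qq_nonneg hw.le
  rw [abs_mul, abs_of_nonneg hq]
  have h1 := AAbd_log_mul hw.le hτ
  have h2 : A * (w * τ * Real.log (2 + w * τ) ^ 2) ≤
      A * (w * τ * (2 * Real.log (2 + τ) ^ 2 + 32 * (2 + √w))) := by
    refine mul_le_mul_of_nonneg_left (mul_le_mul_of_nonneg_left h1 ?_) hA
    positivity
  have h3 : qq w * |B| ≤ qq w * (A * (w * τ * (2 * Real.log (2 + τ) ^ 2 + 32 * (2 + √w)))) :=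
    mul_le_mul_of_nonneg_left (hB.trans h2) hq
  refine h3.trans ?_
  unfold AAbd_maj
  have h4 : 0 ≤ A * τ * (qq w * √w) := by positivity
  nlinarith [h4]

/-- `log² (2 + w τ) ≤ 2 log² (2 + τ) + 2 log² (2 + w)` for `w, τ ≥ 0`, so `AC W c1 c2 (w τ) ≤ C (c2 - c1) w τ (..)`, and
`qq w * w * log² (2 + w)` is integrable (`qq_le_inv`, `qq_le_cube`). -/
theorem Mq_ii (hRH : RiemannHypothesis) {W : ℝ → ℝ} {s : ℝ} (hW : ES W s) (hs : s ≤ 3 / 4) {c1 c2 τ : ℝ} (hτ : 0 ≤ τ) :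
    IntegrableOn (fun w : ℝ => qq w * AC W c1 c2 (w * τ)) (Ioi 0) := by
  obtain ⟨C, hC, hb⟩ := AAbd_AC_abs hRH hW hs
  have hc : Continuous (fun w : ℝ => AC W c1 c2 (w * τ)) := AAbd_AC_t hW hs c1 c2 τ
  refine (AAbd_maj_int (C * |c2 - c1|) τ).mono'
    (qq_meas.mul hc.measurable).aestronglyMeasurable ?_
  refine (ae_restrict_iff' measurableSet_Ioi).2 (Eventually.of_forall fun w hw => ?_)
  have hw0 : (0 : ℝ) < w := hw
  rw [Real.norm_eq_abs]
  exact AAbd_maj_le (by positivity) hτ hw0 (hb c1 c2 (w * τ) (by positivity))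

theorem Mq_le (hRH : RiemannHypothesis) {W : ℝ → ℝ} {s : ℝ} (hW : ES W s) (hs : s ≤ 3 / 4) :
    ∃ C : ℝ, 0 ≤ C ∧ ∀ c1 c2 τ : ℝ, c1 ≤ c2 → 1 ≤ τ → Mq W c1 c2 τ ≤ C * (c2 - c1) * (τ * Real.log (2 + τ) ^ 2) := by
  obtain ⟨C, hC, hb⟩ := AAbd_AC_abs hRH hW hs
  set K1 : ℝ := ∫ w in Ioi (0 : ℝ), qq w * w with hK1
  set K2 : ℝ := ∫ w in Ioi (0 : ℝ), qq w * (√w + w * √w) with hK2
  have hK1n : 0 ≤ K1 := setIntegral_nonneg measurableSet_Ioi fun w hw =>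
    mul_nonneg (qq_nonneg (le_of_lt hw)) (le_of_lt hw)
  have hK2n : 0 ≤ K2 := setIntegral_nonneg measurableSet_Ioi fun w hw => by
    have hw0 : (0 : ℝ) < w := hw
    have := qq_nonneg hw0.le
    positivity
  refine ⟨C * (66 * K1 + 32 * K2), by positivity, fun c1 c2 τ h hτ => ?_⟩
  have hτ0 : 0 ≤ τ := by linarith
  have hcc : 0 ≤ c2 - c1 := sub_nonneg.2 h
  have h1 : Mq W c1 c2 τ ≤ ∫ w in Ioi (0 : ℝ), AAbd_maj (C * (c2 - c1)) τ w := by
    unfold Mq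
    refine setIntegral_mono_on (Mq_ii hRH hW hs hτ0) (AAbd_maj_int _ _) measurableSet_Ioi
      fun w hw => ?_
    have hw0 : (0 : ℝ) < w := hw
    refine (le_abs_self _).trans (AAbd_maj_le (by positivity) hτ0 hw0 ?_)
    have := hb c1 c2 (w * τ) (by positivity)
    rwa [abs_of_nonneg hcc] at this
  have h2 : ∫ w in Ioi (0 : ℝ), AAbd_maj (C * (c2 - c1)) τ w =
      C * (c2 - c1) * τ * ((2 * Real.log (2 + τ) ^ 2 + 64) * K1 + 32 * K2) := by
    unfold AAbd_maj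
    rw [integral_const_mul, integral_add (qq_w_int.const_mul _) (qq_int.const_mul _),
      integral_const_mul, integral_const_mul]
  rw [h2] at h1
  refine h1.trans ?_
  have h3 : 1 ≤ Real.log (2 + τ) := by
    rw [Real.le_log_iff_exp_le (by linarith)]
    have := Real.exp_one_lt_d9
    linarith
  have h4 : 1 ≤ Real.log (2 + τ) ^ 2 := by nlinarith
  have h5 : (2 * Real.log (2 + τ) ^ 2 + 64) * K1 + 32 * K2 ≤
      (66 * K1 + 32 * K2) * Real.log (2 + τ) ^ 2 := by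
    nlinarith [mul_nonneg hK1n (sub_nonneg.2 h4), mul_nonneg hK2n (sub_nonneg.2 h4)]
  have h6 := mul_le_mul_of_nonneg_left h5 (show 0 ≤ C * (c2 - c1) * τ by positivity)
  linarith

/-- `Mq` is monotone in `τ ≥ 0` (`AC_mono`) and in the window (`AC_mono_c`). -/
theorem Mq_mono (hRH : RiemannHypothesis) {W : ℝ → ℝ} {s : ℝ} (hW : ES W s) (hs : s ≤ 3 / 4) {c1 c2 d1 d2 τ τ' : ℝ}
    (h1 : d1 ≤ c1) (h2 : c2 ≤ d2) (h : d1 ≤ d2) (hτ : 0 ≤ τ) (hττ' : τ ≤ τ') : Mq W c1 c2 τ ≤ Mq W d1 d2 τ' := by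
  unfold Mq
  refine setIntegral_mono_on (Mq_ii hRH hW hs hτ) (Mq_ii hRH hW hs (hτ.trans hττ'))
    measurableSet_Ioi fun w hw => ?_
  have hw0 : (0 : ℝ) < w := hw
  refine mul_le_mul_of_nonneg_left ?_ (qq_nonneg hw0.le)
  exact (AC_mono_c hW hs h1 h2 h (by positivity)).trans
    (AC_mono hW hs h (mul_le_mul_of_nonneg_left hττ' hw0.le))

end Pool.Agent.Lib.MP_2a816b_nt.PV
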