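import Pool.Agent.Lib.MP_2a816b_nt.PV.Ker
import Pool.Agent.Lib.MP_2a816b_nt.PV.AAbd

/-!
# JOB KerG (about 100 lines): the kernel for `GG`
-/

open Complex Set Filter Topology MeasureTheory

namespace Pool.Agent.Lib.MP_2a816b_nt.PV

open Pool.Agent.Lib.MP_00e05b_nt Pool.Agent.Lib.MP_00e05b_nt.Mont

private theorem KerG_log {t : ℝ} (ht : 0 ≤ t) : Real.log (2 + |t|) ^ 2 ≤ 32 * (1 + √t) := by
  rw [abs_of_nonneg ht]
  have hx : (0 : ℝ) < 2 + t := by linarith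
  have h1 : Real.log (2 + t) ≤ 4 * √√(2 + t) := by
    have h2 : Real.log √√(2 + t) = Real.log (2 + t) / 4 := by
      rw [Real.log_sqrt (Real.sqrt_nonneg _), Real.log_sqrt hx.le]
      ring
    have h3 : Real.log √√(2 + t) ≤ √√(2 + t) - 1 :=
      Real.log_le_sub_one_of_pos (Real.sqrt_pos.2 (Real.sqrt_pos.2 hx))
    linarith
  have h0 : 0 ≤ Real.log (2 + t) := Real.log_nonneg (by linarith)
  have h4 : Real.log (2 + t) ^ 2 ≤ (4 * √√(2 + t)) ^ 2 := pow_le_pow_left₀ h0 h1 2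
  have h5 : (4 * √√(2 + t)) ^ 2 = 16 * √(2 + t) := by
    rw [mul_pow, Real.sq_sqrt (Real.sqrt_nonneg _)]
    norm_num
  have h6 : √(2 + t) ≤ 2 * (1 + √t) := by
    rw [Real.sqrt_le_left (by positivity)]
    have h7 : (2 * (1 + √t)) ^ 2 = 4 * (1 + 2 * √t + t) := by
      have := Real.sq_sqrt ht
      nlinarith
    rw [h7]
    have := Real.sqrt_nonneg t
    linarith
  linarith

/-- `kern` for `g = GG W c1 c2` (`GG_cont`, `GG_nonneg`, `GG_le`, `log² (2 + t) ≤ C (1 + √t)`):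
`∫_{w/l2}^{w/l1} GG = AC (w/l1) - AC (w/l2)` and `Mq_ii`. -/
theorem kern_GG (hRH : RiemannHypothesis) {W : ℝ → ℝ} (hW : EB W (1 / 8)) {c1 c2 : ℝ} (hc : c1 ≤ c2)
    {l1 l2 : ℝ} (h1 : 0 < l1) (h12 : l1 ≤ l2) :
    IntervalIntegrable (fun l => 1 / l ^ 3 * ∫ t in Ioi (0 : ℝ), sl l t ^ 2 * GG W c1 c2 t) volume l1 l2 ∧
    ∫ l in l1..l2, 1 / l ^ 3 * ∫ t in Ioi (0 : ℝ), sl l t ^ 2 * GG W c1 c2 t =
      Mq W c1 c2 (1 / l1) - Mq W c1 c2 (1 / l2) := by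
  have hs : (1 / 8 : ℝ) ≤ 3 / 4 := by norm_num
  have hcont : Continuous (fun t : ℝ => GG W c1 c2 t) := by
    have hp : Continuous (fun t : ℝ => ((c1, c2, t) : ℝ × ℝ × ℝ)) := by fun_prop
    have h := (GG_cont hW.es hs).comp hp
    simp only [Function.comp_def] at h
    exact h
  obtain ⟨C, hC0, hC⟩ := GG_le hRH hW.es hs
  have hb : ∀ t : ℝ, 0 ≤ t → GG W c1 c2 t ≤ (C * (c2 - c1) * 32) * (1 + √t) := by
    intro t ht
    have h2 : 0 ≤ C * (c2 - c1) := mul_nonneg hC0 (sub_nonneg.2 hc)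
    calc GG W c1 c2 t ≤ C * (c2 - c1) * Real.log (2 + |t|) ^ 2 := hC c1 c2 t hc
      _ ≤ C * (c2 - c1) * (32 * (1 + √t)) := mul_le_mul_of_nonneg_left (KerG_log ht) h2
      _ = (C * (c2 - c1) * 32) * (1 + √t) := by ring
  obtain ⟨k1, -, k3⟩ := kern (g := fun t => GG W c1 c2 t) hcont (fun t => GG_nonneg W hc t) hb h1 h12
  refine ⟨k1, k3.trans ?_⟩
  have hl2 : 0 < l2 := h1.trans_le h12
  have e1 : ∀ w : ℝ, qq w * ∫ t in (w / l2)..(w / l1), GG W c1 c2 t =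
      qq w * AC W c1 c2 (w * (1 / l1)) - qq w * AC W c1 c2 (w * (1 / l2)) := by
    intro w
    rw [← mul_sub]
    congr 1
    unfold AC
    rw [intervalIntegral.integral_interval_sub_left (hcont.intervalIntegrable _ _)
      (hcont.intervalIntegrable _ _), mul_one_div, mul_one_div]
  simp_rw [e1]
  rw [integral_sub (Mq_ii hRH hW.es hs (by positivity)) (Mq_ii hRH hW.es hs (by positivity))]
  rfl

end Pool.Agent.Lib.MP_2a816b_nt.PV
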