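import Pool.Agent.Lib.MP_2a816b_nt.PV.Defs

/-!
# JOB Meas (about 120 lines): measurability and local boundedness of `Dt`
-/

open Complex Set Filter Topology MeasureTheory

namespace Pool.Agent.Lib.MP_2a816b_nt.PV

open Pool.Agent.Lib.MP_00e05b_nt Pool.Agent.Lib.MP_00e05b_nt.Mont

theorem Meas_uIoc {a b u : ℝ} (hu : u ∈ Set.uIoc a b) : |u| ≤ max |a| |b| := by
  rw [Set.mem_uIoc] at hu
  rw [abs_le]
  have h1 := le_abs_self a
  have h2 := le_abs_self b
  have h3 := neg_abs_le a
  have h4 := neg_abs_le b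
  have h5 := le_max_left |a| |b|
  have h6 := le_max_right |a| |b|
  rcases hu with hu | hu
  · constructor <;> linarith [hu.1, hu.2]
  · constructor <;> linarith [hu.1, hu.2]

/-- `Chebyshev.psi` is monotone, hence measurable. -/
theorem Dt_meas : Measurable (fun p : ℝ × ℝ => Dt p.1 p.2) := by
  have hpsi : Measurable Chebyshev.psi := Chebyshev.psi_mono.measurable
  have h1 : Measurable fun p : ℝ × ℝ => Chebyshev.psi (Real.exp (p.2 + p.1 / 2)) :=
    hpsi.comp (Real.measurable_exp.comp (measurable_snd.add (measurable_fst.div_const 2)))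
  have h2 : Measurable fun p : ℝ × ℝ => Chebyshev.psi (Real.exp (p.2 - p.1 / 2)) :=
    hpsi.comp (Real.measurable_exp.comp (measurable_snd.sub (measurable_fst.div_const 2)))
  have h3 : Continuous fun p : ℝ × ℝ => Real.exp (-(p.2 / 2)) :=
    Real.continuous_exp.comp (continuous_snd.div_const 2).neg
  have h4 : Continuous fun p : ℝ × ℝ => 2 * Real.sinh (p.1 / 2) * Real.exp (p.2 / 2) :=
    (continuous_const.mul (Real.continuous_sinh.comp (continuous_fst.div_const 2))).mul
      (Real.continuous_exp.comp (continuous_snd.div_const 2))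
  unfold Dt
  exact (h3.measurable.mul (h1.sub h2)).sub h4.measurable

/-- `0 ≤ ψ(e^(u ± l/2)) ≤ ψ(e^(M + 1))` (`Chebyshev.psi_mono`, `Chebyshev.psi_nonneg`). -/
theorem Dt_bdd (M : ℝ) : ∃ C : ℝ, 0 ≤ C ∧ ∀ l u : ℝ, 0 ≤ l → l ≤ 5 / 4 → |u| ≤ M → |Dt l u| ≤ C := by
  have hP : 0 ≤ Chebyshev.psi (Real.exp (|M| + 1)) := Chebyshev.psi_nonneg _
  have hs1 : 0 ≤ Real.sinh 1 := Real.sinh_nonneg_iff.2 zero_le_one
  refine ⟨Real.exp |M| * Chebyshev.psi (Real.exp (|M| + 1)) + 2 * Real.sinh 1 * Real.exp |M|,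
    by positivity, fun l u hl hl1 hu => ?_⟩
  have hu' : |u| ≤ |M| := hu.trans (le_abs_self M)
  have h1 := (abs_le.1 hu').1
  have h2 := (abs_le.1 hu').2
  have hM : 0 ≤ |M| := abs_nonneg M
  have e1 : Real.exp (-(u / 2)) ≤ Real.exp |M| := Real.exp_le_exp.2 (by linarith)
  have e2 : Real.exp (u / 2) ≤ Real.exp |M| := Real.exp_le_exp.2 (by linarith)
  have e3 : Chebyshev.psi (Real.exp (u + l / 2)) ≤ Chebyshev.psi (Real.exp (|M| + 1)) :=
    Chebyshev.psi_mono (Real.exp_le_exp.2 (by linarith))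
  have e4 : Chebyshev.psi (Real.exp (u - l / 2)) ≤ Chebyshev.psi (Real.exp (u + l / 2)) :=
    Chebyshev.psi_mono (Real.exp_le_exp.2 (by linarith))
  have e5 : 0 ≤ Chebyshev.psi (Real.exp (u - l / 2)) := Chebyshev.psi_nonneg _
  have e6 : Real.sinh (l / 2) ≤ Real.sinh 1 := Real.sinh_le_sinh.2 (by linarith)
  have e7 : 0 ≤ Real.sinh (l / 2) := Real.sinh_nonneg_iff.2 (by linarith)
  set A := Real.exp (-(u / 2)) * (Chebyshev.psi (Real.exp (u + l / 2)) - Chebyshev.psi (Real.exp (u - l / 2)))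
    with hA
  have a0 : 0 ≤ A := mul_nonneg (Real.exp_pos _).le (by linarith)
  have a1 : A ≤ Real.exp |M| * Chebyshev.psi (Real.exp (|M| + 1)) :=
    mul_le_mul e1 (by linarith) (by linarith) (Real.exp_pos _).le
  set B := 2 * Real.sinh (l / 2) * Real.exp (u / 2) with hB
  have b0 : 0 ≤ B := by positivity
  have b1 : B ≤ 2 * Real.sinh 1 * Real.exp |M| :=
    mul_le_mul (by linarith) e2 (Real.exp_pos _).le (by linarith)
  have hD : Dt l u = A - B := rfl
  rw [hD, abs_le]
  constructor <;> linarith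

theorem Dt_ii {l : ℝ} (hl : 0 ≤ l) (hl1 : l ≤ 5 / 4) (a b : ℝ) :
    IntervalIntegrable (fun u => Dt l u ^ 2) volume a b := by
  obtain ⟨C, hC0, hC⟩ := Dt_bdd (max |a| |b|)
  have hm : Measurable fun u => Dt l u ^ 2 :=
    (Dt_meas.comp (measurable_const.prodMk measurable_id)).pow_const 2
  rw [intervalIntegrable_iff]
  refine Measure.integrableOn_of_bounded (M := C ^ 2) ?_ hm.aestronglyMeasurable ?_
  · rw [Set.uIoc, Real.volume_Ioc]
    exact ENNReal.ofReal_ne_top
  · filter_upwards [ae_restrict_mem measurableSet_uIoc] with u hu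
    rw [Real.norm_of_nonneg (by positivity), ← sq_abs (Dt l u)]
    exact pow_le_pow_left₀ (abs_nonneg _) (hC l u hl hl1 (Meas_uIoc hu)) 2

theorem Meas_ext {l1 l2 : ℝ} (h12 : l1 ≤ l2) {g : ℝ → ℝ} (hg : ContinuousOn g (Icc l1 l2)) :
    ∃ G : ℝ → ℝ, Continuous G ∧ ∀ l ∈ Icc l1 l2, G l = g l := by
  refine ⟨IccExtend h12 (fun x : Icc l1 l2 => g x), ?_, fun l hl => ?_⟩
  · exact (continuousOn_iff_continuous_domRestrict.1 hg).Icc_extend'
  · exact IccExtend_of_mem h12 _ hl

/-- Continuity of the inner integral is not available; measurability follows from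
`∫ u in (g1 l)..(g2 l), Dt l u ^ 2 = ∫ u in Ioc (g1 l) (g2 l), .. - ∫ u in Ioc (g2 l) (g1 l), ..`, where the integrals are integrals
over a large fixed interval of `Dt l u ^ 2` times the indicator of a measurable set of pairs `(l, u)`
(`MeasureTheory.StronglyMeasurable.integral_prod_right`; replace `g1, g2, k` off `[l1, l2]` by `0`, or use the
restricted measure); boundedness from `Dt_bdd`. -/
theorem inner_ii {l1 l2 : ℝ} (h1 : 0 < l1) (h12 : l1 ≤ l2) (h2 : l2 ≤ 5 / 4) {g1 g2 k : ℝ → ℝ}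
    (hg1 : ContinuousOn g1 (Icc l1 l2)) (hg2 : ContinuousOn g2 (Icc l1 l2)) (hk : ContinuousOn k (Icc l1 l2)) :
    IntervalIntegrable (fun l => k l * ∫ u in (g1 l)..(g2 l), Dt l u ^ 2) volume l1 l2 := by
  obtain ⟨G1, hG1c, hG1⟩ := Meas_ext h12 hg1
  obtain ⟨G2, hG2c, hG2⟩ := Meas_ext h12 hg2
  obtain ⟨K, hKc, hK⟩ := Meas_ext h12 hk
  obtain ⟨B1, hB1⟩ := (isCompact_Icc (a := l1) (b := l2)).exists_bound_of_continuousOn hG1c.continuousOn
  obtain ⟨B2, hB2⟩ := (isCompact_Icc (a := l1) (b := l2)).exists_bound_of_continuousOn hG2c.continuousOn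
  obtain ⟨B3, hB3⟩ := (isCompact_Icc (a := l1) (b := l2)).exists_bound_of_continuousOn hKc.continuousOn
  obtain ⟨C, hC0, hC⟩ := Dt_bdd (max |B1| |B2|)
  have hDm : Measurable fun p : ℝ × ℝ => Dt p.1 p.2 ^ 2 := Dt_meas.pow_const 2
  have hmeas : ∀ f g : ℝ → ℝ, Continuous f → Continuous g →
      StronglyMeasurable fun l => ∫ u in Ioc (f l) (g l), Dt l u ^ 2 := by
    intro f g hf hg
    have hset : MeasurableSet {p : ℝ × ℝ | f p.1 < p.2 ∧ p.2 ≤ g p.1} :=
      (measurableSet_lt (hf.measurable.comp measurable_fst) measurable_snd).inter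
        (measurableSet_le measurable_snd (hg.measurable.comp measurable_fst))
    have hF : StronglyMeasurable (Function.uncurry fun l u : ℝ =>
        indicator {p : ℝ × ℝ | f p.1 < p.2 ∧ p.2 ≤ g p.1} (fun p => Dt p.1 p.2 ^ 2) (l, u)) := by
      have h3 : Measurable (indicator {p : ℝ × ℝ | f p.1 < p.2 ∧ p.2 ≤ g p.1} (fun p => Dt p.1 p.2 ^ 2)) :=
        hDm.indicator hset
      exact h3.stronglyMeasurable
    have h4 := hF.integral_prod_right (ν := (volume : Measure ℝ))
    have h5 : (fun l => ∫ u in Ioc (f l) (g l), Dt l u ^ 2) = fun l => ∫ u,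
        Function.uncurry (fun l u : ℝ =>
          indicator {p : ℝ × ℝ | f p.1 < p.2 ∧ p.2 ≤ g p.1} (fun p => Dt p.1 p.2 ^ 2) (l, u)) (l, u) := by
      funext l
      rw [← integral_indicator measurableSet_Ioc]
      refine integral_congr_ae (Eventually.of_forall fun u => ?_)
      simp only [Function.uncurry, indicator, mem_Ioc, Set.mem_ofPred_eq]
    rw [h5]
    exact h4
  have hsm : StronglyMeasurable fun l => K l * ∫ u in (G1 l)..(G2 l), Dt l u ^ 2 := by
    refine hKc.stronglyMeasurable.mul ?_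
    unfold intervalIntegral
    exact (hmeas G1 G2 hG1c hG2c).sub (hmeas G2 G1 hG2c hG1c)
  have hint : IntegrableOn (fun l => K l * ∫ u in (G1 l)..(G2 l), Dt l u ^ 2) (Ioc l1 l2) := by
    refine Measure.integrableOn_of_bounded (M := |B3| * (C ^ 2 * (|B2| + |B1|))) ?_ hsm.aestronglyMeasurable ?_
    · rw [Real.volume_Ioc]
      exact ENNReal.ofReal_ne_top
    · filter_upwards [ae_restrict_mem measurableSet_Ioc] with l hl
      have hl' : l ∈ Icc l1 l2 := ⟨hl.1.le, hl.2⟩
      have b1 := (hB1 l hl').trans (le_abs_self B1)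
      have b2 := (hB2 l hl').trans (le_abs_self B2)
      have b3 := (hB3 l hl').trans (le_abs_self B3)
      rw [Real.norm_eq_abs] at b1 b2
      rw [norm_mul]
      refine mul_le_mul b3 ?_ (norm_nonneg _) (abs_nonneg _)
      have h6 := intervalIntegral.norm_integral_le_of_norm_le_const (a := G1 l) (b := G2 l) (C := C ^ 2)
        (f := fun u => Dt l u ^ 2) (fun u hu => by
          rw [Real.norm_of_nonneg (by positivity), ← sq_abs (Dt l u)]
          refine pow_le_pow_left₀ (abs_nonneg _) (hC l u (by linarith [hl'.1]) (by linarith [hl'.2])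
            ((Meas_uIoc hu).trans (max_le_max b1 b2))) 2)
      refine h6.trans (mul_le_mul_of_nonneg_left ?_ (by positivity))
      refine (abs_sub _ _).trans ?_
      linarith
  rw [intervalIntegrable_iff_integrableOn_Ioc_of_le h12]
  refine hint.congr_fun (fun l hl => ?_) measurableSet_Ioc
  have hl' : l ∈ Icc l1 l2 := ⟨hl.1.le, hl.2⟩
  show K l * _ = k l * _
  rw [hK l hl', hG1 l hl', hG2 l hl']

end Pool.Agent.Lib.MP_2a816b_nt.PV
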