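import Pool.Agent.Lib.MP_2a816b_nt.PV.FtA
import Pool.Agent.Lib.MP_2a816b_nt.PV.Meas

/-!
# JOB FtB (about 150 lines): the local Fourier transform of `Dt`
-/

open Complex Set Filter Topology MeasureTheory

namespace Pool.Agent.Lib.MP_2a816b_nt.PV

open Pool.Agent.Lib.MP_00e05b_nt Pool.Agent.Lib.MP_00e05b_nt.Mont

theorem FtB_Gt_cont {W : ℝ → ℝ} {s : ℝ} (hW : EB W s) (c t : ℝ) : Continuous (Gt W c t) :=
  (Gt_smooth hW c t).1.continuous

theorem FtB_Gt_cpt {W : ℝ → ℝ} {s : ℝ} (hW : EB W s) (c t : ℝ) : HasCompactSupport (Gt W c t) := by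
  apply HasCompactSupport.of_support_subset_isCompact (isCompact_Icc (a := c - s) (b := c + s))
  intro u hu
  by_contra hcon
  apply hu
  apply (Gt_smooth hW c t).2
  rw [mem_Icc, not_and_or, not_le, not_le] at hcon
  rcases hcon with h | h
  · rw [abs_sub_comm]
    exact le_trans (by linarith) (le_abs_self _)
  · exact le_trans (by linarith) (le_abs_self _)

/-- products of `Gt` with locally integrable real functions are integrable -/
theorem FtB_int {W : ℝ → ℝ} {s : ℝ} (hW : EB W s) (c t : ℝ) {f : ℝ → ℝ} (hf : LocallyIntegrable f volume) :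
    Integrable (fun u => Gt W c t u * ((f u : ℝ) : ℂ)) := by
  have h := hf.integrable_smul_right_of_hasCompactSupport (FtB_Gt_cont hW c t) (FtB_Gt_cpt hW c t)
  refine h.congr (Eventually.of_forall fun u => ?_)
  show f u • Gt W c t u = Gt W c t u * ((f u : ℝ) : ℂ)
  rw [Complex.real_smul, mul_comm]

theorem FtB_psi_li (r : ℝ) : LocallyIntegrable (fun u : ℝ => Chebyshev.psi (Real.exp (u + r))) volume := by
  apply Monotone.locallyIntegrable
  intro a b hab
  exact Chebyshev.psi_mono (Real.exp_le_exp.2 (by linarith))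

theorem FtB_rt_cont : ContinuousOn (fun v : ℝ => rt v) (Ioi 0) := by
  intro x hx
  have hx0 : 0 < x := hx
  unfold rt
  refine ContinuousAt.continuousWithinAt (ContinuousAt.div (by fun_prop) (by fun_prop) ?_)
  have : Real.exp (-(2 * x)) < 1 := by rw [Real.exp_lt_one_iff]; linarith
  linarith

/-- `explicit_formula` (MP_00e05b_nt/Explicit2.lean) for `gD W l c t` (`gD_test`; `1/8 + l/2 ≤ 3/4 < c`). The terms of the zeros:
`mx a = 0` unless `xi a = 0` (`mx_eq_zero`), and then `a = 1/2 + iγ` (`re_of_RH`), `gD_zero`. The two integrals: `gD_swap` with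
`φ v = e^v` (`∫_{u - l/2}^{u + l/2} e^v dv = 2 sinh (l/2) e^u`) and `φ = rt`. The primes: `gD_vonMangoldt`. So
`-∑_a mx a (..) - ∫ Gt u (∫ rt) du = ∫ Gt u (ψ - ψ) du - ∫ Gt u 2 sinh (l/2) e^u du = ∫ W(u - c) e^(-itu) Dt l u du`. -/
theorem ft_Dt (hRH : RiemannHypothesis) {W : ℝ → ℝ} (hW : EB W (1 / 8)) {l c : ℝ} (hl : 0 ≤ l) (hl1 : l ≤ 5 / 4)
    (hc : 1 ≤ c) (t : ℝ) :
    ∫ u, ((W (u - c) * Dt l u : ℝ) : ℂ) * cexp (((-(t * u) : ℝ) : ℂ) * I) =
      -(cexp (((-(t * c) : ℝ) : ℂ) * I) *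
        ∑' a : ℂ, (mx a : ℂ) * (SH l a * (cexp (((a.im * c : ℝ) : ℂ) * I) * (ck W (t - a.im) : ℂ)))) -
      ∫ u, ((W (u - c) * Rm l u : ℝ) : ℂ) * cexp (((-(t * u) : ℝ) : ℂ) * I) := by
  have hlc : 1 / 8 + l / 2 < c := by linarith
  have hT := gD_test hW hl hlc t
  have hsum := (explicit_formula hT).tsum_eq
  have hterm : ∀ a : ℂ, (mx a : ℂ) * ∫ u : ℝ, gD W l c t u * cexp (a * u) =
      cexp (((-(t * c) : ℝ) : ℂ) * I) *
        ((mx a : ℂ) * (SH l a * (cexp (((a.im * c : ℝ) : ℂ) * I) * (ck W (t - a.im) : ℂ)))) := by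
    intro a
    by_cases ha : xi a = 0
    · have h1 := re_of_RH hRH ha
      have h2 : ∫ u : ℝ, gD W l c t u * cexp (a * u) =
          ∫ u : ℝ, gD W l c t u * cexp ((1 / 2 + a.im * I) * u) := by
        rw [← h1]
      rw [h2, gD_zero hW hl hlc t a.im, ← h1]
      ring
    · rw [mx_eq_zero ha]
      simp
  rw [tsum_congr hterm, tsum_mul_left] at hsum
  -- the main term
  have hB : ∫ u, gD W l c t u * cexp u =
      ∫ u, Gt W c t u * ((2 * Real.sinh (l / 2) * Real.exp u : ℝ) : ℂ) := by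
    rw [gD_swap hW hl hlc t (φ := fun v : ℝ => cexp (v : ℂ)) (by fun_prop)]
    congr 1
    funext u
    congr 1
    have h1 : ∫ v in (u - l / 2)..(u + l / 2), cexp (v : ℂ) = ∫ v in (u - l / 2)..(u + l / 2), cexp (1 * (v : ℂ)) := by
      simp
    rw [h1, integral_exp_mul_complex one_ne_zero, div_one, one_mul, one_mul, ← Complex.ofReal_exp, ← Complex.ofReal_exp,
      ← Complex.ofReal_sub, Real.sinh_eq]
    congr 1
    rw [Real.exp_add, Real.exp_sub, Real.exp_neg]
    ring
  have hR : ∫ u, gD W l c t u * (rt u : ℂ) =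
      ∫ u, Gt W c t u * ((∫ v in (u - l / 2)..(u + l / 2), rt v : ℝ) : ℂ) := by
    rw [gD_swap hW hl hlc t (φ := fun v : ℝ => (rt v : ℂ)) (Complex.continuous_ofReal.comp_continuousOn FtB_rt_cont)]
    congr 1
    funext u
    congr 1
    exact intervalIntegral.integral_ofReal
  have hA := gD_vonMangoldt hW hl hlc t
  rw [hB, hR, hA] at hsum
  -- integrability
  have i1 : Integrable (fun u => Gt W c t u *
      ((Chebyshev.psi (Real.exp (u + l / 2)) - Chebyshev.psi (Real.exp (u - l / 2)) : ℝ) : ℂ)) := by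
    apply FtB_int hW
    have h1 := FtB_psi_li (l / 2)
    have h2 := FtB_psi_li (-(l / 2))
    exact h1.sub h2
  have i2 : Integrable (fun u => Gt W c t u * ((2 * Real.sinh (l / 2) * Real.exp u : ℝ) : ℂ)) := by
    apply FtB_int hW
    apply Continuous.locallyIntegrable
    fun_prop
  have hL : ∫ u, ((W (u - c) * Dt l u : ℝ) : ℂ) * cexp (((-(t * u) : ℝ) : ℂ) * I) =
      (∫ u, Gt W c t u *
        ((Chebyshev.psi (Real.exp (u + l / 2)) - Chebyshev.psi (Real.exp (u - l / 2)) : ℝ) : ℂ)) -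
      ∫ u, Gt W c t u * ((2 * Real.sinh (l / 2) * Real.exp u : ℝ) : ℂ) := by
    rw [← integral_sub i1 i2]
    congr 1
    funext u
    unfold Gt Dt
    have e1 : Real.exp (u / 2) = Real.exp (-(u / 2)) * Real.exp u := by
      rw [← Real.exp_add]
      congr 1
      ring
    rw [e1]
    push_cast
    ring
  have hRm : ∫ u, ((W (u - c) * Rm l u : ℝ) : ℂ) * cexp (((-(t * u) : ℝ) : ℂ) * I) =
      ∫ u, Gt W c t u * ((∫ v in (u - l / 2)..(u + l / 2), rt v : ℝ) : ℂ) := by
    congr 1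
    funext u
    unfold Gt Rm
    rw [← mul_assoc]
    simp only [Complex.ofReal_mul]
    ring
  rw [hL, hRm, hsum]
  ring

theorem FtB_rt_bound {v : ℝ} (hv : 1 / 4 ≤ v) : 0 ≤ rt v ∧ rt v ≤ 2 := by
  have h1 : Real.exp (-(2 * v)) ≤ 2 / 3 := by
    have h2 : Real.exp (-(2 * v)) ≤ Real.exp (-(1 / 2)) := Real.exp_le_exp.2 (by linarith)
    have h3 : (3 : ℝ) / 2 ≤ Real.exp (1 / 2) := by
      have := Real.add_one_le_exp (1 / 2 : ℝ)
      linarith
    have h4 : Real.exp (-(1 / 2 : ℝ)) ≤ 2 / 3 := by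
      rw [Real.exp_neg, inv_le_comm₀ (Real.exp_pos _) (by norm_num)]
      calc ((2 : ℝ) / 3)⁻¹ = 3 / 2 := by norm_num
        _ ≤ _ := h3
    linarith
  have h0 : 0 < Real.exp (-(2 * v)) := Real.exp_pos _
  unfold rt
  constructor
  · apply div_nonneg h0.le
    linarith
  · rw [div_le_iff₀ (by linarith)]
    linarith

/-- `rt` is decreasing and `rt (1/4) ≤ 2`: `0 ≤ Rm l u ≤ 2 l` for `u ≥ 7/8`, so by `planchB`-type bounds only the sup is needed. -/
theorem Rm_bound {l u : ℝ} (hl : 0 ≤ l) (hl1 : l ≤ 5 / 4) (hu : 7 / 8 ≤ u) : 0 ≤ Rm l u ∧ Rm l u ≤ 2 * l := by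
  have hle : u - l / 2 ≤ u + l / 2 := by linarith
  have h0 : 0 ≤ ∫ v in (u - l / 2)..(u + l / 2), rt v :=
    intervalIntegral.integral_nonneg hle fun v hv => (FtB_rt_bound (by linarith [hv.1])).1
  have h1 : ∫ v in (u - l / 2)..(u + l / 2), rt v ≤ 2 * l := by
    have hci : IntervalIntegrable (fun v => rt v) volume (u - l / 2) (u + l / 2) := by
      apply ContinuousOn.intervalIntegrable
      refine FtB_rt_cont.mono fun v hv => ?_
      rw [uIcc_of_le hle] at hv
      rw [mem_Ioi]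
      linarith [hv.1]
    calc ∫ v in (u - l / 2)..(u + l / 2), rt v ≤ ∫ _v in (u - l / 2)..(u + l / 2), (2 : ℝ) :=
          intervalIntegral.integral_mono_on hle hci intervalIntegrable_const
            fun v hv => (FtB_rt_bound (by linarith [hv.1])).2
      _ = 2 * l := by
          rw [intervalIntegral.integral_const, smul_eq_mul]
          ring
  have h2 : Real.exp (-(u / 2)) ≤ 1 := Real.exp_le_one_iff.2 (by linarith)
  have h3 : 0 < Real.exp (-(u / 2)) := Real.exp_pos _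
  unfold Rm
  constructor
  · positivity
  · calc Real.exp (-(u / 2)) * ∫ v in (u - l / 2)..(u + l / 2), rt v ≤ 1 * (2 * l) :=
        mul_le_mul h2 h1 h0 zero_le_one
      _ = 2 * l := one_mul _

theorem Rm_cont {l : ℝ} (hl : 0 ≤ l) (hl1 : l ≤ 5 / 4) : ContinuousOn (Rm l) (Ici (7 / 8)) := by
  have hg : Continuous (fun v : ℝ => rt (max v (1 / 4))) := by
    have h1 : Continuous (fun v : ℝ => max v (1 / 4 : ℝ)) := by fun_prop
    refine FtB_rt_cont.comp_continuous h1 fun v => ?_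
    rw [mem_Ioi]
    exact lt_of_lt_of_le (by norm_num) (le_max_right v (1 / 4))
  have h2 : Continuous (fun u : ℝ => ∫ v in (0 : ℝ)..(u + l / 2), rt (max v (1 / 4))) :=
    intervalIntegral.continuous_parametric_intervalIntegral_of_continuous (f := fun _ v => rt (max v (1 / 4)))
      (hg.comp continuous_snd) (by fun_prop)
  have h3 : Continuous (fun u : ℝ => ∫ v in (0 : ℝ)..(u - l / 2), rt (max v (1 / 4))) :=
    intervalIntegral.continuous_parametric_intervalIntegral_of_continuous (f := fun _ v => rt (max v (1 / 4)))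
      (hg.comp continuous_snd) (by fun_prop)
  have h4 : Continuous (fun u : ℝ => Real.exp (-(u / 2)) *
      ((∫ v in (0 : ℝ)..(u + l / 2), rt (max v (1 / 4))) - ∫ v in (0 : ℝ)..(u - l / 2), rt (max v (1 / 4)))) := by
    have h5 : Continuous (fun u : ℝ => Real.exp (-(u / 2))) := by fun_prop
    exact h5.mul (h2.sub h3)
  refine h4.continuousOn.congr fun u hu => ?_
  have hu' : 7 / 8 ≤ u := hu
  unfold Rm
  congr 1
  rw [intervalIntegral.integral_interval_sub_left (hg.intervalIntegrable _ _) (hg.intervalIntegrable _ _)]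
  refine intervalIntegral.integral_congr fun v hv => ?_
  rw [uIcc_of_le (by linarith)] at hv
  show rt v = rt (max v (1 / 4))
  rw [max_eq_left (by linarith [hv.1])]

end Pool.Agent.Lib.MP_2a816b_nt.PV
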