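import Pool.Agent.Lib.MP_2a816b_nt.PV.PBa
import Pool.Agent.Lib.MP_2a816b_nt.PV.FtB
import Pool.Agent.Lib.MP_2a816b_nt.PV.PlanchB

/-!
# JOB PB (about 200 lines): the local mean square of `Dt` by zeros
-/

open Complex Set Filter Topology MeasureTheory

namespace Pool.Agent.Lib.MP_2a816b_nt.PV

open Pool.Agent.Lib.MP_00e05b_nt Pool.Agent.Lib.MP_00e05b_nt.Mont

theorem PB_log1 {y : ℝ} (hy : 1 ≤ y) : 1 + Real.log y ≤ 5 * y ^ (1 / 4 : ℝ) := by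
  have h1 := Real.log_le_rpow_div (x := y) (by linarith) (show (0 : ℝ) < 1 / 4 by norm_num)
  have h2 : (1 : ℝ) ≤ y ^ (1 / 4 : ℝ) := Real.one_le_rpow hy (by norm_num)
  have h3 : y ^ (1 / 4 : ℝ) / (1 / 4 : ℝ) = 4 * y ^ (1 / 4 : ℝ) := by ring
  rw [h3] at h1
  linarith

theorem PB_L {l : ℝ} (hl : 0 < l) (hl1 : l ≤ 5 / 4) : 1 ≤ Real.log (4 / l) := by
  rw [Real.le_log_iff_exp_le (by positivity), le_div_iff₀ hl]
  have h1 := Real.exp_one_lt_d9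
  have h2 := Real.exp_pos 1
  nlinarith

theorem PB_J : Integrable (fun x : ℝ => (1 + ‖x‖) ^ (-(3 / 2) : ℝ)) := by
  refine integrable_one_add_norm (E := ℝ) (r := 3 / 2) ?_
  rw [Module.finrank_self]
  norm_num

theorem PB_abs (M E : ℂ) {q : ℝ} (hq : 0 < q) :
    |‖M + E‖ ^ 2 - ‖M‖ ^ 2| ≤ q * ‖M‖ ^ 2 + (1 / q + 1) * ‖E‖ ^ 2 := by
  have h1 := norm_add_le M E
  have h2 : ‖M‖ - ‖E‖ ≤ ‖M + E‖ := by
    have := norm_sub_norm_le M (-E)
    rw [norm_neg, sub_neg_eq_add] at this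
    exact this
  have hM := norm_nonneg M
  have hE := norm_nonneg E
  have hS := norm_nonneg (M + E)
  have h3 : 2 * ‖M‖ * ‖E‖ ≤ q * ‖M‖ ^ 2 + (1 / q) * ‖E‖ ^ 2 := by
    have h4 : 0 ≤ (q * ‖M‖ - ‖E‖) ^ 2 / q := by positivity
    have h5 : (q * ‖M‖ - ‖E‖) ^ 2 / q = q * ‖M‖ ^ 2 + (1 / q) * ‖E‖ ^ 2 - 2 * ‖M‖ * ‖E‖ := by
      field_simp
      ring
    linarith
  have h6 : |‖M + E‖ ^ 2 - ‖M‖ ^ 2| ≤ 2 * ‖M‖ * ‖E‖ + ‖E‖ ^ 2 := by
    rw [abs_le]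
    constructor
    · rcases le_total ‖E‖ ‖M‖ with h | h
      · nlinarith
      · nlinarith
    · nlinarith
  linarith

theorem PB_half {h : ℝ → ℝ} (he : ∀ t, h (-t) = h t) : ∫ t : ℝ, h t = 2 * ∫ t in Ioi (0 : ℝ), h t := by
  rw [← integral_comp_abs]
  refine integral_congr_ae (Eventually.of_forall fun t => ?_)
  rcases abs_choice t with h1 | h1
  · simp only [h1]
  · simp only [h1, he]

theorem PB_p {l : ℝ} (hl : 0 < l) (hl1 : l ≤ 5 / 4) : ∃ p : ℝ, 0 < p ∧ p ≤ 5 / 4 ∧ l = p ^ 4 ∧ √l = p ^ 2 ∧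
    l ^ (5 / 4 : ℝ) = p ^ 5 ∧ Real.log (4 / l) ^ 2 ≤ 128 / p := by
  have hp0 : 0 < l ^ (1 / 4 : ℝ) := Real.rpow_pos_of_pos hl _
  have hp4 : (l ^ (1 / 4 : ℝ)) ^ 4 = l := by
    rw [← Real.rpow_natCast, ← Real.rpow_mul hl.le]
    norm_num
  have hp5 : (l ^ (1 / 4 : ℝ)) ^ 5 = l ^ (5 / 4 : ℝ) := by
    rw [← Real.rpow_natCast, ← Real.rpow_mul hl.le]
    norm_num
  refine ⟨l ^ (1 / 4 : ℝ), hp0, ?_, hp4.symm, ?_, hp5.symm, ?_⟩
  · by_contra hcon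
    have h1 : 5 / 4 < l ^ (1 / 4 : ℝ) := not_le.1 hcon
    have h2 : (5 / 4 : ℝ) ^ 4 < (l ^ (1 / 4 : ℝ)) ^ 4 := pow_lt_pow_left₀ h1 (by norm_num) (by norm_num)
    rw [hp4] at h2
    norm_num at h2
    linarith
  · have h1 : l = ((l ^ (1 / 4 : ℝ)) ^ 2) ^ 2 := by
      rw [← pow_mul]
      exact hp4.symm
    have h2 : √l = √(((l ^ (1 / 4 : ℝ)) ^ 2) ^ 2) := congrArg Real.sqrt h1
    rw [h2]
    exact Real.sqrt_sq (by positivity)
  · have h0 : 0 < 4 / l := by positivity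
    have h1 := Real.log_le_rpow_div h0.le (show (0 : ℝ) < 1 / 8 by norm_num)
    have hL := PB_L hl hl1
    have h2 : Real.log (4 / l) ≤ 8 * (4 / l) ^ (1 / 8 : ℝ) := by
      have : (4 / l) ^ (1 / 8 : ℝ) / (1 / 8 : ℝ) = 8 * (4 / l) ^ (1 / 8 : ℝ) := by ring
      rw [← this]
      exact h1
    have h3 : Real.log (4 / l) ^ 2 ≤ (8 * (4 / l) ^ (1 / 8 : ℝ)) ^ 2 := pow_le_pow_left₀ (by linarith) h2 2
    refine h3.trans ?_
    have h4 : (8 * (4 / l) ^ (1 / 8 : ℝ)) ^ 2 = 64 * (4 / l) ^ (1 / 4 : ℝ) := by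
      rw [mul_pow, ← Real.rpow_natCast ((4 / l) ^ (1 / 8 : ℝ)), ← Real.rpow_mul h0.le]
      norm_num
    rw [h4, Real.div_rpow (by norm_num) hl.le]
    have h5 : (4 : ℝ) ^ (1 / 4 : ℝ) ≤ 2 := by
      have h6 : (4 : ℝ) ^ (1 / 4 : ℝ) ≤ 4 ^ (1 / 2 : ℝ) := Real.rpow_le_rpow_of_exponent_le (by norm_num) (by norm_num)
      have h7 : (4 : ℝ) ^ (1 / 2 : ℝ) = 2 := by
        rw [← Real.sqrt_eq_rpow, show (4 : ℝ) = 2 ^ 2 by norm_num, Real.sqrt_sq (by norm_num)]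
      linarith
    rw [← mul_div_assoc]
    refine div_le_div_of_nonneg_right ?_ hp0.le
    linarith

theorem PB_log (t : ℝ) : (Real.log (2 + |t|) / (1 + |t|)) ^ 2 ≤ 25 * (1 + ‖t‖) ^ (-(3 / 2) : ℝ) := by
  rw [Real.norm_eq_abs]
  have hy1 : 1 ≤ 1 + |t| := by linarith [abs_nonneg t]
  set y : ℝ := 1 + |t| with hy
  have hy0 : 0 < y := by linarith
  have h1 : Real.log (2 + |t|) ≤ 5 * y ^ (1 / 4 : ℝ) := by
    have h2 : Real.log (2 + |t|) ≤ Real.log 2 + Real.log y := by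
      rw [← Real.log_mul (by norm_num) hy0.ne']
      refine Real.log_le_log (by positivity) ?_
      rw [hy]
      linarith [abs_nonneg t]
    have h3 := PB_log1 hy1
    have h4 := Real.log_two_lt_d9
    linarith
  have h0 : 0 ≤ Real.log (2 + |t|) := Real.log_nonneg (by linarith [abs_nonneg t])
  rw [div_pow, div_le_iff₀ (by positivity)]
  have h2 : Real.log (2 + |t|) ^ 2 ≤ (5 * y ^ (1 / 4 : ℝ)) ^ 2 := pow_le_pow_left₀ h0 h1 2
  refine h2.trans (le_of_eq ?_)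
  rw [mul_pow, mul_assoc, ← Real.rpow_natCast y 2, ← Real.rpow_add hy0, ← Real.rpow_natCast (y ^ (1 / 4 : ℝ)),
    ← Real.rpow_mul hy0.le]
  norm_num

theorem PB_supp {W : ℝ → ℝ} (hW : EB W (1 / 8)) {c u : ℝ} (h : W (u - c) ≠ 0) : |u - c| < 1 / 8 := by
  by_contra hcon
  exact h (hW.supp _ (not_lt.1 hcon))

/-- the transform of `W Dt` -/
theorem PB_D {W : ℝ → ℝ} (hW : EB W (1 / 8)) {l c : ℝ} (hl : 0 ≤ l) (hl1 : l ≤ 5 / 4) (hc : 1 ≤ c) :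
    Integrable (fun t : ℝ => ‖∫ u, ((W (u - c) * Dt l u : ℝ) : ℂ) * cexp (((-(t * u) : ℝ) : ℂ) * I)‖ ^ 2) ∧
    ∫ t : ℝ, ‖∫ u, ((W (u - c) * Dt l u : ℝ) : ℂ) * cexp (((-(t * u) : ℝ) : ℂ) * I)‖ ^ 2 =
      2 * Real.pi * ∫ u, W (u - c) ^ 2 * Dt l u ^ 2 := by
  obtain ⟨C, hC, hb⟩ := Dt_bdd (c + 1)
  have hm : Measurable (fun u : ℝ => W (u - c) * Dt l u) := by
    have h1 : Measurable (fun u : ℝ => Dt l u) := Dt_meas.comp (measurable_const.prodMk measurable_id)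
    have h2 : Continuous (fun u : ℝ => W (u - c)) := hW.smooth.continuous.comp (continuous_id.sub continuous_const)
    exact h2.measurable.mul h1
  have hz : ∀ u, c + 1 < |u| → W (u - c) = 0 := by
    intro u hu
    by_contra hcon
    have h1 := PB_supp hW hcon
    have h2 : |u| ≤ |u - c| + |c| := by
      have := abs_add_le (u - c) c
      rwa [sub_add_cancel] at this
    rw [abs_of_nonneg (by linarith : (0 : ℝ) ≤ c)] at h2
    linarith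
  have hP := planchB (f := fun u => ((W (u - c) * Dt l u : ℝ) : ℂ)) (C := C) (M := c + 1)
    (Complex.measurable_ofReal.comp hm).aestronglyMeasurable (fun u => ?_) (fun u hu => ?_)
  · refine ⟨hP.1, hP.2.trans ?_⟩
    congr 1
    refine integral_congr_ae (Eventually.of_forall fun u => ?_)
    show ‖((W (u - c) * Dt l u : ℝ) : ℂ)‖ ^ 2 = _
    rw [Complex.norm_real, Real.norm_eq_abs, sq_abs]
    ring
  · rw [Complex.norm_real, Real.norm_eq_abs, abs_mul]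
    by_cases hu : |u| ≤ c + 1
    · have h1 := hb l u hl hl1 hu
      have h2 : |W (u - c)| ≤ 1 := by
        rw [abs_of_nonneg (hW.nonneg _)]
        exact hW.le_one _
      calc |W (u - c)| * |Dt l u| ≤ 1 * C := mul_le_mul h2 h1 (abs_nonneg _) (by norm_num)
        _ = C := one_mul C
    · rw [hz u (not_le.1 hu), abs_zero, zero_mul]
      exact hC
  · show ((W (u - c) * Dt l u : ℝ) : ℂ) = 0
    rw [hz u hu, zero_mul, Complex.ofReal_zero]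

/-- the transform of `W Rm` -/
theorem PB_R {W : ℝ → ℝ} (hW : EB W (1 / 8)) {l c : ℝ} (hl : 0 ≤ l) (hl1 : l ≤ 5 / 4) (hc : 1 ≤ c) :
    Integrable (fun t : ℝ => ‖∫ u, ((W (u - c) * Rm l u : ℝ) : ℂ) * cexp (((-(t * u) : ℝ) : ℂ) * I)‖ ^ 2) ∧
    ∫ t : ℝ, ‖∫ u, ((W (u - c) * Rm l u : ℝ) : ℂ) * cexp (((-(t * u) : ℝ) : ℂ) * I)‖ ^ 2 ≤
      2 * Real.pi * l ^ 2 := by
  have hcw : Continuous (fun u : ℝ => W (u - c)) := hW.smooth.continuous.comp (continuous_id.sub continuous_const)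
  have hind : (fun u : ℝ => ((W (u - c) * Rm l u : ℝ) : ℂ)) =
      (Icc (c - 1 / 8) (c + 1 / 8)).indicator (fun u : ℝ => ((W (u - c) * Rm l u : ℝ) : ℂ)) := by
    funext u
    by_cases hu : u ∈ Icc (c - 1 / 8) (c + 1 / 8)
    · rw [indicator_of_mem hu]
    · rw [indicator_of_notMem hu]
      have h1 : W (u - c) = 0 := by
        by_contra hcon
        have h2 := abs_lt.1 (PB_supp hW hcon)
        exact hu ⟨by linarith [h2.1], by linarith [h2.2]⟩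
      rw [h1, zero_mul, Complex.ofReal_zero]
  have hm : AEStronglyMeasurable (fun u : ℝ => ((W (u - c) * Rm l u : ℝ) : ℂ)) volume := by
    rw [hind]
    have h1 : ContinuousOn (fun u : ℝ => ((W (u - c) * Rm l u : ℝ) : ℂ)) (Icc (c - 1 / 8) (c + 1 / 8)) := by
      refine Complex.continuous_ofReal.comp_continuousOn (hcw.continuousOn.mul ((Rm_cont hl hl1).mono fun u hu => ?_))
      have := hu.1
      show 7 / 8 ≤ u
      linarith
    exact (aestronglyMeasurable_indicator_iff measurableSet_Icc).2 (h1.aestronglyMeasurable measurableSet_Icc)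
  have hbd : ∀ u, ‖((W (u - c) * Rm l u : ℝ) : ℂ)‖ ≤ 2 * l := by
    intro u
    rw [Complex.norm_real, Real.norm_eq_abs, abs_mul]
    by_cases hu : W (u - c) = 0
    · rw [hu, abs_zero, zero_mul]
      linarith
    · have h1 := abs_lt.1 (PB_supp hW hu)
      have h2 := Rm_bound hl hl1 (show 7 / 8 ≤ u by linarith [h1.1])
      have h3 : |W (u - c)| ≤ 1 := by
        rw [abs_of_nonneg (hW.nonneg _)]
        exact hW.le_one _
      have h4 : |Rm l u| ≤ 2 * l := by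
        rw [abs_of_nonneg h2.1]
        exact h2.2
      calc |W (u - c)| * |Rm l u| ≤ 1 * (2 * l) := mul_le_mul h3 h4 (abs_nonneg _) (by norm_num)
        _ = 2 * l := one_mul _
  have hz : ∀ u, c + 1 < |u| → ((W (u - c) * Rm l u : ℝ) : ℂ) = 0 := by
    intro u hu
    by_contra hcon
    have h0 : W (u - c) ≠ 0 := by
      intro h
      rw [h, zero_mul, Complex.ofReal_zero] at hcon
      exact hcon rfl
    have h1 := PB_supp hW h0
    have h2 : |u| ≤ |u - c| + |c| := by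
      have := abs_add_le (u - c) c
      rwa [sub_add_cancel] at this
    rw [abs_of_nonneg (by linarith : (0 : ℝ) ≤ c)] at h2
    linarith
  have hP := planchB hm hbd hz
  refine ⟨hP.1, hP.2.le.trans ?_⟩
  refine mul_le_mul_of_nonneg_left ?_ (by positivity)
  have h1 : ∀ u : ℝ, ‖((W (u - c) * Rm l u : ℝ) : ℂ)‖ ^ 2 ≤
      (Icc (c - 1 / 8) (c + 1 / 8)).indicator (fun _ => (2 * l) ^ 2) u := by
    intro u
    have h2 := congrFun hind u
    by_cases hu : u ∈ Icc (c - 1 / 8) (c + 1 / 8)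
    · rw [indicator_of_mem hu]
      exact pow_le_pow_left₀ (norm_nonneg _) (hbd u) 2
    · rw [h2, indicator_of_notMem hu, indicator_of_notMem hu, norm_zero]
      norm_num
  have h2 : Integrable ((Icc (c - 1 / 8) (c + 1 / 8)).indicator (fun _ : ℝ => (2 * l) ^ 2)) := by
    rw [integrable_indicator_iff measurableSet_Icc]
    exact integrableOn_const (by simp)
  refine (integral_mono_of_nonneg (Eventually.of_forall fun u => by positivity) h2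
    (Eventually.of_forall h1)).trans (le_of_eq ?_)
  rw [integral_indicator measurableSet_Icc, setIntegral_const, Real.volume_real_Icc_of_le (by linarith), smul_eq_mul]
  ring

/-- `planchB` for `f u = W (u - c) Dt l u` (bounded, measurable, compact support): `2π ∫ W² Dt² = ∫_ℝ |ft|²`, and by `ft_Dt`,
`Ez_bound`: `|ft t| = |sl l t AA W t c + Ez + e^(itc) (transform of W (u - c) Rm)|`. With
`‖Ez‖_2 ≤ C l`, `‖transform of W Rm‖_2 = (2π ∫ W² Rm²)^(1/2) ≤ C l` (`Rm_bound`, `planchB`) and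
`‖sl AA‖_2 ≤ C (l log² (4/l))^(1/2)` (`slAA_bound`), `||z + w|² - |z|²| ≤ 2 |z| |w| + |w|²` and Cauchy-Schwarz:
error `≤ C l^(3/2) log (4/l) + C l² ≤ C' l^(5/4)`. Finally `∫_ℝ sl² ‖AA‖² = 2 ∫_{t > 0}` (`AA_norm_neg`, `sl_neg`). -/
theorem PBmain (hRH : RiemannHypothesis) {W : ℝ → ℝ} (hW : EB W (1 / 8)) :
    ∃ C : ℝ, 0 ≤ C ∧ ∀ l : ℝ, 0 < l → l ≤ 5 / 4 → ∀ c : ℝ, 1 ≤ c →
      |(∫ u, W (u - c) ^ 2 * Dt l u ^ 2) - (Real.pi)⁻¹ * ∫ t in Ioi (0 : ℝ), sl l t ^ 2 * ‖AA W t c‖ ^ 2| ≤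
        C * l ^ (5 / 4 : ℝ) := by
  obtain ⟨C1, hC1, hE⟩ := Ez_bound hRH hW
  obtain ⟨CA, hCA, hA⟩ := slAA_bound hRH hW
  have hJ := PB_J
  set J : ℝ := ∫ x : ℝ, (1 + ‖x‖) ^ (-(3 / 2) : ℝ) with hJdef
  have hJ0 : 0 ≤ J := integral_nonneg fun x => by positivity
  have hpi := Real.pi_pos
  refine ⟨128 * CA + 4 * (50 * C1 ^ 2 * J + 4 * Real.pi), by positivity, fun l hl hl1 c hc => ?_⟩
  obtain ⟨p, hp0, hp1, hlp, hsq, hl54, hlog⟩ := PB_p hl hl1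
  obtain ⟨hAi, hAle⟩ := hA l hl hl1 c
  obtain ⟨hDi, hDe⟩ := PB_D hW hl.le hl1 hc
  obtain ⟨hRi, hRle⟩ := PB_R hW hl.le hl1 hc
  set F : ℝ → ℂ := fun t => ∫ u, ((W (u - c) * Dt l u : ℝ) : ℂ) * cexp (((-(t * u) : ℝ) : ℂ) * I) with hF
  set R : ℝ → ℂ := fun t => ∫ u, ((W (u - c) * Rm l u : ℝ) : ℂ) * cexp (((-(t * u) : ℝ) : ℂ) * I) with hR
  have hpt : ∀ t : ℝ, |‖F t‖ ^ 2 - sl l t ^ 2 * ‖AA W t c‖ ^ 2| ≤
      p ^ 2 * (sl l t ^ 2 * ‖AA W t c‖ ^ 2) +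
        (1 / p ^ 2 + 1) * ((50 * C1 ^ 2 * l ^ 2) * (1 + ‖t‖) ^ (-(3 / 2) : ℝ) + 2 * ‖R t‖ ^ 2) := by
    intro t
    obtain ⟨hE1, hE2⟩ := hE l hl.le hl1 c t
    have h1 : F t = -(cexp (((-(t * c) : ℝ) : ℂ) * I)) *
        ((sl l t : ℂ) * AA W t c + (Ez W l c t + cexp (((t * c : ℝ) : ℂ) * I) * R t)) := by
      have h2 := ft_Dt hRH hW hl.le hl1 hc t
      rw [hE2] at h2
      have h3 : cexp (((-(t * c) : ℝ) : ℂ) * I) * cexp (((t * c : ℝ) : ℂ) * I) = 1 := by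
        rw [← Complex.exp_add, ← add_mul, ← Complex.ofReal_add, neg_add_cancel, Complex.ofReal_zero, zero_mul,
          Complex.exp_zero]
      calc F t = _ := h2
        _ = -(cexp (((-(t * c) : ℝ) : ℂ) * I) * ((sl l t : ℂ) * AA W t c + Ez W l c t)) - 1 * R t := by
            rw [one_mul]
        _ = -(cexp (((-(t * c) : ℝ) : ℂ) * I) * ((sl l t : ℂ) * AA W t c + Ez W l c t)) -
            (cexp (((-(t * c) : ℝ) : ℂ) * I) * cexp (((t * c : ℝ) : ℂ) * I)) * R t := by rw [h3]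
        _ = _ := by ring
    have h2 : ‖F t‖ = ‖(sl l t : ℂ) * AA W t c + (Ez W l c t + cexp (((t * c : ℝ) : ℂ) * I) * R t)‖ := by
      rw [h1, norm_mul, norm_neg, Complex.norm_exp_ofReal_mul_I, one_mul]
    have h3 : sl l t ^ 2 * ‖AA W t c‖ ^ 2 = ‖(sl l t : ℂ) * AA W t c‖ ^ 2 := by
      rw [norm_mul, mul_pow, Complex.norm_real, Real.norm_eq_abs, sq_abs]
    have h4 := PB_abs ((sl l t : ℂ) * AA W t c) (Ez W l c t + cexp (((t * c : ℝ) : ℂ) * I) * R t)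
      (show 0 < p ^ 2 by positivity)
    rw [← h2, ← h3] at h4
    refine h4.trans ?_
    have h5 : ‖Ez W l c t + cexp (((t * c : ℝ) : ℂ) * I) * R t‖ ≤
        C1 * l * (Real.log (2 + |t|) / (1 + |t|)) + ‖R t‖ := by
      refine (norm_add_le _ _).trans ?_
      rw [norm_mul, Complex.norm_exp_ofReal_mul_I, one_mul]
      exact add_le_add hE1 le_rfl
    have h6 : ‖Ez W l c t + cexp (((t * c : ℝ) : ℂ) * I) * R t‖ ^ 2 ≤
        (50 * C1 ^ 2 * l ^ 2) * (1 + ‖t‖) ^ (-(3 / 2) : ℝ) + 2 * ‖R t‖ ^ 2 := by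
      refine (pow_le_pow_left₀ (norm_nonneg _) h5 2).trans ?_
      have h7 := PB_log t
      have h8 : (C1 * l * (Real.log (2 + |t|) / (1 + |t|)) + ‖R t‖) ^ 2 ≤
          2 * (C1 * l * (Real.log (2 + |t|) / (1 + |t|))) ^ 2 + 2 * ‖R t‖ ^ 2 := by
        nlinarith [sq_nonneg (C1 * l * (Real.log (2 + |t|) / (1 + |t|)) - ‖R t‖)]
      have h9 : 2 * (C1 * l * (Real.log (2 + |t|) / (1 + |t|))) ^ 2 =
          (2 * C1 ^ 2 * l ^ 2) * (Real.log (2 + |t|) / (1 + |t|)) ^ 2 := by ring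
      have h10 : (2 * C1 ^ 2 * l ^ 2) * (Real.log (2 + |t|) / (1 + |t|)) ^ 2 ≤
          (2 * C1 ^ 2 * l ^ 2) * (25 * (1 + ‖t‖) ^ (-(3 / 2) : ℝ)) :=
        mul_le_mul_of_nonneg_left h7 (by positivity)
      have h11 : (2 * C1 ^ 2 * l ^ 2) * (25 * (1 + ‖t‖) ^ (-(3 / 2) : ℝ)) =
          (50 * C1 ^ 2 * l ^ 2) * (1 + ‖t‖) ^ (-(3 / 2) : ℝ) := by ring
      linarith
    exact add_le_add le_rfl (mul_le_mul_of_nonneg_left h6 (by positivity))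
  have hei : Integrable (fun t : ℝ => (50 * C1 ^ 2 * l ^ 2) * (1 + ‖t‖) ^ (-(3 / 2) : ℝ) + 2 * ‖R t‖ ^ 2) :=
    (hJ.const_mul _).add (hRi.const_mul 2)
  have hmain : |(∫ t : ℝ, ‖F t‖ ^ 2) - ∫ t : ℝ, sl l t ^ 2 * ‖AA W t c‖ ^ 2| ≤
      p ^ 2 * (CA * l * Real.log (4 / l) ^ 2) +
        (1 / p ^ 2 + 1) * ((50 * C1 ^ 2 * l ^ 2) * J + 2 * (2 * Real.pi * l ^ 2)) := by
    rw [← integral_sub hDi hAi]
    refine abs_integral_le_integral_abs.trans ?_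
    have hsumi : Integrable (fun t : ℝ => p ^ 2 * (sl l t ^ 2 * ‖AA W t c‖ ^ 2) +
        (1 / p ^ 2 + 1) * ((50 * C1 ^ 2 * l ^ 2) * (1 + ‖t‖) ^ (-(3 / 2) : ℝ) + 2 * ‖R t‖ ^ 2)) :=
      (hAi.const_mul _).add (hei.const_mul _)
    refine (integral_mono (hDi.sub hAi).abs hsumi hpt).trans ?_
    rw [integral_add (hAi.const_mul _) (hei.const_mul _), integral_const_mul, integral_const_mul,
      integral_add (hJ.const_mul _) (hRi.const_mul 2), integral_const_mul, integral_const_mul]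
    refine add_le_add (mul_le_mul_of_nonneg_left hAle (by positivity)) (mul_le_mul_of_nonneg_left ?_ (by positivity))
    exact add_le_add le_rfl (mul_le_mul_of_nonneg_left hRle (by norm_num))
  have hhalf : (∫ t : ℝ, sl l t ^ 2 * ‖AA W t c‖ ^ 2) = 2 * ∫ t in Ioi (0 : ℝ), sl l t ^ 2 * ‖AA W t c‖ ^ 2 :=
    PB_half (h := fun t => sl l t ^ 2 * ‖AA W t c‖ ^ 2) fun t => by
      show sl l (-t) ^ 2 * ‖AA W (-t) c‖ ^ 2 = _
      rw [sl_neg, AA_norm_neg hW.es]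
  have hDe' : (∫ t : ℝ, ‖F t‖ ^ 2) = 2 * Real.pi * ∫ u, W (u - c) ^ 2 * Dt l u ^ 2 := hDe
  rw [hDe', hhalf] at hmain
  set P : ℝ := ∫ u, W (u - c) ^ 2 * Dt l u ^ 2 with hP
  set Q : ℝ := ∫ t in Ioi (0 : ℝ), sl l t ^ 2 * ‖AA W t c‖ ^ 2 with hQ
  have h1 : 2 * Real.pi * P - 2 * Q = (2 * Real.pi) * (P - Real.pi⁻¹ * Q) := by
    field_simp
  rw [h1, abs_mul, abs_of_pos (by positivity)] at hmain
  have h2 : |P - Real.pi⁻¹ * Q| ≤ (2 * Real.pi) * |P - Real.pi⁻¹ * Q| := by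
    have h3 := abs_nonneg (P - Real.pi⁻¹ * Q)
    have h4 := Real.pi_gt_three
    nlinarith
  refine (h2.trans hmain).trans ?_
  rw [hl54]
  have h3 : p ^ 2 * (CA * l * Real.log (4 / l) ^ 2) ≤ 128 * CA * p ^ 5 := by
    have h4 : CA * l * Real.log (4 / l) ^ 2 ≤ CA * l * (128 / p) := mul_le_mul_of_nonneg_left hlog (by positivity)
    calc p ^ 2 * (CA * l * Real.log (4 / l) ^ 2) ≤ p ^ 2 * (CA * l * (128 / p)) :=
          mul_le_mul_of_nonneg_left h4 (by positivity)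
      _ = 128 * CA * p ^ 5 := by
          rw [hlp]
          field_simp
  have h4 : (1 / p ^ 2 + 1) * ((50 * C1 ^ 2 * l ^ 2) * J + 2 * (2 * Real.pi * l ^ 2)) ≤
      4 * (50 * C1 ^ 2 * J + 4 * Real.pi) * p ^ 5 := by
    have h5 : (1 / p ^ 2 + 1) * ((50 * C1 ^ 2 * l ^ 2) * J + 2 * (2 * Real.pi * l ^ 2)) =
        (50 * C1 ^ 2 * J + 4 * Real.pi) * ((p + p ^ 3) * p ^ 5) := by
      rw [hlp]
      field_simp
      ring
    have h6 : p + p ^ 3 ≤ 4 := by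
      have : p ^ 3 ≤ (5 / 4) ^ 3 := pow_le_pow_left₀ hp0.le hp1 3
      norm_num at this
      linarith
    have h7 : (p + p ^ 3) * p ^ 5 ≤ 4 * p ^ 5 := mul_le_mul_of_nonneg_right h6 (by positivity)
    rw [h5]
    have h8 : 0 ≤ 50 * C1 ^ 2 * J + 4 * Real.pi := by positivity
    calc (50 * C1 ^ 2 * J + 4 * Real.pi) * ((p + p ^ 3) * p ^ 5)
        ≤ (50 * C1 ^ 2 * J + 4 * Real.pi) * (4 * p ^ 5) := mul_le_mul_of_nonneg_left h7 h8
      _ = 4 * (50 * C1 ^ 2 * J + 4 * Real.pi) * p ^ 5 := by ring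
  calc p ^ 2 * (CA * l * Real.log (4 / l) ^ 2) +
        (1 / p ^ 2 + 1) * ((50 * C1 ^ 2 * l ^ 2) * J + 2 * (2 * Real.pi * l ^ 2))
      ≤ 128 * CA * p ^ 5 + 4 * (50 * C1 ^ 2 * J + 4 * Real.pi) * p ^ 5 := add_le_add h3 h4
    _ = (128 * CA + 4 * (50 * C1 ^ 2 * J + 4 * Real.pi)) * p ^ 5 := by ring

end Pool.Agent.Lib.MP_2a816b_nt.PV
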