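import Pool.Agent.Lib.MP_2a816b_nt.PV.WinA
import Pool.Agent.Lib.MP_2a816b_nt.PV.PB

/-!
# JOB WinB (about 150 lines): `∫ Dt²` over long intervals by `GG`
-/

open Complex Set Filter Topology MeasureTheory

namespace Pool.Agent.Lib.MP_2a816b_nt.PV

open Pool.Agent.Lib.MP_00e05b_nt Pool.Agent.Lib.MP_00e05b_nt.Mont

private lemma WinB_locInt {l : ℝ} (hl : 0 ≤ l) (hl1 : l ≤ 5 / 4) :
    LocallyIntegrable (fun u => Dt l u ^ 2) := by
  rw [MeasureTheory.locallyIntegrable_iff]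
  intro k hk
  obtain ⟨r, hr⟩ := hk.isBounded.subset_closedBall (0 : ℝ)
  have h1 : IntegrableOn (fun u => Dt l u ^ 2) (Icc (-|r|) |r|) := by
    rw [integrableOn_Icc_iff_integrableOn_Ioc]
    have h := Dt_ii hl hl1 (-|r|) |r|
    rw [intervalIntegrable_iff_integrableOn_Ioc_of_le (by linarith [abs_nonneg r])] at h
    exact h
  refine h1.mono_set fun x hx => ?_
  have h2 := hr hx
  rw [Metric.mem_closedBall, dist_zero_right, Real.norm_eq_abs] at h2
  have h3 : |x| ≤ |r| := h2.trans (le_abs_self r)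
  exact abs_le.mp h3

/-- the function of two variables -/
private noncomputable def WinB_F (W : ℝ → ℝ) (l : ℝ) (c t : ℝ) : ℝ := sl l t ^ 2 * ‖AA W t c‖ ^ 2

private lemma WinB_F_nonneg (W : ℝ → ℝ) (l c t : ℝ) : 0 ≤ WinB_F W l c t := by
  unfold WinB_F
  positivity

private lemma WinB_swap {A : ℝ → ℝ → ℂ} (h : Continuous (fun p : ℝ × ℝ => A p.1 p.2)) :
    Continuous (fun p : ℝ × ℝ => A p.2 p.1) :=
  Continuous.comp (g := fun p : ℝ × ℝ => A p.1 p.2) h continuous_swap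

private lemma WinB_snd {A : ℝ → ℝ → ℝ} (h : Continuous (fun p : ℝ × ℝ => A p.1 p.2)) (l : ℝ) :
    Continuous (fun p : ℝ × ℝ => A l p.2) :=
  Continuous.comp (g := fun p : ℝ × ℝ => A p.1 p.2) h (continuous_const.prodMk continuous_snd)

private lemma WinB_F_cont {W : ℝ → ℝ} (hW : EB W (1 / 8)) (l : ℝ) :
    Continuous (Function.uncurry (WinB_F W l)) := by
  have h1 : Continuous (fun p : ℝ × ℝ => sl l p.2) := WinB_snd (A := sl) sl_cont l
  have h18 : (1 / 8 : ℝ) ≤ 3 / 4 := by norm_num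
  have hes := hW.es
  have h0 := AA_cont2 hes h18
  have h2 : Continuous (fun p : ℝ × ℝ => AA W p.2 p.1) := WinB_swap (A := AA W) h0
  exact (h1.pow 2).mul (h2.norm.pow 2)

private lemma WinB_prod (hRH : RiemannHypothesis) {W : ℝ → ℝ} (hW : EB W (1 / 8)) {l : ℝ} (hl : 0 < l) (hl1 : l ≤ 5 / 4)
    (c1 c2 : ℝ) :
    Integrable (Function.uncurry (WinB_F W l)) ((volume.restrict (Ioc c1 c2)).prod (volume.restrict (Ioi (0 : ℝ)))) := by
  obtain ⟨C, hC, hb⟩ := slAA_bound hRH hW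
  have hmeas : AEStronglyMeasurable (Function.uncurry (WinB_F W l))
      ((volume.restrict (Ioc c1 c2)).prod (volume.restrict (Ioi (0 : ℝ)))) :=
    (WinB_F_cont hW l).aestronglyMeasurable
  rw [MeasureTheory.integrable_prod_iff hmeas]
  refine ⟨Eventually.of_forall fun c => ?_, ?_⟩
  · exact (hb l hl hl1 c).1.integrableOn
  · refine Integrable.of_bound (C := C * l * Real.log (4 / l) ^ 2) ?_ ?_
    · exact hmeas.norm.integral_prod_right'
    · refine Eventually.of_forall fun c => ?_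
      have h1 : ∫ t in Ioi (0 : ℝ), ‖Function.uncurry (WinB_F W l) (c, t)‖ = ∫ t in Ioi (0 : ℝ), WinB_F W l c t := by
        refine integral_congr_ae (Eventually.of_forall fun t => ?_)
        show ‖WinB_F W l c t‖ = WinB_F W l c t
        rw [Real.norm_eq_abs, abs_of_nonneg (WinB_F_nonneg W l c t)]
      have h2 : ∫ t in Ioi (0 : ℝ), WinB_F W l c t ≤ ∫ t, WinB_F W l c t :=
        setIntegral_le_integral (hb l hl hl1 c).1 (Eventually.of_forall fun t => WinB_F_nonneg W l c t)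
      have h3 : 0 ≤ ∫ t in Ioi (0 : ℝ), WinB_F W l c t := integral_nonneg fun t => WinB_F_nonneg W l c t
      rw [h1, Real.norm_eq_abs, abs_of_nonneg h3]
      exact h2.trans (hb l hl hl1 c).2

private lemma WinB_fub (hRH : RiemannHypothesis) {W : ℝ → ℝ} (hW : EB W (1 / 8)) {l : ℝ} (hl : 0 < l) (hl1 : l ≤ 5 / 4)
    {c1 c2 : ℝ} (hc : c1 ≤ c2) :
    IntervalIntegrable (fun c => ∫ t in Ioi (0 : ℝ), sl l t ^ 2 * ‖AA W t c‖ ^ 2) volume c1 c2 ∧
    (∫ c in c1..c2, ∫ t in Ioi (0 : ℝ), sl l t ^ 2 * ‖AA W t c‖ ^ 2) =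
      ∫ t in Ioi (0 : ℝ), sl l t ^ 2 * GG W c1 c2 t := by
  have hP := WinB_prod hRH hW hl hl1 c1 c2
  refine ⟨?_, ?_⟩
  · rw [intervalIntegrable_iff_integrableOn_Ioc_of_le hc]
    exact hP.integral_prod_left
  · rw [intervalIntegral.integral_of_le hc]
    have h1 := MeasureTheory.integral_integral_swap hP
    unfold WinB_F at h1
    rw [h1]
    refine integral_congr_ae (Eventually.of_forall fun t => ?_)
    show (∫ c in Ioc c1 c2, sl l t ^ 2 * ‖AA W t c‖ ^ 2) = sl l t ^ 2 * GG W c1 c2 t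
    unfold GG
    rw [intervalIntegral.integral_of_le hc, integral_const_mul]

/-- `win_bounds` for `g u = Dt l u ^ 2` (locally integrable by `Dt_ii`), `PBmain` integrated over `c ∈ [c1, c2]`, and Fubini
`∫_{c1}^{c2} ∫_{t > 0} sl² ‖AA W t c‖² = ∫_{t > 0} sl² GG W c1 c2 t` (`AA_cont2`; dominated by `C min(l², 4/t²) log² (2 + t)`). -/
theorem win_Dt (hRH : RiemannHypothesis) {W : ℝ → ℝ} (hW : EB W (1 / 8)) :
    ∃ C : ℝ, 0 ≤ C ∧ ∀ l : ℝ, 0 < l → l ≤ 5 / 4 → ∀ c1 c2 : ℝ, 1 ≤ c1 → c1 ≤ c2 →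
      ∫ u in (c1 + 1 / 8)..(c2 - 1 / 8), Dt l u ^ 2 ≤
        (Real.pi * II W)⁻¹ * (∫ t in Ioi (0 : ℝ), sl l t ^ 2 * GG W c1 c2 t) + C * (c2 - c1) * l ^ (5 / 4 : ℝ) ∧
      (Real.pi * II W)⁻¹ * (∫ t in Ioi (0 : ℝ), sl l t ^ 2 * GG W c1 c2 t) - C * (c2 - c1) * l ^ (5 / 4 : ℝ) ≤
        ∫ u in (c1 - 1 / 8)..(c2 + 1 / 8), Dt l u ^ 2 := by
  obtain ⟨C, hC, hb⟩ := PBmain hRH hW
  have hII : 0 < II W := II_pos hW (by norm_num)
  refine ⟨(II W)⁻¹ * C, by positivity, fun l hl hl1 c1 c2 h1 hc => ?_⟩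
  have hloc := WinB_locInt hl.le hl1
  obtain ⟨hw1, hw2⟩ := win_bounds hW (by norm_num) hloc (fun u => sq_nonneg _) hc
  obtain ⟨hK, hKe⟩ := WinB_fub hRH hW hl hl1 hc
  have hJ : IntervalIntegrable (fun c => ∫ u, W (u - c) ^ 2 * Dt l u ^ 2) volume c1 c2 :=
    (win_cont hW (by norm_num) hloc).intervalIntegrable _ _
  set J : ℝ := ∫ c in c1..c2, ∫ u, W (u - c) ^ 2 * Dt l u ^ 2 with hJdef
  set S : ℝ := ∫ t in Ioi (0 : ℝ), sl l t ^ 2 * GG W c1 c2 t with hSdef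
  have hS : ∫ c in c1..c2, (Real.pi)⁻¹ * ∫ t in Ioi (0 : ℝ), sl l t ^ 2 * ‖AA W t c‖ ^ 2 = (Real.pi)⁻¹ * S := by
    rw [intervalIntegral.integral_const_mul, hKe]
  have hup : J ≤ (Real.pi)⁻¹ * S + C * l ^ (5 / 4 : ℝ) * (c2 - c1) := by
    have h2 : J ≤ ∫ c in c1..c2, ((Real.pi)⁻¹ * (∫ t in Ioi (0 : ℝ), sl l t ^ 2 * ‖AA W t c‖ ^ 2) +
        C * l ^ (5 / 4 : ℝ)) := by
      refine intervalIntegral.integral_mono_on hc hJ ((hK.const_mul _).add intervalIntegrable_const) fun c hcc => ?_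
      have h3 := (abs_le.mp (hb l hl hl1 c (h1.trans hcc.1))).2
      linarith
    rw [intervalIntegral.integral_add (hK.const_mul _) intervalIntegrable_const, hS,
      intervalIntegral.integral_const, smul_eq_mul] at h2
    linarith
  have hlo : (Real.pi)⁻¹ * S - C * l ^ (5 / 4 : ℝ) * (c2 - c1) ≤ J := by
    have h2 : ∫ c in c1..c2, ((Real.pi)⁻¹ * (∫ t in Ioi (0 : ℝ), sl l t ^ 2 * ‖AA W t c‖ ^ 2) -
        C * l ^ (5 / 4 : ℝ)) ≤ J := by
      refine intervalIntegral.integral_mono_on hc ((hK.const_mul _).sub intervalIntegrable_const) hJ fun c hcc => ?_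
      have h3 := (abs_le.mp (hb l hl hl1 c (h1.trans hcc.1))).1
      linarith
    rw [intervalIntegral.integral_sub (hK.const_mul _) intervalIntegrable_const, hS,
      intervalIntegral.integral_const, smul_eq_mul] at h2
    linarith
  have hinv : 0 ≤ (II W)⁻¹ := by positivity
  have hmul : (Real.pi * II W)⁻¹ * S = (II W)⁻¹ * ((Real.pi)⁻¹ * S) := by
    rw [mul_inv]
    ring
  rw [hmul]
  constructor
  · have h3 := mul_le_mul_of_nonneg_left (hw1.trans hup) hinv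
    rw [← mul_assoc, inv_mul_cancel₀ hII.ne', one_mul] at h3
    refine h3.trans (le_of_eq ?_)
    ring
  · have h3 := mul_le_mul_of_nonneg_left (hlo.trans hw2) hinv
    rw [← mul_assoc (II W)⁻¹ (II W), inv_mul_cancel₀ hII.ne', one_mul] at h3
    refine le_trans (le_of_eq ?_) h3
    ring

end Pool.Agent.Lib.MP_2a816b_nt.PV
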