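import Pool.Agent.Lib.MP_2a816b_nt.PV.Star
import Pool.Agent.Lib.MP_2a816b_nt.PV.WinB
import Pool.Agent.Lib.MP_2a816b_nt.PV.KerG

/-!
# JOB SLow (about 200 lines): lower bound of the averaged variance
-/

open Complex Set Filter Topology MeasureTheory

namespace Pool.Agent.Lib.MP_2a816b_nt.PV

open Pool.Agent.Lib.MP_00e05b_nt Pool.Agent.Lib.MP_00e05b_nt.Mont

lemma SLow_II_nonneg (W : ℝ → ℝ) : 0 ≤ II W := integral_nonneg fun _ => sq_nonneg _

lemma SLow_Mq_nonpos (W : ℝ → ℝ) {c1 c2 τ : ℝ} (h : c2 ≤ c1) (hτ : 0 ≤ τ) : Mq W c1 c2 τ ≤ 0 := by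
  unfold Mq
  refine setIntegral_nonpos measurableSet_Ioi fun w hw => ?_
  have hw' : 0 < w := hw
  exact mul_nonpos_of_nonneg_of_nonpos (qq_nonneg hw'.le) (AC_nonpos W h (mul_nonneg hw'.le hτ))

/-- the errors tend to zero -/
lemma SLow_err {δ : ℝ} (hδ : 0 < δ) (M N : ℝ) {κ : ℝ} (hκ : 0 < κ) :
    ∀ᶠ T : ℝ in atTop, 1 / (T * Real.log T ^ 2) *
      (M * (Real.log T * (T ^ (1 - δ) * (2 * Real.log T) ^ 2)) + N * (Real.log T * T ^ (3 / 4 : ℝ))) ≤ κ := by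
  have h1 : Tendsto (fun T : ℝ => Real.log T / T ^ δ) atTop (𝓝 0) :=
    (isLittleO_log_rpow_atTop hδ).tendsto_div_nhds_zero
  have h2 : Tendsto (fun T : ℝ => T ^ (-(1 / 4 : ℝ))) atTop (𝓝 0) := tendsto_rpow_neg_atTop (by norm_num)
  have h3 : Tendsto (fun T : ℝ => (Real.log T)⁻¹) atTop (𝓝 0) :=
    tendsto_inv_atTop_zero.comp Real.tendsto_log_atTop
  have h4 : Tendsto (fun T : ℝ => 4 * M * (Real.log T / T ^ δ) + N * (T ^ (-(1 / 4 : ℝ)) * (Real.log T)⁻¹)) atTop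
      (𝓝 (4 * M * 0 + N * (0 * 0))) := (h1.const_mul _).add ((h2.mul h3).const_mul _)
  have h5 : (4 * M * 0 + N * (0 * 0) : ℝ) < κ := by simpa using hκ
  filter_upwards [h4.eventually (gt_mem_nhds h5), eventually_gt_atTop (1 : ℝ)] with T hT hT1
  have hT0 : 0 < T := by linarith
  have hL : 0 < Real.log T := Real.log_pos hT1
  refine le_trans (le_of_eq ?_) hT.le
  have e1 : T ^ (1 - δ) = T / T ^ δ := by rw [Real.rpow_sub hT0, Real.rpow_one]
  have e2 : T ^ (-(1 / 4 : ℝ)) = T ^ (3 / 4 : ℝ) / T := by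
    rw [← Real.rpow_sub_one hT0.ne']
    norm_num
  rw [e1, e2]
  have : T ^ δ ≠ 0 := (Real.rpow_pos_of_pos hT0 _).ne'
  field_simp
  ring

/-- the core inequality for fixed `T` -/
lemma SLow_core {W : ℝ → ℝ} (hRH : RiemannHypothesis) (hW : EB W (1 / 8)) {δ κ C1 r : ℝ}
    (hκ1 : κ < 1)
    (hwin : ∀ l : ℝ, 0 < l → l ≤ 5 / 4 → ∀ c1 c2 : ℝ, 1 ≤ c1 → c1 ≤ c2 →
      (Real.pi * II W)⁻¹ * (∫ t in Ioi (0 : ℝ), sl l t ^ 2 * GG W c1 c2 t) - C1 * (c2 - c1) * l ^ (5 / 4 : ℝ) ≤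
        ∫ u in (c1 - 1 / 8)..(c2 + 1 / 8), Dt l u ^ 2)
    (hw3 : ∀ l : ℝ, 0 < l → l ≤ r → (1 - κ) * (1 / l ^ 3) ≤ w3 l)
    {T : ℝ} (hT : 2 ≤ T) (h12 : lT T ≤ T ^ (-(1 - δ))) (h2r : T ^ (-(1 - δ)) ≤ r)
    (h2l : T ^ (-(1 - δ)) ≤ 1 / 2) {a b : ℝ} (ha : 1 ≤ a) (hab : a ≤ b)
    (hc : a * Real.log T + 1 ≤ (b - δ) * Real.log T - 2) :
    1 / (T * Real.log T ^ 2) * ((1 - κ) * ((Real.pi * II W)⁻¹ *
      (Mq W (a * Real.log T + 1) ((b - δ) * Real.log T - 2) (1 / lT T) -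
        Mq W (a * Real.log T + 1) ((b - δ) * Real.log T - 2) (1 / T ^ (-(1 - δ)))) -
      C1 * (((b - δ) * Real.log T - 2) - (a * Real.log T + 1)) *
        ∫ l in (lT T)..(T ^ (-(1 - δ))), l ^ (5 / 4 - 3 : ℝ))) ≤ ∫ α in a..b, RR α T := by
  set L := Real.log T with hLdef
  set l1 := lT T with hl1
  set l2 := T ^ (-(1 - δ)) with hl2
  set c1 := a * L + 1 with hc1
  set c2 := (b - δ) * L - 2 with hc2
  have hT1 : 1 ≤ T := by linarith
  have hT0 : 0 < T := by linarith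
  have hL : 0 < L := Real.log_pos (by linarith)
  have hl1T : 1 / T ≤ l1 := lT_ge hT1
  have hl1p : 0 < l1 := lt_of_lt_of_le (by positivity) hl1T
  have hlog3 : (1 / 2 : ℝ) ≤ Real.log 3 := by
    have := Real.one_sub_inv_le_log_of_pos (show (0 : ℝ) < 3 by norm_num)
    norm_num at this ⊢
    linarith
  have h23 : l2 ≤ Real.log 3 := h2l.trans hlog3
  have h13 : l1 ≤ Real.log 3 := h12.trans h23
  rw [(star_avg hT hab).2]
  have hinner : ∀ l, 0 ≤ ∫ u in ((a - 1) * L + su l)..((b - 1) * L + su l), Dt l u ^ 2 := by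
    intro l
    refine intervalIntegral.integral_nonneg ?_ fun u _ => sq_nonneg _
    have : (a - 1) * L ≤ (b - 1) * L := mul_le_mul_of_nonneg_right (by linarith) hL.le
    linarith
  have hsub : Icc l1 (Real.log 3) ⊆ Ioi 0 := fun x hx => hl1p.trans_le hx.1
  have hii : IntervalIntegrable (fun l => w3 l *
      ∫ u in ((a - 1) * L + su l)..((b - 1) * L + su l), Dt l u ^ 2) volume l1 (Real.log 3) :=
    inner_ii hl1p h13 log_three_le (continuousOn_const.add (su_cont.mono hsub))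
      (continuousOn_const.add (su_cont.mono hsub)) (w3_cont.mono hsub)
  have hnn : 0 ≤ᵐ[volume.restrict (Ioc l1 (Real.log 3))] fun l => w3 l *
      ∫ u in ((a - 1) * L + su l)..((b - 1) * L + su l), Dt l u ^ 2 := by
    refine (ae_restrict_iff' measurableSet_Ioc).2 (Eventually.of_forall fun l hl => ?_)
    exact mul_nonneg (w3_pos (hl1p.trans hl.1)).le (hinner l)
  have hmono := intervalIntegral.integral_mono_interval (μ := volume) (le_refl l1) h12 h23 hnn hii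
  refine mul_le_mul_of_nonneg_left ?_ (by positivity)
  refine le_trans ?_ hmono
  -- the lower function
  have hker := kern_GG hRH hW hc hl1p h12
  have hiir : IntervalIntegrable (fun l : ℝ => l ^ (5 / 4 - 3 : ℝ)) volume l1 l2 := by
    refine intervalIntegral.intervalIntegrable_rpow (Or.inr ?_)
    rw [uIcc_of_le h12]
    exact fun h => absurd h.1 (not_le.2 hl1p)
  have hlow : ∫ l in l1..l2, (1 - κ) * ((Real.pi * II W)⁻¹ *
      (1 / l ^ 3 * ∫ t in Ioi (0 : ℝ), sl l t ^ 2 * GG W c1 c2 t) - C1 * (c2 - c1) * l ^ (5 / 4 - 3 : ℝ)) =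
      (1 - κ) * ((Real.pi * II W)⁻¹ * (Mq W c1 c2 (1 / l1) - Mq W c1 c2 (1 / l2)) -
        C1 * (c2 - c1) * ∫ l in l1..l2, l ^ (5 / 4 - 3 : ℝ)) := by
    rw [intervalIntegral.integral_const_mul, intervalIntegral.integral_sub (hker.1.const_mul _)
      (hiir.const_mul _), intervalIntegral.integral_const_mul, intervalIntegral.integral_const_mul, hker.2]
  rw [← hlow]
  refine intervalIntegral.integral_mono_on h12 (((hker.1.const_mul _).sub (hiir.const_mul _)).const_mul _)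
    (hii.mono_set ?_) fun l hl => ?_
  · rw [uIcc_of_le h12, uIcc_of_le h13]
    exact Icc_subset_Icc_right h23
  have hlp : 0 < l := hl1p.trans_le hl.1
  have hl54 : l ≤ 5 / 4 := hl.2.trans (h23.trans log_three_le)
  have hsu1 : su l ≤ L := by
    refine (su_le hlp).trans ?_
    rw [← Real.log_inv]
    refine Real.log_le_log (by positivity) ?_
    rw [inv_le_comm₀ hlp hT0, ← one_div]
    exact hl1T.trans hl.1
  have hsu2 : (1 - δ) * L - 1 ≤ su l := by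
    refine le_trans ?_ (su_ge hlp hl54)
    have h1 : Real.log l ≤ -(1 - δ) * L := by
      rw [hLdef, ← Real.log_rpow hT0]
      exact Real.log_le_log hlp hl.2
    have h2 : Real.log 2 ≤ 1 := by
      have := Real.log_two_lt_d9
      linarith
    linarith
  have hin : (Real.pi * II W)⁻¹ * (∫ t in Ioi (0 : ℝ), sl l t ^ 2 * GG W c1 c2 t) -
      C1 * (c2 - c1) * l ^ (5 / 4 : ℝ) ≤
      ∫ u in ((a - 1) * L + su l)..((b - 1) * L + su l), Dt l u ^ 2 := by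
    have haL : 0 ≤ a * L := mul_nonneg (by linarith) hL.le
    refine (hwin l hlp hl54 c1 c2 (by rw [hc1]; linarith) hc).trans ?_
    refine intervalIntegral.integral_mono_interval (μ := volume) ?_ (by linarith) ?_
      (Eventually.of_forall fun u => sq_nonneg _) (Dt_ii hlp.le hl54 _ _)
    · rw [hc1]
      have : (a - 1) * L = a * L - L := by ring
      linarith
    · rw [hc2]
      have : (b - 1) * L + ((1 - δ) * L - 1) = (b - δ) * L - 1 := by ring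
      linarith
  have hrp : l ^ (5 / 4 - 3 : ℝ) = 1 / l ^ 3 * l ^ (5 / 4 : ℝ) := by
    rw [Real.rpow_sub hlp, show (3 : ℝ) = ((3 : ℕ) : ℝ) by norm_num, Real.rpow_natCast]
    ring
  have hl3 : 0 ≤ 1 / l ^ 3 := by positivity
  calc (1 - κ) * ((Real.pi * II W)⁻¹ * (1 / l ^ 3 * ∫ t in Ioi (0 : ℝ), sl l t ^ 2 * GG W c1 c2 t) -
      C1 * (c2 - c1) * l ^ (5 / 4 - 3 : ℝ)) = (1 - κ) * (1 / l ^ 3) *
        ((Real.pi * II W)⁻¹ * (∫ t in Ioi (0 : ℝ), sl l t ^ 2 * GG W c1 c2 t) -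
        C1 * (c2 - c1) * l ^ (5 / 4 : ℝ)) := by rw [hrp]; ring
    _ ≤ (1 - κ) * (1 / l ^ 3) * ∫ u in ((a - 1) * L + su l)..((b - 1) * L + su l), Dt l u ^ 2 :=
        mul_le_mul_of_nonneg_left hin (mul_nonneg (by linarith) hl3)
    _ ≤ w3 l * ∫ u in ((a - 1) * L + su l)..((b - 1) * L + su l), Dt l u ^ 2 :=
        mul_le_mul_of_nonneg_right (hw3 l hlp (hl.2.trans h2r)) (hinner l)

lemma SLow_rpow_int {T l2 : ℝ} (hT : 1 ≤ T) (h12 : lT T ≤ l2) :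
    ∫ l in (lT T)..l2, l ^ (5 / 4 - 3 : ℝ) ≤ 4 / 3 * T ^ (3 / 4 : ℝ) := by
  have hT0 : 0 < T := by linarith
  have hl1T : 1 / T ≤ lT T := lT_ge hT
  have hl1p : 0 < lT T := lt_of_lt_of_le (by positivity) hl1T
  rw [integral_rpow (Or.inr ⟨by norm_num, by
    rw [uIcc_of_le h12]; exact fun h => absurd h.1 (not_le.2 hl1p)⟩)]
  have e : (5 / 4 - 3 + 1 : ℝ) = -(3 / 4) := by norm_num
  rw [e]
  have h1 : lT T ^ (-(3 / 4) : ℝ) ≤ T ^ (3 / 4 : ℝ) := by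
    rw [Real.rpow_neg hl1p.le, ← Real.inv_rpow hl1p.le]
    refine Real.rpow_le_rpow (by positivity) ?_ (by norm_num)
    rw [inv_le_comm₀ hl1p hT0, ← one_div]
    exact hl1T
  have h2 : 0 ≤ l2 ^ (-(3 / 4) : ℝ) := Real.rpow_nonneg (hl1p.le.trans h12) _
  rw [div_neg, neg_div' , div_le_iff₀ (by norm_num)]
  linarith

/-- If `a L + 1 > (b - δ) L - 2` then `Mq ≤ 0` (`AC_nonpos`) and the claim is clear (`RR_nonneg`). Otherwise, `star_avg`, restricted to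
`l ∈ [lT T, l2]`, `l2 = T^(-(1 - δ))` (nonnegative integrand). There `su l ∈ [(1 - δ) L - 1, L]`, so the window contains
`[a L, (b - δ) L - 1] ⊃ [c1 - 1/8, c2 + 1/8]` with `c1 = a L + 1 ≥ 1`, `c2 = (b - δ) L - 2`. By `w3_ge` (with `κ`; `l2 → 0`), the second
half of `win_Dt` and `kern_GG`: `≥ (1 - κ) (1/(T L²)) ((π II)⁻¹ (Mq (1/lT T) - Mq (1/l2)) - C (c2 - c1) ∫ l^(5/4 - 3) dl)`.
`1/lT T ≥ T - 1/2 ≥ ξ T` (`lT_le`, `Mq_mono`), `Mq (1/l2) ≤ C (B L) T^(1 - δ) log² (2 + T)` (`Mq_le`), both errors divided by `T L²`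
tend to `0`. -/
theorem S_lower (hRH : RiemannHypothesis) {W : ℝ → ℝ} (hW : EB W (1 / 8)) {ξ δ κ B : ℝ} (hξ : 0 < ξ) (hξ1 : ξ < 1)
    (hδ : 0 < δ) (hδ1 : δ < 1) (hκ : 0 < κ) (hκ1 : κ < 1) :
    ∀ᶠ T : ℝ in atTop, ∀ a b : ℝ, 1 ≤ a → a ≤ b → b ≤ B →
      (1 - κ) * ((Real.pi * (T * Real.log T ^ 2) * II W)⁻¹ *
        Mq W (a * Real.log T + 1) ((b - δ) * Real.log T - 2) (ξ * T)) - κ ≤ ∫ α in a..b, RR α T := by
  obtain ⟨C1, hC1, hwin⟩ := win_Dt hRH hW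
  obtain ⟨C2, hC2, hMq⟩ := Mq_le hRH hW.es (by norm_num : (1 / 8 : ℝ) ≤ 3 / 4)
  obtain ⟨r, hr, hw3⟩ := w3_ge hκ
  have hII := SLow_II_nonneg W
  have t1 : Tendsto (fun T : ℝ => T ^ (-(1 - δ))) atTop (𝓝 0) := tendsto_rpow_neg_atTop (by linarith)
  have t2 : Tendsto (fun T : ℝ => T ^ δ) atTop atTop := tendsto_rpow_atTop hδ
  filter_upwards [eventually_ge_atTop (2 : ℝ), t1.eventually (ge_mem_nhds hr),
    t1.eventually (ge_mem_nhds (show (0 : ℝ) < 1 / 2 by norm_num)), t2.eventually_ge_atTop 2,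
    eventually_ge_atTop (1 / (2 * (1 - ξ))),
    SLow_err hδ ((Real.pi * II W)⁻¹ * (C2 * B)) (C1 * B * (4 / 3)) hκ] with T hT h2r h2l hTδ hξT herr
  intro a b ha hab hb
  have hT0 : 0 < T := by linarith
  have hL : 0 < Real.log T := Real.log_pos (by linarith)
  have hinv : 0 ≤ (Real.pi * (T * Real.log T ^ 2) * II W)⁻¹ := by positivity
  have hinv' : 0 ≤ (Real.pi * II W)⁻¹ := by positivity
  rcases lt_or_ge ((b - δ) * Real.log T - 2) (a * Real.log T + 1) with hc | hc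
  · have h1 : Mq W (a * Real.log T + 1) ((b - δ) * Real.log T - 2) (ξ * T) ≤ 0 :=
      SLow_Mq_nonpos W hc.le (by positivity)
    have h2 : 0 ≤ ∫ α in a..b, RR α T :=
      intervalIntegral.integral_nonneg hab fun α _ => RR_nonneg hT α
    have h3 : (1 - κ) * ((Real.pi * (T * Real.log T ^ 2) * II W)⁻¹ *
        Mq W (a * Real.log T + 1) ((b - δ) * Real.log T - 2) (ξ * T)) ≤ 0 :=
      mul_nonpos_of_nonneg_of_nonpos (by linarith) (mul_nonpos_of_nonneg_of_nonpos hinv h1)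
    linarith
  have hT1 : 1 ≤ T := by linarith
  have hl1T : 1 / T ≤ lT T := lT_ge hT1
  have hl1p : 0 < lT T := lt_of_lt_of_le (by positivity) hl1T
  have hl1u : lT T ≤ 1 / (T - 1 / 2) := lT_le hT1
  have h12 : lT T ≤ T ^ (-(1 - δ)) := by
    refine hl1u.trans ?_
    have e1 : T ^ (-(1 - δ)) = T ^ δ / T := by
      rw [← Real.rpow_sub_one hT0.ne']
      congr 1
      ring
    rw [e1, div_le_div_iff₀ (by linarith) hT0, one_mul]
    nlinarith
  have hcore := SLow_core hRH hW hκ1 (fun l hl hl' c1 c2 h1 h2 => (hwin l hl hl' c1 c2 h1 h2).2)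
    hw3 hT h12 h2r h2l ha hab hc
  refine le_trans ?_ hcore
  set L := Real.log T with hLdef
  set c1 := a * L + 1 with hc1
  set c2 := (b - δ) * L - 2 with hc2
  have hcc : c2 - c1 ≤ B * L := by
    rw [hc1, hc2]
    have h1 : (b - δ) * L ≤ B * L := mul_le_mul_of_nonneg_right (by linarith) hL.le
    have h2 : 0 ≤ a * L := mul_nonneg (by linarith) hL.le
    linarith
  have hcc0 : 0 ≤ c2 - c1 := by linarith
  have hB : 0 ≤ B * L := hcc0.trans hcc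
  -- main term
  have hM1 : Mq W c1 c2 (ξ * T) ≤ Mq W c1 c2 (1 / lT T) := by
    refine Mq_mono hRH hW.es (by norm_num) le_rfl le_rfl hc (by positivity) ?_
    rw [le_div_iff₀ hl1p]
    have h1 : ξ * T ≤ T - 1 / 2 := by
      have h1ξ : 0 < 1 - ξ := by linarith
      rw [div_le_iff₀ (by positivity)] at hξT
      nlinarith
    have h2 : 0 < T - 1 / 2 := by linarith
    calc ξ * T * lT T ≤ (T - 1 / 2) * (1 / (T - 1 / 2)) :=
          mul_le_mul h1 hl1u hl1p.le h2.le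
      _ = 1 := mul_one_div_cancel h2.ne'
  have hM2 : Mq W c1 c2 (1 / T ^ (-(1 - δ))) ≤ C2 * (B * L) * (T ^ (1 - δ) * (2 * L) ^ 2) := by
    have e1 : 1 / T ^ (-(1 - δ)) = T ^ (1 - δ) := by
      rw [Real.rpow_neg hT0.le, one_div, inv_inv]
    rw [e1]
    have h1 : 1 ≤ T ^ (1 - δ) := Real.one_le_rpow hT1 (by linarith)
    have h2 : T ^ (1 - δ) ≤ T := by
      calc T ^ (1 - δ) ≤ T ^ (1 : ℝ) := Real.rpow_le_rpow_of_exponent_le hT1 (by linarith)
        _ = T := Real.rpow_one T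
    have h3 : Real.log (2 + T ^ (1 - δ)) ≤ 2 * L := by
      calc Real.log (2 + T ^ (1 - δ)) ≤ Real.log (T ^ 2) := by
            refine Real.log_le_log (by linarith) ?_
            nlinarith
        _ = 2 * L := by rw [Real.log_pow]; norm_num [hLdef]
    have h4 : 0 ≤ Real.log (2 + T ^ (1 - δ)) := Real.log_nonneg (by linarith)
    refine (hMq c1 c2 _ hc h1).trans ?_
    have h5 : Real.log (2 + T ^ (1 - δ)) ^ 2 ≤ (2 * L) ^ 2 := pow_le_pow_left₀ h4 h3 2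
    have h6 : T ^ (1 - δ) * Real.log (2 + T ^ (1 - δ)) ^ 2 ≤ T ^ (1 - δ) * (2 * L) ^ 2 :=
      mul_le_mul_of_nonneg_left h5 (by linarith)
    refine mul_le_mul (mul_le_mul_of_nonneg_left hcc hC2) h6 (by positivity) (by positivity)
  have hM3 := SLow_rpow_int hT1 h12
  have hM4 : C1 * (c2 - c1) * ∫ l in (lT T)..(T ^ (-(1 - δ))), l ^ (5 / 4 - 3 : ℝ) ≤
      C1 * (B * L) * (4 / 3 * T ^ (3 / 4 : ℝ)) := by
    refine mul_le_mul (mul_le_mul_of_nonneg_left hcc hC1) hM3 ?_ (by positivity)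
    refine intervalIntegral.integral_nonneg h12 fun l hl => Real.rpow_nonneg (hl1p.le.trans hl.1) _
  have hTL : 0 < T * L ^ 2 := by positivity
  have e0 : (Real.pi * (T * L ^ 2) * II W)⁻¹ = 1 / (T * L ^ 2) * (Real.pi * II W)⁻¹ := by
    rw [one_div, ← mul_inv]
    congr 1
    ring
  have h1κ : 0 ≤ 1 - κ := by linarith
  have hE : 1 / (T * L ^ 2) * ((Real.pi * II W)⁻¹ * (C2 * (B * L) * (T ^ (1 - δ) * (2 * L) ^ 2)) +
      C1 * (B * L) * (4 / 3 * T ^ (3 / 4 : ℝ))) ≤ κ := by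
    refine le_trans (le_of_eq ?_) herr
    ring
  have hκκ : (1 - κ) * κ ≤ κ := by nlinarith
  have hmain : (Real.pi * II W)⁻¹ * Mq W c1 c2 (ξ * T) -
      ((Real.pi * II W)⁻¹ * (C2 * (B * L) * (T ^ (1 - δ) * (2 * L) ^ 2)) +
      C1 * (B * L) * (4 / 3 * T ^ (3 / 4 : ℝ))) ≤
      (Real.pi * II W)⁻¹ * (Mq W c1 c2 (1 / lT T) - Mq W c1 c2 (1 / T ^ (-(1 - δ)))) -
      C1 * (c2 - c1) * ∫ l in (lT T)..(T ^ (-(1 - δ))), l ^ (5 / 4 - 3 : ℝ) := by
    have h1 := mul_le_mul_of_nonneg_left hM1 hinv'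
    have h2 := mul_le_mul_of_nonneg_left hM2 hinv'
    rw [mul_sub]
    linarith
  have h0 : 0 ≤ 1 / (T * L ^ 2) := by positivity
  have hfin := mul_le_mul_of_nonneg_left (mul_le_mul_of_nonneg_left hmain h1κ) h0
  refine le_trans ?_ hfin
  have hE' := mul_le_mul_of_nonneg_left hE h1κ
  rw [e0]
  calc (1 - κ) * (1 / (T * L ^ 2) * (Real.pi * II W)⁻¹ * Mq W c1 c2 (ξ * T)) - κ
      ≤ (1 - κ) * (1 / (T * L ^ 2) * (Real.pi * II W)⁻¹ * Mq W c1 c2 (ξ * T)) - (1 - κ) * κ := by linarith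
    _ ≤ (1 - κ) * (1 / (T * L ^ 2) * (Real.pi * II W)⁻¹ * Mq W c1 c2 (ξ * T)) - (1 - κ) * (1 / (T * L ^ 2) *
        ((Real.pi * II W)⁻¹ * (C2 * (B * L) * (T ^ (1 - δ) * (2 * L) ^ 2)) +
        C1 * (B * L) * (4 / 3 * T ^ (3 / 4 : ℝ)))) := by linarith
    _ = 1 / (T * L ^ 2) * ((1 - κ) * ((Real.pi * II W)⁻¹ * Mq W c1 c2 (ξ * T) -
        ((Real.pi * II W)⁻¹ * (C2 * (B * L) * (T ^ (1 - δ) * (2 * L) ^ 2)) +
        C1 * (B * L) * (4 / 3 * T ^ (3 / 4 : ℝ))))) := by ring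

end Pool.Agent.Lib.MP_2a816b_nt.PV
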