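import Pool.Agent.Lib.MP_2a816b_nt.PV.LBF
import Pool.Agent.Lib.MP_2a816b_nt.PV.SLow
import Pool.Agent.Lib.MP_2a816b_nt.PV.SinI

/-!
# JOB LBn (about 200 lines): the lower bound in the mean
-/

open Complex Set Filter Topology MeasureTheory

namespace Pool.Agent.Lib.MP_2a816b_nt.PV

open Pool.Agent.Lib.MP_00e05b_nt Pool.Agent.Lib.MP_00e05b_nt.Mont

theorem LBn_ii {a b : ℝ} (ha : 0 ≤ a) (hab : a ≤ b) :
    IntervalIntegrable (fun w : ℝ => qq w * w) volume a b := by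
  rw [intervalIntegrable_iff_integrableOn_Ioc_of_le hab]
  exact qq_w_int.mono_set fun x hx => lt_of_le_of_lt ha hx.1

theorem LBn_J {κ : ℝ} (hκ : 0 < κ) : ∃ w1 w2 : ℝ, 0 < w1 ∧ w1 ≤ w2 ∧
    Real.pi - κ ≤ ∫ w in w1..w2, qq w * w := by
  have h1 := intervalIntegral_tendsto_integral_Ioi (0 : ℝ) qq_w_int tendsto_id
  rw [qq_w_eq] at h1
  obtain ⟨w2, hw2, hw2'⟩ := ((h1.eventually_const_le (show Real.pi - κ / 2 < Real.pi by linarith)).and
    (eventually_ge_atTop (κ / 2))).exists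
  refine ⟨κ / 2, w2, by positivity, hw2', ?_⟩
  have h2 : ∫ w in (0 : ℝ)..(κ / 2), qq w * w ≤ κ / 2 := by
    calc ∫ w in (0 : ℝ)..(κ / 2), qq w * w ≤ ∫ _w in (0 : ℝ)..(κ / 2), (1 : ℝ) := by
          apply intervalIntegral.integral_mono_on (by positivity) (LBn_ii le_rfl (by positivity)) (by simp)
          intro w hw
          rcases eq_or_lt_of_le hw.1 with h | h
          · rw [← h]; simp
          · have := qq_le_inv h
            calc qq w * w ≤ 1 / w * w := mul_le_mul_of_nonneg_right this h.le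
              _ = 1 := by field_simp
      _ = κ / 2 := by simp
  have h3 := intervalIntegral.integral_add_adjacent_intervals
    (LBn_ii le_rfl (show (0 : ℝ) ≤ κ / 2 by positivity)) (LBn_ii (show (0 : ℝ) ≤ κ / 2 by positivity) hw2')
  simp only [id] at hw2
  linarith

theorem LBn_Jle {w1 w2 : ℝ} (h1 : 0 < w1) (h12 : w1 ≤ w2) :
    0 ≤ (∫ w in w1..w2, qq w * w) ∧ (∫ w in w1..w2, qq w * w) ≤ Real.pi := by
  constructor
  · apply intervalIntegral.integral_nonneg h12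
    intro w hw
    have h0 : 0 ≤ w := by linarith [hw.1]
    exact mul_nonneg (qq_nonneg h0) h0
  · rw [← qq_w_eq, intervalIntegral.integral_of_le h12]
    apply setIntegral_mono_set qq_w_int
    · refine (ae_restrict_iff' measurableSet_Ioi).2 (Eventually.of_forall fun w hw => ?_)
      have h0 : (0 : ℝ) ≤ w := le_of_lt hw
      exact mul_nonneg (qq_nonneg h0) h0
    · exact Eventually.of_forall fun w hw => lt_of_lt_of_le h1 hw.1.le

/-- the truncated form of `Mq` -/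
theorem LBn_Mq (hRH : RiemannHypothesis) {W : ℝ → ℝ} (hW : EB W (1 / 8)) {w1 w2 c1 c2 τ : ℝ}
    (h1 : 0 < w1) (h12 : w1 ≤ w2) (hc : c1 ≤ c2) (hτ : 0 ≤ τ) :
    ∫ w in w1..w2, qq (max w w1) * AC W c1 c2 (w * τ) ≤ Mq W c1 c2 τ := by
  have h2 : ∫ w in w1..w2, qq (max w w1) * AC W c1 c2 (w * τ) =
      ∫ w in w1..w2, qq w * AC W c1 c2 (w * τ) := by
    apply intervalIntegral.integral_congr
    intro w hw
    rw [uIcc_of_le h12] at hw
    simp only [max_eq_left hw.1]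
  rw [h2, intervalIntegral.integral_of_le h12]
  unfold Mq
  apply setIntegral_mono_set (Mq_ii hRH hW.es (by norm_num) hτ)
  · refine (ae_restrict_iff' measurableSet_Ioi).2 (Eventually.of_forall fun w hw => ?_)
    have h0 : (0 : ℝ) ≤ w := le_of_lt hw
    exact mul_nonneg (qq_nonneg h0) (AC_nonneg W hc (mul_nonneg h0 hτ))
  · exact Eventually.of_forall fun w hw => lt_of_lt_of_le h1 hw.1.le

theorem LBn_par {F : ℝ → ℝ → ℝ} (hF : Continuous (fun p : ℝ × ℝ => F p.1 p.2)) (a b : ℝ) :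
    Continuous (fun w : ℝ => ∫ y in a..b, F y w) := by
  have h : Continuous (Function.uncurry fun w y => F y w) :=
    hF.comp (continuous_snd.prodMk continuous_fst)
  exact intervalIntegral.continuous_parametric_intervalIntegral_of_continuous' h a b

/-- the double integral -/
theorem LBn_double {W : ℝ → ℝ} (hW : EB W (1 / 8)) {A δ P w1 w2 ξ L T Z : ℝ}
    (h1 : 0 < w1) (h12 : w1 ≤ w2) (_hZ : 0 < Z)
    (hAC : ∀ w : ℝ, w1 ≤ w → w ≤ w2 → (w * ξ) * P ≤
        Z⁻¹ * ∫ y in (1 + 2 * δ)..A, AC W (L + 1) ((y - δ) * L - 2) (w * (ξ * T))) :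
    Continuous (fun y : ℝ => ∫ w in w1..w2, qq (max w w1) * AC W (L + 1) ((y - δ) * L - 2) (w * (ξ * T))) ∧
    ξ * P * (∫ w in w1..w2, qq w * w) ≤ Z⁻¹ * ∫ y in (1 + 2 * δ)..A,
      ∫ w in w1..w2, qq (max w w1) * AC W (L + 1) ((y - δ) * L - 2) (w * (ξ * T)) := by
  have hq : Continuous (fun w : ℝ => qq (max w w1)) :=
    qq_cont.comp_continuous (continuous_id.max continuous_const) fun w =>
      lt_of_lt_of_le h1 (le_max_right w w1)
  have hA := AC_cont hW.es (by norm_num : (1 : ℝ) / 8 ≤ 3 / 4)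
  have hF : Continuous (fun p : ℝ × ℝ =>
      qq (max p.2 w1) * AC W (L + 1) ((p.1 - δ) * L - 2) (p.2 * (ξ * T))) := by
    apply (hq.comp continuous_snd).mul
    exact hA.comp (continuous_const.prodMk
      ((((continuous_fst.sub continuous_const).mul continuous_const).sub continuous_const).prodMk
        (continuous_snd.mul continuous_const)))
  constructor
  · exact intervalIntegral.continuous_parametric_intervalIntegral_of_continuous' hF w1 w2
  · rw [MeasureTheory.intervalIntegral_intervalIntegral_swap (F := fun y w =>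
      qq (max w w1) * AC W (L + 1) ((y - δ) * L - 2) (w * (ξ * T)))]
    swap
    · apply IntegrableOn.mono_set (t := uIcc (1 + 2 * δ) A ×ˢ uIcc w1 w2)
      · exact hF.continuousOn.integrableOn_compact (isCompact_uIcc.prod isCompact_uIcc)
      · exact prod_mono uIoc_subset_uIcc uIoc_subset_uIcc
    rw [← intervalIntegral.integral_const_mul, ← intervalIntegral.integral_const_mul]
    have hG : Continuous (fun w : ℝ => ∫ y in (1 + 2 * δ)..A,
        qq (max w w1) * AC W (L + 1) ((y - δ) * L - 2) (w * (ξ * T))) :=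
      LBn_par (F := fun y w => qq (max w w1) * AC W (L + 1) ((y - δ) * L - 2) (w * (ξ * T))) hF _ _
    apply intervalIntegral.integral_mono_on h12
    · exact (LBn_ii h1.le h12).const_mul _
    · exact (hG.const_smul Z⁻¹).intervalIntegrable _ _
    · intro w hw
      simp only [max_eq_left hw.1]
      rw [intervalIntegral.integral_const_mul]
      have h3 := hAC w hw.1 hw.2
      have h4 : 0 ≤ qq w := qq_nonneg (by linarith [hw.1])
      have h5 := mul_le_mul_of_nonneg_left h3 h4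
      calc ξ * P * (qq w * w) = qq w * ((w * ξ) * P) := by ring
        _ ≤ _ := h5
        _ = _ := by ring

/-- `∫_1^y (RR - 1) = ∫_1^y RR - (y - 1)`, so the claim is `∫_1^A ∫_1^y RR ≥ (A - 1)²/2 - 1/6 - ε`. Drop `y < 1 + 2δ` (`RR ≥ 0`), use
`S_lower` with `a = 1`, `b = y`, small `κ, δ`, `ξ` close to `1`:
`∫_1^y RR ≥ (1 - κ) (π T L² II)⁻¹ Mq W (L + 1) ((y - δ) L - 2) (ξ T) - κ`. `Mq ≥ ∫_{w1}^{w2} qq w AC (w ξ T) dw` for `y ≥ 1 + 2δ` and `T` large
(`AC_nonneg`: `L + 1 ≤ (y - δ) L - 2` as `(y - 1 - δ) L ≥ δ L ≥ 3`). Exchange the integrals over `y` and `w` (`AC_cont`), `AC_mean` with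
`w ξ` in place of `w` (range `[w1 ξ, w2 ξ]`): `∫_1^A ∫_1^y RR ≥ (1 - κ) ξ (∫_{w1}^{w2} qq w w dw/π) ((A - 1 - 2δ)²/2 - 1/6 - ε') - κ A`
(if the bracket is negative the factor is between `0` and `1`), and `∫_{w1}^{w2} qq w w dw → π` (`qq_w_eq`, `qq_w_int`) as
`w1 → 0`, `w2 → ∞`. -/
theorem LB_mean (hRH : RiemannHypothesis) {A ε : ℝ} (hA : 1 < A) (hε : 0 < ε) :
    ∀ᶠ T : ℝ in atTop, -(1 / 6) - ε ≤ ∫ y in (1 : ℝ)..A, ∫ α in (1 : ℝ)..y, (RR α T - 1) := by
  obtain ⟨W, hW⟩ := exists_EB (1 / 8) (by norm_num)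
  have hII : 0 < II W := II_pos hW (by norm_num)
  have hA1 : 0 < A - 1 := by linarith
  -- parameters
  obtain ⟨δ, hδ, hδ1, hδA, hδε⟩ : ∃ δ : ℝ, 0 < δ ∧ δ < 1 ∧ 1 + 2 * δ < A ∧ 2 * δ * (A - 1) ≤ ε / 5 := by
    have h1 : Tendsto (fun d : ℝ => 2 * d * (A - 1)) (𝓝[>] 0) (𝓝 (2 * 0 * (A - 1))) :=
      (Continuous.tendsto (by fun_prop) 0).mono_left nhdsWithin_le_nhds
    have h2 : Tendsto (fun d : ℝ => 1 + 2 * d) (𝓝[>] 0) (𝓝 (1 + 2 * 0)) :=
      (Continuous.tendsto (by fun_prop) 0).mono_left nhdsWithin_le_nhds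
    have h3 : ∀ᶠ d : ℝ in 𝓝[>] 0, d < 1 := by
      have := (tendsto_id (α := ℝ) (x := 𝓝 0)).mono_left (nhdsWithin_le_nhds (s := Ioi 0))
      exact this.eventually_lt_const (by norm_num)
    obtain ⟨d, hd⟩ := (((h1.eventually_le_const (show 2 * 0 * (A - 1) < ε / 5 by simp; positivity)).and
      (h2.eventually_lt_const (show 1 + 2 * 0 < A by simpa using hA))).and
      (h3.and self_mem_nhdsWithin)).exists
    exact ⟨d, hd.2.2, hd.2.1, hd.1.2, hd.1.1⟩
  set P : ℝ := (A - 1 - 2 * δ) ^ 2 / 2 - 1 / 6 - ε / 5 with hP_def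
  obtain ⟨κ, hκ, hκ1, hκA, hκP⟩ : ∃ κ : ℝ, 0 < κ ∧ κ < 1 ∧ κ * (A - 1) ≤ ε / 5 ∧ 3 * κ * |P| ≤ ε / 5 := by
    have h1 : Tendsto (fun d : ℝ => d * (A - 1)) (𝓝[>] 0) (𝓝 (0 * (A - 1))) :=
      (Continuous.tendsto (by fun_prop) 0).mono_left nhdsWithin_le_nhds
    have h2 : Tendsto (fun d : ℝ => 3 * d * |P|) (𝓝[>] 0) (𝓝 (3 * 0 * |P|)) :=
      (Continuous.tendsto (by fun_prop) 0).mono_left nhdsWithin_le_nhds
    have h3 : ∀ᶠ d : ℝ in 𝓝[>] 0, d < 1 := by
      have := (tendsto_id (α := ℝ) (x := 𝓝 0)).mono_left (nhdsWithin_le_nhds (s := Ioi 0))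
      exact this.eventually_lt_const (by norm_num)
    obtain ⟨d, hd⟩ := (((h1.eventually_le_const (show 0 * (A - 1) < ε / 5 by simp; positivity)).and
      (h2.eventually_le_const (show 3 * 0 * |P| < ε / 5 by simp; positivity))).and
      (h3.and self_mem_nhdsWithin)).exists
    exact ⟨d, hd.2.2, hd.2.1, hd.1.1, hd.1.2⟩
  have hpi := Real.pi_pos
  obtain ⟨w1, w2, hw1, hw12, hJ⟩ := LBn_J (show 0 < Real.pi * κ by positivity)
  obtain ⟨hJ0, hJ1⟩ := LBn_Jle hw1 hw12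
  set J : ℝ := ∫ w in w1..w2, qq w * w with hJ_def
  have hξ : 0 < 1 - κ := by linarith
  set ρ : ℝ := (1 - κ) * (1 - κ) * (Real.pi⁻¹ * J) with hρ_def
  have hJp0 : 0 ≤ Real.pi⁻¹ * J := by positivity
  have hJp1 : Real.pi⁻¹ * J ≤ 1 := by
    rw [inv_mul_le_iff₀ hpi]; linarith
  have hJp2 : 1 - κ ≤ Real.pi⁻¹ * J := by
    rw [le_inv_mul_iff₀ hpi]; linarith
  have hρ1 : ρ ≤ 1 := by
    rw [hρ_def]
    have h1 : (1 - κ) * (1 - κ) ≤ 1 := by nlinarith
    have h2 : 0 ≤ (1 - κ) * (1 - κ) := by positivity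
    nlinarith
  have hρ2 : 1 - 3 * κ ≤ ρ := by
    rw [hρ_def]
    have h2 : 0 ≤ (1 - κ) * (1 - κ) := by positivity
    have h1 : (1 - κ) * (1 - κ) * (1 - κ) ≤ (1 - κ) * (1 - κ) * (Real.pi⁻¹ * J) :=
      mul_le_mul_of_nonneg_left hJp2 h2
    nlinarith [mul_pos hκ hκ, mul_pos hκ (mul_pos hκ hκ)]
  have hρP : P - ε / 5 ≤ ρ * P := by
    have h1 : |(1 - ρ) * P| ≤ 3 * κ * |P| := by
      rw [abs_mul]
      apply mul_le_mul_of_nonneg_right _ (abs_nonneg _)
      rw [abs_of_nonneg (by linarith)]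
      linarith
    have h2 := (abs_le.1 h1).2
    linarith
  have hS := S_lower hRH hW (ξ := 1 - κ) (δ := δ) (κ := κ) (B := A) hξ (by linarith) hδ hδ1 hκ hκ1
  have hM := AC_mean hRH hW (A := A) (δ := δ) (ε := ε / 5) (w1 := w1 * (1 - κ)) (w2 := w2 * (1 - κ)) hδ hδA
    (by positivity) (by positivity)
  filter_upwards [hS, hM, Real.tendsto_log_atTop.eventually_gt_atTop 0,
    Real.tendsto_log_atTop.eventually_ge_atTop (3 / δ), eventually_ge_atTop (2 : ℝ)] with T hS1 hM1 hL hLδ hT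
  set L := Real.log T with hL_def
  rw [div_le_iff₀ hδ] at hLδ
  have hT0 : 0 < T := by linarith
  -- integrability of `RR`
  have hRi : ∀ a b : ℝ, IntervalIntegrable (fun α => RR α T) volume a b := by
    intro a b
    rcases le_total a b with h | h
    · exact (star_avg hT h).1
    · exact (star_avg hT h).1.symm
  have hRc : Continuous (fun y : ℝ => ∫ α in (1 : ℝ)..y, RR α T) :=
    intervalIntegral.continuous_primitive hRi 1
  have e1 : ∀ y : ℝ, ∫ α in (1 : ℝ)..y, (RR α T - 1) = (∫ α in (1 : ℝ)..y, RR α T) - (y - 1) := by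
    intro y
    rw [intervalIntegral.integral_sub (hRi _ _) (by simp)]
    simp
  simp only [e1]
  rw [intervalIntegral.integral_sub (hRc.intervalIntegrable _ _)
    ((by fun_prop : Continuous (fun y : ℝ => y - 1)).intervalIntegrable _ _)]
  have e2 : ∫ y in (1 : ℝ)..A, (y - 1) = (A - 1) ^ 2 / 2 := by
    rw [intervalIntegral.integral_sub (by simp) (by simp)]
    simp
    ring
  rw [e2]
  -- the main bound
  set Z : ℝ := T * L ^ 2 * II W with hZ_def
  have hZ : 0 < Z := by positivity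
  obtain ⟨hDc, hD⟩ := LBn_double hW (A := A) (δ := δ) (P := P) (w1 := w1) (w2 := w2) (ξ := 1 - κ) (L := L)
    (T := T) (Z := Z) hw1 hw12 hZ (by
      intro w hw hw'
      have := hM1 (w * (1 - κ)) (mul_le_mul_of_nonneg_right hw hξ.le) (mul_le_mul_of_nonneg_right hw' hξ.le)
      rw [mul_assoc w (1 - κ) T] at this
      exact this)
  set D : ℝ → ℝ := fun y : ℝ => ∫ w in w1..w2, qq (max w w1) *
    AC W (L + 1) ((y - δ) * L - 2) (w * ((1 - κ) * T)) with hD_def
  have hlow : ∀ y ∈ Icc (1 + 2 * δ) A, (1 - κ) * (Real.pi⁻¹ * (Z⁻¹ * D y)) - κ ≤ ∫ α in (1 : ℝ)..y, RR α T := by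
    intro y hy
    have hy1 : (1 + 2 * δ) * L ≤ y * L := mul_le_mul_of_nonneg_right hy.1 hL.le
    have hc : 1 * L + 1 ≤ (y - δ) * L - 2 := by linarith
    have h1 := hS1 1 y le_rfl (by linarith [hy.1]) hy.2
    have h2 := LBn_Mq hRH hW (w1 := w1) (w2 := w2) (τ := (1 - κ) * T) hw1 hw12 hc (by positivity)
    rw [one_mul] at h1 h2
    refine le_trans ?_ h1
    apply sub_le_sub_right
    apply mul_le_mul_of_nonneg_left _ hξ.le
    have e3 : (Real.pi * (T * L ^ 2) * II W)⁻¹ = Real.pi⁻¹ * Z⁻¹ := by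
      rw [hZ_def, ← mul_inv]
      congr 1
      ring
    rw [e3, mul_assoc]
    apply mul_le_mul_of_nonneg_left _ (by positivity)
    apply mul_le_mul_of_nonneg_left _ (by positivity)
    exact h2
  have hlow2 : ∫ y in (1 + 2 * δ)..A, ((1 - κ) * (Real.pi⁻¹ * (Z⁻¹ * D y)) - κ) ≤
      ∫ y in (1 + 2 * δ)..A, ∫ α in (1 : ℝ)..y, RR α T := by
    apply intervalIntegral.integral_mono_on hδA.le _ (hRc.intervalIntegrable _ _) hlow
    exact ((continuous_const.mul (continuous_const.mul (continuous_const.mul hDc))).sub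
      continuous_const).intervalIntegrable _ _
  have e4 : ∫ y in (1 + 2 * δ)..A, ((1 - κ) * (Real.pi⁻¹ * (Z⁻¹ * D y)) - κ) =
      (1 - κ) * (Real.pi⁻¹ * (Z⁻¹ * ∫ y in (1 + 2 * δ)..A, D y)) - κ * (A - (1 + 2 * δ)) := by
    rw [intervalIntegral.integral_sub _ (by simp), intervalIntegral.integral_const_mul,
      intervalIntegral.integral_const_mul, intervalIntegral.integral_const_mul]
    · simp
      ring
    · exact (continuous_const.mul (continuous_const.mul (continuous_const.mul hDc))).intervalIntegrable _ _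
  have hlow3 : 0 ≤ ∫ y in (1 : ℝ)..(1 + 2 * δ), ∫ α in (1 : ℝ)..y, RR α T := by
    apply intervalIntegral.integral_nonneg (by linarith)
    intro y hy
    apply intervalIntegral.integral_nonneg hy.1
    intro α _
    exact RR_nonneg hT α
  have hsplit := intervalIntegral.integral_add_adjacent_intervals
    (hRc.intervalIntegrable (μ := volume) 1 (1 + 2 * δ)) (hRc.intervalIntegrable (μ := volume) (1 + 2 * δ) A)
  have hD2 : ρ * P ≤ (1 - κ) * (Real.pi⁻¹ * (Z⁻¹ * ∫ y in (1 + 2 * δ)..A, D y)) := by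
    calc ρ * P = (1 - κ) * (Real.pi⁻¹ * ((1 - κ) * P * J)) := by
          rw [hρ_def]; ring
      _ ≤ _ := by
          apply mul_le_mul_of_nonneg_left _ hξ.le
          apply mul_le_mul_of_nonneg_left hD (by positivity)
  have hκ2 : κ * (A - (1 + 2 * δ)) ≤ κ * (A - 1) := by
    apply mul_le_mul_of_nonneg_left _ hκ.le
    linarith
  have hPA : (A - 1) ^ 2 / 2 - 2 * δ * (A - 1) ≤ (A - 1 - 2 * δ) ^ 2 / 2 := by
    nlinarith [sq_nonneg δ]
  rw [e4] at hlow2
  linarith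

end Pool.Agent.Lib.MP_2a816b_nt.PV
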