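import Pool.Agent.Lib.MP_2a816b_nt.PV.Defs

/-!
# JOB RHz (about 60 lines): the functional equation
-/

open Complex Set Filter Topology MeasureTheory

namespace Pool.Agent.Lib.MP_2a816b_nt.PV

open Pool.Agent.Lib.MP_00e05b_nt Pool.Agent.Lib.MP_00e05b_nt.Mont

/-- Functional equation (`riemannZeta_one_sub`): a zero with `Re s < 1/2` that is not trivial gives the zero `1 - s`. The case
`Re s ≥ 1` is in Mathlib (`riemannZeta_ne_zero_of_one_le_re`). -/
theorem RH_of_zfree (h : ∀ s : ℂ, 1 / 2 < s.re → s ≠ 1 → riemannZeta s ≠ 0) : RiemannHypothesis := by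
  intro s hz htriv hs1
  by_contra hne
  rcases lt_or_gt_of_ne hne with hlt | hgt
  · have ht : 1 / 2 < (1 - s).re := by
      rw [sub_re, one_re]
      linarith
    have hs0 : s ≠ 0 := by
      rintro rfl
      rw [riemannZeta_zero] at hz
      norm_num at hz
    have ht1 : 1 - s ≠ 1 := by
      intro h1
      apply hs0
      linear_combination -h1
    have htn : ∀ n : ℕ, 1 - s ≠ -(n : ℂ) := by
      intro n hn
      rw [hn] at ht
      simp only [neg_re, natCast_re] at ht
      have : (0 : ℝ) ≤ n := n.cast_nonneg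
      linarith
    have hfe := riemannZeta_one_sub htn ht1
    rw [sub_sub_cancel, hz] at hfe
    have hpi : (2 * (Real.pi : ℂ)) ≠ 0 := by
      have := Real.pi_ne_zero
      norm_cast
      positivity
    have hG : Complex.Gamma (1 - s) ≠ 0 := Complex.Gamma_ne_zero htn
    have hP : (2 * (Real.pi : ℂ)) ^ (-(1 - s)) ≠ 0 := by
      rw [Ne, Complex.cpow_eq_zero_iff]
      exact fun h1 => hpi h1.1
    have hZ : riemannZeta (1 - s) ≠ 0 := h _ ht ht1
    have hcos : Complex.cos ((Real.pi : ℂ) * (1 - s) / 2) = 0 := by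
      by_contra hc
      exact mul_ne_zero (mul_ne_zero (mul_ne_zero (mul_ne_zero two_ne_zero hP) hG) hc) hZ hfe.symm
    obtain ⟨k, hk⟩ := Complex.cos_eq_zero_iff.1 hcos
    have hpc : (Real.pi : ℂ) ≠ 0 := by exact_mod_cast Real.pi_ne_zero
    have hsk : 1 - s = 2 * (k : ℂ) + 1 := by
      have h2 : (Real.pi : ℂ) * (1 - s) = Real.pi * (2 * (k : ℂ) + 1) := by
        linear_combination 2 * hk
      exact mul_left_cancel₀ hpc h2
    have hkr : (1 - s).re = 2 * (k : ℝ) + 1 := by
      rw [hsk]
      simp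
    have hk0 : 0 ≤ k := by
      by_contra hk1
      have : (k : ℝ) ≤ -1 := by
        have : k ≤ -1 := by omega
        exact_mod_cast this
      rw [hkr] at ht
      linarith
    obtain ⟨m, rfl⟩ := Int.eq_ofNat_of_zero_le hk0
    rcases Nat.eq_zero_or_pos m with hm | hm
    · apply ht1
      rw [hsk, hm]
      simp
    · apply htriv
      obtain ⟨n, rfl⟩ := Nat.exists_eq_succ_of_ne_zero hm.ne'
      refine ⟨n, ?_⟩
      have h3 : s = 1 - (1 - s) := by ring
      rw [h3, hsk]
      push_cast
      ring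
  · exact h s hgt hs1 hz

end Pool.Agent.Lib.MP_2a816b_nt.PV
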