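import Pool.Agent.Lib.MP_2a816b_nt.PV.SUp
import Pool.Agent.Lib.MP_2a816b_nt.PV.MBd

/-!
# JOB RRb (about 60 lines): the averaged variance is bounded under RH
-/

open Complex Set Filter Topology MeasureTheory

namespace Pool.Agent.Lib.MP_2a816b_nt.PV

open Pool.Agent.Lib.MP_00e05b_nt Pool.Agent.Lib.MP_00e05b_nt.Mont

private theorem RRb_nonneg {α T : ℝ} (hT : 1 ≤ T) : 0 ≤ RR α T := by
  unfold RR VV
  have hT0 : 0 < T := by linarith
  have h1 : T ^ (α - 1) ≤ T ^ α := Real.rpow_le_rpow_of_exponent_le hT (by linarith)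
  have h2 : 0 ≤ Real.log T := Real.log_nonneg hT
  have h3 : 0 < T ^ (α - 1) := Real.rpow_pos_of_pos hT0 _
  have h4 : 0 < T ^ α := Real.rpow_pos_of_pos hT0 _
  refine div_nonneg (mul_nonneg (by positivity) ?_) (by positivity)
  exact intervalIntegral.integral_nonneg h1 fun x _ => sq_nonneg _

/-- `S_upper` with `a = 1`, `b = B`, `δ = 1/2`, `κ = 1`; `AC_dom` in the integral `Mq` (`c2 - c1 ≤ (B + 4) L`), `qq_int`. (`B < 1`: use the
bound for `max B 1`; the integral is `≤ 0`.) -/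
theorem RR_bdd (hRH : RiemannHypothesis) (B : ℝ) : ∃ K : ℝ, ∀ᶠ T : ℝ in atTop, ∫ α in (1 : ℝ)..B, RR α T ≤ K := by
  rcases lt_or_ge B 1 with hB | hB
  · refine ⟨0, ?_⟩
    filter_upwards [eventually_ge_atTop (1 : ℝ)] with T hT
    rw [intervalIntegral.integral_symm]
    have := intervalIntegral.integral_nonneg (μ := volume) hB.le fun (α : ℝ) _ => RRb_nonneg (α := α) hT
    linarith
  obtain ⟨W, hW⟩ := exists_EB (1 / 8) (by norm_num)
  obtain ⟨C, hC, hdom⟩ := AC_dom hRH hW (B := B + 4) (by linarith)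
  set J : ℝ := ∫ w in Ioi (0 : ℝ), qq w * (√w + w * √w) with hJ
  refine ⟨(Real.pi * II W)⁻¹ * (C * J) + 1, ?_⟩
  filter_upwards [hdom, S_upper hRH hW (δ := 1 / 2) (κ := 1) (B := B) (by norm_num) (by norm_num) one_pos,
    eventually_ge_atTop (Real.exp 1)] with T hd hS hT
  have hT0 : 0 < T := lt_of_lt_of_le (Real.exp_pos 1) hT
  have hL : 1 ≤ Real.log T := by
    rw [Real.le_log_iff_exp_le hT0]
    exact hT
  have h1 := hS 1 B le_rfl hB le_rfl
  have hc12 : (1 - 1 / 2) * Real.log T - 2 ≤ B * Real.log T + 1 := by nlinarith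
  have hc : B * Real.log T + 1 - ((1 - 1 / 2) * Real.log T - 2) ≤ (B + 4) * Real.log T := by nlinarith
  have hA : 0 < T * Real.log T ^ 2 := by positivity
  have h2 : Mq W ((1 - 1 / 2) * Real.log T - 2) (B * Real.log T + 1) T ≤ C * (T * Real.log T ^ 2) * J := by
    unfold Mq
    rw [hJ, ← integral_const_mul]
    refine integral_mono_of_nonneg ?_ (qq_int.const_mul _) ?_
    · filter_upwards [self_mem_ae_restrict measurableSet_Ioi] with w hw
      have hw0 : 0 < w := hw
      exact mul_nonneg (qq_nonneg hw0.le) (AC_nonneg W hc12 (by positivity))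
    · filter_upwards [self_mem_ae_restrict measurableSet_Ioi] with w hw
      have hw0 : 0 < w := hw
      have h3 := hd _ _ w hc12 hc hw0
      have h4 := mul_le_mul_of_nonneg_left h3 (qq_nonneg hw0.le)
      calc qq w * AC W ((1 - 1 / 2) * Real.log T - 2) (B * Real.log T + 1) (w * T)
          ≤ qq w * (C * (T * Real.log T ^ 2) * (√w + w * √w)) := h4
        _ = C * (T * Real.log T ^ 2) * (qq w * (√w + w * √w)) := by ring
  have hII : 0 ≤ II W := by
    unfold II
    exact integral_nonneg fun u => sq_nonneg _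
  have hpi := Real.pi_pos
  have h5 : (Real.pi * (T * Real.log T ^ 2) * II W)⁻¹ *
      Mq W ((1 - 1 / 2) * Real.log T - 2) (B * Real.log T + 1) T ≤ (Real.pi * II W)⁻¹ * (C * J) := by
    refine (mul_le_mul_of_nonneg_left h2 (by positivity)).trans (le_of_eq ?_)
    rw [mul_inv (Real.pi * (T * Real.log T ^ 2)), mul_inv Real.pi (T * Real.log T ^ 2), mul_inv Real.pi (II W)]
    have h6 : (T * Real.log T ^ 2)⁻¹ * (T * Real.log T ^ 2) = 1 := inv_mul_cancel₀ hA.ne'
    calc Real.pi⁻¹ * (T * Real.log T ^ 2)⁻¹ * (II W)⁻¹ * (C * (T * Real.log T ^ 2) * J)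
        = Real.pi⁻¹ * (II W)⁻¹ * (C * J) * ((T * Real.log T ^ 2)⁻¹ * (T * Real.log T ^ 2)) := by ring
      _ = Real.pi⁻¹ * (II W)⁻¹ * (C * J) := by rw [h6, mul_one]
  linarith

end Pool.Agent.Lib.MP_2a816b_nt.PV
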