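import Pool.Agent.Lib.MP_2a816b_nt.PV.Meas

/-!
# JOB Man (about 130 lines): analyticity of the Mellin transform
-/

open Complex Set Filter Topology MeasureTheory

namespace Pool.Agent.Lib.MP_2a816b_nt.PV

open Pool.Agent.Lib.MP_00e05b_nt Pool.Agent.Lib.MP_00e05b_nt.Mont

theorem Man_meas (θ : ℝ) : Measurable (fun v => Fq θ v) := by
  unfold Fq
  have h : Measurable Chebyshev.psi := Chebyshev.psi_mono.measurable
  exact ((h.comp (Real.measurable_exp.comp (measurable_id.add_const θ))).sub (h.comp Real.measurable_exp)).sub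
    (Real.measurable_exp.const_mul _)

theorem Man_aesm (θ : ℝ) (s : ℂ) :
    AEStronglyMeasurable (fun v : ℝ => (Fq θ v : ℂ) * cexp (-(s * v))) (volume.restrict (Ioi 0)) := by
  apply Measurable.aestronglyMeasurable
  apply Measurable.mul
  · exact Complex.measurable_ofReal.comp (Man_meas θ)
  · apply Complex.measurable_exp.comp
    exact (measurable_const.mul Complex.measurable_ofReal).neg

theorem Man_aesm' (θ : ℝ) (s : ℂ) :
    AEStronglyMeasurable (fun v : ℝ => (Fq θ v : ℂ) * (-(v : ℂ) * cexp (-(s * v)))) (volume.restrict (Ioi 0)) := by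
  apply Measurable.aestronglyMeasurable
  apply Measurable.mul
  · exact Complex.measurable_ofReal.comp (Man_meas θ)
  · apply Measurable.mul
    · exact Complex.measurable_ofReal.neg
    · apply Complex.measurable_exp.comp
      exact (measurable_const.mul Complex.measurable_ofReal).neg

theorem Man_int {δ : ℝ} (hδ : 0 < δ) : IntegrableOn (fun v : ℝ => (1 + v) ^ 2 * Real.exp (-(2 * δ * v))) (Ioi 0) := by
  have h0 : IntegrableOn (fun v : ℝ => v ^ (0 : ℝ) * Real.exp (-(2 * δ) * v ^ (1 : ℝ))) (Ioi 0) :=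
    integrableOn_rpow_mul_exp_neg_mul_rpow (by norm_num) one_pos (by linarith)
  have h1 : IntegrableOn (fun v : ℝ => v ^ (1 : ℝ) * Real.exp (-(2 * δ) * v ^ (1 : ℝ))) (Ioi 0) :=
    integrableOn_rpow_mul_exp_neg_mul_rpow (by norm_num) one_pos (by linarith)
  have h2 : IntegrableOn (fun v : ℝ => v ^ (2 : ℝ) * Real.exp (-(2 * δ) * v ^ (1 : ℝ))) (Ioi 0) :=
    integrableOn_rpow_mul_exp_neg_mul_rpow (by norm_num) one_pos (by linarith)
  have h3 := (h0.add (h1.const_mul 2)).add h2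
  refine h3.congr_fun ?_ measurableSet_Ioi
  intro v _
  simp only [Pi.add_apply, Real.rpow_zero, Real.rpow_one, Real.rpow_two]
  ring_nf

theorem Man_ab (a b : ℝ) : a * b ≤ a ^ 2 + b ^ 2 := by nlinarith [sq_nonneg (a - b), sq_nonneg (a + b)]

theorem Man_bd {θ η δ σ v w : ℝ} (hσ : 1 / 2 + η + δ ≤ σ) (hv : 0 < v) (hwv : w ≤ 1 + v) :
    |Fq θ v| * (w * Real.exp (-(σ * v))) ≤ Real.exp (-((1 + 2 * η) * v)) * Fq θ v ^ 2 +
      (1 + v) ^ 2 * Real.exp (-(2 * δ * v)) := by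
  have h1 : Real.exp (-(σ * v)) ≤ Real.exp (-((1 / 2 + η) * v)) * Real.exp (-(δ * v)) := by
    rw [← Real.exp_add]
    apply Real.exp_le_exp.2
    nlinarith
  have h2 := Man_ab (|Fq θ v| * Real.exp (-((1 / 2 + η) * v))) ((1 + v) * Real.exp (-(δ * v)))
  have h3 : Real.exp (-((1 / 2 + η) * v)) ^ 2 = Real.exp (-((1 + 2 * η) * v)) := by
    rw [← Real.exp_nat_mul]
    congr 1
    push_cast
    ring
  have h4 : Real.exp (-(δ * v)) ^ 2 = Real.exp (-(2 * δ * v)) := by
    rw [← Real.exp_nat_mul]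
    congr 1
    push_cast
    ring
  rw [mul_pow, mul_pow, sq_abs, h3, h4] at h2
  have h5 : w * Real.exp (-(σ * v)) ≤ (1 + v) * (Real.exp (-((1 / 2 + η) * v)) * Real.exp (-(δ * v))) :=
    mul_le_mul hwv h1 (Real.exp_pos _).le (by linarith)
  have h6 := mul_le_mul_of_nonneg_left h5 (abs_nonneg (Fq θ v))
  calc _ ≤ _ := h6
    _ = |Fq θ v| * Real.exp (-((1 / 2 + η) * v)) * ((1 + v) * Real.exp (-(δ * v))) := by ring
    _ ≤ _ := h2
    _ = _ := by ring

/-- `σ0 = 1/2 + η`. Cauchy-Schwarz: for `Re s = σ > σ0`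
`∫_0^∞ |Fq θ v| e^(-σv) dv ≤ (∫ e^(-(1+2η)v) Fq²)^(1/2) (∫ e^((1 + 2η - 2σ) v) dv)^(1/2) < ∞`, so
`M s = ∫_0^∞ Fq θ v e^(-sv) dv` is analytic on `Re s > σ0` (differentiation under the integral, or Mathlib's theorems on
differentiability of Laplace/Mellin transforms; `hasDerivAt_integral_of_dominated_loc_of_deriv_le`). -/
theorem M_analytic {θ η : ℝ} (hη : 0 < η)
    (h : IntegrableOn (fun v => Real.exp (-((1 + 2 * η) * v)) * Fq θ v ^ 2) (Ioi 0)) :
    DifferentiableOn ℂ (fun s : ℂ => ∫ v in Ioi (0 : ℝ), (Fq θ v : ℂ) * cexp (-(s * v))) {s : ℂ | 1 / 2 + η < s.re} := by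
  intro s0 hs0
  have hs0' : 1 / 2 + η < s0.re := hs0
  obtain ⟨δ, hδdef⟩ : ∃ δ : ℝ, δ = (s0.re - (1 / 2 + η)) / 2 := ⟨_, rfl⟩
  have hδ : 0 < δ := by rw [hδdef]; linarith
  have hbd : IntegrableOn (fun v : ℝ => Real.exp (-((1 + 2 * η) * v)) * Fq θ v ^ 2 +
      (1 + v) ^ 2 * Real.exp (-(2 * δ * v))) (Ioi 0) := h.add (Man_int hδ)
  have hnorm : ∀ (s : ℂ) (v : ℝ), ‖cexp (-(s * v))‖ = Real.exp (-(s.re * v)) := by
    intro s v
    rw [Complex.norm_exp]
    simp
  have hF0 : Integrable (fun v : ℝ => (Fq θ v : ℂ) * cexp (-(s0 * v))) (volume.restrict (Ioi 0)) := by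
    refine Integrable.mono' hbd (Man_aesm θ s0) ?_
    rw [ae_restrict_iff' measurableSet_Ioi]
    refine Eventually.of_forall fun v hv => ?_
    have hv' : (0 : ℝ) < v := hv
    rw [norm_mul, hnorm, Complex.norm_real, Real.norm_eq_abs]
    have h1 := Man_bd (θ := θ) (η := η) (δ := δ) (σ := s0.re) (v := v) (w := 1) (by rw [hδdef]; linarith) hv'
      (by linarith)
    rw [one_mul] at h1
    exact h1
  have key := hasDerivAt_integral_of_dominated_loc_of_deriv_le (𝕜 := ℂ) (μ := volume.restrict (Ioi (0 : ℝ)))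
    (F := fun (s : ℂ) (v : ℝ) => (Fq θ v : ℂ) * cexp (-(s * v)))
    (F' := fun (s : ℂ) (v : ℝ) => (Fq θ v : ℂ) * (-(v : ℂ) * cexp (-(s * v)))) (x₀ := s0)
    (s := Metric.ball s0 δ)
    (bound := fun v : ℝ => Real.exp (-((1 + 2 * η) * v)) * Fq θ v ^ 2 +
      (1 + v) ^ 2 * Real.exp (-(2 * δ * v))) (Metric.ball_mem_nhds s0 hδ)
    (Eventually.of_forall fun s => Man_aesm θ s) hF0 (Man_aesm' θ s0) ?_ hbd ?_
  · exact key.2.differentiableAt.differentiableWithinAt
  · rw [ae_restrict_iff' measurableSet_Ioi]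
    refine Eventually.of_forall fun v hv s hs => ?_
    have hv' : (0 : ℝ) < v := hv
    have hs1 : 1 / 2 + η + δ ≤ s.re := by
      have h1 : |(s - s0).re| ≤ ‖s - s0‖ := Complex.abs_re_le_norm _
      rw [Metric.mem_ball, dist_eq_norm] at hs
      have h2 := abs_le.1 (h1.trans hs.le)
      rw [Complex.sub_re] at h2
      have h3 := h2.1
      rw [hδdef] at h3 ⊢
      linarith
    rw [norm_mul, norm_mul, norm_neg, hnorm, Complex.norm_real, Complex.norm_real, Real.norm_eq_abs, Real.norm_eq_abs,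
      abs_of_pos hv']
    exact Man_bd hs1 hv' (by linarith)
  · refine Eventually.of_forall fun v s _ => ?_
    have h1 : HasDerivAt (fun s : ℂ => -(s * (v : ℂ))) (-(v : ℂ)) s := by
      have h2 : HasDerivAt (fun s : ℂ => -(s * (v : ℂ))) (-(1 * (v : ℂ))) s := ((hasDerivAt_id s).mul_const (v : ℂ)).neg
      rw [one_mul] at h2
      exact h2
    have h3 := (h1.cexp).const_mul (Fq θ v : ℂ)
    refine h3.congr_deriv ?_
    ring

end Pool.Agent.Lib.MP_2a816b_nt.PV
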