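import Pool.Agent.Lib.MP_2a816b_nt.PV.Mell
import Pool.Agent.Lib.MP_2a816b_nt.PV.Man

/-!
# JOB ZFree (about 220 lines): no zeros to the right
-/

open Complex Set Filter Topology MeasureTheory

namespace Pool.Agent.Lib.MP_2a816b_nt.PV

open Pool.Agent.Lib.MP_00e05b_nt Pool.Agent.Lib.MP_00e05b_nt.Mont

/-- the entire part of the Mellin transform -/
private noncomputable def ZFree_P (θ : ℝ) (s : ℂ) : ℂ :=
  ∫ v in (0 : ℝ)..θ, (Chebyshev.psi (Real.exp v) : ℂ) * cexp (-(s * v))

private theorem ZFree_P_diff {θ : ℝ} (hθ : 0 < θ) : Differentiable ℂ (ZFree_P θ) := by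
  intro s0
  have hm : Measurable (fun v : ℝ => (Chebyshev.psi (Real.exp v) : ℂ)) :=
    Complex.measurable_ofReal.comp (Chebyshev.psi_mono.measurable.comp Real.measurable_exp)
  have hcont : ∀ s : ℂ, Continuous (fun v : ℝ => cexp (-(s * v))) := fun s => by fun_prop
  have hbd : ∀ s : ℂ, ∀ v ∈ uIoc (0 : ℝ) θ, ‖(Chebyshev.psi (Real.exp v) : ℂ) * cexp (-(s * v))‖ ≤
      Chebyshev.psi (Real.exp θ) * Real.exp (‖s‖ * θ) := by
    intro s v hv
    rw [uIoc_of_le hθ.le] at hv
    rw [norm_mul, Complex.norm_real, Real.norm_eq_abs, abs_of_nonneg (Chebyshev.psi_nonneg _),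
      Complex.norm_exp]
    refine mul_le_mul (Chebyshev.psi_mono (Real.exp_le_exp.2 hv.2)) ?_ (Real.exp_pos _).le
      (Chebyshev.psi_nonneg _)
    rw [Real.exp_le_exp, neg_re, mul_re, ofReal_re, ofReal_im, mul_zero, sub_zero]
    have h1 : -s.re ≤ ‖s‖ := (neg_le_abs _).trans (Complex.abs_re_le_norm s)
    calc -(s.re * v) = (-s.re) * v := by ring
      _ ≤ ‖s‖ * v := mul_le_mul_of_nonneg_right h1 hv.1.le
      _ ≤ ‖s‖ * θ := mul_le_mul_of_nonneg_left hv.2 (norm_nonneg _)
  have hmeas : ∀ s : ℂ, AEStronglyMeasurable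
      (fun v : ℝ => (Chebyshev.psi (Real.exp v) : ℂ) * cexp (-(s * v))) (volume.restrict (uIoc 0 θ)) :=
    fun s => (hm.mul (hcont s).measurable).aestronglyMeasurable
  have hint : IntervalIntegrable
      (fun v : ℝ => (Chebyshev.psi (Real.exp v) : ℂ) * cexp (-(s0 * v))) volume 0 θ := by
    rw [intervalIntegrable_iff]
    refine Integrable.mono' (g := fun _ => Chebyshev.psi (Real.exp θ) * Real.exp (‖s0‖ * θ))
      (intervalIntegrable_iff.1 intervalIntegrable_const) (hmeas s0) ?_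
    filter_upwards [ae_restrict_mem measurableSet_uIoc] with v hv
    exact hbd s0 v hv
  have key := intervalIntegral.hasDerivAt_integral_of_dominated_loc_of_deriv_le
    (F := fun (s : ℂ) (v : ℝ) => (Chebyshev.psi (Real.exp v) : ℂ) * cexp (-(s * v)))
    (F' := fun (s : ℂ) (v : ℝ) => (-(v : ℂ)) * ((Chebyshev.psi (Real.exp v) : ℂ) * cexp (-(s * v))))
    (x₀ := s0) (s := Metric.ball s0 1) (a := 0) (b := θ) (μ := volume)
    (bound := fun _ => θ * (Chebyshev.psi (Real.exp θ) * Real.exp ((‖s0‖ + 1) * θ)))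
    (Metric.ball_mem_nhds s0 one_pos) (Eventually.of_forall hmeas) hint
    (by
      have hv : Measurable (fun v : ℝ => -(v : ℂ)) := Complex.measurable_ofReal.neg
      exact hv.aestronglyMeasurable.mul (hmeas s0))
    (Eventually.of_forall fun v hv s hs => by
      have h1 := hbd s v hv
      have h2 := hv
      rw [uIoc_of_le hθ.le] at h2
      rw [norm_mul, norm_neg, Complex.norm_real, Real.norm_eq_abs, abs_of_pos h2.1]
      refine mul_le_mul h2.2 (h1.trans ?_) (norm_nonneg _) hθ.le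
      refine mul_le_mul_of_nonneg_left ?_ (Chebyshev.psi_nonneg _)
      rw [Real.exp_le_exp]
      refine mul_le_mul_of_nonneg_right ?_ hθ.le
      have h3 : ‖s - s0‖ < 1 := by
        rw [← dist_eq_norm]
        exact hs
      have h4 : ‖s‖ ≤ ‖s0‖ + ‖s - s0‖ := by
        have := norm_add_le s0 (s - s0)
        rwa [add_sub_cancel] at this
      linarith)
    intervalIntegrable_const
    (Eventually.of_forall fun v _ s _ => by
      have h1 : HasDerivAt (fun s : ℂ => -(s * (v : ℂ))) (-(v : ℂ)) s := by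
        have h2 := ((hasDerivAt_id s).mul_const (v : ℂ)).neg
        rw [one_mul] at h2
        exact h2
      have h2 := (h1.cexp).const_mul (Chebyshev.psi (Real.exp v) : ℂ)
      have h3 : -(v : ℂ) * ((Chebyshev.psi (Real.exp v) : ℂ) * cexp (-(s * v))) =
          (Chebyshev.psi (Real.exp v) : ℂ) * (cexp (-(s * v)) * -(v : ℂ)) := by ring
      rw [h3]
      exact h2)
  exact key.2.differentiableAt

/-- `(s - 1) ζ(s)` -/
private noncomputable def ZFree_Z (s : ℂ) : ℂ :=
  ((s - 1) * completedRiemannZeta₀ s - (s - 1) / s + 1) * (Gammaℝ s)⁻¹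

private theorem ZFree_Z_eq {s : ℂ} (hs : s ≠ 0) (hs1 : s ≠ 1) :
    ZFree_Z s = (s - 1) * riemannZeta s := by
  rw [ZFree_Z, riemannZeta_def_of_ne_zero hs, completedRiemannZeta_eq, div_eq_mul_inv _ (Gammaℝ s),
    ← mul_assoc]
  congr 1
  have h1 : (1 : ℂ) - s ≠ 0 := sub_ne_zero.2 hs1.symm
  field_simp
  ring

private theorem ZFree_Z_diff {s : ℂ} (hs : s ≠ 0) : DifferentiableAt ℂ ZFree_Z s := by
  have h1 := differentiable_completedZeta₀ s
  have h2 := differentiable_Gammaℝ_inv s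
  have h3 : DifferentiableAt ℂ (fun s : ℂ => (s - 1) / s) s :=
    (differentiableAt_id.sub_const 1).div differentiableAt_id hs
  exact ((((differentiableAt_id.sub_const 1).mul h1).sub h3).add_const 1).mul h2

/-- an analytic function with `A Z' = Z G`, `A ≠ 0`, has no isolated zero -/
private theorem ZFree_ord {A G Z : ℂ → ℂ} {s0 : ℂ} (hA : AnalyticAt ℂ A s0)
    (hG : AnalyticAt ℂ G s0) (hZ : AnalyticAt ℂ Z s0) (h0 : A s0 ≠ 0) (hz : Z s0 = 0)
    (h : (fun s => A s * deriv Z s) =ᶠ[𝓝 s0] fun s => Z s * G s) : ∀ᶠ s in 𝓝 s0, Z s = 0 := by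
  rw [← analyticOrderAt_eq_top]
  have h1 : analyticOrderAt (deriv Z) s0 + 1 = analyticOrderAt Z s0 := by
    have := hZ.analyticOrderAt_deriv_add_one
    rw [hz] at this
    simpa only [sub_zero] using this
  have h2 : analyticOrderAt (A * deriv Z) s0 = analyticOrderAt (Z * G) s0 :=
    analyticOrderAt_congr h
  rw [analyticOrderAt_mul hA hZ.deriv, analyticOrderAt_mul hZ hG,
    (hA.analyticOrderAt_eq_zero).2 h0, zero_add, ← h1] at h2
  by_contra h3
  have h4 : analyticOrderAt (deriv Z) s0 ≠ ⊤ := by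
    intro h5
    apply h3
    rw [← h1, h5, top_add]
  generalize analyticOrderAt (deriv Z) s0 = a at h2 h4
  generalize analyticOrderAt G s0 = b at h2
  obtain ⟨n, rfl⟩ := ENat.ne_top_iff_exists.1 h4
  have h5 : (n : ℕ∞) + 1 ≤ n := by
    calc (n : ℕ∞) + 1 ≤ n + 1 + b := le_self_add
      _ = n := h2.symm
  have h6 : n + 1 ≤ n := by exact_mod_cast h5
  omega

/-- Let `Z s = (s - 1) ζ(s)` (`= 1` at `s = 1`), entire (removable singularity, `riemannZeta_residue_one`; or use `xi` from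
`MP_00e05b_nt/Xi.lean`). On `Re s > 1`: `-ζ'/ζ = -Z'/Z + 1/(s - 1)`, so `Fq_mellin` times `s (s - 1) Z s` reads
`(e^(sθ) - 1)(Z s - (s - 1) Z' s) - (e^θ - 1) s Z s = s (s - 1) Z s (M s + P s)`, `P s = e^(sθ) ∫_0^θ ψ(e^v) e^(-sv) dv` entire.
Both sides are analytic on the (convex) half plane `Re s > 1/2 + η`, so the identity holds there
(`AnalyticOnNhd.eqOn_of_preconnected_of_eventuallyEq`). If `Z s0 = 0`, `s0 ≠ 1`, `Re s0 > 1/2 + η`, then near `s0`
`Z' = h Z` with `h` analytic (`(e^(s θ) - 1)(s - 1) s ≠ 0` near `s0` because `|e^(s0 θ)| = e^(θ Re s0) > 1`), which is impossible for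
a function that is not locally zero (orders: `order Z' = order Z - 1`; or uniqueness for linear ODE). -/
theorem zfree {θ η : ℝ} (hθ : 0 < θ) (hη : 0 < η)
    (h : IntegrableOn (fun v => Real.exp (-((1 + 2 * η) * v)) * Fq θ v ^ 2) (Ioi 0))
    {s : ℂ} (hs : 1 / 2 + η < s.re) (hs1 : s ≠ 1) : riemannZeta s ≠ 0 := by
  intro hzero
  set U : Set ℂ := {s : ℂ | 1 / 2 + η < s.re} with hU
  have hUo : IsOpen U := isOpen_lt continuous_const Complex.continuous_re
  have hUc : Convex ℝ U := convex_halfSpace_re_gt (1 / 2 + η)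
  have hU0 : ∀ z ∈ U, z ≠ 0 := by
    rintro z hz rfl
    simp only [hU, mem_ofPred_eq, zero_re] at hz
    linarith
  set M : ℂ → ℂ := fun s => ∫ v in Ioi (0 : ℝ), (Fq θ v : ℂ) * cexp (-(s * v)) with hM
  have hMa : AnalyticOnNhd ℂ M U := (M_analytic hη h).analyticOnNhd hUo
  have hZa : AnalyticOnNhd ℂ ZFree_Z U := by
    refine DifferentiableOn.analyticOnNhd (fun z hz => ?_) hUo
    exact (ZFree_Z_diff (hU0 z hz)).differentiableWithinAt
  have hPa : AnalyticOnNhd ℂ (ZFree_P θ) U :=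
    (ZFree_P_diff hθ).differentiableOn.analyticOnNhd hUo
  have hEa : AnalyticOnNhd ℂ (fun s : ℂ => cexp (s * θ)) U := by
    refine DifferentiableOn.analyticOnNhd (Differentiable.differentiableOn ?_) hUo
    fun_prop
  have hIa : AnalyticOnNhd ℂ (fun s : ℂ => s) U := fun z _ => analyticAt_id
  have hCa : ∀ c : ℂ, AnalyticOnNhd ℂ (fun _ : ℂ => c) U := fun c z _ => analyticAt_const
  have hAa : AnalyticOnNhd ℂ (fun s : ℂ => (cexp (s * θ) - 1) * (s - 1)) U :=
    (hEa.sub (hCa 1)).mul (hIa.sub (hCa 1))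
  have hGa : AnalyticOnNhd ℂ (fun s : ℂ => (cexp (s * θ) - 1) - ((Real.exp θ : ℂ) - 1) * s -
      s * (s - 1) * (M s + cexp (s * θ) * ZFree_P θ s)) U :=
    ((hEa.sub (hCa 1)).sub ((hCa _).mul hIa)).sub
      ((hIa.mul (hIa.sub (hCa 1))).mul (hMa.add (hEa.mul hPa)))
  -- the identity for `Re z > 1`
  have hid1 : ∀ z : ℂ, 1 < z.re → (cexp (z * θ) - 1) * (z - 1) * deriv ZFree_Z z =
      ZFree_Z z * ((cexp (z * θ) - 1) - ((Real.exp θ : ℂ) - 1) * z -
        z * (z - 1) * (M z + cexp (z * θ) * ZFree_P θ z)) := by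
    intro z hz
    have hz0 : z ≠ 0 := by
      rintro rfl
      simp only [zero_re] at hz
      linarith
    have hz1 : z ≠ 1 := by
      rintro rfl
      simp only [one_re] at hz
      linarith
    have hζ : riemannZeta z ≠ 0 := riemannZeta_ne_zero_of_one_lt_re hz
    have hev : ZFree_Z =ᶠ[𝓝 z] fun s => (s - 1) * riemannZeta s := by
      filter_upwards [isOpen_ne.mem_nhds hz0, isOpen_ne.mem_nhds hz1] with s h1 h2
      exact ZFree_Z_eq h1 h2
    have hd : deriv ZFree_Z z = riemannZeta z + (z - 1) * deriv riemannZeta z := by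
      rw [hev.deriv_eq]
      have h1 : HasDerivAt (fun s : ℂ => s - 1) 1 z := (hasDerivAt_id z).sub_const 1
      have h2 := (differentiableAt_riemannZeta hz1).hasDerivAt
      have h3 := (h1.mul h2).deriv
      rw [one_mul] at h3
      exact h3
    have hF := Fq_mellin hθ hz
    have hMz : M z = (cexp (z * θ) - 1) * (-deriv riemannZeta z / riemannZeta z / z) -
        cexp (z * θ) * ZFree_P θ z - ((Real.exp θ : ℂ) - 1) / (z - 1) := hF
    have hz1' : z - 1 ≠ 0 := sub_ne_zero.2 hz1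
    rw [hd, ZFree_Z_eq hz0 hz1, hMz]
    field_simp
    ring
  have hid : EqOn (fun z => (cexp (z * θ) - 1) * (z - 1) * deriv ZFree_Z z)
      (fun z => ZFree_Z z * ((cexp (z * θ) - 1) - ((Real.exp θ : ℂ) - 1) * z -
        z * (z - 1) * (M z + cexp (z * θ) * ZFree_P θ z))) U := by
    have h2η : (((2 + η : ℝ) : ℂ)) ∈ U := by
      simp only [hU, mem_ofPred_eq, ofReal_re]
      linarith
    refine AnalyticOnNhd.eqOn_of_preconnected_of_eventuallyEq (hAa.mul hZa.deriv) (hZa.mul hGa)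
      hUc.isPreconnected h2η ?_
    have h1 : {z : ℂ | 1 < z.re} ∈ 𝓝 (((2 + η : ℝ) : ℂ)) := by
      refine (isOpen_lt continuous_const Complex.continuous_re).mem_nhds ?_
      simp only [mem_ofPred_eq, ofReal_re]
      linarith
    filter_upwards [h1] with z hz
    exact hid1 z hz
  have hsU : s ∈ U := hs
  have hs0 : s ≠ 0 := hU0 s hsU
  have hA0 : (cexp (s * θ) - 1) * (s - 1) ≠ 0 := by
    refine mul_ne_zero ?_ (sub_ne_zero.2 hs1)
    rw [sub_ne_zero]
    intro h1
    have h2 := congrArg norm h1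
    rw [Complex.norm_exp, norm_one, Real.exp_eq_one_iff, mul_re, ofReal_re, ofReal_im, mul_zero,
      sub_zero] at h2
    have hsr : 0 < s.re := by
      simp only [hU, mem_ofPred_eq] at hsU
      linarith
    exact (mul_pos hsr hθ).ne' h2
  have hZs : ZFree_Z s = 0 := by rw [ZFree_Z_eq hs0 hs1, hzero, mul_zero]
  have hev := ZFree_ord (hAa s hsU) (hGa s hsU) (hZa s hsU) hA0 hZs
    (hid.eventuallyEq_of_mem (hUo.mem_nhds hsU))
  have hall : EqOn ZFree_Z 0 U :=
    hZa.eqOn_zero_of_preconnected_of_eventuallyEq_zero hUc.isPreconnected hsU hev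
  have h2U : (((2 + η : ℝ) : ℂ)) ∈ U := by
    simp only [hU, mem_ofPred_eq, ofReal_re]
    linarith
  have h3 := hall h2U
  have hre : (((2 + η : ℝ) : ℂ)).re = 2 + η := ofReal_re _
  have h4 : (((2 + η : ℝ) : ℂ)) ≠ 1 := by
    intro h5
    have := congrArg Complex.re h5
    rw [hre, one_re] at this
    linarith
  rw [ZFree_Z_eq (hU0 _ h2U) h4, Pi.zero_apply] at h3
  rcases mul_eq_zero.1 h3 with h5 | h5
  · exact h4 (sub_eq_zero.1 h5)
  · exact riemannZeta_ne_zero_of_one_lt_re (by rw [hre]; linarith) h5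

end Pool.Agent.Lib.MP_2a816b_nt.PV
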