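import Pool.Agent.Lib.MP_2a816b_nt.PV.ExQ
import Pool.Agent.Lib.MP_2a816b_nt.PV.ZFree
import Pool.Agent.Lib.MP_2a816b_nt.PV.RHz
import Pool.Agent.Lib.MP_2a816b_nt.PV.RRb
import Pool.Agent.Lib.MP_2a816b_nt.PV.LBn
import Pool.Agent.Lib.MP_2a816b_nt.PV.AvgAbs
import Pool.Agent.Lib.MP_2a816b_nt.PV.FFRR
import Pool.Agent.Lib.MP_2a816b_nt.PV.Fwd

/-!
# Assembly (helper59 does this file)
-/

open Complex Set Filter Topology MeasureTheory

namespace Pool.Agent.Lib.MP_2a816b_nt.PV

open Pool.Agent.Lib.MP_00e05b_nt Pool.Agent.Lib.MP_00e05b_nt.Mont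

theorem RH_of_bdd {a : ℝ} (ha : 1 ≤ a)
    (h : ∀ b : ℝ, a ≤ b → ∃ K : ℝ, ∀ᶠ T : ℝ in atTop, ∫ α in a..b, RR α T ≤ K) : RiemannHypothesis := by
  apply RH_of_zfree
  intro s hs hs1
  set η : ℝ := min (1 / (2 * a)) ((s.re - 1 / 2) / 2) with hη
  have hη0 : 0 < η := lt_min (by positivity) (by linarith)
  have hη1 : η ≤ 1 / (2 * a) := min_le_left _ _
  have hη2 : η ≤ (s.re - 1 / 2) / 2 := min_le_right _ _
  obtain ⟨θ, hθ1, _, hθ⟩ := exQ ha h hη0 hη1
  exact zfree (by linarith) hη0 hθ (by linarith) hs1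

theorem RR_ii : ∀ᶠ T : ℝ in atTop, ∀ a b : ℝ, IntervalIntegrable (fun α => RR α T) volume a b := by
  filter_upwards [eventually_ge_atTop (2 : ℝ)] with T hT a b
  rcases le_total a b with h | h
  · exact (star_avg hT h).1
  · exact (star_avg hT h).1.symm

theorem RH_of_one
    (h : ∀ a b : ℝ, 1 ≤ a → a < b → ∀ ε > 0, ∀ᶠ T : ℝ in atTop, ∫ α in a..b, RR α T ≤ b - a + ε) :
    RiemannHypothesis := by
  refine RH_of_bdd le_rfl fun b hb => ⟨b - 1 + 1, ?_⟩
  rcases hb.lt_or_eq with hb | hb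
  · exact h 1 b le_rfl hb 1 one_pos
  · refine Eventually.of_forall fun T => ?_
    rw [← hb, intervalIntegral.integral_same]
    norm_num

theorem two_of_one
    (h : ∀ a b : ℝ, 1 ≤ a → a < b → ∀ ε > 0, ∀ᶠ T : ℝ in atTop, ∫ α in a..b, RR α T ≤ b - a + ε) :
    ∀ a b : ℝ, 1 ≤ a → a < b → Tendsto (fun T : ℝ => ∫ α in a..b, RR α T) atTop (𝓝 (b - a)) := by
  have hRH := RH_of_one h
  refine averaged_abs (f := fun T α => RR α T) ?_ ?_ h (fun A hA ε hε => LB_mean hRH hA hε)
  · filter_upwards [RR_ii] with T hT a b _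
    exact hT a b
  · filter_upwards [eventually_ge_atTop (2 : ℝ)] with T hT α
    exact RR_nonneg hT α

theorem one_of_two
    (h : ∀ a b : ℝ, 1 ≤ a → a < b → Tendsto (fun T : ℝ => ∫ α in a..b, RR α T) atTop (𝓝 (b - a))) :
    ∀ a b : ℝ, 1 ≤ a → a < b → ∀ ε > 0, ∀ᶠ T : ℝ in atTop, ∫ α in a..b, RR α T ≤ b - a + ε := by
  intro a b ha hab ε hε
  filter_upwards [(h a b ha hab).eventually (eventually_lt_nhds (show b - a < b - a + ε by linarith))] with T hT
  exact hT.le

theorem omegaR {η ε : ℝ} (hη : 0 < η) (hε : 0 < ε) :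
    ∃ b : ℝ, ∀ T0 : ℝ, ∃ T : ℝ, T0 ≤ T ∧ ∃ α : ℝ, 1 + ε ≤ α ∧ α ≤ b ∧ 1 - η ≤ RR α T := by
  by_contra hcon
  push Not at hcon
  have hsm : ∀ b : ℝ, ∀ᶠ T : ℝ in atTop, ∀ α : ℝ, 1 + ε ≤ α → α ≤ b → RR α T ≤ 1 - η := by
    intro b
    obtain ⟨T0, hT0⟩ := hcon b
    filter_upwards [eventually_ge_atTop T0] with T hT α h1 h2
    exact (hT0 T hT α h1 h2).le
  have hRH : RiemannHypothesis := by
    refine RH_of_bdd (a := 1 + ε) (by linarith) fun b hb => ⟨(b - (1 + ε)) * (1 - η), ?_⟩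
    filter_upwards [hsm b, RR_ii] with T hT hi
    calc ∫ α in (1 + ε)..b, RR α T ≤ ∫ _α in (1 + ε)..b, (1 - η) :=
          intervalIntegral.integral_mono_on hb (hi _ _) (by simp) fun α hα => hT α hα.1 hα.2
      _ = (b - (1 + ε)) * (1 - η) := by rw [intervalIntegral.integral_const, smul_eq_mul]
  obtain ⟨K0, hK0⟩ := RR_bdd hRH (1 + ε)
  set K : ℝ := max K0 0 with hK
  have hKn : 0 ≤ K := le_max_right _ _
  set z : ℝ := 2 / η * (K + K * ε + 2) + 1 with hz
  have hz1 : 1 ≤ z := by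
    rw [hz]
    have : 0 ≤ 2 / η * (K + K * ε + 2) := by positivity
    linarith
  have hzη : K + K * ε + 2 ≤ η * z / 2 := by
    have : η * z / 2 = (K + K * ε + 2) + η / 2 := by
      rw [hz]; field_simp
    linarith
  have hz2 : K * (z + ε) + 2 ≤ η * z ^ 2 / 2 := by nlinarith [mul_nonneg hKn hε.le]
  set A : ℝ := 1 + ε + z with hA
  have hA1 : 1 < A := by linarith
  obtain ⟨T, h1, h2, h3, h4, hT2⟩ := ((LB_mean hRH hA1 (ε := 1 / 6) (by norm_num)).and ((hsm A).and (hK0.and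
    (RR_ii.and (eventually_ge_atTop (2 : ℝ)))))).exists
  have hi : ∀ a b : ℝ, IntervalIntegrable (fun α => RR α T - 1) volume a b := fun a b => (h4 a b).sub (by simp)
  have hP : Continuous (fun y => ∫ α in (1 : ℝ)..y, (RR α T - 1)) :=
    intervalIntegral.continuous_primitive (fun a b => hi a b) 1
  have hsub : ∀ a b : ℝ, ∫ α in a..b, (RR α T - 1) = (∫ α in a..b, RR α T) - (b - a) := by
    intro a b
    rw [intervalIntegral.integral_sub (h4 _ _) (by simp), intervalIntegral.integral_const, smul_eq_mul, mul_one]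
  have hmono : ∀ a b c : ℝ, a ≤ b → b ≤ c → ∫ α in a..b, RR α T ≤ ∫ α in a..c, RR α T := by
    intro a b c hab hbc
    rw [← intervalIntegral.integral_add_adjacent_intervals (h4 a b) (h4 b c)]
    have : 0 ≤ ∫ α in b..c, RR α T := intervalIntegral.integral_nonneg hbc fun α _ => RR_nonneg hT2 α
    linarith
  have h5 : ∫ y in (1 : ℝ)..(1 + ε), (∫ α in (1 : ℝ)..y, (RR α T - 1)) ≤ ε * K := by
    calc ∫ y in (1 : ℝ)..(1 + ε), (∫ α in (1 : ℝ)..y, (RR α T - 1)) ≤ ∫ _y in (1 : ℝ)..(1 + ε), K := by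
          refine intervalIntegral.integral_mono_on (by linarith) (hP.intervalIntegrable _ _) (by simp) fun y hy => ?_
          rw [hsub]
          have := hmono 1 y (1 + ε) hy.1 hy.2
          have := le_max_left K0 0
          linarith [hy.1]
      _ = ε * K := by rw [intervalIntegral.integral_const, smul_eq_mul]; ring
  have h6 : ∫ y in (1 + ε)..A, (∫ α in (1 : ℝ)..y, (RR α T - 1)) ≤ ∫ y in (1 + ε)..A, (K - η * (y - (1 + ε))) := by
    refine intervalIntegral.integral_mono_on (by linarith) (hP.intervalIntegrable _ _)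
      (Continuous.intervalIntegrable (by fun_prop) _ _) fun y hy => ?_
    rw [← intervalIntegral.integral_add_adjacent_intervals (hi 1 (1 + ε)) (hi (1 + ε) y), hsub]
    have h7 : ∫ α in (1 + ε)..y, (RR α T - 1) ≤ ∫ _α in (1 + ε)..y, (-η) := by
      refine intervalIntegral.integral_mono_on hy.1 (hi _ _) (by simp) fun α hα => ?_
      have := h2 α hα.1 (by linarith [hα.2, hy.2])
      linarith
    rw [intervalIntegral.integral_const, smul_eq_mul] at h7
    have := le_max_left K0 0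
    linarith
  have h8 : ∫ y in (1 + ε)..A, (K - η * (y - (1 + ε))) = K * z - η * z ^ 2 / 2 := by
    have h9 := intervalIntegral.integral_comp_sub_right (a := 1 + ε) (b := A) (fun y => K - η * y) (1 + ε)
    rw [h9, sub_self, show A - (1 + ε) = z by rw [hA]; ring,
      intervalIntegral.integral_sub (by simp) (Continuous.intervalIntegrable (by fun_prop) _ _),
      intervalIntegral.integral_const, intervalIntegral.integral_const_mul, integral_id, smul_eq_mul]
    ring
  have h10 := intervalIntegral.integral_add_adjacent_intervals (hP.intervalIntegrable (μ := volume) 1 (1 + ε))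
    (hP.intervalIntegrable (μ := volume) (1 + ε) A)
  rw [h8] at h6
  nlinarith

/-- The same in terms of `X` and `H`. -/
theorem omegaX {η σ : ℝ} (hη : 0 < η) (hσ : 0 < σ) (hσ1 : σ < 1) :
    ∃ τ : ℝ, τ < 1 ∧ ∀ X0 : ℝ, ∃ X H : ℝ, X0 ≤ X ∧ X ^ σ ≤ H ∧ H ≤ X ^ τ ∧
      (1 - η) * (H * Real.log (X / H)) ≤ VV X H := by
  obtain ⟨b, hb⟩ := omegaR (η := η) (ε := σ / (1 - σ)) hη (div_pos hσ (by linarith))
  have hs : 0 < 1 - σ := by linarith
  have e1 : 1 + σ / (1 - σ) = 1 / (1 - σ) := by field_simp; ring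
  have hb1 : 1 / (1 - σ) ≤ b := by
    obtain ⟨T, _, α, h1, h2, _⟩ := hb 0
    rw [e1] at h1
    linarith
  have hb0 : 0 < b := lt_of_lt_of_le (by positivity) hb1
  refine ⟨1 - 1 / b, by have : 0 < 1 / b := by positivity
                        linarith, fun X0 => ?_⟩
  obtain ⟨T, hT, α, h1, h2, h3⟩ := hb (max X0 2)
  rw [e1] at h1
  have hT2 : 2 ≤ T := le_trans (le_max_right _ _) hT
  have hT0 : 0 < T := by linarith
  have hα1 : 1 < α := by
    have : 1 < 1 / (1 - σ) := by rw [lt_div_iff₀ hs]; linarith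
    linarith
  have hα0 : 0 < α := by linarith
  have hlog : 0 < Real.log T := Real.log_pos (by linarith)
  have hH : 0 < T ^ (α - 1) := Real.rpow_pos_of_pos hT0 _
  refine ⟨T ^ α, T ^ (α - 1), ?_, ?_, ?_, ?_⟩
  · calc X0 ≤ T := le_trans (le_max_left _ _) hT
      _ = T ^ (1 : ℝ) := (Real.rpow_one T).symm
      _ ≤ T ^ α := Real.rpow_le_rpow_of_exponent_le (by linarith) hα1.le
  · rw [← Real.rpow_mul hT0.le]
    apply Real.rpow_le_rpow_of_exponent_le (by linarith)
    rw [div_le_iff₀ hs] at h1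
    linarith
  · rw [← Real.rpow_mul hT0.le]
    apply Real.rpow_le_rpow_of_exponent_le (by linarith)
    have : α * (1 / b) ≤ 1 := by
      rw [mul_one_div, div_le_one hb0]
      exact h2
    linarith
  · have e2 : T ^ α / T ^ (α - 1) = T := by
      rw [← Real.rpow_sub hT0]
      have : α - (α - 1) = 1 := by ring
      rw [this, Real.rpow_one]
    rw [e2]
    unfold RR at h3
    rwa [le_div_iff₀ (mul_pos hH hlog)] at h3

theorem quantR (hRH : RiemannHypothesis) {A ε : ℝ} (hA : 1 < A) (hε : 0 < ε) :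
    ∀ᶠ T : ℝ in atTop, ∫ α in (1 : ℝ)..A, max (1 - RR α T) 0 * (1 - α / A) ≤
      (∫ α in (1 : ℝ)..A, max (RR α T - 1) 0 * (1 - α / A)) + 1 / (6 * A) + ε := by
  have hA0 : 0 < A := by linarith
  filter_upwards [LB_mean hRH hA (ε := A * ε) (by positivity), RR_ii] with T h1 h2
  have hg : IntervalIntegrable (fun α => RR α T - 1) volume 1 A := (h2 _ _).sub (by simp)
  have hp := mean_parts hA hg
  have hw : Continuous (fun α : ℝ => 1 - α / A) := by fun_prop
  have i1 : IntervalIntegrable (fun α => max (RR α T - 1) 0 * (1 - α / A)) volume 1 A := by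
    have : IntervalIntegrable (fun α => max (RR α T - 1) 0) volume 1 A := by
      rw [intervalIntegrable_iff] at hg ⊢
      exact hg.pos_part
    exact this.mul_continuousOn hw.continuousOn
  have i2 : IntervalIntegrable (fun α => max (1 - RR α T) 0 * (1 - α / A)) volume 1 A := by
    have : IntervalIntegrable (fun α => max (1 - RR α T) 0) volume 1 A := by
      have h3 : IntervalIntegrable (fun α => 1 - RR α T) volume 1 A := by
        have := hg.neg
        refine this.congr fun α _ => ?_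
        simp
      rw [intervalIntegrable_iff] at h3 ⊢
      exact h3.pos_part
    exact this.mul_continuousOn hw.continuousOn
  have e : (∫ α in (1 : ℝ)..A, (RR α T - 1) * (1 - α / A)) =
      (∫ α in (1 : ℝ)..A, max (RR α T - 1) 0 * (1 - α / A)) - ∫ α in (1 : ℝ)..A, max (1 - RR α T) 0 * (1 - α / A) := by
    rw [← intervalIntegral.integral_sub i1 i2]
    congr 1
    funext α
    rw [← sub_mul]
    congr 1
    rcases le_total (RR α T) 1 with h | h
    · rw [max_eq_right (by linarith), max_eq_left (by linarith)]; ring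
    · rw [max_eq_left (by linarith), max_eq_right (by linarith)]; ring
  rw [e] at hp
  have h3 : -(1 / (6 * A)) - ε ≤ 1 / A * ∫ y in (1 : ℝ)..A, ∫ α in (1 : ℝ)..y, (RR α T - 1) := by
    have h4 : 1 / A * (-(1 / 6) - A * ε) ≤ 1 / A * ∫ y in (1 : ℝ)..A, ∫ α in (1 : ℝ)..y, (RR α T - 1) :=
      mul_le_mul_of_nonneg_left h1 (by positivity)
    have h5 : 1 / A * (-(1 / 6) - A * ε) = -(1 / (6 * A)) - ε := by field_simp
    linarith
  linarith

theorem pointwise
    (h : ∀ b : ℝ, 1 < b → ∀ ε > 0, ∀ᶠ T : ℝ in atTop, ∀ α : ℝ, 1 ≤ α → α ≤ b → RR α T ≤ 1 + ε) :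
    (∀ a b : ℝ, 1 ≤ a → a < b → ∀ ε > 0, ∀ᶠ T : ℝ in atTop, ∫ α in a..b, RR α T ≤ b - a + ε) ∧
    ∀ b : ℝ, 1 < b → Tendsto (fun T : ℝ => ∫ α in (1 : ℝ)..b, |RR α T - 1|) atTop (𝓝 0) := by
  have h1 : ∀ a b : ℝ, 1 ≤ a → a < b → ∀ ε > 0, ∀ᶠ T : ℝ in atTop, ∫ α in a..b, RR α T ≤ b - a + ε := by
    intro a b ha hab ε hε
    have hba : 0 < b - a := by linarith
    filter_upwards [h b (by linarith) (ε / (b - a)) (by positivity), RR_ii] with T hT hi
    calc ∫ α in a..b, RR α T ≤ ∫ _α in a..b, (1 + ε / (b - a)) :=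
          intervalIntegral.integral_mono_on hab.le (hi _ _) (by simp) fun α hα => hT α (by linarith [hα.1]) hα.2
      _ = b - a + ε := by rw [intervalIntegral.integral_const, smul_eq_mul]; field_simp
  refine ⟨h1, fun b hb => ?_⟩
  have h2 := two_of_one h1 1 b le_rfl hb
  rw [Metric.tendsto_atTop']
  intro ε hε
  have hb1 : 0 < b - 1 := by linarith
  have hev := (h b hb (ε / (4 * (b - 1))) (by positivity)).and ((h2.eventually
    (eventually_gt_nhds (show b - 1 - ε / 4 < b - 1 by linarith))).and (RR_ii.and (eventually_ge_atTop (2 : ℝ))))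
  obtain ⟨N, hN⟩ := eventually_atTop.1 hev
  refine ⟨N, fun T hT => ?_⟩
  obtain ⟨h3, h4, h5, h6⟩ := hN T hT.le
  have hg : IntervalIntegrable (fun α => RR α T - 1) volume 1 b := (h5 _ _).sub (by simp)
  have h7 : ∫ α in (1 : ℝ)..b, |RR α T - 1| ≤ ∫ α in (1 : ℝ)..b, (2 * (ε / (4 * (b - 1))) - (RR α T - 1)) := by
    refine intervalIntegral.integral_mono_on hb.le hg.abs ((by simp : IntervalIntegrable (fun _ : ℝ =>
      2 * (ε / (4 * (b - 1)))) volume 1 b).sub hg) fun α hα => ?_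
    have h8 := h3 α hα.1 hα.2
    have h9 : 0 < ε / (4 * (b - 1)) := by positivity
    rcases le_total (RR α T) 1 with h | h
    · rw [abs_of_nonpos (by linarith)]; linarith
    · rw [abs_of_nonneg (by linarith)]; linarith
  rw [intervalIntegral.integral_sub (by simp) hg, intervalIntegral.integral_const, smul_eq_mul,
    intervalIntegral.integral_sub (h5 _ _) (by simp), intervalIntegral.integral_const, smul_eq_mul] at h7
  have h10 : (b - 1) * (2 * (ε / (4 * (b - 1)))) = ε / 2 := by field_simp; norm_num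
  have h11 : 0 ≤ ∫ α in (1 : ℝ)..b, |RR α T - 1| := intervalIntegral.integral_nonneg hb.le fun α _ => abs_nonneg _
  rw [Real.dist_eq, sub_zero, abs_of_nonneg h11]
  linarith

end Pool.Agent.Lib.MP_2a816b_nt.PV
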