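import Pool.Agent.Lib.MP_2a816b_nt.PV.Defs

/-!
# JOB Mell (about 150 lines): the Mellin transform of `Fq θ`
-/

open Complex Set Filter Topology MeasureTheory

namespace Pool.Agent.Lib.MP_2a816b_nt.PV

open Pool.Agent.Lib.MP_00e05b_nt Pool.Agent.Lib.MP_00e05b_nt.Mont

private theorem Mell_meas (s : ℂ) : AEStronglyMeasurable
    (fun v : ℝ => (Chebyshev.psi (Real.exp v) : ℂ) * cexp (-(s * v))) (volume.restrict (Ioi 0)) := by
  have h1 : Measurable (fun v : ℝ => Chebyshev.psi (Real.exp v)) :=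
    Chebyshev.psi_mono.measurable.comp Real.measurable_exp
  have h2 : Measurable (fun v : ℝ => (Chebyshev.psi (Real.exp v) : ℂ)) :=
    Complex.measurable_ofReal.comp h1
  have h3 : Continuous (fun v : ℝ => cexp (-(s * v))) := by fun_prop
  exact (h2.mul h3.measurable).aestronglyMeasurable

private theorem Mell_int {s : ℂ} (hs : 1 < s.re) :
    IntegrableOn (fun v : ℝ => (Chebyshev.psi (Real.exp v) : ℂ) * cexp (-(s * v))) (Ioi 0) := by
  have h1 : IntegrableOn (fun v : ℝ => (Real.log 4 + 4) * Real.exp (-(s.re - 1) * v)) (Ioi 0) :=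
    (exp_neg_integrableOn_Ioi 0 (by linarith)).const_mul _
  refine Integrable.mono' h1 (Mell_meas s) (Eventually.of_forall fun v => ?_)
  have h2 : ‖cexp (-(s * v))‖ = Real.exp (-(s.re * v)) := by
    rw [Complex.norm_exp, neg_re, mul_re, ofReal_re, ofReal_im, mul_zero, sub_zero]
  rw [norm_mul, h2, Complex.norm_real, Real.norm_eq_abs, abs_of_nonneg (Chebyshev.psi_nonneg _)]
  have h3 := Chebyshev.psi_le_const_mul_self (Real.exp_pos v).le
  calc Chebyshev.psi (Real.exp v) * Real.exp (-(s.re * v))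
      ≤ ((Real.log 4 + 4) * Real.exp v) * Real.exp (-(s.re * v)) :=
        mul_le_mul_of_nonneg_right h3 (Real.exp_pos _).le
    _ = (Real.log 4 + 4) * Real.exp (-(s.re - 1) * v) := by
        rw [mul_assoc, ← Real.exp_add]
        congr 2
        ring

private theorem Mell_subst (s : ℂ) (F : ℝ → ℂ) :
    ∫ t in Ioi (1 : ℝ), F t * (t : ℂ) ^ (-(s + 1)) =
      ∫ v in Ioi (0 : ℝ), F (Real.exp v) * cexp (-(s * v)) := by
  have himg : Real.exp '' Ioi 0 = Ioi 1 := by
    ext x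
    constructor
    · rintro ⟨v, hv, rfl⟩
      exact Real.one_lt_exp_iff.2 hv
    · intro hx
      have hx0 : 0 < x := lt_trans one_pos hx
      exact ⟨Real.log x, Real.log_pos hx, Real.exp_log hx0⟩
  rw [← himg, integral_image_eq_integral_abs_deriv_smul measurableSet_Ioi
    (fun x _ => (Real.hasDerivAt_exp x).hasDerivWithinAt) (Real.exp_injective.injOn)]
  refine setIntegral_congr_fun measurableSet_Ioi fun v _ => ?_
  have h1 : ((Real.exp v : ℝ) : ℂ) ^ (-(s + 1)) = cexp (-((s + 1) * v)) := by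
    rw [Complex.cpow_def_of_ne_zero (by exact_mod_cast (Real.exp_pos v).ne'),
      ← Complex.ofReal_log (Real.exp_pos v).le, Real.log_exp]
    congr 1
    ring
  rw [h1, abs_of_pos (Real.exp_pos v), Complex.real_smul, Complex.ofReal_exp,
    show -(s * (v : ℂ)) = v + -((s + 1) * v) by ring, Complex.exp_add]
  ring

private theorem Mell_bigO : (fun n : ℕ => ∑ k ∈ Finset.Icc 1 n, ArithmeticFunction.vonMangoldt k)
    =O[atTop] fun n : ℕ => (n : ℝ) ^ (1 : ℝ) := by
  refine Asymptotics.IsBigO.of_bound (Real.log 4 + 4) (Eventually.of_forall fun n => ?_)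
  have h1 : ∑ k ∈ Finset.Icc 1 n, ArithmeticFunction.vonMangoldt k = Chebyshev.psi n := by
    rw [Chebyshev.psi, Nat.floor_natCast]
    rfl
  rw [h1, Real.rpow_one, Real.norm_eq_abs, abs_of_nonneg (Chebyshev.psi_nonneg _),
    Real.norm_eq_abs, abs_of_nonneg (Nat.cast_nonneg n)]
  exact Chebyshev.psi_le_const_mul_self (Nat.cast_nonneg n)

private theorem Mell_shift (f : ℝ → ℂ) (θ : ℝ) :
    ∫ v in Ioi (0 : ℝ), f (v + θ) = ∫ v in Ioi θ, f v := by
  have h1 := (measurePreserving_add_right volume θ).setIntegral_preimage_emb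
    (measurableEmbedding_addRight θ) f (Ioi θ)
  rw [← h1]
  congr 2
  ext x
  simp

/-- `ψ x ≤ C x` (`Chebyshev.psi_le_const_mul_self`), and `∫_1^∞ ψ(x) x^(-s-1) dx = -ζ'(s)/(s ζ(s))` for `Re s > 1`: Mathlib has
`ArithmeticFunction.LSeries_vonMangoldt_eq_deriv_riemannZeta_div` and Abel summation for Dirichlet series
(`LSeries_eq_mul_integral` or similar in `Mathlib/NumberTheory/SumPrimeReciprocals`, `Mathlib/NumberTheory/LSeries/SumCoeff`);
substitute `x = e^v`. -/
theorem psi_mellin {s : ℂ} (hs : 1 < s.re) :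
    IntegrableOn (fun v : ℝ => (Chebyshev.psi (Real.exp v) : ℂ) * cexp (-(s * v))) (Ioi 0) ∧
    ∫ v in Ioi (0 : ℝ), (Chebyshev.psi (Real.exp v) : ℂ) * cexp (-(s * v)) =
      -deriv riemannZeta s / riemannZeta s / s := by
  refine ⟨Mell_int hs, ?_⟩
  have hs0 : s ≠ 0 := by
    rintro rfl
    simp only [zero_re] at hs
    linarith
  have h1 := LSeries_eq_mul_integral_of_nonneg (fun n => ArithmeticFunction.vonMangoldt n)
    zero_le_one hs Mell_bigO (fun n => ArithmeticFunction.vonMangoldt_nonneg)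
  rw [ArithmeticFunction.LSeries_vonMangoldt_eq_deriv_riemannZeta_div hs] at h1
  have h2 : ∀ t : ℝ, ∑ k ∈ Finset.Icc 1 ⌊t⌋₊, ((ArithmeticFunction.vonMangoldt k : ℝ) : ℂ) =
      ((Chebyshev.psi t : ℝ) : ℂ) := by
    intro t
    rw [Chebyshev.psi, Complex.ofReal_sum]
    rfl
  simp only [h2] at h1
  rw [Mell_subst s (fun t => ((Chebyshev.psi t : ℝ) : ℂ))] at h1
  rw [h1, mul_div_cancel_left₀ _ hs0]

/-- `∫_0^∞ ψ(e^(v + θ)) e^(-sv) dv = e^(sθ) (∫_0^∞ - ∫_0^θ) ψ(e^v) e^(-sv) dv` and `∫_0^∞ e^v e^(-sv) dv = 1/(s - 1)`. -/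
theorem Fq_mellin {θ : ℝ} (hθ : 0 < θ) {s : ℂ} (hs : 1 < s.re) :
    ∫ v in Ioi (0 : ℝ), (Fq θ v : ℂ) * cexp (-(s * v)) =
      (cexp (s * θ) - 1) * (-deriv riemannZeta s / riemannZeta s / s) -
        cexp (s * θ) * (∫ v in (0 : ℝ)..θ, (Chebyshev.psi (Real.exp v) : ℂ) * cexp (-(s * v))) -
        ((Real.exp θ : ℂ) - 1) / (s - 1) := by
  obtain ⟨hi, hv⟩ := psi_mellin hs
  set f : ℝ → ℂ := fun v => (Chebyshev.psi (Real.exp v) : ℂ) * cexp (-(s * v)) with hf
  have hi' : IntegrableOn f (Ioi θ) := hi.mono_set (Ioi_subset_Ioi hθ.le)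
  have h1 : ∫ v in Ioi (0 : ℝ), f (v + θ) = (∫ v in Ioi (0 : ℝ), f v) - ∫ v in (0 : ℝ)..θ, f v := by
    rw [Mell_shift, ← intervalIntegral.integral_interval_add_Ioi hi hi']
    ring
  have ha : (1 - s).re < 0 := by
    rw [sub_re, one_re]
    linarith
  have h2 : ∫ v in Ioi (0 : ℝ), cexp ((1 - s) * v) = 1 / (s - 1) := by
    rw [integral_exp_mul_complex_Ioi ha]
    simp only [ofReal_zero, mul_zero, Complex.exp_zero]
    rw [← neg_sub s 1, div_neg, neg_div, neg_neg]
  have h2i : IntegrableOn (fun v : ℝ => cexp ((1 - s) * v)) (Ioi 0) :=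
    integrableOn_exp_mul_complex_Ioi ha 0
  have hsi : IntegrableOn (fun v : ℝ => f (v + θ)) (Ioi 0) := by
    have h3 := (measurePreserving_add_right volume θ).integrableOn_comp_preimage
      (measurableEmbedding_addRight θ) (f := f) (s := Ioi θ)
    have h4 : (fun x : ℝ => x + θ) ⁻¹' Ioi θ = Ioi 0 := by
      ext x
      simp
    rw [h4] at h3
    exact h3.2 hi'
  have h5 : ∀ v : ℝ, (Fq θ v : ℂ) * cexp (-(s * v)) =
      cexp (s * θ) * f (v + θ) - f v - ((Real.exp θ : ℂ) - 1) * cexp ((1 - s) * v) := by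
    intro v
    have e1 : cexp (-(s * ((v + θ : ℝ) : ℂ))) = cexp (-(s * θ)) * cexp (-(s * v)) := by
      rw [← Complex.exp_add]
      congr 1
      push_cast
      ring
    have e2 : cexp ((1 - s) * v) = cexp v * cexp (-(s * v)) := by
      rw [← Complex.exp_add]
      congr 1
      ring
    have e3 : cexp (s * θ) * cexp (-(s * θ)) = 1 := by
      rw [← Complex.exp_add, add_neg_cancel, Complex.exp_zero]
    simp only [hf, Fq]
    rw [e1, e2]
    push_cast
    linear_combination (-((Chebyshev.psi (Real.exp (v + θ)) : ℝ) : ℂ) * cexp (-(s * v))) * e3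
  rw [setIntegral_congr_fun measurableSet_Ioi (fun v _ => h5 v), integral_sub, integral_sub,
    integral_const_mul, integral_const_mul, h1, h2, hv]
  · ring
  · exact hsi.const_mul _
  · exact hi
  · exact (hsi.const_mul _).sub hi
  · exact h2i.const_mul _

end Pool.Agent.Lib.MP_2a816b_nt.PV
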