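import Pool.Agent.Lib.MP_2a816b_nt.PV.Chain

/-!
# JOB ExQ (about 150 lines): a good ratio
-/

open Complex Set Filter Topology MeasureTheory

namespace Pool.Agent.Lib.MP_2a816b_nt.PV

open Pool.Agent.Lib.MP_00e05b_nt Pool.Agent.Lib.MP_00e05b_nt.Mont

theorem ExQ_meas : Measurable (fun p : ℝ × ℝ => Fq p.1 p.2) := by
  have hpsi : Measurable Chebyshev.psi := Chebyshev.psi_mono.measurable
  unfold Fq
  fun_prop

theorem ExQ_bdd {M : ℝ} {θ v : ℝ} (hθ : 0 ≤ θ) (hθ1 : θ ≤ 5 / 2) (hv : v ≤ M) :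
    Fq θ v ^ 2 ≤ (Chebyshev.psi (Real.exp (M + 5 / 2)) + Real.exp (M + 5 / 2)) ^ 2 := by
  have h1 : Chebyshev.psi (Real.exp (v + θ)) ≤ Chebyshev.psi (Real.exp (M + 5 / 2)) :=
    Chebyshev.psi_mono (Real.exp_le_exp.2 (by linarith))
  have h2 : Chebyshev.psi (Real.exp v) ≤ Chebyshev.psi (Real.exp (v + θ)) :=
    Chebyshev.psi_mono (Real.exp_le_exp.2 (by linarith))
  have h3 : 0 ≤ Chebyshev.psi (Real.exp v) := Chebyshev.psi_nonneg _
  have h4 : 0 ≤ (Real.exp θ - 1) * Real.exp v :=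
    mul_nonneg (by have := Real.one_le_exp hθ; linarith) (Real.exp_pos _).le
  have h5 : (Real.exp θ - 1) * Real.exp v ≤ Real.exp (M + 5 / 2) := by
    have h6 : (Real.exp θ - 1) * Real.exp v ≤ Real.exp θ * Real.exp v :=
      mul_le_mul_of_nonneg_right (by linarith) (Real.exp_pos _).le
    rw [← Real.exp_add] at h6
    exact h6.trans (Real.exp_le_exp.2 (by linarith))
  have h7 := Real.exp_pos (M + 5 / 2)
  unfold Fq
  exact sq_le_sq' (by linarith) (by linarith)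

/-- the integrand -/
noncomputable def ExQ_f (c θ v : ℝ) : ℝ := Real.exp (-(c * v)) * Fq θ v ^ 2

theorem ExQ_f_nonneg (c θ v : ℝ) : 0 ≤ ExQ_f c θ v := by
  unfold ExQ_f
  positivity

theorem ExQ_f_meas (c : ℝ) : Measurable (fun p : ℝ × ℝ => ExQ_f c p.1 p.2) := by
  have := ExQ_meas
  unfold ExQ_f
  fun_prop

theorem ExQ_f_bdd {c M : ℝ} (hc : 0 ≤ c) {θ v : ℝ} (hθ : 0 ≤ θ) (hθ1 : θ ≤ 5 / 2) (hv0 : 0 ≤ v)
    (hv : v ≤ M) : ExQ_f c θ v ≤ (Chebyshev.psi (Real.exp (M + 5 / 2)) + Real.exp (M + 5 / 2)) ^ 2 := by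
  have h1 := ExQ_bdd hθ hθ1 hv
  have h2 : Real.exp (-(c * v)) ≤ 1 := by
    rw [Real.exp_le_one_iff]
    have := mul_nonneg hc hv0
    linarith
  have h3 : 0 ≤ Fq θ v ^ 2 := sq_nonneg _
  unfold ExQ_f
  calc Real.exp (-(c * v)) * Fq θ v ^ 2 ≤ 1 * Fq θ v ^ 2 := mul_le_mul_of_nonneg_right h2 h3
    _ ≤ _ := by rw [one_mul]; exact h1

theorem ExQ_ii {c : ℝ} (hc : 0 ≤ c) {θ a b : ℝ} (hθ : 0 ≤ θ) (hθ1 : θ ≤ 5 / 2) (ha : 0 ≤ a) (hab : a ≤ b) :
    IntervalIntegrable (ExQ_f c θ) volume a b := by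
  rw [intervalIntegrable_iff_integrableOn_Ioc_of_le hab]
  refine Measure.integrableOn_of_bounded (M := (Chebyshev.psi (Real.exp (b + 5 / 2)) + Real.exp (b + 5 / 2)) ^ 2)
    (by simp) ?_ ?_
  · exact ((ExQ_f_meas c).comp (measurable_const.prodMk measurable_id)).aestronglyMeasurable
  · rw [ae_restrict_iff' measurableSet_Ioc]
    refine Filter.Eventually.of_forall fun v hv => ?_
    rw [Real.norm_eq_abs, abs_of_nonneg (ExQ_f_nonneg c θ v)]
    exact ExQ_f_bdd hc hθ hθ1 (ha.trans hv.1.le) hv.2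

theorem ExQ_P_nonneg {c θ a b : ℝ} (hab : a ≤ b) : 0 ≤ ∫ v in a..b, ExQ_f c θ v :=
  intervalIntegral.integral_nonneg hab fun v _ => ExQ_f_nonneg c θ v

theorem ExQ_Pii {c : ℝ} (hc : 0 ≤ c) {a b : ℝ} (ha : 0 ≤ a) (hab : a ≤ b) :
    IntervalIntegrable (fun θ => ∫ v in a..b, ExQ_f c θ v) volume (3 / 2) (5 / 2) := by
  rw [intervalIntegrable_iff_integrableOn_Ioc_of_le (by norm_num)]
  refine Measure.integrableOn_of_bounded
    (M := (Chebyshev.psi (Real.exp (b + 5 / 2)) + Real.exp (b + 5 / 2)) ^ 2 * (b - a)) (by simp) ?_ ?_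
  · have h1 : StronglyMeasurable (fun θ => ∫ v in Ioc a b, ExQ_f c θ v) :=
      StronglyMeasurable.integral_prod_right (f := ExQ_f c) (ExQ_f_meas c).stronglyMeasurable
    simp only [intervalIntegral.integral_of_le hab]
    exact h1.aestronglyMeasurable
  · rw [ae_restrict_iff' measurableSet_Ioc]
    refine Filter.Eventually.of_forall fun θ hθ => ?_
    rw [Real.norm_eq_abs, abs_of_nonneg (ExQ_P_nonneg hab)]
    have h2 : ∫ v in a..b, ExQ_f c θ v ≤ ∫ v in a..b, (Chebyshev.psi (Real.exp (b + 5 / 2)) + Real.exp (b + 5 / 2)) ^ 2 := by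
      refine intervalIntegral.integral_mono_on hab (ExQ_ii hc (by linarith [hθ.1]) hθ.2 ha hab)
        intervalIntegrable_const fun v hv => ?_
      exact ExQ_f_bdd hc (by linarith [hθ.1]) hθ.2 (ha.trans hv.1) hv.2
    rw [intervalIntegral.integral_const, smul_eq_mul, mul_comm] at h2
    exact h2

/-- Let `b = 1/η ≥ 2 a`, `∫_a^b RR ≤ K` for `T ≥ T0`. For a natural number `n ≥ n0` (`n0 ≥ 8`, `e^((n0 + 8)/b) ≥ max T0 10`) put
`T = e^((n + 8)/b)`, `v1 = n`, `v2 = n + 1`: `a log T = a (n + 8)/b ≤ (n + 8)/2 ≤ n` and `b log T - 6 = n + 2`, so by `avgPhi`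
`∫_θ ∫_n^{n+1} e^(-v) Fq² ≤ C K e^(η (n + 8)) (η (n + 8))²`. Hence
`∑_n ∫_θ ∫_n^{n+1} e^(-(1 + 2η) v) Fq² ≤ C K ∑_n e^(8η) e^(-η n) (η (n + 8))² < ∞`. In terms of `lintegral` (Tonelli):
`∫⁻ θ in [3/2, 5/2], ∫⁻ v in [n0, ∞), .. < ∞`, so for almost every `θ ∈ [3/2, 5/2]` the inner integral is finite; such a `θ`
exists. On `[0, n0]` the integrand is bounded and measurable. -/
theorem exQ {a : ℝ} (ha : 1 ≤ a) (h : ∀ b : ℝ, a ≤ b → ∃ K : ℝ, ∀ᶠ T : ℝ in atTop, ∫ α in a..b, RR α T ≤ K)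
    {η : ℝ} (hη : 0 < η) (hη1 : η ≤ 1 / (2 * a)) :
    ∃ θ : ℝ, 3 / 2 ≤ θ ∧ θ ≤ 5 / 2 ∧
      IntegrableOn (fun v => Real.exp (-((1 + 2 * η) * v)) * Fq θ v ^ 2) (Ioi 0) := by
  obtain ⟨C, hC0, hC⟩ := avgPhi
  set b : ℝ := 1 / η with hb
  have ha' : 0 < a := by linarith
  have hηa : η * (2 * a) ≤ 1 := by
    rwa [le_div_iff₀ (by positivity)] at hη1
  have hb3 : a ≤ b := by
    rw [hb, le_div_iff₀ hη]
    nlinarith
  obtain ⟨K0, hK0⟩ := h b hb3
  obtain ⟨T0, hT0⟩ := eventually_atTop.1 hK0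
  set K : ℝ := max K0 0 with hK
  have hKnn : 0 ≤ K := le_max_right _ _
  set n0 : ℕ := max 16 ⌈Real.log (max T0 10) / η⌉₊ with hn0
  have hn016 : 16 ≤ n0 := le_max_left _ _
  have hn0T : ∀ n : ℕ, n0 ≤ n → max T0 10 ≤ Real.exp (η * (n + 8)) := by
    intro n hn
    have h1 : Real.log (max T0 10) / η ≤ n := by
      have h2 : Real.log (max T0 10) / η ≤ (⌈Real.log (max T0 10) / η⌉₊ : ℝ) := Nat.le_ceil _
      have h3 : (⌈Real.log (max T0 10) / η⌉₊ : ℝ) ≤ n := by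
        exact_mod_cast (le_max_right _ _).trans hn
      linarith
    have h4 : (0 : ℝ) < max T0 10 := lt_of_lt_of_le (by norm_num) (le_max_right _ _)
    rw [← Real.log_le_iff_le_exp h4]
    rw [div_le_iff₀ hη] at h1
    nlinarith
  set as : ℕ → ℝ := fun m => C * K * η ^ 2 * Real.exp (16 * η) * (((m + 8 : ℕ) : ℝ) ^ 2 * Real.exp (-η * ((m + 8 : ℕ) : ℝ))) with has
  have ha0 : ∀ m, 0 ≤ as m := fun m => by
    rw [has]
    positivity
  have hasum : Summable as := by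
    have h1 := Real.summable_pow_mul_exp_neg_nat_mul 2 hη
    exact ((summable_nat_add_iff 8).2 h1).mul_left _
  have hc : 0 ≤ 1 + 2 * η := by linarith
  have hbound : ∀ n : ℕ, n0 ≤ n → ∫ θ in (3 / 2 : ℝ)..(5 / 2), ∫ v in (n : ℝ)..(n + 1 : ℝ), ExQ_f (1 + 2 * η) θ v ≤ as n := by
    intro n hn
    have hn16 : (16 : ℝ) ≤ n := by exact_mod_cast hn016.trans hn
    have hT1 := hn0T n hn
    set T : ℝ := Real.exp (η * (n + 8)) with hT
    have hT10 : 10 ≤ T := (le_max_right _ _).trans hT1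
    have hTT0 : T0 ≤ T := (le_max_left _ _).trans hT1
    have hlog : Real.log T = η * (n + 8) := Real.log_exp _
    have h1 := hC T hT10 a b ha hb3 n (n + 1) (by
      rw [hlog]
      have h0 : a * (η * ((n : ℝ) + 8)) = (η * (2 * a)) * (((n : ℝ) + 8) / 2) := by ring
      have h00 : (η * (2 * a)) * (((n : ℝ) + 8) / 2) ≤ 1 * (((n : ℝ) + 8) / 2) :=
        mul_le_mul_of_nonneg_right hηa (by positivity)
      rw [h0]
      linarith) (by linarith) (by
      rw [hlog, hb]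
      have : 1 / η * (η * ((n : ℝ) + 8)) = n + 8 := by
        field_simp
      rw [this]
      linarith)
    have h2 : ∫ α in a..b, RR α T ≤ K := (hT0 T hTT0).trans (le_max_left _ _)
    have h3 : ∫ θ in (3 / 2 : ℝ)..(5 / 2), ∫ v in (n : ℝ)..(n + 1 : ℝ), ExQ_f 1 θ v ≤ C * (T * Real.log T ^ 2) * K := by
      refine le_trans (le_of_eq ?_) (h1.trans (mul_le_mul_of_nonneg_left h2 (by positivity)))
      unfold ExQ_f
      simp only [one_mul]
    have h4 : ∀ θ ∈ Icc (3 / 2 : ℝ) (5 / 2), ∫ v in (n : ℝ)..(n + 1 : ℝ), ExQ_f (1 + 2 * η) θ v ≤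
        Real.exp (-(2 * η * n)) * ∫ v in (n : ℝ)..(n + 1 : ℝ), ExQ_f 1 θ v := by
      intro θ hθ
      rw [← intervalIntegral.integral_const_mul]
      refine intervalIntegral.integral_mono_on (by linarith) (ExQ_ii hc (by linarith [hθ.1]) hθ.2 (by linarith) (by linarith))
        ((ExQ_ii zero_le_one (by linarith [hθ.1]) hθ.2 (by linarith) (by linarith)).const_mul _) fun v hv => ?_
      unfold ExQ_f
      have h5 : Real.exp (-((1 + 2 * η) * v)) ≤ Real.exp (-(2 * η * n)) * Real.exp (-(1 * v)) := by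
        rw [← Real.exp_add]
        apply Real.exp_le_exp.2
        nlinarith [hv.1]
      calc Real.exp (-((1 + 2 * η) * v)) * Fq θ v ^ 2 ≤ (Real.exp (-(2 * η * n)) * Real.exp (-(1 * v))) * Fq θ v ^ 2 :=
            mul_le_mul_of_nonneg_right h5 (sq_nonneg _)
        _ = _ := by ring
    have h6 : ∫ θ in (3 / 2 : ℝ)..(5 / 2), ∫ v in (n : ℝ)..(n + 1 : ℝ), ExQ_f (1 + 2 * η) θ v ≤
        ∫ θ in (3 / 2 : ℝ)..(5 / 2), Real.exp (-(2 * η * n)) * ∫ v in (n : ℝ)..(n + 1 : ℝ), ExQ_f 1 θ v :=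
      intervalIntegral.integral_mono_on (by norm_num) (ExQ_Pii hc (by linarith) (by linarith))
        ((ExQ_Pii zero_le_one (by linarith) (by linarith)).const_mul _) h4
    rw [intervalIntegral.integral_const_mul] at h6
    refine h6.trans ((mul_le_mul_of_nonneg_left h3 (Real.exp_pos _).le).trans (le_of_eq ?_))
    have h7 : Real.exp (-(2 * η * n)) * T = Real.exp (16 * η) * Real.exp (-η * ((n + 8 : ℕ) : ℝ)) := by
      rw [hT, ← Real.exp_add, ← Real.exp_add]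
      congr 1
      push_cast
      ring
    rw [hlog, has]
    show Real.exp (-(2 * η * n)) * (C * (T * (η * ((n : ℝ) + 8)) ^ 2) * K) = C * K * η ^ 2 * Real.exp (16 * η) *
      (((n + 8 : ℕ) : ℝ) ^ 2 * Real.exp (-η * ((n + 8 : ℕ) : ℝ)))
    calc Real.exp (-(2 * η * n)) * (C * (T * (η * ((n : ℝ) + 8)) ^ 2) * K)
        = (Real.exp (-(2 * η * n)) * T) * (C * K * (η * ((n : ℝ) + 8)) ^ 2) := by ring
      _ = _ := by
          rw [h7]
          push_cast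
          ring
  -- a good ratio
  set P : ℕ → ℝ → ℝ := fun k θ => ∫ v in ((n0 + k : ℕ) : ℝ)..(((n0 + k : ℕ) : ℝ) + 1), ExQ_f (1 + 2 * η) θ v with hP
  have hPii : ∀ k, Integrable (P k) (volume.restrict (Ioc (3 / 2 : ℝ) (5 / 2))) := by
    intro k
    have h1 := ExQ_Pii (c := 1 + 2 * η) hc (a := ((n0 + k : ℕ) : ℝ)) (b := ((n0 + k : ℕ) : ℝ) + 1) (by positivity) (by linarith)
    exact (intervalIntegrable_iff_integrableOn_Ioc_of_le (by norm_num)).1 h1
  have hPnn : ∀ k θ, 0 ≤ P k θ := fun k θ => ExQ_P_nonneg (by linarith)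
  have hPb : ∀ k, ∫⁻ θ in Ioc (3 / 2 : ℝ) (5 / 2), ENNReal.ofReal (P k θ) ≤ ENNReal.ofReal (as (n0 + k)) := by
    intro k
    rw [← ofReal_integral_eq_lintegral_ofReal (hPii k) (Filter.Eventually.of_forall (hPnn k))]
    apply ENNReal.ofReal_le_ofReal
    have h1 := hbound (n0 + k) (by omega)
    rw [intervalIntegral.integral_of_le (by norm_num)] at h1
    exact h1
  have hmeas : ∀ k, AEMeasurable (fun θ => ENNReal.ofReal (P k θ)) (volume.restrict (Ioc (3 / 2 : ℝ) (5 / 2))) :=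
    fun k => (hPii k).aestronglyMeasurable.aemeasurable.ennreal_ofReal
  have htot : ∫⁻ θ in Ioc (3 / 2 : ℝ) (5 / 2), ∑' k, ENNReal.ofReal (P k θ) ≠ ⊤ := by
    rw [lintegral_tsum hmeas]
    have h1 : ∑' k, ∫⁻ θ in Ioc (3 / 2 : ℝ) (5 / 2), ENNReal.ofReal (P k θ) ≤ ∑' k, ENNReal.ofReal (as (n0 + k)) :=
      ENNReal.tsum_le_tsum hPb
    have h2 : Summable fun k => as (n0 + k) := by
      have := (summable_nat_add_iff n0).2 hasum
      simpa [add_comm] using this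
    rw [← ENNReal.ofReal_tsum_of_nonneg (fun k => ha0 _) h2] at h1
    exact ne_top_of_le_ne_top ENNReal.ofReal_ne_top h1
  have hae := ae_lt_top' (AEMeasurable.ennreal_tsum hmeas) htot
  have hne : (ae (volume.restrict (Ioc (3 / 2 : ℝ) (5 / 2)))).NeBot := by
    rw [ae_neBot]
    intro h0
    have h1 : volume (Ioc (3 / 2 : ℝ) (5 / 2)) = 0 := Measure.restrict_eq_zero.1 h0
    rw [Real.volume_Ioc] at h1
    norm_num at h1
  obtain ⟨θ, hθ1, hθ2⟩ := (hae.and (ae_restrict_mem measurableSet_Ioc)).exists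
  refine ⟨θ, hθ2.1.le, hθ2.2, ?_⟩
  have hθ0 : 0 ≤ θ := by linarith [hθ2.1]
  set S : ENNReal := ∑' k, ENNReal.ofReal (P k θ) with hS
  refine integrableOn_Ioi_of_intervalIntegral_norm_bounded (l := atTop) (b := fun i : ℕ => ((n0 + i : ℕ) : ℝ))
    ((∫ v in (0 : ℝ)..(n0 : ℝ), ExQ_f (1 + 2 * η) θ v) + S.toReal) 0 (fun i => ?_) ?_ ?_
  · exact (intervalIntegrable_iff_integrableOn_Ioc_of_le (by positivity)).1
      (ExQ_ii hc hθ0 hθ2.2 le_rfl (by positivity))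
  · exact tendsto_natCast_atTop_atTop.comp (tendsto_atTop_mono (fun i => Nat.le_add_left i n0) tendsto_id)
  · refine Filter.Eventually.of_forall fun i => ?_
    have h1 : ∀ x : ℝ, ‖Real.exp (-((1 + 2 * η) * x)) * Fq θ x ^ 2‖ = ExQ_f (1 + 2 * η) θ x := by
      intro x
      rw [Real.norm_eq_abs, abs_of_nonneg (by positivity)]
      rfl
    simp only [h1]
    have h2 : ∑ k ∈ Finset.range i, P k θ = ∫ v in (n0 : ℝ)..((n0 + i : ℕ) : ℝ), ExQ_f (1 + 2 * η) θ v := by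
      have h3 := intervalIntegral.sum_integral_adjacent_intervals (f := ExQ_f (1 + 2 * η) θ) (μ := volume)
        (a := fun k : ℕ => ((n0 + k : ℕ) : ℝ)) (n := i) (fun k _ => by
          refine ExQ_ii hc hθ0 hθ2.2 (by positivity) ?_
          push_cast
          linarith)
      rw [add_zero] at h3
      rw [← h3]
      refine Finset.sum_congr rfl fun k _ => ?_
      rw [hP]
      have h4 : (((n0 + k : ℕ) : ℝ) + 1) = ((n0 + (k + 1) : ℕ) : ℝ) := by
        push_cast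
        ring
      show ∫ v in ((n0 + k : ℕ) : ℝ)..(((n0 + k : ℕ) : ℝ) + 1), ExQ_f (1 + 2 * η) θ v = _
      rw [h4]
    have h5 : ∑ k ∈ Finset.range i, P k θ ≤ S.toReal := by
      rw [← ENNReal.ofReal_le_iff_le_toReal hθ1.ne, ENNReal.ofReal_sum_of_nonneg fun k _ => hPnn k θ]
      exact ENNReal.sum_le_tsum _
    rw [← intervalIntegral.integral_add_adjacent_intervals (b := (n0 : ℝ))
      (ExQ_ii hc hθ0 hθ2.2 le_rfl (by positivity)) (ExQ_ii hc hθ0 hθ2.2 (by positivity) (by push_cast; linarith [(Nat.cast_nonneg i : (0 : ℝ) ≤ (i : ℝ))])), ← h2]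
    linarith

end Pool.Agent.Lib.MP_2a816b_nt.PV
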