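import Pool.Agent.Lib.MP_2a816b_nt.PV.Elem

/-!
# JOB AAreg (about 200 lines): regularity of `AA`, `GG`, `AC`
-/

open Complex Set Filter Topology MeasureTheory

namespace Pool.Agent.Lib.MP_2a816b_nt.PV

open Pool.Agent.Lib.MP_00e05b_nt Pool.Agent.Lib.MP_00e05b_nt.Mont

theorem AAreg_mx (a : ℂ) : mx (1 - a) = mx a := by
  have hg : AnalyticAt ℂ (fun s : ℂ => 1 - s) a := analyticAt_const.sub analyticAt_id
  have hg' : deriv (fun s : ℂ => 1 - s) a ≠ 0 := by
    have h : HasDerivAt (fun s : ℂ => 1 - s) (-1) a := by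
      simpa using (hasDerivAt_id a).const_sub 1
    rw [h.deriv]
    norm_num
  have h := analyticOrderAt_comp_of_deriv_ne_zero (f := xi) hg hg'
  have he : (xi ∘ fun s : ℂ => 1 - s) = xi := by
    funext s
    exact xi_one_sub s
  rw [he] at h
  unfold mx analyticOrderNatAt
  rw [h]

/-- The nontrivial zeros are symmetric: `mx (conj a) = mx a` (`xi (conj s) = conj (xi s)`; see whether the library has it), so
`AA W (-t) c` is the complex conjugate of `AA W t c` (reindex by `a ↦ conj a`, `ck_even`). -/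
theorem AA_norm_neg {W : ℝ → ℝ} {s : ℝ} (hW : ES W s) (t c : ℝ) : ‖AA W (-t) c‖ = ‖AA W t c‖ := by
  have h : AA W (-t) c = (starRingEnd ℂ) (AA W t c) := by
    unfold AA
    rw [← (Equiv.subLeft (1 : ℂ)).tsum_eq (fun a : ℂ => (mx a : ℂ) *
      (cexp (((a.im * c : ℝ) : ℂ) * I) * (ck W (-t - a.im) : ℂ))), Complex.conj_tsum]
    refine tsum_congr fun a => ?_
    have h1 : (Equiv.subLeft (1 : ℂ)) a = 1 - a := rfl
    have h2 : (1 - a).im = -a.im := by simp
    have h3 : ck W (-t - -a.im) = ck W (t - a.im) := by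
      rw [← ck_even]
      congr 1
      ring
    rw [h1, AAreg_mx, h2, h3, map_mul, map_mul, ← Complex.exp_conj, map_mul, Complex.conj_ofReal, Complex.conj_ofReal,
      Complex.conj_I, Complex.conj_natCast]
    have h4 : ((-a.im * c : ℝ) : ℂ) * I = ((a.im * c : ℝ) : ℂ) * -I := by
      push_cast
      ring
    rw [h4]
  rw [h, Complex.norm_conj]

private theorem AAreg_norm {W : ℝ → ℝ} (a : ℂ) (t y : ℝ) :
    ‖(mx a : ℂ) * (cexp (((a.im * y : ℝ) : ℂ) * I) * (ck W (t - a.im) : ℂ))‖ = (mx a : ℝ) * |ck W (t - a.im)| := by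
  rw [norm_mul, norm_mul, Complex.norm_exp_ofReal_mul_I, one_mul, Complex.norm_natCast, Complex.norm_real, Real.norm_eq_abs]

/-- As `AA_continuous` (MP_00e05b_nt/Mont/Trunc0.lean): the terms are jointly continuous and the bound does not depend on `c`. -/
theorem AA_cont2 {W : ℝ → ℝ} {s : ℝ} (hW : ES W s) (hs : s ≤ 3 / 4) :
    Continuous (fun p : ℝ × ℝ => AA W p.1 p.2) := by
  obtain ⟨C, hC, hb⟩ := ck_bound hW hs
  have hcont : ∀ M : ℝ, 0 ≤ M → ContinuousOn (fun p : ℝ × ℝ => AA W p.1 p.2) (Icc (-M) M ×ˢ univ) := by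
    intro M hM
    unfold AA
    refine continuousOn_tsum (u := fun a : ℂ => (C * (1 + M) ^ 3) * ((mx a : ℝ) / (1 + |a.im - 0|) ^ 3)) (fun a => ?_)
      ((summable_cube 0).mul_left _) (fun a p hp => ?_)
    · refine Continuous.continuousOn ?_
      have h1 : Continuous (fun p : ℝ × ℝ => (ck W (p.1 - a.im) : ℂ)) :=
        Complex.continuous_ofReal.comp ((ck_continuous hW).comp (continuous_fst.sub continuous_const))
      have h2 : Continuous (fun p : ℝ × ℝ => cexp (((a.im * p.2 : ℝ) : ℂ) * I)) := by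
        fun_prop
      exact continuous_const.mul (h2.mul h1)
    · obtain ⟨t, y⟩ := p
      have ht : t ∈ Icc (-M) M := hp.1
      show ‖(mx a : ℂ) * (cexp (((a.im * y : ℝ) : ℂ) * I) * (ck W (t - a.im) : ℂ))‖ ≤ _
      rw [AAreg_norm]
      have h1 := hb (t - a.im)
      have h2 : (0 : ℝ) ≤ mx a := Nat.cast_nonneg _
      have h3 : |t| ≤ M := abs_le.2 ht
      have h4 : 1 + |a.im - 0| ≤ (1 + M) * (1 + |t - a.im|) := by
        have h5 : |a.im| ≤ |t| + |t - a.im| := by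
          have h6 := abs_sub_abs_le_abs_sub a.im t
          rw [abs_sub_comm a.im t] at h6
          linarith
        have h7 : 0 ≤ |t - a.im| := abs_nonneg _
        rw [sub_zero]
        nlinarith
      have hp1 : 0 < 1 + |a.im - 0| := by positivity
      have hp2 : 0 < 1 + |t - a.im| := by positivity
      have h5 : 1 / (1 + |t - a.im|) ^ 3 ≤ (1 + M) ^ 3 / (1 + |a.im - 0|) ^ 3 := by
        rw [div_le_div_iff₀ (by positivity) (by positivity), one_mul, ← mul_pow]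
        exact pow_le_pow_left₀ hp1.le h4 3
      calc (mx a : ℝ) * |ck W (t - a.im)| ≤ (mx a : ℝ) * (C / (1 + |t - a.im|) ^ 3) := mul_le_mul_of_nonneg_left h1 h2
        _ = (C * mx a) * (1 / (1 + |t - a.im|) ^ 3) := by ring
        _ ≤ (C * mx a) * ((1 + M) ^ 3 / (1 + |a.im - 0|) ^ 3) := mul_le_mul_of_nonneg_left h5 (mul_nonneg hC h2)
        _ = (C * (1 + M) ^ 3) * ((mx a : ℝ) / (1 + |a.im - 0|) ^ 3) := by ring
  rw [continuous_iff_continuousAt]
  rintro ⟨t, y⟩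
  refine (hcont (|t| + 1) (by positivity)).continuousAt (prod_mem_nhds (Icc_mem_nhds ?_ ?_) univ_mem)
  · have := neg_abs_le t
    linarith
  · have := le_abs_self t
    linarith

private theorem AAreg_sq {W : ℝ → ℝ} {s : ℝ} (hW : ES W s) (hs : s ≤ 3 / 4) (t : ℝ) :
    Continuous (fun c : ℝ => ‖AA W t c‖ ^ 2) := by
  have hg : Continuous (fun c : ℝ => ((t, c) : ℝ × ℝ)) := by fun_prop
  have h1 : Continuous (fun c : ℝ => AA W t c) := (AA_cont2 hW hs).comp hg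
  exact h1.norm.pow 2

private theorem AAreg_c1 (f : ℝ → ℝ → ℝ) (hf : Continuous (fun p : ℝ × ℝ => f p.1 p.2)) :
    Continuous (Function.uncurry (fun (p : ℝ × ℝ × ℝ) (c : ℝ) => f p.2.2 c)) := by
  have hg : Continuous (fun q : (ℝ × ℝ × ℝ) × ℝ => ((q.1.2.2, q.2) : ℝ × ℝ)) := by fun_prop
  exact hf.comp hg

private theorem AAreg_c2 (f : ℝ → ℝ → ℝ → ℝ) (hf : Continuous (fun p : ℝ × ℝ × ℝ => f p.1 p.2.1 p.2.2)) (a b : ℝ) :
    Continuous (fun x : ℝ => f a b x) := by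
  have hg : Continuous (fun τ : ℝ => ((a, b, τ) : ℝ × ℝ × ℝ)) := by fun_prop
  exact hf.comp hg

private theorem AAreg_c3 (f : ℝ → ℝ → ℝ → ℝ) (hf : Continuous (fun p : ℝ × ℝ × ℝ => f p.1 p.2.1 p.2.2)) :
    Continuous (Function.uncurry (fun (p : ℝ × ℝ × ℝ) (c : ℝ) => f p.1 p.2.1 c)) := by
  have hg : Continuous (fun q : (ℝ × ℝ × ℝ) × ℝ => ((q.1.1, q.1.2.1, q.2) : ℝ × ℝ × ℝ)) := by fun_prop
  exact hf.comp hg

/-- `GG W c1 c2 t = P c2 t - P c1 t`, `P c t = ∫_0^c`; parametric interval integrals of continuous functions. -/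
theorem GG_cont {W : ℝ → ℝ} {s : ℝ} (hW : ES W s) (hs : s ≤ 3 / 4) :
    Continuous (fun p : ℝ × ℝ × ℝ => GG W p.1 p.2.1 p.2.2) := by
  have hf : Continuous (Function.uncurry (fun (p : ℝ × ℝ × ℝ) (c : ℝ) => ‖AA W p.2.2 c‖ ^ 2)) := by
    have h0 : Continuous (fun p : ℝ × ℝ => ‖AA W p.1 p.2‖ ^ 2) := (AA_cont2 hW hs).norm.pow 2
    exact AAreg_c1 (fun x y => ‖AA W x y‖ ^ 2) h0
  have h2 : Continuous (fun p : ℝ × ℝ × ℝ => ∫ c in (0 : ℝ)..p.2.1, ‖AA W p.2.2 c‖ ^ 2) :=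
    intervalIntegral.continuous_parametric_intervalIntegral_of_continuous hf (continuous_fst.comp continuous_snd)
  have h1 : Continuous (fun p : ℝ × ℝ × ℝ => ∫ c in (0 : ℝ)..p.1, ‖AA W p.2.2 c‖ ^ 2) :=
    intervalIntegral.continuous_parametric_intervalIntegral_of_continuous hf continuous_fst
  have h3 : (fun p : ℝ × ℝ × ℝ => GG W p.1 p.2.1 p.2.2) = fun p : ℝ × ℝ × ℝ =>
      (∫ c in (0 : ℝ)..p.2.1, ‖AA W p.2.2 c‖ ^ 2) - ∫ c in (0 : ℝ)..p.1, ‖AA W p.2.2 c‖ ^ 2 := by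
    funext p
    unfold GG
    rw [intervalIntegral.integral_interval_sub_left]
    · exact (AAreg_sq hW hs _).intervalIntegrable _ _
    · exact (AAreg_sq hW hs _).intervalIntegrable _ _
  rw [h3]
  exact h2.sub h1

private theorem AAreg_GG {W : ℝ → ℝ} {s : ℝ} (hW : ES W s) (hs : s ≤ 3 / 4) (c1 c2 : ℝ) :
    Continuous (fun τ : ℝ => GG W c1 c2 τ) := AAreg_c2 (GG W) (GG_cont hW hs) c1 c2

theorem AC_cont {W : ℝ → ℝ} {s : ℝ} (hW : ES W s) (hs : s ≤ 3 / 4) :
    Continuous (fun p : ℝ × ℝ × ℝ => AC W p.1 p.2.1 p.2.2) := by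
  have hf : Continuous (Function.uncurry (fun (p : ℝ × ℝ × ℝ) (τ : ℝ) => GG W p.1 p.2.1 τ)) :=
    AAreg_c3 (GG W) (GG_cont hW hs)
  exact intervalIntegral.continuous_parametric_intervalIntegral_of_continuous hf (continuous_snd.comp continuous_snd)

theorem GG_nonneg (W : ℝ → ℝ) {c1 c2 : ℝ} (h : c1 ≤ c2) (t : ℝ) : 0 ≤ GG W c1 c2 t :=
  intervalIntegral.integral_nonneg_of_forall h fun c => by positivity

theorem AC_zero (W : ℝ → ℝ) (c1 c2 : ℝ) : AC W c1 c2 0 = 0 := by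
  unfold AC
  exact intervalIntegral.integral_same

theorem AC_nonneg (W : ℝ → ℝ) {c1 c2 t : ℝ} (h : c1 ≤ c2) (ht : 0 ≤ t) : 0 ≤ AC W c1 c2 t :=
  intervalIntegral.integral_nonneg_of_forall ht fun τ => GG_nonneg W h τ

theorem AC_nonpos (W : ℝ → ℝ) {c1 c2 t : ℝ} (h : c2 ≤ c1) (ht : 0 ≤ t) : AC W c1 c2 t ≤ 0 := by
  have h1 : AC W c1 c2 t = -AC W c2 c1 t := by
    unfold AC
    rw [← intervalIntegral.integral_neg]
    refine intervalIntegral.integral_congr fun τ _ => ?_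
    show GG W c1 c2 τ = -GG W c2 c1 τ
    unfold GG
    exact intervalIntegral.integral_symm _ _
  rw [h1]
  linarith [AC_nonneg W h ht]

theorem AC_mono {W : ℝ → ℝ} {s : ℝ} (hW : ES W s) (hs : s ≤ 3 / 4) {c1 c2 t t' : ℝ} (h : c1 ≤ c2) (ht : t ≤ t') :
    AC W c1 c2 t ≤ AC W c1 c2 t' := by
  have hc := AAreg_GG hW hs c1 c2
  have h1 : AC W c1 c2 t' - AC W c1 c2 t = ∫ τ in t..t', GG W c1 c2 τ := by
    unfold AC
    exact intervalIntegral.integral_interval_sub_left (hc.intervalIntegrable _ _) (hc.intervalIntegrable _ _)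
  have h2 : 0 ≤ ∫ τ in t..t', GG W c1 c2 τ :=
    intervalIntegral.integral_nonneg_of_forall ht fun τ => GG_nonneg W h τ
  linarith

/-- Both `c1 ≤ c2` and `c2 < c1` are allowed. -/
theorem AC_mono_c {W : ℝ → ℝ} {s : ℝ} (hW : ES W s) (hs : s ≤ 3 / 4) {c1 c2 d1 d2 t : ℝ} (h1 : d1 ≤ c1) (h2 : c2 ≤ d2)
    (h : d1 ≤ d2) (ht : 0 ≤ t) : AC W c1 c2 t ≤ AC W d1 d2 t := by
  unfold AC
  refine intervalIntegral.integral_mono_on ht ((AAreg_GG hW hs c1 c2).intervalIntegrable _ _)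
    ((AAreg_GG hW hs d1 d2).intervalIntegrable _ _) fun τ _ => ?_
  have hc := AAreg_sq hW hs τ
  have e1 : GG W d1 d2 τ = GG W d1 c1 τ + GG W c1 c2 τ + GG W c2 d2 τ := by
    unfold GG
    rw [intervalIntegral.integral_add_adjacent_intervals (hc.intervalIntegrable _ _) (hc.intervalIntegrable _ _),
      intervalIntegral.integral_add_adjacent_intervals (hc.intervalIntegrable _ _) (hc.intervalIntegrable _ _)]
  have e2 := GG_nonneg W h1 τ
  have e3 := GG_nonneg W h2 τ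
  linarith

end Pool.Agent.Lib.MP_2a816b_nt.PV
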