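import Pool.Agent.Lib.MP_2a816b_nt.PV.Star

/-!
# JOB Chain (about 200 lines): from short windows to windows of bounded ratio
-/

open Complex Set Filter Topology MeasureTheory

namespace Pool.Agent.Lib.MP_2a816b_nt.PV

open Pool.Agent.Lib.MP_00e05b_nt Pool.Agent.Lib.MP_00e05b_nt.Mont

theorem Chain_mono {f g : ℝ → ℝ} {a b : ℝ} (hab : a ≤ b) (hg : IntervalIntegrable g volume a b)
    (h : ∀ x ∈ Icc a b, f x ≤ g x) (hg0 : ∀ x ∈ Icc a b, 0 ≤ g x) :
    ∫ x in a..b, f x ≤ ∫ x in a..b, g x := by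
  by_cases hf : IntervalIntegrable f volume a b
  · exact intervalIntegral.integral_mono_on hab hf hg h
  · rw [intervalIntegral.integral_undef hf]
    exact intervalIntegral.integral_nonneg hab hg0

theorem Chain_Dt (l u : ℝ) : Real.exp (u / 2) * Dt l u =
    Chebyshev.psi (Real.exp (u + l / 2)) - Chebyshev.psi (Real.exp (u - l / 2)) -
      (Real.exp (u + l / 2) - Real.exp (u - l / 2)) := by
  unfold Dt
  have h1 : Real.exp (u / 2) * Real.exp (-(u / 2)) = 1 := by
    rw [← Real.exp_add, add_neg_cancel, Real.exp_zero]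
  have h2 : Real.exp (u / 2) * Real.exp (u / 2) = Real.exp u := by
    rw [← Real.exp_add]
    congr 1
    ring
  have h3 : 2 * Real.sinh (l / 2) * Real.exp u = Real.exp (u + l / 2) - Real.exp (u - l / 2) := by
    rw [Real.sinh_eq, Real.exp_add, sub_eq_add_neg u, Real.exp_add]
    ring
  rw [← h3, ← h2]
  linear_combination (Chebyshev.psi (Real.exp (u + l / 2)) - Chebyshev.psi (Real.exp (u - l / 2))) * h1

theorem Chain_sum (J : ℕ) (l v : ℝ) : ∑ j ∈ Finset.range J, Real.exp ((v + ((j : ℝ) + 1 / 2) * l) / 2) *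
    Dt l (v + ((j : ℝ) + 1 / 2) * l) = Fq (J * l) v := by
  have h1 : ∀ j : ℕ, Real.exp ((v + ((j : ℝ) + 1 / 2) * l) / 2) * Dt l (v + ((j : ℝ) + 1 / 2) * l) =
      (fun i : ℕ => Chebyshev.psi (Real.exp (v + i * l)) - Real.exp (v + i * l)) (j + 1) -
      (fun i : ℕ => Chebyshev.psi (Real.exp (v + i * l)) - Real.exp (v + i * l)) j := by
    intro j
    rw [Chain_Dt]
    have e1 : v + ((j : ℝ) + 1 / 2) * l + l / 2 = v + ((j + 1 : ℕ) : ℝ) * l := by
      push_cast
      ring
    have e2 : v + ((j : ℝ) + 1 / 2) * l - l / 2 = v + (j : ℝ) * l := by ring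
    rw [e1, e2]
    ring
  rw [Finset.sum_congr rfl fun j _ => h1 j]
  refine (Finset.sum_range_sub (fun i : ℕ => Chebyshev.psi (Real.exp (v + i * l)) - Real.exp (v + i * l)) J).trans ?_
  unfold Fq
  have e3 : Real.exp (v + (J : ℝ) * l) = Real.exp ((J : ℝ) * l) * Real.exp v := by
    rw [add_comm, Real.exp_add]
  simp only [Nat.cast_zero, zero_mul, add_zero]
  rw [e3]
  ring

/-- With `u_j = v + (j + 1/2) l`: `e^(u/2) Dt l u = ψ(e^(u + l/2)) - ψ(e^(u - l/2)) - (e^(u + l/2) - e^(u - l/2))`, so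
`Fq (J l) v = ∑_{j < J} e^(u_j/2) Dt l u_j` (telescoping); Cauchy-Schwarz and `u_j ≤ v + J l`. -/
theorem chain (J : ℕ) {l : ℝ} (hl : 0 ≤ l) (v : ℝ) :
    Fq (J * l) v ^ 2 ≤ J * Real.exp (J * l) * Real.exp v *
      ∑ j ∈ Finset.range J, Dt l (v + ((j : ℝ) + 1 / 2) * l) ^ 2 := by
  rw [← Chain_sum]
  refine (Finset.sum_mul_sq_le_sq_mul_sq _ _ _).trans ?_
  refine mul_le_mul_of_nonneg_right ?_ (Finset.sum_nonneg fun j _ => sq_nonneg _)
  have h1 : ∀ j ∈ Finset.range J, Real.exp ((v + ((j : ℝ) + 1 / 2) * l) / 2) ^ 2 ≤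
      Real.exp (J * l) * Real.exp v := by
    intro j hj
    have hj' : (j : ℝ) + 1 ≤ J := by
      exact_mod_cast Finset.mem_range.1 hj
    rw [← Real.exp_nat_mul, ← Real.exp_add]
    apply Real.exp_le_exp.2
    have h2 : ((j : ℝ) + 1 / 2) * l ≤ J * l := mul_le_mul_of_nonneg_right (by linarith) hl
    push_cast
    linarith
  refine (Finset.sum_le_card_nsmul _ _ _ h1).trans (le_of_eq ?_)
  rw [Finset.card_range, nsmul_eq_mul]
  ring

/-- `J = ⌈T⌉₊`, `θ = J l`, so `l ∈ [3/(2J), 5/(2J)]` and `dθ = J dl`. By `chain` and `(j + 1/2) l ≤ 5/2`: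
`∫_θ ∫_{v1}^{v2} e^(-v) Fq² ≤ e^(5/2) J³ ∫_{l ∈ [3/(2J), 5/(2J)]} ∫_{v1}^{v2 + 5/2} Dt l u² du dl`. On this range of `l`
`2 sinh (l/2) ≤ 3/J`, so `w3 l ≥ J³/27`; `lT T ≤ 1/(T - 1/2) ≤ 3/(2J)` and `5/(2J) ≤ log 3`;
`(a - 1) log T + su l ≤ (a - 1) log T - log l ≤ (a - 1) log T + log (2J/3) ≤ a log T ≤ v1` and
`(b - 1) log T + su l ≥ (b - 1) log T - log (3/J) ≥ b log T - log 3 ≥ v2 + 5/2`. So the right side is at most
`27 e^(5/2) ∫_{lT T}^{log 3} w3 l ∫_{(a-1) log T + su l}^{(b-1) log T + su l} Dt l u² du dl`, and `star_avg`.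
(`chain` is used under the integral over `v` for fixed `l`; interchange of the finite sum and the integral; measurability of
`(θ, v) ↦ Fq θ v` as in `Dt_meas`.) -/
theorem avgPhi : ∃ C : ℝ, 0 ≤ C ∧ ∀ T : ℝ, 10 ≤ T → ∀ a b : ℝ, 1 ≤ a → a ≤ b → ∀ v1 v2 : ℝ, a * Real.log T ≤ v1 → v1 ≤ v2 →
    v2 ≤ b * Real.log T - 6 →
    ∫ θ in (3 / 2 : ℝ)..(5 / 2), ∫ v in v1..v2, Real.exp (-v) * Fq θ v ^ 2 ≤
      C * (T * Real.log T ^ 2) * ∫ α in a..b, RR α T := by
  refine ⟨125 * Real.exp (5 / 2), by positivity, ?_⟩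
  intro T hT a b ha hb v1 v2 hv1 hv12 hv2
  have hlogT : 0 < Real.log T := Real.log_pos (by linarith)
  set J : ℕ := ⌈T⌉₊ with hJ
  have hJT : T ≤ J := Nat.le_ceil T
  have hJT' : (J : ℝ) < T + 1 := Nat.ceil_lt_add_one (by linarith)
  have hJ0 : (0 : ℝ) < J := by linarith
  have hlog3 : 1 ≤ Real.log 3 := by
    rw [Real.le_log_iff_exp_le (by norm_num)]
    have := Real.exp_one_lt_d9
    linarith
  have hlog3' := log_three_le
  have hlog5 : Real.log 5 ≤ 2 := by
    rw [Real.log_le_iff_le_exp (by norm_num)]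
    have h1 : Real.exp 2 = Real.exp 1 * Real.exp 1 := by
      rw [← Real.exp_add]
      norm_num
    have h2 := Real.exp_one_gt_d9
    rw [h1]
    nlinarith
  have hab : 3 / 2 / (J : ℝ) ≤ 5 / 2 / (J : ℝ) := div_le_div_of_nonneg_right (by norm_num) hJ0.le
  have hl1 : lT T ≤ 3 / 2 / (J : ℝ) := by
    refine (lT_le (by linarith)).trans ?_
    rw [div_le_div_iff₀ (by linarith) hJ0]
    linarith
  have hl2 : 5 / 2 / (J : ℝ) ≤ 1 / 4 := by
    rw [div_le_iff₀ hJ0]
    linarith
  have hlT0 : 0 < lT T := lt_of_lt_of_le (by positivity) (lT_ge (by linarith : (1 : ℝ) ≤ T))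
  -- the integrand on the right
  set W : ℝ → ℝ := fun l => w3 l * ∫ u in ((a - 1) * Real.log T + su l)..((b - 1) * Real.log T + su l), Dt l u ^ 2 with hW
  have hWi : IntervalIntegrable W volume (lT T) (Real.log 3) := by
    refine inner_ii hlT0 (lT_le_log_three (by linarith)) hlog3' ?_ ?_ ?_
    · exact continuousOn_const.add (su_cont.mono fun x hx => lt_of_lt_of_le hlT0 hx.1)
    · exact continuousOn_const.add (su_cont.mono fun x hx => lt_of_lt_of_le hlT0 hx.1)
    · exact w3_cont.mono fun x hx => lt_of_lt_of_le hlT0 hx.1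
  have hW0 : ∀ l ∈ Icc (lT T) (Real.log 3), 0 ≤ W l := by
    intro l hl
    have hl0 : 0 < l := lt_of_lt_of_le hlT0 hl.1
    refine mul_nonneg (w3_pos hl0).le ?_
    refine intervalIntegral.integral_nonneg ?_ fun u _ => sq_nonneg _
    have := mul_le_mul_of_nonneg_right hb hlogT.le
    linarith [(by ring : (a - 1) * Real.log T = a * Real.log T - Real.log T),
      (by ring : (b - 1) * Real.log T = b * Real.log T - Real.log T)]
  have hstar := (star_avg (T := T) (by linarith) hb).2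
  have hstar' : ∫ l in (lT T)..(Real.log 3), W l = T * Real.log T ^ 2 * ∫ α in a..b, RR α T := by
    have hT0 : 0 < T := by linarith
    have hne : T * Real.log T ^ 2 ≠ 0 := by positivity
    rw [hstar, ← mul_assoc, mul_one_div_cancel hne, one_mul]
  set Φ : ℝ → ℝ := fun θ => ∫ v in v1..v2, Real.exp (-v) * Fq θ v ^ 2 with hΦ
  -- change of variables
  have hsub : ∫ θ in (3 / 2 : ℝ)..(5 / 2), Φ θ = J * ∫ l in (3 / 2 / (J : ℝ))..(5 / 2 / (J : ℝ)), Φ (J * l) := by
    have h1 := intervalIntegral.mul_integral_comp_mul_left (f := Φ) (a := 3 / 2 / (J : ℝ)) (b := 5 / 2 / (J : ℝ)) (J : ℝ)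
    rw [h1, mul_div_cancel₀ _ hJ0.ne', mul_div_cancel₀ _ hJ0.ne']
  -- pointwise bound
  have hpt : ∀ l ∈ Icc (3 / 2 / (J : ℝ)) (5 / 2 / (J : ℝ)), Φ (J * l) ≤ 125 * Real.exp (5 / 2) / J * W l := by
    intro l hl
    have hl0 : 0 < l := lt_of_lt_of_le (by positivity) hl.1
    have hl54 : l ≤ 5 / 4 := by linarith [hl.2]
    have hJl : (J : ℝ) * l ≤ 5 / 2 := by
      have := hl.2
      rw [le_div_iff₀ hJ0] at this
      linarith
    have hJl' : 3 / 2 ≤ (J : ℝ) * l := by
      have := hl.1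
      rw [div_le_iff₀ hJ0] at this
      linarith
    have hii : ∀ j ∈ Finset.range J, IntervalIntegrable (fun v => Dt l (v + ((j : ℝ) + 1 / 2) * l) ^ 2) volume v1 v2 := by
      intro j _
      have h1 := (Dt_ii hl0.le hl54 (v1 + ((j : ℝ) + 1 / 2) * l) (v2 + ((j : ℝ) + 1 / 2) * l)).comp_add_right
        (((j : ℝ) + 1 / 2) * l)
      simpa using h1
    have h2 : Φ (J * l) ≤ ∫ v in v1..v2, J * Real.exp (5 / 2) * ∑ j ∈ Finset.range J, Dt l (v + ((j : ℝ) + 1 / 2) * l) ^ 2 := by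
      refine Chain_mono hv12 ?_ ?_ ?_
      · exact ((IntervalIntegrable.sum _ hii).const_mul (J * Real.exp (5 / 2))).congr (fun x _ => by
          simp [Finset.sum_apply])
      · intro v _
        have h3 := chain J hl0.le v
        have h4 : Real.exp (-v) * Real.exp v = 1 := by
          rw [← Real.exp_add, neg_add_cancel, Real.exp_zero]
        have h5 : 0 ≤ ∑ j ∈ Finset.range J, Dt l (v + ((j : ℝ) + 1 / 2) * l) ^ 2 :=
          Finset.sum_nonneg fun j _ => sq_nonneg _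
        calc Real.exp (-v) * Fq (J * l) v ^ 2 ≤ Real.exp (-v) * (J * Real.exp (J * l) * Real.exp v *
              ∑ j ∈ Finset.range J, Dt l (v + ((j : ℝ) + 1 / 2) * l) ^ 2) :=
              mul_le_mul_of_nonneg_left h3 (Real.exp_pos _).le
          _ = (Real.exp (-v) * Real.exp v) * (J * Real.exp (J * l) *
              ∑ j ∈ Finset.range J, Dt l (v + ((j : ℝ) + 1 / 2) * l) ^ 2) := by ring
          _ = J * Real.exp (J * l) * ∑ j ∈ Finset.range J, Dt l (v + ((j : ℝ) + 1 / 2) * l) ^ 2 := by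
              rw [h4, one_mul]
          _ ≤ J * Real.exp (5 / 2) * ∑ j ∈ Finset.range J, Dt l (v + ((j : ℝ) + 1 / 2) * l) ^ 2 := by
              refine mul_le_mul_of_nonneg_right ?_ h5
              exact mul_le_mul_of_nonneg_left (Real.exp_le_exp.2 hJl) hJ0.le
      · intro v _
        have h5 : 0 ≤ ∑ j ∈ Finset.range J, Dt l (v + ((j : ℝ) + 1 / 2) * l) ^ 2 :=
          Finset.sum_nonneg fun j _ => sq_nonneg _
        positivity
    have h6 : ∀ j ∈ Finset.range J, ∫ v in v1..v2, Dt l (v + ((j : ℝ) + 1 / 2) * l) ^ 2 ≤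
        ∫ u in v1..(v2 + 5 / 2), Dt l u ^ 2 := by
      intro j hj
      have hj' : (j : ℝ) + 1 ≤ J := by
        exact_mod_cast Finset.mem_range.1 hj
      have h7 : ((j : ℝ) + 1 / 2) * l ≤ 5 / 2 :=
        (mul_le_mul_of_nonneg_right (by linarith) hl0.le).trans hJl
      have h8 : 0 ≤ ((j : ℝ) + 1 / 2) * l := by positivity
      rw [intervalIntegral.integral_comp_add_right (fun u => Dt l u ^ 2)]
      refine intervalIntegral.integral_mono_interval (by linarith) (by linarith) (by linarith) ?_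
        (Dt_ii hl0.le hl54 _ _)
      exact Filter.Eventually.of_forall fun x => sq_nonneg _
    have h9 : Φ (J * l) ≤ J * Real.exp (5 / 2) * (J * ∫ u in v1..(v2 + 5 / 2), Dt l u ^ 2) := by
      refine h2.trans ?_
      rw [intervalIntegral.integral_const_mul, intervalIntegral.integral_finsetSum hii]
      refine mul_le_mul_of_nonneg_left ?_ (by positivity)
      refine (Finset.sum_le_card_nsmul _ _ _ h6).trans (le_of_eq ?_)
      rw [Finset.card_range, nsmul_eq_mul]
    -- sinh bound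
    have h10 : -Real.log l - Real.log 2 ≤ su l := su_ge hl0 hl54
    have hs0 : 0 < 2 * Real.sinh (l / 2) := by
      have := Real.sinh_pos_iff.2 (by positivity : 0 < l / 2)
      positivity
    have h11 : 2 * Real.sinh (l / 2) ≤ 5 / J := by
      have h12 : Real.log (2 * Real.sinh (l / 2)) ≤ Real.log (2 * l) := by
        rw [Real.log_mul (by norm_num) hl0.ne']
        unfold su at h10
        linarith
      have h13 := (Real.log_le_log_iff hs0 (by positivity)).1 h12
      have h14 : 2 * l ≤ 5 / J := by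
        rw [le_div_iff₀ hJ0]
        linarith
      linarith
    have h15 : (J : ℝ) ^ 3 / 125 ≤ w3 l := by
      unfold w3
      have h16 : (2 * Real.sinh (l / 2)) ^ 3 ≤ (5 / J) ^ 3 := pow_le_pow_left₀ hs0.le h11 3
      have h17 : ((5 / (J : ℝ)) ^ 3)⁻¹ ≤ ((2 * Real.sinh (l / 2)) ^ 3)⁻¹ := inv_anti₀ (by positivity) h16
      refine le_trans (le_of_eq ?_) h17
      rw [div_pow, inv_div]
      norm_num
    have h18 : Real.log l ≤ Real.log (5 / 2 / J) := Real.log_le_log hl0 hl.2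
    have h19 : Real.log (3 / 2 / J) ≤ Real.log l := Real.log_le_log (by positivity) hl.1
    have h20 : (a - 1) * Real.log T + su l ≤ v1 := by
      have h21 := su_le hl0
      have h22 : -Real.log (3 / 2 / J) ≤ Real.log T := by
        rw [← Real.log_inv]
        refine Real.log_le_log (by positivity) ?_
        rw [inv_div, div_le_iff₀ (by norm_num)]
        linarith
      linarith [(by ring : (a - 1) * Real.log T = a * Real.log T - Real.log T)]
    have h23 : v2 + 5 / 2 ≤ (b - 1) * Real.log T + su l := by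
      have h24 : Real.log T ≤ Real.log J := Real.log_le_log (by linarith) hJT
      have h25 : Real.log (5 / 2 / J) = Real.log 5 - Real.log 2 - Real.log J := by
        rw [Real.log_div (by norm_num) hJ0.ne', Real.log_div (by norm_num) (by norm_num)]
      linarith [(by ring : (b - 1) * Real.log T = b * Real.log T - Real.log T)]
    have h26 : ∫ u in v1..(v2 + 5 / 2), Dt l u ^ 2 ≤
        ∫ u in ((a - 1) * Real.log T + su l)..((b - 1) * Real.log T + su l), Dt l u ^ 2 :=
      intervalIntegral.integral_mono_interval h20 (by linarith) h23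
        (Filter.Eventually.of_forall fun x => sq_nonneg _) (Dt_ii hl0.le hl54 _ _)
    set I1 := ∫ u in v1..(v2 + 5 / 2), Dt l u ^ 2 with hI1
    set I2 := ∫ u in ((a - 1) * Real.log T + su l)..((b - 1) * Real.log T + su l), Dt l u ^ 2 with hI2
    have hI10 : 0 ≤ I1 := intervalIntegral.integral_nonneg (by linarith) fun u _ => sq_nonneg _
    calc Φ (J * l) ≤ J * Real.exp (5 / 2) * (J * I1) := h9
      _ ≤ J * Real.exp (5 / 2) * (J * I2) := by
          refine mul_le_mul_of_nonneg_left ?_ (by positivity)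
          exact mul_le_mul_of_nonneg_left h26 hJ0.le
      _ = 125 * Real.exp (5 / 2) / J * ((J : ℝ) ^ 3 / 125 * I2) := by
          field_simp
      _ ≤ 125 * Real.exp (5 / 2) / J * (w3 l * I2) := by
          refine mul_le_mul_of_nonneg_left ?_ (by positivity)
          exact mul_le_mul_of_nonneg_right h15 (hI10.trans h26)
  show ∫ θ in (3 / 2 : ℝ)..(5 / 2), Φ θ ≤ _
  rw [hsub]
  have hlT3 : lT T ≤ Real.log 3 := lT_le_log_three (by linarith)
  have hsubset : uIcc (3 / 2 / (J : ℝ)) (5 / 2 / (J : ℝ)) ⊆ uIcc (lT T) (Real.log 3) := by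
    rw [uIcc_of_le hab, uIcc_of_le hlT3]
    exact Icc_subset_Icc hl1 (by linarith)
  have h30 : ∫ l in (3 / 2 / (J : ℝ))..(5 / 2 / (J : ℝ)), Φ (J * l) ≤
      ∫ l in (3 / 2 / (J : ℝ))..(5 / 2 / (J : ℝ)), 125 * Real.exp (5 / 2) / J * W l := by
    refine Chain_mono hab ((hWi.mono_set hsubset).const_mul _) hpt ?_
    intro l hl
    have := hW0 l ⟨hl1.trans hl.1, by linarith [hl.2]⟩
    positivity
  have h31 : ∫ l in (3 / 2 / (J : ℝ))..(5 / 2 / (J : ℝ)), W l ≤ ∫ l in (lT T)..(Real.log 3), W l := by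
    refine intervalIntegral.integral_mono_interval hl1 hab (by linarith) ?_ hWi
    rw [Filter.EventuallyLE, ae_restrict_iff' measurableSet_Ioc]
    exact Filter.Eventually.of_forall fun l hl => hW0 l ⟨hl.1.le, hl.2⟩
  rw [intervalIntegral.integral_const_mul] at h30
  calc (J : ℝ) * ∫ l in (3 / 2 / (J : ℝ))..(5 / 2 / (J : ℝ)), Φ (J * l)
      ≤ J * (125 * Real.exp (5 / 2) / J * ∫ l in (3 / 2 / (J : ℝ))..(5 / 2 / (J : ℝ)), W l) :=
        mul_le_mul_of_nonneg_left h30 hJ0.le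
    _ = 125 * Real.exp (5 / 2) * ∫ l in (3 / 2 / (J : ℝ))..(5 / 2 / (J : ℝ)), W l := by
        field_simp
    _ ≤ 125 * Real.exp (5 / 2) * ∫ l in (lT T)..(Real.log 3), W l :=
        mul_le_mul_of_nonneg_left h31 (by positivity)
    _ = 125 * Real.exp (5 / 2) * (T * Real.log T ^ 2) * ∫ α in a..b, RR α T := by
        rw [hstar']
        ring

end Pool.Agent.Lib.MP_2a816b_nt.PV
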