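import Pool.Agent.Lib.MP_2a816b_nt.PV.PB

/-!
# JOB CrudeD (about 120 lines): crude bound for the mean square of `Dt`
-/

open Complex Set Filter Topology MeasureTheory

namespace Pool.Agent.Lib.MP_2a816b_nt.PV

open Pool.Agent.Lib.MP_00e05b_nt Pool.Agent.Lib.MP_00e05b_nt.Mont

theorem CrudeD_sinh {l : ℝ} (hl : 0 < l) (hl1 : l ≤ 5 / 4) : (2 * Real.sinh (l / 2)) ^ 2 ≤ 12 * l := by
  have h1 : 2 * Real.sinh (l / 2) ≤ 3 * l := by
    rw [Real.sinh_eq]
    have h2 : 1 - l ≤ Real.exp (-l) := by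
      have := Real.add_one_le_exp (-l)
      linarith
    have h3 : Real.exp (-(l / 2)) = Real.exp (l / 2) * Real.exp (-l) := by
      rw [← Real.exp_add]
      congr 1
      ring
    have h4 : Real.exp (l / 2) ≤ 3 :=
      (Real.exp_le_exp.2 (by linarith : l / 2 ≤ 1)).trans (by have := Real.exp_one_lt_d9; linarith)
    rw [h3]
    have h5 : Real.exp (l / 2) * (1 - Real.exp (-l)) ≤ 3 * l :=
      mul_le_mul h4 (by linarith) (by have := Real.exp_le_one_iff.2 (by linarith : -l ≤ 0); linarith) (by norm_num)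
    linarith
  have h0 : 0 ≤ 2 * Real.sinh (l / 2) := by
    have := Real.sinh_pos_iff.2 (by linarith : 0 < l / 2)
    linarith
  nlinarith

theorem CrudeD_mono : Monotone (fun u : ℝ => Chebyshev.psi (Real.exp u)) :=
  fun _ _ h => Chebyshev.psi_mono (Real.exp_le_exp.2 h)

theorem CrudeD_D {l : ℝ} (hl : 0 < l) (hl1 : l ≤ 5 / 4) :
    ∫ u in (-1 : ℝ)..2, (Chebyshev.psi (Real.exp (u + l / 2)) - Chebyshev.psi (Real.exp (u - l / 2))) ≤
      Chebyshev.psi (Real.exp 3) * l := by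
  have hii : ∀ a b : ℝ, IntervalIntegrable (fun u : ℝ => Chebyshev.psi (Real.exp u)) volume a b :=
    fun a b => CrudeD_mono.intervalIntegrable
  have h1 : IntervalIntegrable (fun u : ℝ => Chebyshev.psi (Real.exp (u + l / 2))) volume (-1) 2 :=
    Monotone.intervalIntegrable fun _ _ h => CrudeD_mono (by linarith)
  have h2 : IntervalIntegrable (fun u : ℝ => Chebyshev.psi (Real.exp (u - l / 2))) volume (-1) 2 :=
    Monotone.intervalIntegrable fun _ _ h => CrudeD_mono (by linarith)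
  rw [intervalIntegral.integral_sub h1 h2,
    intervalIntegral.integral_comp_add_right (fun u : ℝ => Chebyshev.psi (Real.exp u)) (l / 2),
    intervalIntegral.integral_comp_sub_right (fun u : ℝ => Chebyshev.psi (Real.exp u)) (l / 2),
    intervalIntegral.integral_interval_sub_interval_comm (hii _ _) (hii _ _) (hii _ _)]
  have h3 : ∫ u in (-1 + l / 2 : ℝ)..(-1 - l / 2), Chebyshev.psi (Real.exp u) ≤ 0 := by
    rw [intervalIntegral.integral_symm]
    have : 0 ≤ ∫ u in (-1 - l / 2 : ℝ)..(-1 + l / 2), Chebyshev.psi (Real.exp u) :=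
      intervalIntegral.integral_nonneg (by linarith) fun u _ => Chebyshev.psi_nonneg _
    linarith
  have h4 : ‖∫ u in (2 + l / 2 : ℝ)..(2 - l / 2), Chebyshev.psi (Real.exp u)‖ ≤
      Chebyshev.psi (Real.exp 3) * |2 - l / 2 - (2 + l / 2)| := by
    apply intervalIntegral.norm_integral_le_of_norm_le_const
    intro u hu
    rw [Set.uIoc_of_ge (by linarith)] at hu
    rw [Real.norm_eq_abs, abs_of_nonneg (Chebyshev.psi_nonneg _)]
    exact CrudeD_mono (by linarith [hu.2])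
  rw [show |2 - l / 2 - (2 + l / 2)| = l by
    rw [show 2 - l / 2 - (2 + l / 2) = -l by ring, abs_neg, abs_of_pos hl]] at h4
  rw [Real.norm_eq_abs] at h4
  have h5 := (abs_le.1 h4).1
  linarith

/-- For `-1 ≤ u ≤ 2`: `(ψ(e^(u + l/2)) - ψ(e^(u - l/2)))² = (∑_n Λ(n) 1[u - l/2 < log n ≤ u + l/2])² ≤ 14 ∑_{n ≤ 14} Λ(n)² 1[..]`
(`e^(2 + 5/8) < 14`), each indicator has integral `≤ l` over `u`; and `2 sinh (l/2) ≤ 2 l`. -/
theorem Dt_small : ∃ C : ℝ, 0 ≤ C ∧ ∀ l : ℝ, 0 < l → l ≤ 5 / 4 → ∫ u in (-1 : ℝ)..2, Dt l u ^ 2 ≤ C * l := by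
  refine ⟨2 * (Real.exp 1 * Chebyshev.psi (Real.exp 3) * Chebyshev.psi (Real.exp 3)) + 72 * Real.exp 2, ?_, ?_⟩
  · have := Chebyshev.psi_nonneg (Real.exp 3)
    positivity
  intro l hl hl1
  have hP : 0 ≤ Chebyshev.psi (Real.exp 3) := Chebyshev.psi_nonneg _
  have h1 : IntervalIntegrable (fun u : ℝ => Chebyshev.psi (Real.exp (u + l / 2))) volume (-1) 2 :=
    Monotone.intervalIntegrable fun _ _ h => CrudeD_mono (by linarith)
  have h2 : IntervalIntegrable (fun u : ℝ => Chebyshev.psi (Real.exp (u - l / 2))) volume (-1) 2 :=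
    Monotone.intervalIntegrable fun _ _ h => CrudeD_mono (by linarith)
  have hpt : ∀ u ∈ Icc (-1 : ℝ) 2, Dt l u ^ 2 ≤ 2 * (Real.exp 1 * Chebyshev.psi (Real.exp 3)) *
      (Chebyshev.psi (Real.exp (u + l / 2)) - Chebyshev.psi (Real.exp (u - l / 2))) + 24 * Real.exp 2 * l := by
    intro u hu
    have hD0 : 0 ≤ Chebyshev.psi (Real.exp (u + l / 2)) - Chebyshev.psi (Real.exp (u - l / 2)) :=
      sub_nonneg.2 (CrudeD_mono (by linarith))
    have hDP : Chebyshev.psi (Real.exp (u + l / 2)) - Chebyshev.psi (Real.exp (u - l / 2)) ≤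
        Chebyshev.psi (Real.exp 3) := by
      have h3 : Chebyshev.psi (Real.exp (u + l / 2)) ≤ Chebyshev.psi (Real.exp 3) :=
        CrudeD_mono (by linarith [hu.2])
      have h4 := Chebyshev.psi_nonneg (Real.exp (u - l / 2))
      linarith
    unfold Dt
    generalize Chebyshev.psi (Real.exp (u + l / 2)) - Chebyshev.psi (Real.exp (u - l / 2)) = D at *
    have h5 : (Real.exp (-(u / 2)) * D) ^ 2 ≤ Real.exp 1 * Chebyshev.psi (Real.exp 3) * D := by
      have h6 : Real.exp (-(u / 2)) ^ 2 ≤ Real.exp 1 := by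
        rw [← Real.exp_nat_mul]
        apply Real.exp_le_exp.2
        push_cast
        linarith [hu.1]
      calc (Real.exp (-(u / 2)) * D) ^ 2 = Real.exp (-(u / 2)) ^ 2 * (D * D) := by ring
        _ ≤ Real.exp 1 * (Chebyshev.psi (Real.exp 3) * D) :=
          mul_le_mul h6 (mul_le_mul_of_nonneg_right hDP hD0) (mul_nonneg hD0 hD0) (Real.exp_pos _).le
        _ = _ := by ring
    have h7 : (2 * Real.sinh (l / 2) * Real.exp (u / 2)) ^ 2 ≤ 12 * Real.exp 2 * l := by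
      have h8 : Real.exp (u / 2) ^ 2 ≤ Real.exp 2 := by
        rw [← Real.exp_nat_mul]
        apply Real.exp_le_exp.2
        push_cast
        linarith [hu.2]
      calc (2 * Real.sinh (l / 2) * Real.exp (u / 2)) ^ 2 = (2 * Real.sinh (l / 2)) ^ 2 * Real.exp (u / 2) ^ 2 := by ring
        _ ≤ 12 * l * Real.exp 2 := mul_le_mul (CrudeD_sinh hl hl1) h8 (sq_nonneg _) (by linarith)
        _ = _ := by ring
    have h9 : (Real.exp (-(u / 2)) * D - 2 * Real.sinh (l / 2) * Real.exp (u / 2)) ^ 2 ≤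
        2 * (Real.exp (-(u / 2)) * D) ^ 2 + 2 * (2 * Real.sinh (l / 2) * Real.exp (u / 2)) ^ 2 := by
      nlinarith [sq_nonneg (Real.exp (-(u / 2)) * D + 2 * Real.sinh (l / 2) * Real.exp (u / 2))]
    linarith
  have h3 : ∫ u in (-1 : ℝ)..2, Dt l u ^ 2 ≤ ∫ u in (-1 : ℝ)..2, (2 * (Real.exp 1 * Chebyshev.psi (Real.exp 3)) *
      (Chebyshev.psi (Real.exp (u + l / 2)) - Chebyshev.psi (Real.exp (u - l / 2))) + 24 * Real.exp 2 * l) := by
    apply intervalIntegral.integral_mono_on (by norm_num) (Dt_ii hl.le hl1 _ _) _ hpt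
    exact ((h1.sub h2).const_mul _).add intervalIntegrable_const
  rw [intervalIntegral.integral_add ((h1.sub h2).const_mul _) intervalIntegrable_const,
    intervalIntegral.integral_const_mul, intervalIntegral.integral_const] at h3
  have h4 := CrudeD_D hl hl1
  have h5 : 2 * (Real.exp 1 * Chebyshev.psi (Real.exp 3)) *
      ∫ u in (-1 : ℝ)..2, (Chebyshev.psi (Real.exp (u + l / 2)) - Chebyshev.psi (Real.exp (u - l / 2))) ≤
      2 * (Real.exp 1 * Chebyshev.psi (Real.exp 3)) * (Chebyshev.psi (Real.exp 3) * l) :=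
    mul_le_mul_of_nonneg_left h4 (by positivity)
  rw [smul_eq_mul] at h3
  have h6 : (2 - (-1 : ℝ)) * (24 * Real.exp 2 * l) = 72 * Real.exp 2 * l := by ring
  rw [h6] at h3
  calc _ ≤ _ := h3
    _ ≤ _ := add_le_add h5 le_rfl
    _ = _ := by ring

theorem CrudeD_win {W : ℝ → ℝ} (hW : EB W (1 / 8)) {l : ℝ} (hl : 0 < l) (hl1 : l ≤ 5 / 4) (c : ℝ) :
    ∫ u in (c - 1 / 16)..(c + 1 / 16), Dt l u ^ 2 ≤ ∫ u, W (u - c) ^ 2 * Dt l u ^ 2 := by
  have hWc : Continuous W := hW.smooth.continuous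
  have hWc2 : Continuous (fun u => W (u - c) ^ 2) := (hWc.comp (continuous_id.sub continuous_const)).pow 2
  have h0 : ∀ u, 0 ≤ W (u - c) ^ 2 * Dt l u ^ 2 := fun u => mul_nonneg (sq_nonneg _) (sq_nonneg _)
  have hint1 : IntegrableOn (fun u => W (u - c) ^ 2 * Dt l u ^ 2) (Icc (c - 1) (c + 1)) := by
    have h1 : IntervalIntegrable (fun u => W (u - c) ^ 2 * Dt l u ^ 2) volume (c - 1) (c + 1) :=
      (Dt_ii hl.le hl1 _ _).continuousOn_mul hWc2.continuousOn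
    exact (intervalIntegrable_iff_integrableOn_Icc_of_le (by linarith)).1 h1
  have hint : Integrable (fun u => W (u - c) ^ 2 * Dt l u ^ 2) := by
    rw [integrableOn_iff_integrable_of_support_subset] at hint1
    · exact hint1
    · intro u hu
      by_contra hu2
      apply hu
      have h2 : 1 / 8 ≤ |u - c| := by
        by_contra h3
        rw [not_le, abs_lt] at h3
        exact hu2 ⟨by linarith [h3.1], by linarith [h3.2]⟩
      show W (u - c) ^ 2 * Dt l u ^ 2 = 0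
      rw [hW.supp _ h2]
      ring
  rw [intervalIntegral.integral_of_le (by linarith)]
  calc ∫ u in Ioc (c - 1 / 16) (c + 1 / 16), Dt l u ^ 2 =
      ∫ u in Ioc (c - 1 / 16) (c + 1 / 16), W (u - c) ^ 2 * Dt l u ^ 2 := by
        apply setIntegral_congr_fun measurableSet_Ioc
        intro u hu
        have h2 : |u - c| ≤ 1 / 8 / 2 := by
          rw [abs_le]
          constructor
          · linarith [hu.1]
          · linarith [hu.2]
        show Dt l u ^ 2 = W (u - c) ^ 2 * Dt l u ^ 2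
        rw [hW.one _ h2]
        ring
    _ ≤ _ := setIntegral_le_integral hint (Eventually.of_forall h0)

theorem CrudeD_log {l : ℝ} (hl : 0 < l) (hl1 : l ≤ 5 / 4) : 1 ≤ Real.log (4 / l) ^ 2 := by
  have h1 : 1 ≤ Real.log (4 / l) := by
    rw [Real.le_log_iff_exp_le (by positivity), le_div_iff₀ hl]
    have := Real.exp_one_lt_d9
    nlinarith [Real.exp_pos 1]
  nlinarith

theorem CrudeD_one (hRH : RiemannHypothesis) : ∃ C : ℝ, 0 ≤ C ∧ ∀ l : ℝ, 0 < l → l ≤ 5 / 4 → ∀ x : ℝ, -1 ≤ x →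
    ∫ u in x..(x + 1 / 8), Dt l u ^ 2 ≤ C * l * Real.log (4 / l) ^ 2 := by
  obtain ⟨W, hW⟩ := exists_EB (1 / 8) (by norm_num)
  obtain ⟨C1, hC1, h1⟩ := PBmain hRH hW
  obtain ⟨C2, hC2, h2⟩ := slAA_bound hRH hW
  obtain ⟨C3, hC3, h3⟩ := Dt_small
  refine ⟨C3 + (Real.pi⁻¹ * C2 + 2 * C1), by positivity, ?_⟩
  intro l hl hl1 x hx
  have hlog := CrudeD_log hl hl1
  have hnn : ∀ u, 0 ≤ Dt l u ^ 2 := fun u => sq_nonneg _
  rcases le_total x (15 / 16) with hx1 | hx1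
  · have h4 : ∫ u in x..(x + 1 / 8), Dt l u ^ 2 ≤ ∫ u in (-1 : ℝ)..2, Dt l u ^ 2 :=
      intervalIntegral.integral_mono_interval hx (by linarith) (by linarith)
        (Eventually.of_forall hnn) (Dt_ii hl.le hl1 _ _)
    have h5 := h3 l hl hl1
    have h6 : C3 * l ≤ C3 * l * Real.log (4 / l) ^ 2 := le_mul_of_one_le_right (by positivity) hlog
    have h7 : 0 ≤ (Real.pi⁻¹ * C2 + 2 * C1) * l * Real.log (4 / l) ^ 2 := by
      have := Real.pi_pos
      positivity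
    calc _ ≤ _ := h4
      _ ≤ _ := h5
      _ ≤ C3 * l * Real.log (4 / l) ^ 2 + (Real.pi⁻¹ * C2 + 2 * C1) * l * Real.log (4 / l) ^ 2 := by linarith
      _ = _ := by ring
  · have h4 := CrudeD_win hW hl hl1 (x + 1 / 16)
    rw [show x + 1 / 16 - 1 / 16 = x by ring, show x + 1 / 16 + 1 / 16 = x + 1 / 8 by ring] at h4
    have h5 := (abs_le.1 (h1 l hl hl1 (x + 1 / 16) (by linarith))).2
    obtain ⟨h6, h7⟩ := h2 l hl hl1 (x + 1 / 16)
    have h8 : ∫ t in Ioi (0 : ℝ), sl l t ^ 2 * ‖AA W t (x + 1 / 16)‖ ^ 2 ≤ ∫ t : ℝ, sl l t ^ 2 * ‖AA W t (x + 1 / 16)‖ ^ 2 :=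
      setIntegral_le_integral h6 (Eventually.of_forall fun t => mul_nonneg (sq_nonneg _) (sq_nonneg _))
    have hpi : 0 < Real.pi⁻¹ := inv_pos.2 Real.pi_pos
    have h9 : Real.pi⁻¹ * ∫ t in Ioi (0 : ℝ), sl l t ^ 2 * ‖AA W t (x + 1 / 16)‖ ^ 2 ≤
        Real.pi⁻¹ * (C2 * l * Real.log (4 / l) ^ 2) := mul_le_mul_of_nonneg_left (h8.trans h7) hpi.le
    have h10 : l ^ (5 / 4 : ℝ) ≤ 2 * l := by
      have h11 : l ^ (5 / 4 : ℝ) = l ^ (1 / 4 : ℝ) * l := by
        rw [show (5 / 4 : ℝ) = 1 / 4 + 1 by norm_num, Real.rpow_add hl, Real.rpow_one]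
      have h12 : l ^ (1 / 4 : ℝ) ≤ 2 := by
        calc l ^ (1 / 4 : ℝ) ≤ (2 : ℝ) ^ (1 / 4 : ℝ) := Real.rpow_le_rpow hl.le (by linarith) (by norm_num)
          _ ≤ (2 : ℝ) ^ (1 : ℝ) := Real.rpow_le_rpow_of_exponent_le (by norm_num) (by norm_num)
          _ = 2 := Real.rpow_one 2
      rw [h11]
      exact mul_le_mul_of_nonneg_right h12 hl.le
    have h13 : C1 * l ^ (5 / 4 : ℝ) ≤ C1 * (2 * l) := mul_le_mul_of_nonneg_left h10 hC1
    have h14 : C1 * (2 * l) ≤ C1 * (2 * l) * Real.log (4 / l) ^ 2 := le_mul_of_one_le_right (by positivity) hlog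
    have h15 : 0 ≤ C3 * l * Real.log (4 / l) ^ 2 := by positivity
    calc _ ≤ _ := h4
      _ ≤ Real.pi⁻¹ * (C2 * l * Real.log (4 / l) ^ 2) + C1 * (2 * l) * Real.log (4 / l) ^ 2 := by linarith
      _ ≤ C3 * l * Real.log (4 / l) ^ 2 +
          (Real.pi⁻¹ * (C2 * l * Real.log (4 / l) ^ 2) + C1 * (2 * l) * Real.log (4 / l) ^ 2) := by linarith
      _ = _ := by ring

/-- For `u ≥ 7/8` cover by windows: `W = 1` on `[-1/16, 1/16]`, so `∫_{c - 1/16}^{c + 1/16} Dt² ≤ ∫ W(u - c)² Dt²`, bounded by `PBmain` and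
`slAA_bound` (there is a bump by `exists_EB`); the number of windows is at most `8 (u2 - u1) + 1`. `log (4/l) ≥ 1` for `l ≤ 5/4`. -/
theorem Dt_crude (hRH : RiemannHypothesis) : ∃ C : ℝ, 0 ≤ C ∧ ∀ l : ℝ, 0 < l → l ≤ 5 / 4 → ∀ u1 u2 : ℝ, -1 ≤ u1 → u1 ≤ u2 →
    ∫ u in u1..u2, Dt l u ^ 2 ≤ C * l * Real.log (4 / l) ^ 2 * (u2 - u1 + 1) := by
  obtain ⟨C, hC, h⟩ := CrudeD_one hRH
  refine ⟨8 * C, by positivity, ?_⟩
  intro l hl hl1 u1 u2 hu1 hu12
  have hnn : ∀ u, 0 ≤ Dt l u ^ 2 := fun u => sq_nonneg _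
  have hK : 0 ≤ C * l * Real.log (4 / l) ^ 2 := by positivity
  have hn : ∀ n : ℕ, ∫ u in u1..(u1 + n / 8), Dt l u ^ 2 ≤ n * (C * l * Real.log (4 / l) ^ 2) := by
    intro n
    induction n with
    | zero => simp
    | succ n ih =>
      have h1 : ∫ u in u1..(u1 + ((n + 1 : ℕ) : ℝ) / 8), Dt l u ^ 2 =
          (∫ u in u1..(u1 + n / 8), Dt l u ^ 2) + ∫ u in (u1 + n / 8)..(u1 + n / 8 + 1 / 8), Dt l u ^ 2 := by
        rw [intervalIntegral.integral_add_adjacent_intervals (Dt_ii hl.le hl1 _ _) (Dt_ii hl.le hl1 _ _)]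
        congr 1
        push_cast
        ring
      have h2 := h l hl hl1 (u1 + n / 8) (by have : (0 : ℝ) ≤ n := n.cast_nonneg; linarith)
      rw [h1]
      push_cast
      linarith
  obtain ⟨n, hn1, hn2⟩ : ∃ n : ℕ, 8 * (u2 - u1) ≤ n ∧ (n : ℝ) ≤ 8 * (u2 - u1) + 1 :=
    ⟨⌈8 * (u2 - u1)⌉₊, Nat.le_ceil _, (Nat.ceil_lt_add_one (by linarith)).le⟩
  have h1 : ∫ u in u1..u2, Dt l u ^ 2 ≤ ∫ u in u1..(u1 + n / 8), Dt l u ^ 2 :=
    intervalIntegral.integral_mono_interval le_rfl hu12 (by linarith)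
      (Eventually.of_forall hnn) (Dt_ii hl.le hl1 _ _)
  calc _ ≤ _ := h1
    _ ≤ _ := hn n
    _ ≤ (8 * (u2 - u1) + 8) * (C * l * Real.log (4 / l) ^ 2) := mul_le_mul_of_nonneg_right (by linarith) hK
    _ = _ := by ring

end Pool.Agent.Lib.MP_2a816b_nt.PV
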