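import Pool.Agent.Lib.MP_2a816b_nt.Defs
import Pool.Agent.Lib.MP_00e05b_nt.Mont.Trunc
import Pool.Agent.Lib.MP_00e05b_nt.Mont.T1B
import Pool.Agent.Lib.MP_00e05b_nt.Mont.PD

/-!
# Variance of primes in short intervals and pair correlation: definitions

`L = log T` throughout. `T` is the ratio `X / H` of the length of the range and of the windows, `X = T^α`, `H = T^(α-1)`.
In multiplicative coordinates the window `[x - H/2, x + H/2]` is `[e^(u - l/2), e^(u + l/2)]`.
Notation from the library `MP_00e05b_nt` (pair correlation; namespaces below are open): `FF α t` is Montgomery's function, `N0 t = t log t / 2π`,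
`SS t u = ∑_{0 < γ ≤ t} m_γ e^{iγu}`, `EB W s` smooth even bumps, `ck W` the cosine transform,
`AA W t c = ∑_γ m_γ e^{iγc} ck W (t - γ)` (sum over all nontrivial zeros), `mx a` the multiplicity of the zero `a`,
`rt u = e^{-2u}/(1 - e^{-2u})`.
-/

open Complex Set Filter Topology MeasureTheory

namespace Pool.Agent.Lib.MP_2a816b_nt.PV

open Pool.Agent.Lib.MP_00e05b_nt Pool.Agent.Lib.MP_00e05b_nt.Mont

/-- the mean square over the windows with centre in `[H, X]` -/
noncomputable def VV (X H : ℝ) : ℝ := (1 / X) * ∫ x in H..X, (psiWindow x H - H) ^ 2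

/-- normalised variance `R(α, T)`: `X = T^α`, `H = T^(α-1)`, `V(X, H) / (H log (X/H))` -/
noncomputable def RR (α T : ℝ) : ℝ := VV (T ^ α) (T ^ (α - 1)) / (T ^ (α - 1) * Real.log T)

/-- normalised error of the window `[e^(u - l/2), e^(u + l/2)]` -/
noncomputable def Dt (l u : ℝ) : ℝ :=
  Real.exp (-(u / 2)) * (Chebyshev.psi (Real.exp (u + l / 2)) - Chebyshev.psi (Real.exp (u - l / 2))) -
    2 * Real.sinh (l / 2) * Real.exp (u / 2)

/-- the weight in `l` -/
noncomputable def w3 (l : ℝ) : ℝ := ((2 * Real.sinh (l / 2)) ^ 3)⁻¹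

/-- the shift in `u` -/
noncomputable def su (l : ℝ) : ℝ := -Real.log (2 * Real.sinh (l / 2))

/-- the smallest `l` -/
noncomputable def lT (T : ℝ) : ℝ := Real.log ((2 * T + 1) / (2 * T - 1))

/-- the multiplier `2 sin (l t / 2) / t` -/
noncomputable def sl (l t : ℝ) : ℝ := ∫ h in (-(l / 2))..(l / 2), Real.cos (t * h)

/-- the multiplier at a zero -/
noncomputable def SH (l : ℝ) (a : ℂ) : ℂ := ∫ h in (-(l / 2))..(l / 2), cexp (a * (h : ℂ))

/-- contribution of the trivial zeros to `Dt` -/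
noncomputable def Rm (l u : ℝ) : ℝ := Real.exp (-(u / 2)) * ∫ v in (u - l / 2)..(u + l / 2), rt v

/-- the kernel in `w = l t` -/
noncomputable def qq (w : ℝ) : ℝ := 4 * Real.sin (w / 2) ^ 2 / w ^ 3

/-- `∫ W²` -/
noncomputable def II (W : ℝ → ℝ) : ℝ := ∫ u, W u ^ 2

/-- `‖AA‖²` integrated over the centres in `[c1, c2]` -/
noncomputable def GG (W : ℝ → ℝ) (c1 c2 t : ℝ) : ℝ := ∫ c in c1..c2, ‖AA W t c‖ ^ 2

/-- and over the ordinates in `[0, t]` -/
noncomputable def AC (W : ℝ → ℝ) (c1 c2 t : ℝ) : ℝ := ∫ τ in (0 : ℝ)..t, GG W c1 c2 τ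

/-- `∫ ‖SS t u‖² du` over `[c1, c2]` -/
noncomputable def QS (t c1 c2 : ℝ) : ℝ := ∫ u in c1..c2, ‖SS t u‖ ^ 2

/-- the quantity that controls the variance -/
noncomputable def Mq (W : ℝ → ℝ) (c1 c2 τ : ℝ) : ℝ := ∫ w in Ioi (0 : ℝ), qq w * AC W c1 c2 (w * τ)

/-- error term of the multiplier replacement -/
noncomputable def Ez (W : ℝ → ℝ) (l c t : ℝ) : ℂ :=
  ∑' a : ℂ, (mx a : ℂ) * ((SH l a - (sl l t : ℂ)) * (cexp (((a.im * c : ℝ) : ℂ) * I) * (ck W (t - a.im) : ℂ)))

/-- error of the primes in `(e^v, e^(v + θ)]` -/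
noncomputable def Fq (θ v : ℝ) : ℝ :=
  Chebyshev.psi (Real.exp (v + θ)) - Chebyshev.psi (Real.exp v) - (Real.exp θ - 1) * Real.exp v

/-- the Fejér kernel -/
noncomputable def FK (n y : ℝ) : ℝ := 2 * (1 - Real.cos (n * y)) / (n * y ^ 2)

/-- two symmetric Fejér kernels -/
noncomputable def KK (n x0 x : ℝ) : ℝ := (FK n (x - x0) + FK n (x + x0)) / 2

/-- the local transform: smooth, supported near `c` -/
noncomputable def Gt (W : ℝ → ℝ) (c t u : ℝ) : ℂ :=
  ((W (u - c) * Real.exp (-(u / 2)) : ℝ) : ℂ) * cexp (((-(t * u) : ℝ) : ℂ) * I)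

/-- test function for the explicit formula -/
noncomputable def gD (W : ℝ → ℝ) (l c t v : ℝ) : ℂ := ∫ h in (-(l / 2))..(l / 2), Gt W c t (v + h)

end Pool.Agent.Lib.MP_2a816b_nt.PV
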