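import Pool.Agent.Lib.MP_2a816b_nt.PV.Defs

/-!
# JOB Elem (about 200 lines): elementary inequalities for `w3`, `su`, `lT`, `sl`, `qq`

Everything is one-variable calculus. `x ≤ sinh x` (`Real.self_le_sinh_iff`), `sinh x ≤ 2 x` for `0 ≤ x ≤ 5/8`
(e.g. `sinh x ≤ x cosh x`, or convexity), `sinh x / x → 1`.
-/

open Complex Set Filter Topology MeasureTheory

namespace Pool.Agent.Lib.MP_2a816b_nt.PV

open Pool.Agent.Lib.MP_00e05b_nt Pool.Agent.Lib.MP_00e05b_nt.Mont

theorem Elem_sinh_pos {l : ℝ} (hl : 0 < l) : 0 < 2 * Real.sinh (l / 2) := by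
  have : 0 < Real.sinh (l / 2) := Real.sinh_pos_iff.2 (by linarith)
  linarith

theorem Elem_le_sinh {l : ℝ} (hl : 0 < l) : l ≤ 2 * Real.sinh (l / 2) := by
  have : l / 2 ≤ Real.sinh (l / 2) := Real.self_le_sinh_iff.2 (by linarith)
  linarith

theorem w3_pos {l : ℝ} (hl : 0 < l) : 0 < w3 l := by
  unfold w3
  have := Elem_sinh_pos hl
  positivity

/-- `l ≤ 2 sinh (l/2)` -/
theorem w3_le {l : ℝ} (hl : 0 < l) : w3 l ≤ 1 / l ^ 3 := by
  unfold w3
  rw [one_div]
  exact inv_anti₀ (by positivity) (pow_le_pow_left₀ hl.le (Elem_le_sinh hl) 3)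

/-- `2 sinh (l/2) / l → 1` as `l → 0+`. -/
theorem w3_ge {κ : ℝ} (hκ : 0 < κ) : ∃ r : ℝ, 0 < r ∧ ∀ l : ℝ, 0 < l → l ≤ r → (1 - κ) * (1 / l ^ 3) ≤ w3 l := by
  have h1 : HasDerivAt Real.sinh 1 0 := by
    have := Real.hasDerivAt_sinh 0
    rwa [Real.cosh_zero] at this
  have h2 : Tendsto (fun x : ℝ => x⁻¹ * Real.sinh x) (𝓝[≠] 0) (𝓝 1) := by
    have h3 := hasDerivAt_iff_tendsto_slope.1 h1
    refine h3.congr fun x => ?_
    rw [slope_def_field, Real.sinh_zero, sub_zero, sub_zero, div_eq_inv_mul]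
  have h3 : Tendsto (fun x : ℝ => x⁻¹ * Real.sinh x) (𝓝[>] 0) (𝓝 1) :=
    h2.mono_left (nhdsWithin_mono _ fun x hx => ne_of_gt hx)
  have h4 : Tendsto (fun l : ℝ => l / 2) (𝓝[>] 0) (𝓝[>] 0) := by
    refine tendsto_nhdsWithin_iff.2 ⟨?_, ?_⟩
    · have : Tendsto (fun l : ℝ => l / 2) (𝓝 0) (𝓝 (0 / 2)) := tendsto_id.div_const 2
      rw [zero_div] at this
      exact this.mono_left nhdsWithin_le_nhds
    · filter_upwards [self_mem_nhdsWithin] with x hx
      have : (0 : ℝ) < x := hx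
      show (0 : ℝ) < x / 2
      linarith
  have h5 : Tendsto (fun l : ℝ => (((l / 2)⁻¹ * Real.sinh (l / 2)) ^ 3)⁻¹) (𝓝[>] 0) (𝓝 ((1 ^ 3)⁻¹)) :=
    ((h3.comp h4).pow 3).inv₀ (by norm_num)
  rw [one_pow, inv_one] at h5
  have h6 : ∀ᶠ l in 𝓝[>] (0 : ℝ), 1 - κ < (((l / 2)⁻¹ * Real.sinh (l / 2)) ^ 3)⁻¹ :=
    h5.eventually (eventually_gt_nhds (by linarith))
  obtain ⟨r, hr, hsub⟩ := mem_nhdsGT_iff_exists_Ioc_subset.1 h6
  refine ⟨r, hr, fun l hl hlr => ?_⟩
  have h7 : 1 - κ < (((l / 2)⁻¹ * Real.sinh (l / 2)) ^ 3)⁻¹ := hsub ⟨hl, hlr⟩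
  have h8 : w3 l = (((l / 2)⁻¹ * Real.sinh (l / 2)) ^ 3)⁻¹ * (1 / l ^ 3) := by
    unfold w3
    have h9 : (l / 2)⁻¹ * Real.sinh (l / 2) = (2 * Real.sinh (l / 2)) / l := by
      field_simp
    rw [h9, div_pow, inv_div, one_div, div_mul_eq_mul_div, mul_inv_cancel₀ (by positivity), one_div]
  rw [h8]
  exact mul_le_mul_of_nonneg_right h7.le (by positivity)

theorem w3_cont : ContinuousOn w3 (Ioi 0) := by
  unfold w3
  refine ContinuousOn.inv₀ ?_ fun l hl => ?_
  · exact ((continuous_const.mul (Real.continuous_sinh.comp (continuous_id.div_const 2))).pow 3).continuousOn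
  · have := Elem_sinh_pos (l := l) hl
    positivity

theorem su_cont : ContinuousOn su (Ioi 0) := by
  unfold su
  refine ContinuousOn.neg (ContinuousOn.log ?_ fun l hl => ?_)
  · exact (continuous_const.mul (Real.continuous_sinh.comp (continuous_id.div_const 2))).continuousOn
  · exact (Elem_sinh_pos (l := l) hl).ne'

theorem su_le {l : ℝ} (hl : 0 < l) : su l ≤ -Real.log l := by
  unfold su
  have := Real.log_le_log hl (Elem_le_sinh hl)
  linarith

/-- `2 sinh (l/2) ≤ 2 l` -/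
theorem su_ge {l : ℝ} (hl : 0 < l) (hl1 : l ≤ 5 / 4) : -Real.log l - Real.log 2 ≤ su l := by
  have h1 : Real.exp (l / 2) ≤ 1 + l := by
    have h2 : |l / 2| ≤ 1 := by
      rw [abs_of_pos (by linarith)]
      linarith
    have h3 := Real.abs_exp_sub_one_le h2
    rw [abs_of_pos (by linarith : 0 < l / 2)] at h3
    have h4 := (abs_le.1 h3).2
    linarith
  have h2 : 1 - l / 2 ≤ Real.exp (-(l / 2)) := by
    have := Real.add_one_le_exp (-(l / 2))
    linarith
  have h3 : 2 * Real.sinh (l / 2) ≤ l * 2 := by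
    rw [Real.sinh_eq]
    linarith
  unfold su
  have h4 := Real.log_le_log (Elem_sinh_pos hl) h3
  rw [Real.log_mul hl.ne' (by norm_num)] at h4
  linarith

/-- `log 3 ≤ 5/4` -/
theorem log_three_le : Real.log 3 ≤ 5 / 4 := by
  have he : (0 : ℝ) < Real.exp 1 := Real.exp_pos 1
  have h1 : Real.log 3 = Real.log (3 / Real.exp 1) + 1 := by
    rw [Real.log_div (by norm_num) he.ne', Real.log_exp]
    ring
  have h2 : Real.log (3 / Real.exp 1) ≤ 3 / Real.exp 1 - 1 := Real.log_le_sub_one_of_pos (by positivity)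
  have h3 : 3 / Real.exp 1 ≤ 5 / 4 := by
    rw [div_le_iff₀ he]
    have := Real.exp_one_gt_d9
    linarith
  linarith

/-- `2 sinh (log 3 / 2) = √3 - 1/√3 = 2/√3 < e`; `sinh` is increasing -/
theorem su_ge_neg_one {l : ℝ} (hl : 0 < l) (hl1 : l ≤ Real.log 3) : -1 ≤ su l := by
  have h1 : 2 * Real.sinh (l / 2) ≤ Real.exp (l / 2) := by
    rw [Real.sinh_eq]
    have := Real.exp_pos (-(l / 2))
    linarith
  have h2 := Real.log_le_log (Elem_sinh_pos hl) h1
  rw [Real.log_exp] at h2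
  have h3 := log_three_le
  unfold su
  linarith

/-- `log ((1 + x)/(1 - x)) ≥ 2 x`, `x = 1/(2T)` -/
theorem lT_ge {T : ℝ} (hT : 1 ≤ T) : 1 / T ≤ lT T := by
  unfold lT
  have h0 : 0 < 2 * T - 1 := by linarith
  have hT0 : 0 < T := by linarith
  have h1 := Real.le_log_one_add_of_nonneg (x := 2 / (2 * T - 1)) (by positivity)
  have h2 : 1 + 2 / (2 * T - 1) = (2 * T + 1) / (2 * T - 1) := by
    field_simp
    ring
  have h3 : 2 * (2 / (2 * T - 1)) / (2 / (2 * T - 1) + 2) = 1 / T := by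
    have h4 : 2 / (2 * T - 1) + 2 = 4 * T / (2 * T - 1) := by
      field_simp
      ring
    rw [h4]
    field_simp
    norm_num
  rw [h2, h3] at h1
  exact h1

/-- `log (1 + y) ≤ y`, `y = 2/(2T - 1)` -/
theorem lT_le {T : ℝ} (hT : 1 ≤ T) : lT T ≤ 1 / (T - 1 / 2) := by
  unfold lT
  have h0 : 0 < 2 * T - 1 := by linarith
  have h1 : Real.log ((2 * T + 1) / (2 * T - 1)) ≤ (2 * T + 1) / (2 * T - 1) - 1 :=
    Real.log_le_sub_one_of_pos (by positivity)
  refine h1.trans (le_of_eq ?_)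
  have h2 : T - 1 / 2 = (2 * T - 1) / 2 := by ring
  rw [h2]
  field_simp
  ring

theorem lT_le_log_three {T : ℝ} (hT : 1 ≤ T) : lT T ≤ Real.log 3 := by
  unfold lT
  have h0 : 0 < 2 * T - 1 := by linarith
  refine Real.log_le_log (by positivity) ?_
  rw [div_le_iff₀ h0]
  linarith

theorem sl_eq (l : ℝ) {t : ℝ} (ht : t ≠ 0) : sl l t = 2 * Real.sin (l * t / 2) / t := by
  unfold sl
  rw [intervalIntegral.integral_comp_mul_left (fun x => Real.cos x) ht, integral_cos, smul_eq_mul]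
  have h1 : t * -(l / 2) = -(l * t / 2) := by ring
  have h2 : t * (l / 2) = l * t / 2 := by ring
  rw [h1, h2, Real.sin_neg]
  field_simp
  ring

theorem sl_abs_le {l : ℝ} (hl : 0 ≤ l) (t : ℝ) : |sl l t| ≤ l := by
  unfold sl
  have h1 := intervalIntegral.norm_integral_le_of_norm_le_const (a := -(l / 2)) (b := l / 2) (C := 1)
    (f := fun h => Real.cos (t * h)) (fun x _ => by rw [Real.norm_eq_abs]; exact Real.abs_cos_le_one _)
  rw [Real.norm_eq_abs] at h1
  refine h1.trans (le_of_eq ?_)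
  rw [abs_of_nonneg (by linarith)]
  ring

theorem sl_mul_le (l t : ℝ) : |t| * |sl l t| ≤ 2 := by
  by_cases ht : t = 0
  · subst ht
    simp
  · rw [sl_eq l ht, abs_div, mul_div_cancel₀ _ (abs_pos.2 ht).ne', abs_mul, abs_of_pos (by norm_num : (0 : ℝ) < 2)]
    have := Real.abs_sin_le_one (l * t / 2)
    linarith

theorem sl_neg (l t : ℝ) : sl l (-t) = sl l t := by
  unfold sl
  refine intervalIntegral.integral_congr fun h _ => ?_
  rw [neg_mul, Real.cos_neg]

/-- joint continuity: `sl l t = ∫_{-1/2}^{1/2} l cos (t l x) dx` (substitution), dominated convergence -/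
theorem sl_cont : Continuous (fun p : ℝ × ℝ => sl p.1 p.2) := by
  have hc : Continuous (Function.uncurry fun (p : ℝ × ℝ) (h : ℝ) => Real.cos (p.2 * h)) :=
    Real.continuous_cos.comp ((continuous_snd.comp continuous_fst).mul continuous_snd)
  have h1 : Continuous fun p : ℝ × ℝ => ∫ h in (0 : ℝ)..(p.1 / 2), Real.cos (p.2 * h) :=
    intervalIntegral.continuous_parametric_intervalIntegral_of_continuous hc (continuous_fst.div_const 2)
  have h2 : Continuous fun p : ℝ × ℝ => ∫ h in (0 : ℝ)..(-(p.1 / 2)), Real.cos (p.2 * h) :=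
    intervalIntegral.continuous_parametric_intervalIntegral_of_continuous hc (continuous_fst.div_const 2).neg
  have h3 : (fun p : ℝ × ℝ => sl p.1 p.2) = fun p : ℝ × ℝ =>
      (∫ h in (0 : ℝ)..(p.1 / 2), Real.cos (p.2 * h)) - ∫ h in (0 : ℝ)..(-(p.1 / 2)), Real.cos (p.2 * h) := by
    funext p
    unfold sl
    have hi : ∀ a b : ℝ, IntervalIntegrable (fun h => Real.cos (p.2 * h)) volume a b := fun a b =>
      (Real.continuous_cos.comp (continuous_const.mul continuous_id)).intervalIntegrable a b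
    rw [intervalIntegral.integral_interval_sub_left (hi _ _) (hi _ _)]
  rw [h3]
  exact h1.sub h2

theorem qq_nonneg {w : ℝ} (hw : 0 ≤ w) : 0 ≤ qq w := by
  unfold qq
  positivity

/-- `|sin (w/2)| ≤ w/2` -/
theorem qq_le_inv {w : ℝ} (hw : 0 < w) : qq w ≤ 1 / w := by
  unfold qq
  have h1 : Real.sin (w / 2) ^ 2 ≤ (w / 2) ^ 2 := Real.sin_sq_le_sq
  rw [div_le_div_iff₀ (by positivity) hw]
  nlinarith

theorem qq_le_cube {w : ℝ} (hw : 0 < w) : qq w ≤ 4 / w ^ 3 := by
  unfold qq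
  have h1 : Real.sin (w / 2) ^ 2 ≤ 1 := Real.sin_sq_le_one _
  exact div_le_div_of_nonneg_right (by linarith) (by positivity)

theorem qq_meas : Measurable qq := by
  unfold qq
  exact ((measurable_const.mul ((Real.measurable_sin.comp (measurable_id.div_const 2)).pow_const 2))).div
    (measurable_id.pow_const 3)

theorem qq_cont : ContinuousOn qq (Ioi 0) := by
  unfold qq
  refine ContinuousOn.div ?_ (continuous_id.pow 3).continuousOn fun w hw => ?_
  · exact (continuous_const.mul ((Real.continuous_sin.comp (continuous_id.div_const 2)).pow 2)).continuousOn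
  · have : (0 : ℝ) < w := hw
    exact pow_ne_zero 3 this.ne'

theorem Elem_sqrt_rpow {w : ℝ} : √w = w ^ (1 / 2 : ℝ) := Real.sqrt_eq_rpow w

/-- `qq w (√w + w √w) ≤ w^(-1/2) + w^(1/2)` on `(0, 1]` and `≤ 4 (w^(-5/2) + w^(-3/2))` on `[1, ∞)`. -/
theorem qq_int : IntegrableOn (fun w : ℝ => qq w * (√w + w * √w)) (Ioi 0) := by
  have hm : Measurable (fun w : ℝ => qq w * (√w + w * √w)) :=
    qq_meas.mul (Real.continuous_sqrt.measurable.add (measurable_id.mul Real.continuous_sqrt.measurable))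
  have hu : Ioi (0 : ℝ) = Ioc 0 1 ∪ Ioi 1 := (Ioc_union_Ioi_eq_Ioi zero_le_one).symm
  rw [hu]
  refine IntegrableOn.union ?_ ?_
  · have h1 : IntegrableOn (fun w : ℝ => w ^ (-(1 / 2) : ℝ) + w ^ (1 / 2 : ℝ)) (Ioc 0 1) := by
      have e1 := (intervalIntegral.intervalIntegrable_rpow' (a := 0) (b := 1) (r := -(1 / 2)) (by norm_num))
      have e2 := (intervalIntegral.intervalIntegrable_rpow' (a := 0) (b := 1) (r := 1 / 2) (by norm_num))
      exact ((intervalIntegrable_iff_integrableOn_Ioc_of_le zero_le_one).1 e1).add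
        ((intervalIntegrable_iff_integrableOn_Ioc_of_le zero_le_one).1 e2)
    refine Integrable.mono' h1 hm.aestronglyMeasurable ?_
    filter_upwards [ae_restrict_mem measurableSet_Ioc] with w hw
    have hw0 : 0 < w := hw.1
    have h2 := qq_le_inv hw0
    have h3 := qq_nonneg hw0.le
    rw [Real.norm_of_nonneg (by positivity)]
    have e1 : w ^ (-(1 / 2) : ℝ) = 1 / w * √w := by
      have e0 : 1 / w = w ^ (-1 : ℝ) := by rw [Real.rpow_neg_one, one_div]
      rw [Elem_sqrt_rpow, e0, ← Real.rpow_add hw0]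
      norm_num
    have e2 : w ^ (1 / 2 : ℝ) = 1 / w * (w * √w) := by
      rw [← Elem_sqrt_rpow]
      field_simp
    rw [e1, e2, ← mul_add]
    exact mul_le_mul_of_nonneg_right h2 (by positivity)
  · have h1 : IntegrableOn (fun w : ℝ => 4 * (w ^ (-(5 / 2) : ℝ) + w ^ (-(3 / 2) : ℝ))) (Ioi 1) :=
      ((integrableOn_Ioi_rpow_of_lt (by norm_num) one_pos).add
        (integrableOn_Ioi_rpow_of_lt (by norm_num) one_pos)).const_mul 4
    refine Integrable.mono' h1 hm.aestronglyMeasurable ?_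
    filter_upwards [ae_restrict_mem measurableSet_Ioi] with w hw
    have hw0 : 0 < w := lt_trans one_pos hw
    have h2 := qq_le_cube hw0
    have h3 := qq_nonneg hw0.le
    rw [Real.norm_of_nonneg (by positivity)]
    have e0 : (w ^ 3)⁻¹ = w ^ (-3 : ℝ) := by
      rw [Real.rpow_neg hw0.le]
      norm_cast
    have e1 : w ^ (-(5 / 2) : ℝ) = (w ^ 3)⁻¹ * √w := by
      rw [Elem_sqrt_rpow, e0, ← Real.rpow_add hw0]
      norm_num
    have e2 : w ^ (-(3 / 2) : ℝ) = (w ^ 3)⁻¹ * (w * √w) := by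
      rw [Elem_sqrt_rpow, e0]
      nth_rewrite 3 [← Real.rpow_one w]
      rw [← Real.rpow_add hw0, ← Real.rpow_add hw0]
      norm_num
    rw [e1, e2, ← mul_add, ← mul_assoc, ← div_eq_mul_inv]
    exact mul_le_mul_of_nonneg_right h2 (by positivity)

/-- `w ≤ √w + w √w` (AM-GM: `2 w ≤ √w + w √w`). -/
theorem qq_w_int : IntegrableOn (fun w : ℝ => qq w * w) (Ioi 0) := by
  refine Integrable.mono' qq_int (qq_meas.mul measurable_id).aestronglyMeasurable ?_
  filter_upwards [ae_restrict_mem measurableSet_Ioi] with w hw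
  have hw0 : 0 < w := hw
  have h3 := qq_nonneg hw0.le
  rw [Real.norm_of_nonneg (by positivity)]
  refine mul_le_mul_of_nonneg_left ?_ h3
  have h4 : √w * √w = w := Real.mul_self_sqrt hw0.le
  have h5 : 0 < √w := Real.sqrt_pos.2 hw0
  nlinarith [mul_nonneg h5.le (sq_nonneg (√w - 1))]

end Pool.Agent.Lib.MP_2a816b_nt.PV
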