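import Pool.Agent.Lib.MP_2a816b_nt.PV.Defs

/-!
# JOB FMean (about 100 lines): lower bound in the mean for `FF`
-/

open Complex Set Filter Topology MeasureTheory

namespace Pool.Agent.Lib.MP_2a816b_nt.PV

open Pool.Agent.Lib.MP_00e05b_nt Pool.Agent.Lib.MP_00e05b_nt.Mont

/-- integration by parts -/
private theorem FMean_parts {T A : ℝ} (hT : 0 < T) (hA : 1 < A) :
    ∫ α in (1 : ℝ)..A, (FF α T - 1) * (1 - α / A) = (1 / A) * ∫ y in (1 : ℝ)..A, ∫ α in (1 : ℝ)..y, (FF α T - 1) := by
  have hc : Continuous (fun α => FF α T - 1) := (FF_continuous hT).sub continuous_const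
  have hA0 : A ≠ 0 := by positivity
  have h1 := intervalIntegral.integral_mul_deriv_eq_deriv_mul (a := 1) (b := A)
    (u := fun y : ℝ => 1 - y / A) (u' := fun _ => -(1 / A))
    (v := fun y => ∫ α in (1 : ℝ)..y, (FF α T - 1)) (v' := fun y => FF y T - 1)
    (fun x _ => by
      have := ((hasDerivAt_id x).div_const A).const_sub 1
      simpa using this)
    (fun x _ => (hc.integral_hasStrictDerivAt 1 x).hasDerivAt)
    (continuous_const.intervalIntegrable _ _) (hc.intervalIntegrable _ _)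
  simp only [div_self hA0, sub_self, zero_mul, intervalIntegral.integral_same, mul_zero, zero_sub, neg_mul,
    intervalIntegral.integral_neg, neg_neg, intervalIntegral.integral_const_mul] at h1
  rw [← h1]
  congr 1
  funext α
  ring

/-- the mean of the primitive is almost nonnegative -/
private theorem FMean_mean (hRH : RiemannHypothesis) {A : ℝ} (hA : 1 < A) {ε : ℝ} (hε : 0 < ε) :
    ∀ᶠ T : ℝ in atTop, A * (A / 2 * (Nstar T / N0 T - 1)) - 1 / 6 - A * ε ≤
      ∫ y in (1 : ℝ)..A, ∫ α in (1 : ℝ)..y, (FF α T - 1) := by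
  have hA0 : 0 < A := by positivity
  filter_upwards [key_lower hRH hA ε hε, eventually_gt_atTop (1 : ℝ)] with T h1 hT
  rw [FMean_parts (by linarith) hA, one_div_mul_eq_div, le_div_iff₀ hA0] at h1
  have e : (A / 2 * (Nstar T / N0 T - 1) - 1 / (6 * A) - ε) * A = A * (A / 2 * (Nstar T / N0 T - 1)) - 1 / 6 - A * ε := by
    field_simp
  linarith

private theorem FMean_sub {T a y : ℝ} (hT : 0 < T) :
    ∫ α in a..y, (FF α T - 1) = (∫ α in a..y, FF α T) - (y - a) := by
  rw [intervalIntegral.integral_sub ((FF_continuous hT).intervalIntegrable _ _) (by simp),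
    intervalIntegral.integral_const, smul_eq_mul, mul_one]

private theorem FMean_lin (A : ℝ) : ∫ y in (1 : ℝ)..A, (y - 1) = (A - 1) ^ 2 / 2 := by
  have h1 : IntervalIntegrable (fun y : ℝ => y) volume 1 A := continuous_id.intervalIntegrable _ _
  have h2 : IntervalIntegrable (fun _ : ℝ => (1 : ℝ)) volume 1 A := by simp
  rw [intervalIntegral.integral_sub h1 h2, integral_id, intervalIntegral.integral_const, smul_eq_mul, mul_one]
  ring

/-- `T1B_mean`, `T1B_parts`, `T1B_sub` (private in MP_00e05b_nt/Mont/T1B.lean; copy): `key_lower` and integration by parts, and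
`Nstar ≥ NN`, `NN/N0 → 1` (`NN_le_Nstar`, `count_tendsto`) make the term with `Nstar` `≥ -ε/2`. -/
theorem F_mean (hRH : RiemannHypothesis) {A ε : ℝ} (hA : 1 < A) (hε : 0 < ε) :
    ∀ᶠ t : ℝ in atTop, (A - 1) ^ 2 / 2 - 1 / 6 - ε ≤ ∫ y in (1 : ℝ)..A, ∫ α in (1 : ℝ)..y, FF α t := by
  have hcnt := count_tendsto hRH
  have hA0 : 0 < A := by linarith
  obtain ⟨δ, hδ, hδ1⟩ : ∃ δ : ℝ, 0 < δ ∧ δ * (A ^ 2 / 2 + A) ≤ ε := by
    refine ⟨ε / (A ^ 2 / 2 + A), by positivity, ?_⟩
    rw [div_mul_cancel₀ _ (by positivity)]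
  filter_upwards [FMean_mean hRH hA hδ, hcnt.eventually (le_mem_nhds (show 1 - δ < 1 by linarith)),
    eventually_gt_atTop (1 : ℝ)] with T h1 h2 hT
  have hT0 : 0 < T := by linarith
  have hN0 : 0 < N0 T := N0_pos hT
  have h3 : NN T / N0 T ≤ Nstar T / N0 T := by
    have := NN_le_Nstar T
    gcongr
  have h4 : A * (A / 2 * (-δ)) ≤ A * (A / 2 * (Nstar T / N0 T - 1)) := by
    have : -δ ≤ Nstar T / N0 T - 1 := by linarith
    gcongr
  have hc : Continuous (fun α => FF α T) := FF_continuous hT0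
  have hcP : Continuous (fun y => ∫ α in (1 : ℝ)..y, FF α T) :=
    intervalIntegral.continuous_primitive (fun a b => hc.intervalIntegrable a b) 1
  have h5 : (∫ y in (1 : ℝ)..A, ∫ α in (1 : ℝ)..y, (FF α T - 1)) =
      (∫ y in (1 : ℝ)..A, ∫ α in (1 : ℝ)..y, FF α T) - (A - 1) ^ 2 / 2 := by
    have h6 : (fun y : ℝ => ∫ α in (1 : ℝ)..y, (FF α T - 1)) = fun y => (∫ α in (1 : ℝ)..y, FF α T) - (y - 1) := by
      funext y
      exact FMean_sub hT0
    have h8 : IntervalIntegrable (fun y : ℝ => y - 1) volume 1 A :=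
      (continuous_id.sub continuous_const).intervalIntegrable _ _
    rw [h6, intervalIntegral.integral_sub (hcP.intervalIntegrable _ _) h8, FMean_lin]
  have h7 : A * (A / 2 * (-δ)) - A * δ = -(δ * (A ^ 2 / 2 + A)) := by ring
  linarith

end Pool.Agent.Lib.MP_2a816b_nt.PV
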