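import Pool.Agent.Lib.MP_2a816b_nt.PV.Defs

/-!
# JOB FOne (about 120 lines): `FF` near `1`
-/

open Complex Set Filter Topology MeasureTheory

namespace Pool.Agent.Lib.MP_2a816b_nt.PV

open Pool.Agent.Lib.MP_00e05b_nt Pool.Agent.Lib.MP_00e05b_nt.Mont

/-- `FF_peak` (BasB.lean): `FF (1 + x) t ≤ e^(2 |x| ℓ) FF 1 t`, `ℓ = log t` (apply it at `1 + x` with shift `-x`), and
`FF 1 t ≤ e² FF β t` for `|β - 1| ≤ 1/ℓ`. So `(1/ℓ) FF 1 t ≤ e² ∫_{1 - 1/ℓ}^1 FF ≤ e² ∫_x^1 FF` for every fixed `x < 1`, and
`∫_x^1 FF → (1 - x²)/2` (`FF_mass`, `FF_even`); `x → 1`: `FF 1 t = o(ℓ)`. Then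
`∫_{1 - M/ℓ}^{1 + M/ℓ} FF ≤ (2M/ℓ) e^(2M) FF 1 t → 0`. -/
theorem F_one (hRH : RiemannHypothesis) {M : ℝ} (hM : 0 ≤ M) :
    Tendsto (fun t : ℝ => ∫ α in (1 - M / Real.log t)..(1 + M / Real.log t), FF α t) atTop (𝓝 0) := by
  set K : ℝ := 2 * M * Real.exp (2 * M) * Real.exp 2 with hK
  have hK0 : 0 ≤ K := by positivity
  have hlog := Real.tendsto_log_atTop
  have hJ : ∀ x : ℝ, 0 < x → x < 1 →
      Tendsto (fun t : ℝ => ∫ α in x..1, FF α t) atTop (𝓝 ((1 - x ^ 2) / 2)) := by
    intro x hx0 hx1
    have h1 := FF_mass hRH one_pos le_rfl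
    have h2 := FF_mass hRH hx0 hx1.le
    have h3 := (h1.sub h2).div_const 2
    have e : ((1 : ℝ) + 1 ^ 2 - (1 + x ^ 2)) / 2 = (1 - x ^ 2) / 2 := by ring
    rw [e] at h3
    refine h3.congr' ?_
    filter_upwards [eventually_gt_atTop 1] with t ht
    have ht0 : 0 < t := by linarith
    have hc := FF_continuous ht0
    have i : ∀ a b, IntervalIntegrable (fun α => FF α t) volume a b :=
      fun a b => hc.intervalIntegrable a b
    have s1 := intervalIntegral.integral_add_adjacent_intervals (i (-1) (-x)) (i (-x) x)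
    have s2 := intervalIntegral.integral_add_adjacent_intervals (i (-1) x) (i x 1)
    have s3 : ∫ α in (-1 : ℝ)..(-x), FF α t = ∫ α in x..1, FF α t := by
      rw [← intervalIntegral.integral_comp_neg]
      exact intervalIntegral.integral_congr fun α _ => FF_even ht0 α
    rw [← s2, ← s1, s3]
    ring
  have hbd : ∀ x : ℝ, 0 < x → x < 1 → ∀ᶠ t : ℝ in atTop,
      (∫ α in (1 - M / Real.log t)..(1 + M / Real.log t), FF α t) ≤ K * ∫ α in x..1, FF α t := by
    intro x hx0 hx1
    filter_upwards [eventually_gt_atTop 1, hlog.eventually_ge_atTop (1 / (1 - x))] with t ht hl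
    have ht0 : 0 < t := by linarith
    have hl0 : 0 < Real.log t := Real.log_pos ht
    have hF1 : 0 ≤ FF 1 t := FF_nonneg ht 1
    have hinv : 1 / Real.log t ≤ 1 - x := by
      have h1x : 0 < 1 - x := by linarith
      rw [div_le_iff₀ h1x] at hl
      rw [div_le_iff₀ hl0]
      linarith
    have hc := FF_continuous ht0
    have i : ∀ a b, IntervalIntegrable (fun α => FF α t) volume a b :=
      fun a b => hc.intervalIntegrable a b
    have hlow : Real.exp (-2) * FF 1 t * (1 / Real.log t) ≤
        ∫ α in (1 - 1 / Real.log t)..1, FF α t := by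
      have h1 : ∫ _ in (1 - 1 / Real.log t)..1, Real.exp (-2) * FF 1 t =
          Real.exp (-2) * FF 1 t * (1 / Real.log t) := by
        rw [intervalIntegral.integral_const, smul_eq_mul]
        ring
      rw [← h1]
      refine intervalIntegral.integral_mono_on (by linarith [one_div_pos.2 hl0])
        (intervalIntegrable_const) (i _ _) fun α hα => ?_
      have h2 := FF_peak ht 1 (α - 1)
      rw [add_sub_cancel] at h2
      refine le_trans (mul_le_mul_of_nonneg_right (Real.exp_le_exp.2 ?_) hF1) h2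
      have h3 : |α - 1| ≤ 1 / Real.log t := by
        rw [abs_le]
        constructor <;> linarith [hα.1, hα.2, one_div_pos.2 hl0]
      have h4 : |α - 1| * Real.log t ≤ 1 := by
        rwa [le_div_iff₀ hl0] at h3
      linarith
    have hsub : ∫ α in (1 - 1 / Real.log t)..1, FF α t ≤ ∫ α in x..1, FF α t := by
      have s1 := intervalIntegral.integral_add_adjacent_intervals (i x (1 - 1 / Real.log t))
        (i (1 - 1 / Real.log t) 1)
      have s2 : 0 ≤ ∫ α in x..(1 - 1 / Real.log t), FF α t :=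
        intervalIntegral.integral_nonneg (by linarith) fun α _ => FF_nonneg ht α
      linarith
    have hML : 0 ≤ M / Real.log t := by positivity
    have hup : (∫ α in (1 - M / Real.log t)..(1 + M / Real.log t), FF α t) ≤
        Real.exp (2 * M) * FF 1 t * (2 * (M / Real.log t)) := by
      have h1 : ∫ _ in (1 - M / Real.log t)..(1 + M / Real.log t), Real.exp (2 * M) * FF 1 t =
          Real.exp (2 * M) * FF 1 t * (2 * (M / Real.log t)) := by
        rw [intervalIntegral.integral_const, smul_eq_mul]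
        ring
      rw [← h1]
      refine intervalIntegral.integral_mono_on (by linarith) (i _ _)
        (intervalIntegrable_const) fun α hα => ?_
      have h2 := FF_peak ht α (1 - α)
      rw [add_sub_cancel] at h2
      have h3 : |1 - α| ≤ M / Real.log t := by
        rw [abs_le]
        constructor <;> linarith [hα.1, hα.2]
      have h4 : |1 - α| * Real.log t ≤ M := by
        rwa [le_div_iff₀ hl0] at h3
      have h5 : Real.exp (-(2 * M)) * FF α t ≤ FF 1 t := by
        refine le_trans (mul_le_mul_of_nonneg_right (Real.exp_le_exp.2 ?_) (FF_nonneg ht α)) h2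
        linarith
      calc FF α t = Real.exp (2 * M) * (Real.exp (-(2 * M)) * FF α t) := by
            rw [← mul_assoc, ← Real.exp_add, add_neg_cancel, Real.exp_zero, one_mul]
        _ ≤ Real.exp (2 * M) * FF 1 t := mul_le_mul_of_nonneg_left h5 (Real.exp_pos _).le
    have h6 : Real.exp (2 * M) * FF 1 t * (2 * (M / Real.log t)) =
        K * (Real.exp (-2) * FF 1 t * (1 / Real.log t)) := by
      rw [hK]
      have h7 : Real.exp 2 * Real.exp (-2) = 1 := by
        rw [← Real.exp_add, add_neg_cancel, Real.exp_zero]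
      linear_combination (-(Real.exp (2 * M) * FF 1 t * (2 * (M / Real.log t)))) * h7
    calc (∫ α in (1 - M / Real.log t)..(1 + M / Real.log t), FF α t)
        ≤ K * (Real.exp (-2) * FF 1 t * (1 / Real.log t)) := by rw [← h6]; exact hup
      _ ≤ K * ∫ α in x..1, FF α t := mul_le_mul_of_nonneg_left (hlow.trans hsub) hK0
  rw [Metric.tendsto_nhds]
  intro ε hε
  set δ : ℝ := min (1 / 2) (ε / (2 * (K + 1))) with hδ
  have hδ0 : 0 < δ := lt_min (by norm_num) (by positivity)
  have hδ1 : δ ≤ 1 / 2 := min_le_left _ _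
  have hδ2 : δ ≤ ε / (2 * (K + 1)) := min_le_right _ _
  have hKδ : K * ((1 - (1 - δ) ^ 2) / 2) < ε := by
    have h1 : (1 - (1 - δ) ^ 2) / 2 ≤ δ := by nlinarith
    have h2 : δ * (2 * (K + 1)) ≤ ε := by rwa [le_div_iff₀ (by positivity)] at hδ2
    nlinarith [mul_le_mul_of_nonneg_left h1 hK0]
  have h1 := (hJ (1 - δ) (by linarith) (by linarith)).const_mul K
  filter_upwards [h1.eventually_lt_const hKδ, hbd (1 - δ) (by linarith) (by linarith),
    eventually_gt_atTop 1] with t h2 h3 ht
  have hl0 : 0 < Real.log t := Real.log_pos ht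
  have hML : 0 ≤ M / Real.log t := by positivity
  have h4 : 0 ≤ ∫ α in (1 - M / Real.log t)..(1 + M / Real.log t), FF α t :=
    intervalIntegral.integral_nonneg (by linarith) fun α _ => FF_nonneg ht α
  rw [Real.dist_eq, sub_zero, abs_of_nonneg h4]
  linarith

end Pool.Agent.Lib.MP_2a816b_nt.PV
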