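import Pool.Agent.Lib.MP_2a816b_nt.PV.ACQS
import Pool.Agent.Lib.MP_2a816b_nt.PV.FFQS
import Pool.Agent.Lib.MP_2a816b_nt.PV.MassBd
import Pool.Agent.Lib.MP_2a816b_nt.PV.FOne
import Pool.Agent.Lib.MP_2a816b_nt.PV.SLow

/-!
# JOB Fend (about 180 lines): the end point `1`
-/

open Complex Set Filter Topology MeasureTheory

namespace Pool.Agent.Lib.MP_2a816b_nt.PV

open Pool.Agent.Lib.MP_00e05b_nt Pool.Agent.Lib.MP_00e05b_nt.Mont

lemma Fend_qq_ii : IntervalIntegrable qq volume 1 2 := by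
  refine ContinuousOn.intervalIntegrable ?_
  rw [uIcc_of_le (by norm_num)]
  exact qq_cont.mono fun x hx => lt_of_lt_of_le one_pos hx.1

lemma Fend_Q_pos : 0 < ∫ w in (1 : ℝ)..2, qq w := by
  refine intervalIntegral.intervalIntegral_pos_of_pos_on Fend_qq_ii ?_ (by norm_num)
  intro w hw
  have h1 : 0 < w := by linarith [hw.1]
  have h2 : 0 < Real.sin (w / 2) := by
    refine Real.sin_pos_of_pos_of_lt_pi (by linarith) ?_
    have := Real.pi_gt_three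
    linarith [hw.2]
  unfold qq
  positivity

lemma Fend_Mq (hRH : RiemannHypothesis) {W : ℝ → ℝ} (hW : EB W (1 / 8)) {c1 c2 τ : ℝ} (hc : c1 ≤ c2) (hτ : 0 ≤ τ) :
    (∫ w in (1 : ℝ)..2, qq w) * AC W c1 c2 τ ≤ Mq W c1 c2 τ := by
  have hii := Mq_ii hRH hW.es (by norm_num : (1 / 8 : ℝ) ≤ 3 / 4) (c1 := c1) (c2 := c2) hτ
  have hnn : 0 ≤ᵐ[volume.restrict (Ioi (0 : ℝ))] fun w : ℝ => qq w * AC W c1 c2 (w * τ) := by
    refine (ae_restrict_iff' measurableSet_Ioi).2 (Eventually.of_forall fun w hw => ?_)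
    have hw' : 0 < w := hw
    exact mul_nonneg (qq_nonneg hw'.le) (AC_nonneg W hc (mul_nonneg hw'.le hτ))
  have hsub : Ioc (1 : ℝ) 2 ⊆ Ioi 0 := fun x hx => lt_trans one_pos hx.1
  have h1 := setIntegral_mono_set hii hnn hsub.eventuallyLE
  unfold Mq
  refine le_trans ?_ h1
  rw [← intervalIntegral.integral_mul_const, intervalIntegral.integral_of_le (by norm_num)]
  refine setIntegral_mono_on ?_ (hii.mono_set hsub) measurableSet_Ioc fun w hw => ?_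
  · have := Fend_qq_ii.mul_const (AC W c1 c2 τ)
    rwa [intervalIntegrable_iff_integrableOn_Ioc_of_le (by norm_num)] at this
  · have hw1 : 1 < w := hw.1
    refine mul_le_mul_of_nonneg_left ?_ (qq_nonneg (by linarith))
    refine AC_mono hW.es (by norm_num) hc ?_
    nlinarith

lemma Fend_QS_mono (t : ℝ) {a b c d : ℝ} (h1 : c ≤ a) (h2 : a ≤ b) (h3 : b ≤ d) : QS t a b ≤ QS t c d := by
  unfold QS
  refine intervalIntegral.integral_mono_interval (μ := volume) h1 h2 h3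
    (Eventually.of_forall fun u => sq_nonneg _) ?_
  exact (((continuous_SS t).norm).pow 2).intervalIntegrable _ _

/-- the algebra for fixed `t` -/
lemma Fend_core (hRH : RiemannHypothesis) {W : ℝ → ℝ} (hW : EB W (1 / 8)) {C1 C2 m δ t : ℝ}
    (hC1 : 0 ≤ C1) (hC2 : 0 ≤ C2) (hδ : 0 < δ) (hδ4 : δ ≤ 1 / 4) (hm : 0 ≤ m) (hmδ : Real.exp (-(2 * m)) = δ) (ht : 2 ≤ t)
    (hℓ : m + 17 / 8 ≤ δ * Real.log t)
    (hAC : ∀ c1 c2 : ℝ, c1 ≤ c2 →
      2 * Real.pi * II W * QS t (c1 + 1 / 8) (c2 - 1 / 8) - C1 * (c2 - c1) * Real.log t ^ 3 ≤ AC W c1 c2 t)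
    (hS : (1 - δ) * ((Real.pi * (2 * t * Real.log (2 * t) ^ 2) * II W)⁻¹ *
        Mq W (1 * Real.log (2 * t) + 1) ((1 + 3 * δ - δ) * Real.log (2 * t) - 2) (1 / 2 * (2 * t))) - δ ≤ 4 * δ)
    (hmass : ∀ x y : ℝ, x ≤ y → ∫ α in x..y, FF α t ≤ C2 * (y - x + 1))
    (hone : ∫ α in (1 - (Real.log 2 + 9 / 8 + m) / Real.log t)..(1 + (Real.log 2 + 9 / 8 + m) / Real.log t), FF α t ≤ δ)
    (herr : 2 * C1 * (II W)⁻¹ * (Real.log t ^ 2 / t) ≤ δ) :
    ∫ α in (1 : ℝ)..(1 + δ), FF α t ≤ (2 + 54 * Real.pi / (∫ w in (1 : ℝ)..2, qq w) + 3 * C2) * δ := by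
  set ℓ := Real.log t with hℓdef
  set L := Real.log (2 * t) with hLdef
  set Q := ∫ w in (1 : ℝ)..2, qq w with hQdef
  have hQ : 0 < Q := Fend_Q_pos
  have hII : 0 < II W := II_pos hW (by norm_num)
  have ht0 : 0 < t := by linarith
  have hℓ0 : 0 < ℓ := Real.log_pos (by linarith)
  have hLe : L = Real.log 2 + ℓ := by rw [hLdef, Real.log_mul (by norm_num) ht0.ne']
  have hlog2 : 0 < Real.log 2 := Real.log_pos (by norm_num)
  have hlog2' : Real.log 2 ≤ 1 := by linarith [Real.log_two_lt_d9]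
  have hlog2ℓ : Real.log 2 ≤ ℓ := Real.log_le_log (by norm_num) ht
  have hL0 : 0 < L := by linarith
  have hL2 : L ≤ 2 * ℓ := by linarith
  have hδL : δ * ℓ ≤ δ * L := mul_le_mul_of_nonneg_left (by linarith) hδ.le
  have hpi := Real.pi_pos
  set c1 := L + 1 with hc1
  set c2 := (1 + 2 * δ) * L - 2 with hc2
  have hcc : c1 ≤ c2 := by rw [hc1, hc2]; nlinarith
  rw [show (1 + 3 * δ - δ) = 1 + 2 * δ by ring, show 1 / 2 * (2 * t) = t by ring, one_mul, ← hc1, ← hc2] at hS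
  set A := AC W c1 c2 t with hA
  have hA0 : 0 ≤ A := AC_nonneg W hcc ht0.le
  have hMq : Q * A ≤ Mq W c1 c2 t := Fend_Mq hRH hW hcc ht0.le
  -- bound of A
  have hP : 0 < Real.pi * (2 * t * L ^ 2) * II W := by positivity
  have hA1 : Q * A ≤ 20 / 3 * δ * (Real.pi * (2 * t * L ^ 2) * II W) := by
    refine hMq.trans ?_
    have h1 : (1 - δ) * ((Real.pi * (2 * t * L ^ 2) * II W)⁻¹ * Mq W c1 c2 t) ≤ 5 * δ := by linarith
    have h2 : 0 ≤ Mq W c1 c2 t := le_trans (by positivity) hMq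
    have h3 : (3 / 4) * ((Real.pi * (2 * t * L ^ 2) * II W)⁻¹ * Mq W c1 c2 t) ≤ 5 * δ := by
      refine le_trans (mul_le_mul_of_nonneg_right (by linarith) ?_) h1
      positivity
    have h4 : (Real.pi * (2 * t * L ^ 2) * II W)⁻¹ * Mq W c1 c2 t ≤ 20 / 3 * δ := by linarith
    rw [inv_mul_le_iff₀ hP] at h4
    linarith
  -- the points x, y
  set M := Real.log 2 + 9 / 8 + m with hM
  have hM0 : 0 < M := by positivity
  set x := 1 + M / ℓ with hx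
  have hx1 : 1 ≤ x := by
    have : 0 ≤ M / ℓ := by positivity
    linarith
  have hxy : x ≤ 1 + δ := by
    have : M / ℓ ≤ δ := by
      rw [div_le_iff₀ hℓ0]
      linarith
    linarith
  have hFc : Continuous fun α => FF α t := FF_continuous ht0
  have hFii : ∀ a b : ℝ, IntervalIntegrable (fun α => FF α t) volume a b := fun a b => hFc.intervalIntegrable _ _
  have hF0 : ∀ α, 0 ≤ FF α t := FF_nonneg (by linarith)
  -- first part
  have hpart1 : ∫ α in (1 : ℝ)..x, FF α t ≤ δ := by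
    refine le_trans ?_ hone
    refine intervalIntegral.integral_mono_interval (μ := volume) ?_ hx1 le_rfl
      (Eventually.of_forall fun u => hF0 u) (hFii _ _)
    have : 0 ≤ M / ℓ := by positivity
    linarith
  -- second part
  set F := ∫ α in x..(1 + δ), FF α t with hF
  have hQS := QS_ge (t := t) (by linarith) hxy hm
  have e1 : x * ℓ - m = c1 + 1 / 8 := by
    rw [hx, hc1, hLe, hM]
    field_simp
    ring
  rw [← hℓdef, e1, hmδ, ← hF] at hQS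
  have hI1 := hmass (x + m / ℓ) ((1 + δ) + m / ℓ) (by linarith)
  have hI2 := hmass (x - m / ℓ) ((1 + δ) - m / ℓ) (by linarith)
  have hI1' : ∫ α in (x + m / ℓ)..(1 + δ + m / ℓ), FF α t ≤ 5 / 4 * C2 := by
    refine hI1.trans ?_
    have : C2 * (1 + δ + m / ℓ - (x + m / ℓ) + 1) ≤ C2 * (5 / 4) :=
      mul_le_mul_of_nonneg_left (by linarith) hC2
    linarith
  have hI2' : ∫ α in (x - m / ℓ)..(1 + δ - m / ℓ), FF α t ≤ 5 / 4 * C2 := by
    refine hI2.trans ?_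
    have : C2 * (1 + δ - m / ℓ - (x - m / ℓ) + 1) ≤ C2 * (5 / 4) :=
      mul_le_mul_of_nonneg_left (by linarith) hC2
    linarith
  have hy : (1 + δ) * ℓ + m ≤ c2 - 1 / 8 := by
    rw [hc2]
    have : (1 + 2 * δ) * ℓ ≤ (1 + 2 * δ) * L := mul_le_mul_of_nonneg_left (by linarith) (by linarith)
    linarith
  have hyx : c1 + 1 / 8 ≤ (1 + δ) * ℓ + m := by
    rw [← e1]
    have : x * ℓ ≤ (1 + δ) * ℓ := mul_le_mul_of_nonneg_right hxy hℓ0.le
    linarith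
  have hQS2 : QS t (c1 + 1 / 8) ((1 + δ) * ℓ + m) ≤ QS t (c1 + 1 / 8) (c2 - 1 / 8) :=
    Fend_QS_mono t le_rfl hyx hy
  have hN : N0 t * ℓ = t * ℓ ^ 2 / (2 * Real.pi) := by
    unfold N0
    rw [← hℓdef]
    ring
  have hAC' := hAC c1 c2 hcc
  rw [← hA] at hAC'
  have hN0 : 0 < t * ℓ ^ 2 := by positivity
  have hcc2 : c2 - c1 ≤ 2 * ℓ := by
    rw [hc1, hc2]
    nlinarith
  -- t ℓ² F ≤ (A + C1 (c2 - c1) ℓ³)/II + δ t ℓ² (5/2) C2
  have hkey : t * ℓ ^ 2 * F ≤ (A + C1 * (2 * ℓ) * ℓ ^ 3) / II W + t * ℓ ^ 2 * (δ * (5 / 2 * C2)) := by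
    rw [hN] at hQS
    have h1 : t * ℓ ^ 2 / (2 * Real.pi) * F ≤ QS t (c1 + 1 / 8) (c2 - 1 / 8) +
        δ * (t * ℓ ^ 2 / (2 * Real.pi)) * (5 / 2 * C2) := by
      refine hQS.trans (add_le_add hQS2 (mul_le_mul_of_nonneg_left ?_ (by positivity)))
      linarith
    have h2 : C1 * (c2 - c1) * ℓ ^ 3 ≤ C1 * (2 * ℓ) * ℓ ^ 3 :=
      mul_le_mul_of_nonneg_right (mul_le_mul_of_nonneg_left hcc2 hC1) (by positivity)
    have h3 : 2 * Real.pi * II W * QS t (c1 + 1 / 8) (c2 - 1 / 8) ≤ A + C1 * (2 * ℓ) * ℓ ^ 3 := by linarith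
    have h4 : 2 * Real.pi * QS t (c1 + 1 / 8) (c2 - 1 / 8) ≤ (A + C1 * (2 * ℓ) * ℓ ^ 3) / II W := by
      rw [le_div_iff₀ hII]
      linarith
    have h5 := mul_le_mul_of_nonneg_left h1 (by positivity : 0 ≤ 2 * Real.pi)
    have h6 : 2 * Real.pi * (t * ℓ ^ 2 / (2 * Real.pi) * F) = t * ℓ ^ 2 * F := by field_simp
    have h7 : 2 * Real.pi * (QS t (c1 + 1 / 8) (c2 - 1 / 8) + δ * (t * ℓ ^ 2 / (2 * Real.pi)) * (5 / 2 * C2)) =
        2 * Real.pi * QS t (c1 + 1 / 8) (c2 - 1 / 8) + t * ℓ ^ 2 * (δ * (5 / 2 * C2)) := by field_simp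
    rw [h6, h7] at h5
    linarith
  -- A / II ≤ ...
  have hA2 : A / II W ≤ t * ℓ ^ 2 * (54 * Real.pi / Q * δ) := by
    rw [div_le_iff₀ hII]
    have h1 : A ≤ 20 / 3 * δ * (Real.pi * (2 * t * L ^ 2) * II W) / Q := by
      rw [le_div_iff₀ hQ]
      linarith
    refine h1.trans ?_
    have h2 : L ^ 2 ≤ 4 * ℓ ^ 2 := by nlinarith
    rw [div_le_iff₀ hQ]
    have h3 : t * ℓ ^ 2 * (54 * Real.pi / Q * δ) * II W * Q = 54 * (δ * Real.pi * t * II W) * ℓ ^ 2 := by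
      field_simp
    rw [h3]
    have h4 : 0 < δ * Real.pi * t * II W := by positivity
    nlinarith [mul_le_mul_of_nonneg_left h2 h4.le, mul_pos h4 (pow_pos hℓ0 2)]
  have hE2 : C1 * (2 * ℓ) * ℓ ^ 3 / II W ≤ t * ℓ ^ 2 * δ := by
    have h1 := mul_le_mul_of_nonneg_left herr hN0.le
    refine le_trans (le_of_eq ?_) h1
    field_simp
  have hFle : F ≤ 54 * Real.pi / Q * δ + δ + δ * (5 / 2 * C2) := by
    have h1 : t * ℓ ^ 2 * F ≤ t * ℓ ^ 2 * (54 * Real.pi / Q * δ + δ + δ * (5 / 2 * C2)) := by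
      rw [add_div] at hkey
      linarith
    exact le_of_mul_le_mul_left h1 hN0
  rw [← intervalIntegral.integral_add_adjacent_intervals (hFii 1 x) (hFii x (1 + δ)), ← hF]
  have : 0 ≤ δ * C2 := by positivity
  nlinarith

/-- `S_lower` with `a = 1`, `b = 1 + 3δ`, `ξ = 1/2`, `κ = δ`: `(1 - δ) (π T L² II)⁻¹ Mq W (L + 1) ((1 + 2δ) L - 2) (T/2) - δ ≤ ∫_1^{1 + 3δ} RR ≤ 4δ`
for large `T`. `Mq ≥ ∫_1^2 qq w AC (w T/2) dw ≥ AC W (L + 1) ((1 + 2δ) L - 2) (T/2) ∫_1^2 qq`, `∫_1^2 qq > 0`. Put `t = T/2`, `ℓ = log t`.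
`AC_QS`, `QS_ge` (`e^(-2m) ≤ δ`), `mass_bd`: with `x ℓ - m = L + 9/8`, `x ≤ 1 + M/ℓ`: `∫_x^{1 + δ} FF α t ≤ C δ`, and `∫_1^x FF ≤ δ` by `F_one`. -/
theorem F_end (hRH : RiemannHypothesis) {W : ℝ → ℝ} (hW : EB W (1 / 8))
    (hU : ∀ a b : ℝ, 1 ≤ a → a < b → Tendsto (fun T : ℝ => ∫ α in a..b, RR α T) atTop (𝓝 (b - a))) :
    ∃ C : ℝ, 0 ≤ C ∧ ∀ δ : ℝ, 0 < δ → δ ≤ 1 / 4 → ∀ᶠ t : ℝ in atTop, ∫ α in (1 : ℝ)..(1 + δ), FF α t ≤ C * δ := by
  obtain ⟨C1, hC1, hAC⟩ := AC_QS hRH hW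
  obtain ⟨C2, hC2, hmass⟩ := mass_bd hRH
  refine ⟨2 + 54 * Real.pi / (∫ w in (1 : ℝ)..2, qq w) + 3 * C2, ?_, fun δ hδ hδ4 => ?_⟩
  · have := Fend_Q_pos
    have := Real.pi_pos
    positivity
  set m := -Real.log δ / 2 with hm
  have hm0 : 0 ≤ m := by
    have := Real.log_nonpos hδ.le (by linarith)
    rw [hm]
    linarith
  have hmδ : Real.exp (-(2 * m)) = δ := by
    rw [hm, show -(2 * (-Real.log δ / 2)) = Real.log δ by ring, Real.exp_log hδ]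
  have t2 : Tendsto (fun t : ℝ => 2 * t) atTop atTop := tendsto_id.const_mul_atTop (by norm_num)
  have hS := t2.eventually (S_lower hRH hW (ξ := 1 / 2) (δ := δ) (κ := δ) (B := 1 + 3 * δ) (by norm_num) (by norm_num)
    hδ (by linarith) hδ (by linarith))
  have hU1 : ∀ᶠ T : ℝ in atTop, ∫ α in (1 : ℝ)..(1 + 3 * δ), RR α T < 4 * δ := by
    refine (hU 1 (1 + 3 * δ) le_rfl (by linarith)).eventually (gt_mem_nhds ?_)
    linarith
  have herr : ∀ᶠ t : ℝ in atTop, 2 * C1 * (II W)⁻¹ * (Real.log t ^ 2 / t) < δ := by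
    have h1 : Tendsto (fun t : ℝ => Real.log t ^ 2 / t) atTop (𝓝 0) :=
      (Real.isLittleO_pow_log_id_atTop (n := 2)).tendsto_div_nhds_zero
    have h2 := h1.const_mul (2 * C1 * (II W)⁻¹)
    rw [mul_zero] at h2
    exact h2.eventually (gt_mem_nhds hδ)
  have hone : ∀ᶠ t : ℝ in atTop, ∫ α in (1 - (Real.log 2 + 9 / 8 + m) / Real.log t)..
      (1 + (Real.log 2 + 9 / 8 + m) / Real.log t), FF α t < δ := by
    refine (F_one hRH ?_).eventually (gt_mem_nhds hδ)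
    have := Real.log_pos (show (1 : ℝ) < 2 by norm_num)
    positivity
  filter_upwards [hS, t2.eventually hU1, herr, hone, hmass, eventually_ge_atTop (2 : ℝ),
    Real.tendsto_log_atTop.eventually_ge_atTop ((m + 17 / 8) / δ)] with t h1 h2 h3 h4 h5 h6 h7
  refine Fend_core hRH hW hC1 hC2 hδ hδ4 hm0 hmδ h6 ?_ (fun c1 c2 hc => (hAC t h6 c1 c2 hc).1) ?_ h5 h4.le h3.le
  · rw [div_le_iff₀ hδ] at h7
    linarith
  · exact (h1 1 (1 + 3 * δ) le_rfl (by linarith) le_rfl).trans h2.le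

end Pool.Agent.Lib.MP_2a816b_nt.PV
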