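import Pool.Agent.Lib.MP_2a816b_nt.PV.Defs
import Pool.Agent.Lib.MP_00e05b_nt.Mont.EF

/-!
# JOB FtA (about 220 lines): the test function

`Gt W c t` is the function `EFg W t c` of `MP_00e05b_nt/Mont/EF.lean` (private there; copy the proofs of smoothness and support).
`gD W l c t v = P (v + l/2) - P (v - l/2)` for a primitive `P` of `Gt W c t`; its support is in `[c - s - l/2, c + s + l/2]`.
-/

open Complex Set Filter Topology MeasureTheory
open scoped ContDiff

namespace Pool.Agent.Lib.MP_2a816b_nt.PV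

open Pool.Agent.Lib.MP_00e05b_nt Pool.Agent.Lib.MP_00e05b_nt.Mont

theorem Gt_smooth {W : ℝ → ℝ} {s : ℝ} (hW : EB W s) (c t : ℝ) :
    ContDiff ℝ ∞ (Gt W c t) ∧ ∀ u, s ≤ |u - c| → Gt W c t u = 0 := by
  constructor
  · have hWs : ContDiff ℝ ∞ (fun u => W (u - c)) := hW.smooth.comp (contDiff_id.sub contDiff_const)
    have h1 : ContDiff ℝ ∞ (fun u : ℝ => W (u - c) * Real.exp (-(u / 2))) :=
      hWs.mul (Real.contDiff_exp.comp (contDiff_id.div_const 2).neg)
    have h2 : ContDiff ℝ ∞ (fun u : ℝ => ((W (u - c) * Real.exp (-(u / 2)) : ℝ) : ℂ)) :=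
      Complex.ofRealCLM.contDiff.comp h1
    have h3 : ContDiff ℝ ∞ (fun u : ℝ => (((-(t * u) : ℝ) : ℂ) * I)) :=
      (Complex.ofRealCLM.contDiff.comp (contDiff_const.mul contDiff_id).neg).mul contDiff_const
    exact h2.mul (Complex.contDiff_exp.comp h3)
  · intro u hu
    unfold Gt
    rw [hW.supp _ hu, zero_mul, Complex.ofReal_zero, zero_mul]

private theorem FtA_zero_lt {W : ℝ → ℝ} {s : ℝ} (hW : EB W s) {c t u : ℝ} (hu : u ≤ c - s) : Gt W c t u = 0 := by
  apply (Gt_smooth hW c t).2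
  rw [abs_sub_comm]
  exact le_trans (by linarith) (le_abs_self _)

private theorem FtA_zero_gt {W : ℝ → ℝ} {s : ℝ} (hW : EB W s) {c t u : ℝ} (hu : c + s ≤ u) : Gt W c t u = 0 := by
  apply (Gt_smooth hW c t).2
  exact le_trans (by linarith) (le_abs_self _)

private theorem FtA_cont {W : ℝ → ℝ} {s : ℝ} (hW : EB W s) (c t : ℝ) : Continuous (Gt W c t) :=
  (Gt_smooth hW c t).1.continuous

private theorem FtA_supp {W : ℝ → ℝ} {s : ℝ} (hW : EB W s) (c t : ℝ) :
    Function.support (Gt W c t) ⊆ Icc (c - s) (c + s) := by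
  intro u hu
  by_contra hcon
  apply hu
  rw [mem_Icc, not_and_or, not_le, not_le] at hcon
  rcases hcon with h | h
  · exact FtA_zero_lt hW h.le
  · exact FtA_zero_gt hW h.le

private theorem FtA_cpt {W : ℝ → ℝ} {s : ℝ} (hW : EB W s) (c t : ℝ) : HasCompactSupport (Gt W c t) :=
  HasCompactSupport.of_support_subset_isCompact isCompact_Icc (FtA_supp hW c t)

private theorem FtA_gD_eq (W : ℝ → ℝ) (l c t v : ℝ) :
    gD W l c t v = ∫ x in (v - l / 2)..(v + l / 2), Gt W c t x := by
  unfold gD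
  rw [intervalIntegral.integral_comp_add_left (fun x => Gt W c t x) v]
  congr 1

private theorem FtA_gD_lt {W : ℝ → ℝ} {s : ℝ} (hW : EB W s) {l c : ℝ} (hl : 0 ≤ l) {t v : ℝ}
    (hv : v ≤ c - s - l / 2) : gD W l c t v = 0 := by
  unfold gD
  rw [intervalIntegral.integral_congr (g := fun _ => (0 : ℂ))]
  · simp
  · intro h hh
    rw [uIcc_of_le (by linarith)] at hh
    exact FtA_zero_lt hW (by linarith [hh.2])

private theorem FtA_gD_gt {W : ℝ → ℝ} {s : ℝ} (hW : EB W s) {l c : ℝ} (hl : 0 ≤ l) {t v : ℝ}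
    (hv : c + s + l / 2 ≤ v) : gD W l c t v = 0 := by
  unfold gD
  rw [intervalIntegral.integral_congr (g := fun _ => (0 : ℂ))]
  · simp
  · intro h hh
    rw [uIcc_of_le (by linarith)] at hh
    exact FtA_zero_gt hW (by linarith [hh.1])

private theorem FtA_gD_supp {W : ℝ → ℝ} {s : ℝ} (hW : EB W s) {l : ℝ} (hl : 0 ≤ l) (c t : ℝ) :
    Function.support (gD W l c t) ⊆ Icc (c - s - l / 2) (c + s + l / 2) := by
  intro u hu
  by_contra hcon
  apply hu
  rw [mem_Icc, not_and_or, not_le, not_le] at hcon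
  rcases hcon with h | h
  · exact FtA_gD_lt hW hl h.le
  · exact FtA_gD_gt hW hl h.le

theorem gD_test {W : ℝ → ℝ} {s : ℝ} (hW : EB W s) {l c : ℝ} (hl : 0 ≤ l) (hc : s + l / 2 < c) (t : ℝ) :
    Test (gD W l c t) := by
  have hcont := FtA_cont hW c t
  have hP : ∀ x : ℝ, HasDerivAt (fun v : ℝ => ∫ y in (0 : ℝ)..v, Gt W c t y) (Gt W c t x) x := fun x =>
    intervalIntegral.integral_hasDerivAt_right (hcont.intervalIntegrable _ _)
      (hcont.stronglyMeasurableAtFilter _ _) hcont.continuousAt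
  have hPs : ContDiff ℝ ∞ (fun v : ℝ => ∫ y in (0 : ℝ)..v, Gt W c t y) := by
    rw [contDiff_infty_iff_deriv]
    refine ⟨fun x => (hP x).differentiableAt, ?_⟩
    have : deriv (fun v : ℝ => ∫ y in (0 : ℝ)..v, Gt W c t y) = Gt W c t := by
      funext x
      exact (hP x).deriv
    rw [this]
    exact (Gt_smooth hW c t).1
  refine ⟨?_, ?_, ?_⟩
  · have h1 : gD W l c t = fun v => (∫ y in (0 : ℝ)..(v + l / 2), Gt W c t y) - ∫ y in (0 : ℝ)..(v - l / 2), Gt W c t y := by
      funext v
      rw [FtA_gD_eq, intervalIntegral.integral_interval_sub_left (hcont.intervalIntegrable _ _) (hcont.intervalIntegrable _ _)]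
    rw [h1]
    exact (hPs.comp (contDiff_id.add contDiff_const)).sub (hPs.comp (contDiff_id.sub contDiff_const))
  · exact HasCompactSupport.of_support_subset_isCompact isCompact_Icc (FtA_gD_supp hW hl c t)
  · have h1 : tsupport (gD W l c t) ⊆ Icc (c - s - l / 2) (c + s + l / 2) :=
      closure_minimal (FtA_gD_supp hW hl c t) isClosed_Icc
    intro u hu
    have := (h1 hu).1
    rw [mem_Ioi]
    linarith

/-- Fubini for a continuous weight -/
private theorem FtA_swap_cont {W : ℝ → ℝ} {s : ℝ} (hW : EB W s) {l c : ℝ} (hl : 0 ≤ l) (t : ℝ)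
    {φ : ℝ → ℂ} (hφ : Continuous φ) :
    ∫ v, gD W l c t v * φ v = ∫ u, Gt W c t u * ∫ v in (u - l / 2)..(u + l / 2), φ v := by
  have hcont := FtA_cont hW c t
  have hab : -(l / 2) ≤ l / 2 := by linarith
  -- integrability on the product
  have hint : ∀ F : ℝ → ℝ → ℂ, Continuous (Function.uncurry F) → ∀ A B : ℝ,
      (∀ h ∈ Ioc (-(l / 2)) (l / 2), ∀ v, v ∉ Icc A B → F h v = 0) →
      Integrable (Function.uncurry F) ((volume.restrict (Ioc (-(l / 2)) (l / 2))).prod volume) := by
    intro F hF A B hz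
    have e1 : (volume.restrict (Ioc (-(l / 2)) (l / 2))).prod (volume : Measure ℝ) =
        ((volume : Measure ℝ).prod (volume : Measure ℝ)).restrict (Ioc (-(l / 2)) (l / 2) ×ˢ univ) := by
      rw [← Measure.prod_restrict, Measure.restrict_univ]
    rw [e1]
    have h2 : IntegrableOn (Function.uncurry F) (Icc (-(l / 2)) (l / 2) ×ˢ Icc A B)
        ((volume : Measure ℝ).prod (volume : Measure ℝ)) :=
      hF.continuousOn.integrableOn_compact (isCompact_Icc.prod isCompact_Icc)
    have h3 : IntegrableOn (Function.uncurry F) (Ioc (-(l / 2)) (l / 2) ×ˢ Icc A B)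
        ((volume : Measure ℝ).prod (volume : Measure ℝ)) :=
      h2.mono_set (prod_mono Ioc_subset_Icc_self (subset_refl _))
    refine (h3.of_forall_sdiff_eq_zero (measurableSet_Ioc.prod MeasurableSet.univ) ?_ : IntegrableOn _ _ _)
    rintro ⟨h, v⟩ ⟨hm, hn⟩
    apply hz h hm.1
    intro hv
    exact hn ⟨hm.1, hv⟩
  have hI1 : Integrable (Function.uncurry fun h v : ℝ => Gt W c t (v + h) * φ v)
      ((volume.restrict (Ioc (-(l / 2)) (l / 2))).prod volume) := by
    apply hint _ _ (c - s - l / 2) (c + s + l / 2)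
    · intro h hh v hv
      rw [mem_Icc, not_and_or, not_le, not_le] at hv
      have : Gt W c t (v + h) = 0 := by
        rcases hv with h1 | h1
        · exact FtA_zero_lt hW (by linarith [hh.2])
        · exact FtA_zero_gt hW (by linarith [hh.1])
      rw [this, zero_mul]
    · unfold Function.uncurry
      simp only
      fun_prop
  have hI2 : Integrable (Function.uncurry fun h u : ℝ => Gt W c t u * φ (u - h))
      ((volume.restrict (Ioc (-(l / 2)) (l / 2))).prod volume) := by
    apply hint _ _ (c - s) (c + s)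
    · intro h hh v hv
      rw [mem_Icc, not_and_or, not_le, not_le] at hv
      have : Gt W c t v = 0 := by
        rcases hv with h1 | h1
        · exact FtA_zero_lt hW h1.le
        · exact FtA_zero_gt hW h1.le
      rw [this, zero_mul]
    · unfold Function.uncurry
      simp only
      fun_prop
  have hI1' : Integrable (Function.uncurry fun h v : ℝ => Gt W c t (v + h) * φ v)
      ((volume.restrict (uIoc (-(l / 2)) (l / 2))).prod volume) := by
    rw [uIoc_of_le hab]
    exact hI1
  have hI2' : Integrable (Function.uncurry fun h u : ℝ => Gt W c t u * φ (u - h))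
      ((volume.restrict (uIoc (-(l / 2)) (l / 2))).prod volume) := by
    rw [uIoc_of_le hab]
    exact hI2
  calc ∫ v, gD W l c t v * φ v = ∫ v, ∫ h in (-(l / 2))..(l / 2), Gt W c t (v + h) * φ v := by
        congr 1
        funext v
        unfold gD
        rw [intervalIntegral.integral_mul_const]
    _ = ∫ h in (-(l / 2))..(l / 2), ∫ v, Gt W c t (v + h) * φ v := (intervalIntegral_integral_swap hI1').symm
    _ = ∫ h in (-(l / 2))..(l / 2), ∫ u, Gt W c t u * φ (u - h) := by
        congr 1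
        funext h
        rw [← integral_add_right_eq_self (fun u => Gt W c t u * φ (u - h)) h]
        simp only [add_sub_cancel_right]
    _ = ∫ u, ∫ h in (-(l / 2))..(l / 2), Gt W c t u * φ (u - h) := intervalIntegral_integral_swap hI2'
    _ = ∫ u, Gt W c t u * ∫ v in (u - l / 2)..(u + l / 2), φ v := by
        congr 1
        funext u
        rw [intervalIntegral.integral_const_mul, intervalIntegral.integral_comp_sub_left (fun x => φ x) u]
        congr 2
        ring

/-- Fubini (`Gt` is continuous with compact support in `[c - s, c + s]`, and `φ` is continuous on `(0, ∞)`, which contains all the points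
`v` that matter); substitution `u = v + h`. -/
theorem gD_swap {W : ℝ → ℝ} {s : ℝ} (hW : EB W s) {l c : ℝ} (hl : 0 ≤ l) (hc : s + l / 2 < c) (t : ℝ)
    {φ : ℝ → ℂ} (hφ : ContinuousOn φ (Ioi 0)) :
    ∫ v, gD W l c t v * φ v = ∫ u, Gt W c t u * ∫ v in (u - l / 2)..(u + l / 2), φ v := by
  set m : ℝ := c - s - l / 2 with hm
  have hm0 : 0 < m := by rw [hm]; linarith
  have hφ1 : Continuous (fun v : ℝ => φ (max v m)) := by
    rw [← continuousOn_univ]
    refine hφ.comp (by fun_prop) ?_
    intro v _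
    exact lt_of_lt_of_le hm0 (le_max_right _ _)
  have h1 : ∫ v, gD W l c t v * φ v = ∫ v, gD W l c t v * φ (max v m) := by
    congr 1
    funext v
    rcases le_total m v with h | h
    · rw [max_eq_left h]
    · rw [FtA_gD_lt hW hl h, zero_mul, zero_mul]
  have h2 : ∫ u, Gt W c t u * ∫ v in (u - l / 2)..(u + l / 2), φ v =
      ∫ u, Gt W c t u * ∫ v in (u - l / 2)..(u + l / 2), φ (max v m) := by
    congr 1
    funext u
    rcases le_total u (c - s) with h | h
    · rw [FtA_zero_lt hW h, zero_mul, zero_mul]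
    · congr 1
      apply intervalIntegral.integral_congr
      intro v hv
      rw [uIcc_of_le (by linarith)] at hv
      simp only
      rw [max_eq_left (by rw [hm]; linarith [hv.1])]
  rw [h1, h2]
  exact FtA_swap_cont hW hl t hφ1

private theorem FtA_psi {x : ℝ} {N : ℕ} (hx : 0 ≤ x) (hN : x < N) :
    Chebyshev.psi x = ∑ n ∈ Finset.range N, if (n : ℝ) ≤ x then ArithmeticFunction.vonMangoldt n else 0 := by
  unfold Chebyshev.psi
  rw [← Finset.sum_filter]
  apply Finset.sum_subset_zero_on_sdiff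
  · intro n hn
    rw [Finset.mem_Ioc] at hn
    rw [Finset.mem_filter, Finset.mem_range]
    have h1 : (n : ℝ) ≤ x := (Nat.le_floor_iff hx).1 hn.2
    exact ⟨by exact_mod_cast lt_of_le_of_lt h1 hN, h1⟩
  · intro n hn
    rw [Finset.mem_sdiff, Finset.mem_filter, Finset.mem_Ioc] at hn
    have h1 : n ≤ ⌊x⌋₊ := (Nat.le_floor_iff hx).2 hn.1.2
    have h2 : n = 0 := by
      by_contra h
      exact hn.2 ⟨Nat.pos_of_ne_zero h, h1⟩
    rw [h2]
    simp
  · intro n _
    rfl

/-- the integral against `ψ (e^(u + d))` -/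
private theorem FtA_psi_int {W : ℝ → ℝ} {s : ℝ} (hW : EB W s) (c t d : ℝ) {N : ℕ} (hN : Real.exp (c + s + d) < N) :
    (∫ u, Gt W c t u * ((Chebyshev.psi (Real.exp (u + d)) : ℝ) : ℂ)) =
      ∑ n ∈ Finset.range N, ((ArithmeticFunction.vonMangoldt n : ℝ) : ℂ) * ∫ u in Ici (Real.log n - d), Gt W c t u := by
  have hgi : Integrable (Gt W c t) := (FtA_cont hW c t).integrable_of_hasCompactSupport (FtA_cpt hW c t)
  have h1 : ∀ u, Gt W c t u * ((Chebyshev.psi (Real.exp (u + d)) : ℝ) : ℂ) =
      ∑ n ∈ Finset.range N, ((ArithmeticFunction.vonMangoldt n : ℝ) : ℂ) *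
        (Ici (Real.log n - d)).indicator (Gt W c t) u := by
    intro u
    rcases le_total (c + s) u with h | h
    · have h0 := FtA_zero_gt hW (t := t) h
      rw [h0, zero_mul]
      symm
      apply Finset.sum_eq_zero
      intro n _
      rw [indicator_apply, h0]
      simp
    · have h2 : Real.exp (u + d) < N := lt_of_le_of_lt (Real.exp_le_exp.2 (by linarith)) hN
      rw [FtA_psi (Real.exp_pos _).le h2]
      push_cast
      rw [Finset.mul_sum]
      apply Finset.sum_congr rfl
      intro n _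
      rcases Nat.eq_zero_or_pos n with hn | hn
      · subst hn
        simp
      · have hn' : (0 : ℝ) < n := by exact_mod_cast hn
        have hiff : (n : ℝ) ≤ Real.exp (u + d) ↔ u ∈ Ici (Real.log n - d) := by
          rw [← Real.log_le_iff_le_exp hn', mem_Ici]
          constructor <;> intro h <;> linarith
        rw [indicator_apply]
        by_cases hu : u ∈ Ici (Real.log n - d)
        · rw [if_pos hu, if_pos (hiff.2 hu)]
          ring
        · rw [if_neg hu, if_neg (fun h => hu (hiff.1 h))]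
          simp
  simp_rw [h1]
  rw [integral_finsetSum]
  · apply Finset.sum_congr rfl
    intro n _
    rw [integral_const_mul, integral_indicator measurableSet_Ici]
  · intro n _
    exact (hgi.indicator measurableSet_Ici).const_mul _

/-- `gD (log n) = ∫ Gt u 1[|log n - u| ≤ l/2] du`; the sum over `n` is finite (`Gt` has compact support), and
`∑_n Λ(n) 1[u - l/2 < log n ≤ u + l/2] = ψ(e^(u + l/2)) - ψ(e^(u - l/2))`. -/
theorem gD_vonMangoldt {W : ℝ → ℝ} {s : ℝ} (hW : EB W s) {l c : ℝ} (hl : 0 ≤ l) (hc : s + l / 2 < c) (t : ℝ) :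
    ∑' n : ℕ, ((ArithmeticFunction.vonMangoldt n : ℝ) : ℂ) * gD W l c t (Real.log n) =
      ∫ u, Gt W c t u * ((Chebyshev.psi (Real.exp (u + l / 2)) - Chebyshev.psi (Real.exp (u - l / 2)) : ℝ) : ℂ) := by
  have hgi : Integrable (Gt W c t) := (FtA_cont hW c t).integrable_of_hasCompactSupport (FtA_cpt hW c t)
  obtain ⟨N, hN⟩ := exists_nat_gt (Real.exp (c + s + l / 2))
  have hN' : Real.exp (c + s + -(l / 2)) < N := lt_of_le_of_lt (Real.exp_le_exp.2 (by linarith)) hN
  -- finite sum
  have h1 : ∑' n : ℕ, ((ArithmeticFunction.vonMangoldt n : ℝ) : ℂ) * gD W l c t (Real.log n) =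
      ∑ n ∈ Finset.range N, ((ArithmeticFunction.vonMangoldt n : ℝ) : ℂ) * gD W l c t (Real.log n) := by
    apply tsum_eq_sum
    intro n hn
    rw [Finset.mem_range, not_lt] at hn
    have h2 : Real.exp (c + s + l / 2) < n := lt_of_lt_of_le hN (by exact_mod_cast hn)
    have h3 : c + s + l / 2 < Real.log n := by
      rw [← Real.log_exp (c + s + l / 2)]
      exact Real.log_lt_log (Real.exp_pos _) h2
    rw [FtA_gD_gt hW hl h3.le, mul_zero]
  -- integrability of the two pieces
  have hbd : ∀ d : ℝ, Integrable (fun u => Gt W c t u * ((Chebyshev.psi (Real.exp (u + d)) : ℝ) : ℂ)) := by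
    intro d
    obtain ⟨M, hM⟩ := exists_nat_gt (Real.exp (c + s + d))
    have h2 : Integrable (fun u => ∑ n ∈ Finset.range M, ((ArithmeticFunction.vonMangoldt n : ℝ) : ℂ) *
        (Ici (Real.log n - d)).indicator (Gt W c t) u) := by
      apply integrable_finsetSum
      intro n _
      exact (hgi.indicator measurableSet_Ici).const_mul _
    refine h2.congr (Eventually.of_forall fun u => ?_)
    simp only
    rcases le_total (c + s) u with h | h
    · have h0 := FtA_zero_gt hW (t := t) h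
      rw [h0, zero_mul]
      apply Finset.sum_eq_zero
      intro n _
      rw [indicator_apply, h0]
      simp
    · have h2 : Real.exp (u + d) < M := lt_of_le_of_lt (Real.exp_le_exp.2 (by linarith)) hM
      rw [FtA_psi (Real.exp_pos _).le h2]
      push_cast
      rw [Finset.mul_sum]
      apply Finset.sum_congr rfl
      intro n _
      rcases Nat.eq_zero_or_pos n with hn | hn
      · subst hn
        simp
      · have hn' : (0 : ℝ) < n := by exact_mod_cast hn
        have hiff : (n : ℝ) ≤ Real.exp (u + d) ↔ u ∈ Ici (Real.log n - d) := by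
          rw [← Real.log_le_iff_le_exp hn', mem_Ici]
          constructor <;> intro h <;> linarith
        rw [indicator_apply]
        by_cases hu : u ∈ Ici (Real.log n - d)
        · rw [if_pos hu, if_pos (hiff.2 hu)]
          ring
        · rw [if_neg hu, if_neg (fun h => hu (hiff.1 h))]
          simp
  have h4 : ∫ u, Gt W c t u * ((Chebyshev.psi (Real.exp (u + l / 2)) - Chebyshev.psi (Real.exp (u - l / 2)) : ℝ) : ℂ) =
      (∫ u, Gt W c t u * ((Chebyshev.psi (Real.exp (u + l / 2)) : ℝ) : ℂ)) -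
        ∫ u, Gt W c t u * ((Chebyshev.psi (Real.exp (u + -(l / 2))) : ℝ) : ℂ) := by
    rw [← integral_sub (hbd _) (hbd _)]
    congr 1
    funext u
    rw [← sub_eq_add_neg]
    push_cast
    ring
  rw [h1, h4, FtA_psi_int hW c t (l / 2) hN, FtA_psi_int hW c t (-(l / 2)) hN', ← Finset.sum_sub_distrib]
  apply Finset.sum_congr rfl
  intro n _
  rw [← mul_sub]
  congr 1
  rw [FtA_gD_eq, integral_Ici_eq_integral_Ioi, integral_Ici_eq_integral_Ioi, sub_neg_eq_add,
    intervalIntegral.integral_Ioi_sub_Ioi hgi.integrableOn (by linarith)]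

/-- `∫ Gt u e^(au) du = e^(-itc) e^(iγc) ck W (t - γ)` for `a = 1/2 + iγ`: `EFg_zero_int` in EF.lean. -/
theorem Gt_zero {W : ℝ → ℝ} {s : ℝ} (hW : EB W s) (c t γ : ℝ) :
    ∫ u, Gt W c t u * cexp ((1 / 2 + γ * I) * u) =
      cexp (((-(t * c) : ℝ) : ℂ) * I) * (cexp (((γ * c : ℝ) : ℂ) * I) * (ck W (t - γ) : ℂ)) := by
  have h1 : (fun u : ℝ => Gt W c t u * cexp ((1 / 2 + γ * I) * u)) =
      fun u : ℝ => (fun v : ℝ => cexp ((((γ - t) * c : ℝ) : ℂ) * I) * ((W v : ℂ) * cexp ((((γ - t) * v : ℝ) : ℂ) * I))) (u - c) := by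
    funext u
    unfold Gt
    simp only
    push_cast
    have e1 : cexp (-(↑t * ↑u) * I) * cexp ((1 / 2 + ↑γ * I) * ↑u) = cexp (↑u / 2) * (cexp ((↑γ - ↑t) * ↑c * I) * cexp ((↑γ - ↑t) * (↑u - ↑c) * I)) := by
      rw [← Complex.exp_add, ← Complex.exp_add, ← Complex.exp_add]
      congr 1
      ring
    have e2 : cexp (-(↑u / 2)) * cexp (↑u / 2) = 1 := by
      rw [← Complex.exp_add, neg_add_cancel, Complex.exp_zero]
    calc (W (u - c) : ℂ) * cexp (-(↑u / 2)) * cexp (-(↑t * ↑u) * I) * cexp ((1 / 2 + ↑γ * I) * ↑u)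
        = (W (u - c) : ℂ) * cexp (-(↑u / 2)) * (cexp (-(↑t * ↑u) * I) * cexp ((1 / 2 + ↑γ * I) * ↑u)) := by ring
      _ = (W (u - c) : ℂ) * (cexp (-(↑u / 2)) * cexp (↑u / 2)) * (cexp ((↑γ - ↑t) * ↑c * I) * cexp ((↑γ - ↑t) * (↑u - ↑c) * I)) := by
          rw [e1]; ring
      _ = cexp ((↑γ - ↑t) * ↑c * I) * ((W (u - c) : ℂ) * cexp ((↑γ - ↑t) * (↑u - ↑c) * I)) := by
          rw [e2]; ring
  rw [h1, integral_sub_right_eq_self (fun v : ℝ => cexp ((((γ - t) * c : ℝ) : ℂ) * I) * ((W v : ℂ) * cexp ((((γ - t) * v : ℝ) : ℂ) * I))) c,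
    integral_const_mul, ck_cexp hW.es]
  have h2 : ck W (γ - t) = ck W (t - γ) := by
    rw [← ck_even]
    congr 1
    ring
  rw [h2]
  have h3 : cexp ((((γ - t) * c : ℝ) : ℂ) * I) = cexp (((-(t * c) : ℝ) : ℂ) * I) * cexp (((γ * c : ℝ) : ℂ) * I) := by
    rw [← Complex.exp_add]
    congr 1
    push_cast
    ring
  rw [h3]
  ring

/-- `∫_{u - l/2}^{u + l/2} e^(av) dv = e^(au) SH l a`, `gD_swap` with `φ v = e^(av)`, `Gt_zero`. -/
theorem gD_zero {W : ℝ → ℝ} {s : ℝ} (hW : EB W s) {l c : ℝ} (hl : 0 ≤ l) (hc : s + l / 2 < c) (t γ : ℝ) :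
    ∫ v, gD W l c t v * cexp ((1 / 2 + γ * I) * v) =
      SH l (1 / 2 + γ * I) *
        (cexp (((-(t * c) : ℝ) : ℂ) * I) * (cexp (((γ * c : ℝ) : ℂ) * I) * (ck W (t - γ) : ℂ))) := by
  have hcφ : Continuous (fun v : ℝ => cexp ((1 / 2 + γ * I) * (v : ℂ))) := by fun_prop
  rw [gD_swap hW hl hc t hcφ.continuousOn, ← Gt_zero hW, ← integral_const_mul]
  congr 1
  funext u
  have h1 : (∫ v in (u - l / 2)..(u + l / 2), cexp ((1 / 2 + γ * I) * (v : ℂ))) =
      cexp ((1 / 2 + γ * I) * (u : ℂ)) * SH l (1 / 2 + γ * I) := by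
    unfold SH
    rw [← intervalIntegral.integral_const_mul]
    have h2 := intervalIntegral.integral_comp_add_left (a := -(l / 2)) (b := l / 2)
      (fun v : ℝ => cexp ((1 / 2 + γ * I) * (v : ℂ))) u
    rw [← sub_eq_add_neg] at h2
    rw [← h2]
    congr 1
    funext h
    rw [← Complex.exp_add]
    congr 1
    push_cast
    ring
  rw [h1]
  ring

end Pool.Agent.Lib.MP_2a816b_nt.PV
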