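import Pool.Agent.Lib.MP_2a816b_nt.PV.Defs

/-!
# JOB KKeq (about 100 lines): the kernel identity (checked numerically)
-/

open Complex Set Filter Topology MeasureTheory

namespace Pool.Agent.Lib.MP_2a816b_nt.PV

open Pool.Agent.Lib.MP_00e05b_nt Pool.Agent.Lib.MP_00e05b_nt.Mont

private theorem KKeq_prim {n y : ℝ} (hn : 0 < n) (hy : y ≠ 0) (lam : ℝ) :
    HasDerivAt (fun l : ℝ => (1 - l / n) * Real.sin (l * y) / y + (1 - Real.cos (l * y)) / (n * y ^ 2))
      ((1 - lam / n) * Real.cos (lam * y)) lam := by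
  have hn0 : n ≠ 0 := hn.ne'
  have h1 : HasDerivAt (fun l : ℝ => 1 - l / n) (-(1 / n)) lam := by
    simpa using ((hasDerivAt_id lam).div_const n).const_sub 1
  have h2 : HasDerivAt (fun l : ℝ => l * y) y lam := by
    simpa using (hasDerivAt_id lam).mul_const y
  have h3 : HasDerivAt (fun l : ℝ => Real.sin (l * y)) (Real.cos (lam * y) * y) lam := h2.sin
  have h4 : HasDerivAt (fun l : ℝ => Real.cos (l * y)) (-Real.sin (lam * y) * y) lam := h2.cos
  have h5 := ((h1.mul h3).div_const y).add ((h4.const_sub 1).div_const (n * y ^ 2))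
  refine h5.congr_deriv ?_
  field_simp
  ring

/-- Twice integration by parts in `KK n x0 x = 2 ∫_0^n r(λ) cos (λx) dλ`, `r(λ) = (1 - λ/n) cos (λ x0)`; or verify directly.
`r'' (λ) = (2/n) x0 sin (λ x0) - (1 - λ/n) x0² cos (λ x0)`. -/
theorem KK_eq {n x0 x : ℝ} (hn : 0 < n) (hx : 0 < x) (hx0 : 0 < x0) (hne : x ≠ x0) :
    x ^ 2 * KK n x0 x = 2 / n * Real.cos (n * x0) * (1 - Real.cos (n * x)) +
      2 * ∫ lam in (0 : ℝ)..n, (2 / n * x0 * Real.sin (lam * x0) - (1 - lam / n) * x0 ^ 2 * Real.cos (lam * x0)) *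
        (1 - Real.cos (lam * x)) := by
  have hn0 : n ≠ 0 := hn.ne'
  have hm : x - x0 ≠ 0 := sub_ne_zero.2 hne
  have hp : x + x0 ≠ 0 := by positivity
  have hder : ∀ lam : ℝ, HasDerivAt (fun l : ℝ =>
      (-(1 / n) * Real.cos (l * x0) - (1 - l / n) * x0 * Real.sin (l * x0)) * (1 - Real.cos (l * x)) -
        x * ((1 - l / n) * Real.cos (l * x0)) * Real.sin (l * x) +
        x ^ 2 / 2 * (((1 - l / n) * Real.sin (l * (x - x0)) / (x - x0) +
          (1 - Real.cos (l * (x - x0))) / (n * (x - x0) ^ 2)) +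
          ((1 - l / n) * Real.sin (l * (x + x0)) / (x + x0) +
          (1 - Real.cos (l * (x + x0))) / (n * (x + x0) ^ 2))))
      ((2 / n * x0 * Real.sin (lam * x0) - (1 - lam / n) * x0 ^ 2 * Real.cos (lam * x0)) *
        (1 - Real.cos (lam * x))) lam := by
    intro lam
    have h1 : HasDerivAt (fun l : ℝ => 1 - l / n) (-(1 / n)) lam := by
      simpa using ((hasDerivAt_id lam).div_const n).const_sub 1
    have h2 : ∀ y : ℝ, HasDerivAt (fun l : ℝ => l * y) y lam := fun y => by
      simpa using (hasDerivAt_id lam).mul_const y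
    have h3 : ∀ y : ℝ, HasDerivAt (fun l : ℝ => Real.sin (l * y)) (Real.cos (lam * y) * y) lam :=
      fun y => (h2 y).sin
    have h4 : ∀ y : ℝ, HasDerivAt (fun l : ℝ => Real.cos (l * y)) (-Real.sin (lam * y) * y) lam :=
      fun y => (h2 y).cos
    have h5 := ((((h4 x0).const_mul (-(1 / n))).sub ((h1.mul_const x0).mul (h3 x0))).mul
      ((h4 x).const_sub 1)).sub ((((h1.mul (h4 x0)).const_mul x)).mul (h3 x))
    have h6 := (KKeq_prim hn hm lam).add (KKeq_prim hn hp lam)
    have h7 := h5.add (h6.const_mul (x ^ 2 / 2))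
    refine h7.congr_deriv ?_
    have e1 : Real.cos (lam * (x - x0)) = Real.cos (lam * x) * Real.cos (lam * x0) +
        Real.sin (lam * x) * Real.sin (lam * x0) := by
      rw [mul_sub, Real.cos_sub]
    have e2 : Real.cos (lam * (x + x0)) = Real.cos (lam * x) * Real.cos (lam * x0) -
        Real.sin (lam * x) * Real.sin (lam * x0) := by
      rw [mul_add, Real.cos_add]
    rw [e1, e2]
    simp only [Pi.mul_apply, Pi.sub_apply]
    ring
  have hint := intervalIntegral.integral_eq_sub_of_hasDerivAt (a := 0) (b := n)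
    (fun lam _ => hder lam) (Continuous.intervalIntegrable (by fun_prop) _ _)
  rw [hint]
  simp only [KK, FK, zero_mul, Real.sin_zero, Real.cos_zero, mul_zero, zero_div, sub_zero, sub_self,
    div_self hn0, add_zero]
  field_simp
  ring

end Pool.Agent.Lib.MP_2a816b_nt.PV
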