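import Pool.Agent.Lib.MP_2a816b_nt.PV.Elem

/-!
# JOB Ker (about 180 lines): the kernel in `w = l t`
-/

open Complex Set Filter Topology MeasureTheory

namespace Pool.Agent.Lib.MP_2a816b_nt.PV

open Pool.Agent.Lib.MP_00e05b_nt Pool.Agent.Lib.MP_00e05b_nt.Mont

/-- the integrand in the coordinates `(l, w)` -/
noncomputable def Ker_G (g : ℝ → ℝ) (l w : ℝ) : ℝ := w * qq w * g (w / l) / l ^ 2

lemma Ker_sl {l t : ℝ} (hl : 0 < l) (ht : 0 < t) : 1 / l ^ 3 * sl l t ^ 2 = t * qq (l * t) := by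
  rw [sl_eq l ht.ne', qq]
  have := hl.ne'
  have := ht.ne'
  field_simp
  ring

lemma Ker_left {g : ℝ → ℝ} {l : ℝ} (hl : 0 < l) :
    1 / l ^ 3 * ∫ t in Ioi (0 : ℝ), sl l t ^ 2 * g t = ∫ w in Ioi (0 : ℝ), Ker_G g l w := by
  have h1 : ∫ w in Ioi (0 : ℝ), Ker_G g l w =
      ∫ w in Ioi (0 : ℝ), (fun t => t * qq (l * t) * g t / l) (l⁻¹ * w) := by
    refine setIntegral_congr_fun measurableSet_Ioi fun w _ => ?_
    simp only [Ker_G]
    rw [show l * (l⁻¹ * w) = w by field_simp, show l⁻¹ * w = w / l by field_simp]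
    field_simp
  rw [h1, MeasureTheory.integral_comp_mul_left_Ioi (fun t => t * qq (l * t) * g t / l) 0 (inv_pos.2 hl),
    mul_zero, inv_inv, smul_eq_mul, ← integral_const_mul, ← integral_const_mul]
  refine setIntegral_congr_fun measurableSet_Ioi fun t ht => ?_
  have ht' : 0 < t := ht
  show 1 / l ^ 3 * (sl l t ^ 2 * g t) = l * (t * qq (l * t) * g t / l)
  rw [← mul_assoc, Ker_sl hl ht']
  field_simp

lemma Ker_right {g : ℝ → ℝ} (hg : Continuous g) {l1 l2 w : ℝ} (h1 : 0 < l1) (h12 : l1 ≤ l2) :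
    qq w * ∫ t in (w / l2)..(w / l1), g t = ∫ l in l1..l2, Ker_G g l w := by
  have h2 : ∀ x ∈ uIcc l1 l2, 0 < x := by
    intro x hx
    rw [uIcc_of_le h12] at hx
    exact h1.trans_le hx.1
  have key : ∫ x in l1..l2, (g ∘ fun l => w / l) x * (-w / x ^ 2) = ∫ u in (w / l1)..(w / l2), g u := by
    refine intervalIntegral.integral_comp_mul_deriv' (f := fun l => w / l) ?_ ?_ hg.continuousOn
    · intro x hx
      have hx' := h2 x hx
      have := (hasDerivAt_inv hx'.ne').const_mul w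
      refine (this.congr_deriv ?_)
      field_simp
    · refine ContinuousOn.div continuousOn_const (continuousOn_id.pow 2) fun x hx => ?_
      have := h2 x hx
      exact (pow_pos this 2).ne'
  rw [intervalIntegral.integral_symm, ← key, ← intervalIntegral.integral_neg,
    ← intervalIntegral.integral_const_mul]
  refine intervalIntegral.integral_congr fun x hx => ?_
  simp only [Ker_G, Function.comp]
  ring

lemma Ker_integrable {g : ℝ → ℝ} (hg : Continuous g) (h0 : ∀ t, 0 ≤ g t) {C : ℝ}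
    (hb : ∀ t, 0 ≤ t → g t ≤ C * (1 + √t)) {l1 l2 : ℝ} (h1 : 0 < l1) :
    Integrable (Function.uncurry (Ker_G g))
      ((volume.restrict (Ioc l1 l2)).prod (volume.restrict (Ioi (0 : ℝ)))) := by
  have hC : 0 ≤ C := by
    have := (h0 0).trans (hb 0 le_rfl)
    simpa using this
  have hdom : IntegrableOn (fun w => C / l1 ^ 2 * (qq w * w + (√l1)⁻¹ * (qq w * (√w + w * √w)))) (Ioi 0) :=
    (qq_w_int.add (qq_int.const_mul _)).const_mul _
  have hprod : Integrable (fun p : ℝ × ℝ => (1 : ℝ) *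
      (C / l1 ^ 2 * (qq p.2 * p.2 + (√l1)⁻¹ * (qq p.2 * (√p.2 + p.2 * √p.2)))))
      ((volume.restrict (Ioc l1 l2)).prod (volume.restrict (Ioi (0 : ℝ)))) :=
    Integrable.mul_prod (f := fun _ : ℝ => (1 : ℝ))
      (g := fun w : ℝ => C / l1 ^ 2 * (qq w * w + (√l1)⁻¹ * (qq w * (√w + w * √w))))
      (integrable_const _) hdom
  refine hprod.mono' ?_ ?_
  · have : Measurable (Function.uncurry (Ker_G g)) := by
      unfold Function.uncurry Ker_G
      have h1 : Measurable fun p : ℝ × ℝ => qq p.2 := qq_meas.comp measurable_snd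
      have h2 : Measurable fun p : ℝ × ℝ => g (p.2 / p.1) :=
        hg.measurable.comp (measurable_snd.div measurable_fst)
      exact ((measurable_snd.mul h1).mul h2).div (measurable_fst.pow_const 2)
    exact this.aestronglyMeasurable
  · rw [Measure.prod_restrict]
    refine (ae_restrict_iff' (measurableSet_Ioc.prod measurableSet_Ioi)).2 (Eventually.of_forall ?_)
    rintro ⟨l, w⟩ ⟨hl, hw⟩
    have hl1 : l1 < l := hl.1
    have hl0 : 0 < l := h1.trans hl1
    have hw0 : 0 < w := hw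
    simp only [Function.uncurry, Ker_G]
    have hq := qq_nonneg hw0.le
    have hnn : 0 ≤ w * qq w * g (w / l) / l ^ 2 :=
      div_nonneg (mul_nonneg (mul_nonneg hw0.le hq) (h0 _)) (by positivity)
    rw [Real.norm_of_nonneg hnn, one_mul]
    have hg1 : g (w / l) ≤ C * (1 + (√l1)⁻¹ * √w) := by
      refine (hb _ (by positivity)).trans (mul_le_mul_of_nonneg_left ?_ hC)
      have : √(w / l) ≤ (√l1)⁻¹ * √w := by
        rw [Real.sqrt_div hw0.le, div_eq_inv_mul]
        refine mul_le_mul_of_nonneg_right ?_ (Real.sqrt_nonneg _)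
        exact inv_anti₀ (Real.sqrt_pos.2 h1) (Real.sqrt_le_sqrt hl1.le)
      linarith
    have hl2 : 1 / l ^ 2 ≤ 1 / l1 ^ 2 :=
      one_div_le_one_div_of_le (by positivity) (pow_le_pow_left₀ h1.le hl1.le 2)
    have hsq : 0 ≤ √w := Real.sqrt_nonneg _
    have hi : 0 ≤ (√l1)⁻¹ := by positivity
    calc w * qq w * g (w / l) / l ^ 2 = (w * qq w) * g (w / l) * (1 / l ^ 2) := by ring
      _ ≤ (w * qq w) * (C * (1 + (√l1)⁻¹ * √w)) * (1 / l1 ^ 2) := by
          refine mul_le_mul (mul_le_mul_of_nonneg_left hg1 (by positivity)) hl2 (by positivity) ?_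
          positivity
      _ = C / l1 ^ 2 * (qq w * w + (√l1)⁻¹ * (qq w * (w * √w))) := by ring
      _ ≤ C / l1 ^ 2 * (qq w * w + (√l1)⁻¹ * (qq w * (√w + w * √w))) := by
          refine mul_le_mul_of_nonneg_left ?_ (by positivity)
          have : qq w * (w * √w) ≤ qq w * (√w + w * √w) :=
            mul_le_mul_of_nonneg_left (by linarith) hq
          have := mul_le_mul_of_nonneg_left this hi
          linarith

/-- Tonelli (`g ≥ 0` continuous; `sl l t ^ 2 ≤ min (l²) (4/t²)` and `g t ≤ C (1 + √t)` make everything finite) and for fixed `t > 0` the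
substitution `w = l t`: `∫_{l1}^{l2} l^(-3) 4 sin² (l t/2)/t² dl = ∫_{l1 t}^{l2 t} qq w dw`. The region `l1 t ≤ w ≤ l2 t` is
`w/l2 ≤ t ≤ w/l1`. -/
theorem kern {g : ℝ → ℝ} (hg : Continuous g) (h0 : ∀ t, 0 ≤ g t) {C : ℝ} (hb : ∀ t, 0 ≤ t → g t ≤ C * (1 + √t))
    {l1 l2 : ℝ} (h1 : 0 < l1) (h12 : l1 ≤ l2) :
    IntervalIntegrable (fun l => 1 / l ^ 3 * ∫ t in Ioi (0 : ℝ), sl l t ^ 2 * g t) volume l1 l2 ∧
    IntegrableOn (fun w => qq w * ∫ t in (w / l2)..(w / l1), g t) (Ioi 0) ∧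
    ∫ l in l1..l2, 1 / l ^ 3 * ∫ t in Ioi (0 : ℝ), sl l t ^ 2 * g t =
      ∫ w in Ioi (0 : ℝ), qq w * ∫ t in (w / l2)..(w / l1), g t := by
  have hI := Ker_integrable hg h0 hb (l2 := l2) h1
  have hL : ∀ l ∈ Ioc l1 l2, (1 / l ^ 3 * ∫ t in Ioi (0 : ℝ), sl l t ^ 2 * g t) =
      ∫ w in Ioi (0 : ℝ), Ker_G g l w := fun l hl => Ker_left (h1.trans hl.1)
  have hR : ∀ w, (qq w * ∫ t in (w / l2)..(w / l1), g t) = ∫ l in Ioc l1 l2, Ker_G g l w := fun w => by
    rw [Ker_right hg h1 h12, intervalIntegral.integral_of_le h12]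
  refine ⟨?_, ?_, ?_⟩
  · rw [intervalIntegrable_iff_integrableOn_Ioc_of_le h12]
    refine IntegrableOn.congr_fun (f := fun l => ∫ w in Ioi (0 : ℝ), Ker_G g l w) ?_
      (fun l hl => (hL l hl).symm) measurableSet_Ioc
    exact hI.integral_prod_left
  · have : Integrable (fun w => ∫ l in Ioc l1 l2, Ker_G g l w) (volume.restrict (Ioi (0 : ℝ))) :=
      hI.integral_prod_right
    refine Integrable.congr this (Eventually.of_forall fun w => (hR w).symm)
  · rw [intervalIntegral.integral_of_le h12, setIntegral_congr_fun measurableSet_Ioc hL,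
      integral_integral_swap hI]
    exact integral_congr_ae (Eventually.of_forall fun w => (hR w).symm)

end Pool.Agent.Lib.MP_2a816b_nt.PV
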