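import Pool.Agent.Lib.MP_2a816b_nt.PV.ACQS
import Pool.Agent.Lib.MP_2a816b_nt.PV.FFQS
import Pool.Agent.Lib.MP_2a816b_nt.PV.FOne
import Pool.Agent.Lib.MP_2a816b_nt.PV.FMean
import Pool.Agent.Lib.MP_2a816b_nt.PV.MassBd

/-!
# JOB LBF (about 220 lines): lower bound in the mean for `AC`
-/

open Complex Set Filter Topology MeasureTheory

namespace Pool.Agent.Lib.MP_2a816b_nt.PV

open Pool.Agent.Lib.MP_00e05b_nt Pool.Agent.Lib.MP_00e05b_nt.Mont

theorem LBF_ev {P : ℝ → Prop} (h : ∀ᶠ t : ℝ in atTop, P t) {w1 : ℝ} (hw1 : 0 < w1) :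
    ∀ᶠ T : ℝ in atTop, ∀ w : ℝ, w1 ≤ w → P (w * T) := by
  obtain ⟨t0, ht0⟩ := eventually_atTop.1 h
  filter_upwards [eventually_ge_atTop (t0 / w1), eventually_ge_atTop 0] with T h1 h2 w hw
  apply ht0
  have : t0 ≤ w1 * T := by
    rw [div_le_iff₀ hw1] at h1
    linarith
  nlinarith

theorem LBF_split {t : ℝ} (ht : 1 < t) {M x z z' : ℝ} (hM : 0 ≤ M) (hx : x ≤ 1 + M / Real.log t)
    (hz : z' ≤ z) :
    (∫ α in (1 : ℝ)..z', FF α t) - (∫ α in (1 - M / Real.log t)..(1 + M / Real.log t), FF α t) ≤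
      ∫ α in x..z, FF α t := by
  have hc := FF_continuous (show 0 < t by linarith)
  have hi : ∀ a b : ℝ, IntervalIntegrable (fun α => FF α t) volume a b := fun a b =>
    hc.intervalIntegrable a b
  have hL : 0 < Real.log t := Real.log_pos ht
  have hML : 0 ≤ M / Real.log t := div_nonneg hM hL.le
  have h1 : ∫ α in x..z, FF α t = (∫ α in x..(1 : ℝ), FF α t) + (∫ α in (1 : ℝ)..z', FF α t) +
      ∫ α in z'..z, FF α t := by
    rw [intervalIntegral.integral_add_adjacent_intervals (hi _ _) (hi _ _),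
      intervalIntegral.integral_add_adjacent_intervals (hi _ _) (hi _ _)]
  have h2 : 0 ≤ ∫ α in z'..z, FF α t :=
    intervalIntegral.integral_nonneg hz fun u _ => FF_nonneg ht u
  have h3 : 0 ≤ ∫ α in (1 - M / Real.log t)..(1 + M / Real.log t), FF α t :=
    intervalIntegral.integral_nonneg (by linarith) fun u _ => FF_nonneg ht u
  have h4 : -(∫ α in (1 - M / Real.log t)..(1 + M / Real.log t), FF α t) ≤
      ∫ α in x..(1 : ℝ), FF α t := by
    rcases le_total x 1 with h | h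
    · have : 0 ≤ ∫ α in x..(1 : ℝ), FF α t :=
        intervalIntegral.integral_nonneg h fun u _ => FF_nonneg ht u
      linarith
    · rw [intervalIntegral.integral_symm 1 x, neg_le_neg_iff]
      apply intervalIntegral.integral_mono_interval (by linarith) h hx _ (hi _ _)
      exact Eventually.of_forall fun u => FF_nonneg ht u
  linarith

/-- the pointwise bound -/
theorem LBF_point {W : ℝ → ℝ} {A δ m C1 C2 L t y η : ℝ} (ht : 2 ≤ t)
    (hII : 0 ≤ II W) (hC1 : 0 ≤ C1) (hC2 : 0 ≤ C2) (hm : 0 ≤ m) (hL : 0 < L)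
    (hAC : ∀ c1 c2 : ℝ, c1 ≤ c2 →
      2 * Real.pi * II W * QS t (c1 + 1 / 8) (c2 - 1 / 8) - C1 * (c2 - c1) * Real.log t ^ 3 ≤ AC W c1 c2 t)
    (hms : ∀ x y : ℝ, x ≤ y → ∫ α in x..y, FF α t ≤ C2 * (y - x + 1))
    (hy1 : 1 + 2 * δ ≤ y) (hyA : y ≤ A) (hδ : 0 < δ)
    (hLl : L ≤ 2 * Real.log t) (hL1 : 13 / 4 + 2 * m ≤ δ * L)
    (hL2 : y * (Real.log t - L) ≤ δ * L + 2 * δ * (Real.log t - L) - 17 / 8 - m)
    {M : ℝ} (hM : 0 ≤ M) (hL3 : L + 9 / 8 + m ≤ Real.log t + M)
    (hη : (∫ α in (1 - M / Real.log t)..(1 + M / Real.log t), FF α t) +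
      2 * Real.exp (-(2 * m)) * (C2 * (2 * A + 1)) ≤ η) :
    II W * (t * Real.log t ^ 2) * ((∫ α in (1 : ℝ)..(y - 2 * δ), FF α t) - η) -
      C1 * (A * L) * Real.log t ^ 3 ≤ AC W (L + 1) ((y - δ) * L - 2) t := by
  have ht1 : 1 < t := by linarith
  have hl : 0 < Real.log t := Real.log_pos ht1
  set l := Real.log t with hl_def
  have hdL : 0 ≤ δ * L := by positivity
  have hyAL : y * L ≤ A * L := mul_le_mul_of_nonneg_right hyA hL.le
  have hyL : (1 + 2 * δ) * L ≤ y * L := mul_le_mul_of_nonneg_right hy1 hL.le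
  have hc12 : L + 1 ≤ (y - δ) * L - 2 := by linarith
  have h1 := hAC (L + 1) ((y - δ) * L - 2) hc12
  set x := (L + 9 / 8 + m) / l with hx_def
  set z := ((y - δ) * L - 17 / 8 - m) / l with hz_def
  have hxl : x * l = L + 9 / 8 + m := by
    rw [hx_def]; field_simp
  have hzl : z * l = (y - δ) * L - 17 / 8 - m := by
    rw [hz_def]; field_simp
  have hxz : x ≤ z := by
    rw [hx_def, hz_def]
    apply div_le_div_of_nonneg_right _ hl.le
    linarith
  have h2 := QS_ge ht1 hxz hm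
  rw [← hl_def, hxl, hzl] at h2
  have e1 : L + 9 / 8 + m - m = L + 1 + 1 / 8 := by ring
  have e2 : (y - δ) * L - 17 / 8 - m + m = (y - δ) * L - 2 - 1 / 8 := by ring
  rw [e1, e2] at h2
  have hzx : z - x + 1 ≤ 2 * A + 1 := by
    have : z - x ≤ 2 * A := by
      rw [hx_def, hz_def, ← sub_div, div_le_iff₀ hl]
      have hA0 : 0 ≤ A := by linarith
      have : A * L ≤ A * (2 * l) := mul_le_mul_of_nonneg_left hLl hA0
      linarith
    linarith
  have h3 : ∫ α in (x + m / l)..(z + m / l), FF α t ≤ C2 * (2 * A + 1) := by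
    refine (hms _ _ (by linarith)).trans ?_
    apply mul_le_mul_of_nonneg_left _ hC2
    linarith
  have h4 : ∫ α in (x - m / l)..(z - m / l), FF α t ≤ C2 * (2 * A + 1) := by
    refine (hms _ _ (by linarith)).trans ?_
    apply mul_le_mul_of_nonneg_left _ hC2
    linarith
  have h5 : (∫ α in (1 : ℝ)..(y - 2 * δ), FF α t) -
      (∫ α in (1 - M / l)..(1 + M / l), FF α t) ≤ ∫ α in x..z, FF α t := by
    apply LBF_split ht1 hM
    · rw [← hl_def, hx_def, div_le_iff₀ hl, add_mul, div_mul_cancel₀ _ hl.ne']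
      linarith
    · rw [hz_def, le_div_iff₀ hl]
      linarith
  have hN : 2 * Real.pi * N0 t = t * l := by
    unfold N0
    rw [← hl_def]
    field_simp
  have hNp := N0_pos ht1
  have hNl : 0 < N0 t * l := by positivity
  have h6 : N0 t * l * ((∫ α in (1 : ℝ)..(y - 2 * δ), FF α t) - η) ≤
      QS t (L + 1 + 1 / 8) ((y - δ) * L - 2 - 1 / 8) := by
    have h7 : N0 t * l * ((∫ α in (1 : ℝ)..(y - 2 * δ), FF α t) - η) ≤
        N0 t * l * ((∫ α in x..z, FF α t) - 2 * Real.exp (-(2 * m)) * (C2 * (2 * A + 1))) := by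
      apply mul_le_mul_of_nonneg_left _ hNl.le
      linarith
    have h8 : Real.exp (-(2 * m)) * (N0 t * l) *
        ((∫ α in (x + m / l)..(z + m / l), FF α t) + ∫ α in (x - m / l)..(z - m / l), FF α t) ≤
        Real.exp (-(2 * m)) * (N0 t * l) * (C2 * (2 * A + 1) + C2 * (2 * A + 1)) := by
      apply mul_le_mul_of_nonneg_left (add_le_add h3 h4)
      positivity
    have h12 : N0 t * l * ((∫ α in x..z, FF α t) - 2 * Real.exp (-(2 * m)) * (C2 * (2 * A + 1))) =
        N0 t * l * (∫ α in x..z, FF α t) -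
          Real.exp (-(2 * m)) * (N0 t * l) * (C2 * (2 * A + 1) + C2 * (2 * A + 1)) := by ring
    linarith
  have h9 : II W * (t * l ^ 2) * ((∫ α in (1 : ℝ)..(y - 2 * δ), FF α t) - η) =
      2 * Real.pi * II W * (N0 t * l * ((∫ α in (1 : ℝ)..(y - 2 * δ), FF α t) - η)) := by
    have : t * l ^ 2 = 2 * Real.pi * N0 t * l := by rw [hN]; ring
    rw [this]; ring
  have h10 : 2 * Real.pi * II W * (N0 t * l * ((∫ α in (1 : ℝ)..(y - 2 * δ), FF α t) - η)) ≤
      2 * Real.pi * II W * QS t (L + 1 + 1 / 8) ((y - δ) * L - 2 - 1 / 8) := by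
    apply mul_le_mul_of_nonneg_left h6
    positivity
  have h11 : C1 * ((y - δ) * L - 2 - (L + 1)) * l ^ 3 ≤ C1 * (A * L) * l ^ 3 := by
    apply mul_le_mul_of_nonneg_right _ (by positivity)
    apply mul_le_mul_of_nonneg_left _ hC1
    linarith
  rw [h9]
  linarith

/-- `t = w T`, `ℓ = log t`, `L = log T`; `ℓ/L → 1` uniformly in `w ∈ [w1, w2]`. Let `m` be such that `e^(-2m)` is small. For
`y ∈ [1 + 2δ, A]`, by `AC_QS` and `QS_ge` with `x ℓ - m = L + 9/8`, `z ℓ + m = (y - δ) L - 17/8`: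
`AC W (L + 1) ((y - δ) L - 2) t ≥ 2π II (N0 t ℓ (∫_x^z FF - 2 e^(-2m) C (A + 2)) ) - C A L ℓ³` (`mass_bd`);
`x ≤ 1 + M/ℓ` for a constant `M`, and `z ≥ y - 2δ` for `T` large, so `∫_x^z FF ≥ ∫_1^{y - 2δ} FF - ∫_{1 - M/ℓ}^{1 + M/ℓ} FF`, the
last integral is small by `F_one`. (`x ≥ 1 - M/ℓ`.) Integrate: `∫_{1 + 2δ}^A ∫_1^{y - 2δ} FF dα dy = ∫_1^{A - 2δ} ∫_1^z FF dα dz ≥
(A - 2δ - 1)²/2 - 1/6 - ε'` by `F_mean` (`A - 2δ > 1`), all for `t ≥ w1 T` large. Finally `2π N0 t ℓ/(T L²) = w (ℓ/L)²`,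
and `C A L ℓ³/(T L² II) → 0`, absorbed in `w ε ≥ w1 ε`. -/
theorem AC_mean (hRH : RiemannHypothesis) {W : ℝ → ℝ} (hW : EB W (1 / 8)) {A δ ε w1 w2 : ℝ} (hδ : 0 < δ)
    (hA : 1 + 2 * δ < A) (hε : 0 < ε) (hw1 : 0 < w1) :
    ∀ᶠ T : ℝ in atTop, ∀ w : ℝ, w1 ≤ w → w ≤ w2 →
      w * ((A - 1 - 2 * δ) ^ 2 / 2 - 1 / 6 - ε) ≤
        (T * Real.log T ^ 2 * II W)⁻¹ *
          ∫ y in (1 + 2 * δ)..A, AC W (Real.log T + 1) ((y - δ) * Real.log T - 2) (w * T) := by
  obtain ⟨C1, hC1, hAC⟩ := AC_QS hRH hW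
  obtain ⟨C2, hC2, hms⟩ := mass_bd hRH
  have hII : 0 < II W := II_pos hW (by norm_num)
  have hA0 : 0 < A := by linarith
  set η0 : ℝ := ε / (8 * A) with hη0
  have hη0p : 0 < η0 := by positivity
  obtain ⟨m, hm0, hm⟩ : ∃ m : ℝ, 0 ≤ m ∧ 2 * Real.exp (-(2 * m)) * (C2 * (2 * A + 1)) ≤ η0 := by
    have h1 : Tendsto (fun m : ℝ => 2 * Real.exp (-(2 * m)) * (C2 * (2 * A + 1))) atTop (𝓝 0) := by
      have h2 : Tendsto (fun m : ℝ => Real.exp (-(2 * m))) atTop (𝓝 0) :=
        Real.tendsto_exp_neg_atTop_nhds_zero.comp (tendsto_id.const_mul_atTop (by norm_num : (0 : ℝ) < 2))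
      have h3 := (h2.const_mul 2).mul_const (C2 * (2 * A + 1))
      simpa using h3
    obtain ⟨m, hm⟩ := ((h1.eventually_le_const hη0p).and (eventually_ge_atTop (0 : ℝ))).exists
    exact ⟨m, hm.2, hm.1⟩
  set M : ℝ := 9 / 8 + m + |Real.log w1| with hM_def
  have hM : 0 ≤ M := by positivity
  set K : ℝ := |Real.log w1| + |Real.log w2| with hK_def
  have hK : 0 ≤ K := by positivity
  set P : ℝ := (A - 1 - 2 * δ) ^ 2 / 2 - 1 / 6 - ε / 2 with hP_def
  have hF1 := (F_one hRH hM).eventually_le_const hη0p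
  have hF2 := F_mean hRH (A := A - 2 * δ) (ε := ε / 4) (by linarith) (by linarith)
  have hev := LBF_ev (((hF1.and hF2).and hms).and (eventually_ge_atTop (2 : ℝ))) hw1
  have hlog := Real.tendsto_log_atTop
  have hlsq : Tendsto (fun T : ℝ => Real.log T ^ 2 / T) atTop (𝓝 0) := by
    have := Real.isLittleO_pow_log_id_atTop (n := 2)
    exact this.tendsto_div_nhds_zero
  have hsm : 0 < w1 * (ε / 4) * II W / (8 * C1 * A ^ 2 + 1) := by positivity
  filter_upwards [hev, hlog.eventually_gt_atTop 0, hlog.eventually_ge_atTop (2 * K),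
    hlog.eventually_ge_atTop ((13 / 4 + 2 * m) / δ),
    hlog.eventually_ge_atTop ((A * K + 2 * δ * K + 17 / 8 + m) / δ),
    hlog.eventually_ge_atTop (3 * K * |P| / (ε / 4)), hlsq.eventually_le_const hsm,
    eventually_gt_atTop (0 : ℝ)] with T hT1 hL hLK hL1 hL2 hL3 hL4 hT0 w hw hw'
  obtain ⟨⟨⟨hT2, hT3⟩, hT4⟩, hT5⟩ := hT1 w hw
  set L := Real.log T with hL_def
  have hw0 : 0 < w := lt_of_lt_of_le hw1 hw
  set t := w * T with ht_def
  have hlt : Real.log t = Real.log w + L := by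
    rw [ht_def, Real.log_mul hw0.ne' hT0.ne']
  have hlwK : |Real.log w| ≤ K := by
    have h1 : Real.log w1 ≤ Real.log w := Real.log_le_log hw1 hw
    have h2 : Real.log w ≤ Real.log w2 := Real.log_le_log hw0 hw'
    rw [abs_le]
    constructor
    · have := neg_abs_le (Real.log w1)
      have := abs_nonneg (Real.log w2)
      linarith
    · have := le_abs_self (Real.log w2)
      have := abs_nonneg (Real.log w1)
      linarith
  have hlw1 : -|Real.log w1| ≤ Real.log w :=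
    (neg_abs_le _).trans (Real.log_le_log hw1 hw)
  have hlwK' := abs_le.1 hlwK
  set l := Real.log t with hl_def
  have hl2 : L ≤ 2 * l := by linarith
  have hl3 : l ≤ 2 * L := by linarith
  have hl0 : 0 < l := by linarith
  rw [div_le_iff₀ hδ] at hL1 hL2
  rw [div_le_iff₀ (by linarith)] at hL3
  rw [div_le_div_iff₀ hT0 (by positivity)] at hL4
  set η : ℝ := 2 * η0 with hη_def
  have hpt : ∀ y ∈ Icc (1 + 2 * δ) A,
      II W * (t * l ^ 2) * ((∫ α in (1 : ℝ)..(y - 2 * δ), FF α t) - η) - C1 * (A * L) * l ^ 3 ≤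
        AC W (L + 1) ((y - δ) * L - 2) t := by
    intro y hy
    apply LBF_point hT5 hII.le hC1 hC2 hm0 hL (fun c1 c2 hc => (hAC t hT5 c1 c2 hc).1) hT4 hy.1 hy.2 hδ
      hl2 (by linarith) _ hM (by linarith) (by linarith)
    have h1 : y * (l - L) ≤ A * K := by
      have h2 : l - L ≤ K := by linarith
      have h3 : 0 ≤ y := by linarith [hy.1]
      calc y * (l - L) ≤ y * K := mul_le_mul_of_nonneg_left h2 h3
        _ ≤ A * K := mul_le_mul_of_nonneg_right hy.2 hK
    have h2 : -(2 * δ * K) ≤ 2 * δ * (l - L) := by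
      have : -K ≤ l - L := by linarith
      have h3 : 2 * δ * (-K) ≤ 2 * δ * (l - L) := mul_le_mul_of_nonneg_left this (by linarith)
      linarith
    have e : Real.log t - L = l - L := rfl
    rw [e]
    linarith
  have hcF : Continuous (fun α => FF α t) := FF_continuous (by linarith)
  have hcG : Continuous (fun z : ℝ => ∫ α in (1 : ℝ)..z, FF α t) :=
    intervalIntegral.continuous_primitive (fun a b => hcF.intervalIntegrable a b) 1
  have hcG' : Continuous (fun y : ℝ => ∫ α in (1 : ℝ)..(y - 2 * δ), FF α t) :=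
    hcG.comp (continuous_id.sub continuous_const)
  have hcA : Continuous (fun y : ℝ => AC W (L + 1) ((y - δ) * L - 2) t) := by
    have h := AC_cont hW.es (by norm_num : (1 : ℝ) / 8 ≤ 3 / 4)
    exact h.comp (continuous_const.prodMk
      ((((continuous_id.sub continuous_const).mul continuous_const).sub continuous_const).prodMk
        continuous_const))
  have hint : ∫ y in (1 + 2 * δ)..A,
      (II W * (t * l ^ 2) * ((∫ α in (1 : ℝ)..(y - 2 * δ), FF α t) - η) - C1 * (A * L) * l ^ 3) ≤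
      ∫ y in (1 + 2 * δ)..A, AC W (L + 1) ((y - δ) * L - 2) t := by
    apply intervalIntegral.integral_mono_on hA.le _ (hcA.intervalIntegrable _ _) hpt
    exact (((hcG'.sub continuous_const).const_smul (II W * (t * l ^ 2))).sub
      continuous_const).intervalIntegrable _ _
  have hval : ∫ y in (1 + 2 * δ)..A,
      (II W * (t * l ^ 2) * ((∫ α in (1 : ℝ)..(y - 2 * δ), FF α t) - η) - C1 * (A * L) * l ^ 3) =
      II W * (t * l ^ 2) * ((∫ z in (1 : ℝ)..(A - 2 * δ), ∫ α in (1 : ℝ)..z, FF α t) -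
        η * (A - 1 - 2 * δ)) - C1 * (A * L) * l ^ 3 * (A - 1 - 2 * δ) := by
    rw [intervalIntegral.integral_sub _ (by simp), intervalIntegral.integral_const_mul,
      intervalIntegral.integral_sub (hcG'.intervalIntegrable _ _) (by simp),
      intervalIntegral.integral_comp_sub_right (fun z => ∫ α in (1 : ℝ)..z, FF α t) (2 * δ)]
    · simp only [intervalIntegral.integral_const, smul_eq_mul]
      have : 1 + 2 * δ - 2 * δ = 1 := by ring
      rw [this]
      ring
    · exact ((hcG'.sub continuous_const).const_smul (II W * (t * l ^ 2))).intervalIntegrable _ _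
  rw [hval] at hint
  have hS : P ≤ (∫ z in (1 : ℝ)..(A - 2 * δ), ∫ α in (1 : ℝ)..z, FF α t) - η * (A - 1 - 2 * δ) := by
    have h1 : η * (A - 1 - 2 * δ) ≤ ε / 4 := by
      have h2 : η * A = ε / 4 := by
        rw [hη_def, hη0]
        field_simp
        ring
      have h3 : η * (A - 1 - 2 * δ) ≤ η * A := by
        apply mul_le_mul_of_nonneg_left (by linarith)
        positivity
      linarith
    have h4 : (A - 2 * δ - 1) ^ 2 = (A - 1 - 2 * δ) ^ 2 := by ring
    rw [h4] at hT3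
    linarith
  have ht0 : 0 < t := by linarith
  have hB : 0 ≤ II W * (t * l ^ 2) := by positivity
  have h1 := mul_le_mul_of_nonneg_left hS hB
  have h2 : C1 * (A * L) * l ^ 3 * (A - 1 - 2 * δ) ≤ C1 * (A * L) * l ^ 3 * A := by
    apply mul_le_mul_of_nonneg_left (by linarith)
    positivity
  have hD : 0 < T * L ^ 2 * II W := by positivity
  have hgoal : T * L ^ 2 * II W * (w * ((A - 1 - 2 * δ) ^ 2 / 2 - 1 / 6 - ε)) ≤
      II W * (t * l ^ 2) * P - C1 * (A * L) * l ^ 3 * A := by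
    have h3 : l ^ 3 ≤ 8 * L ^ 3 := by
      have := pow_le_pow_left₀ hl0.le hl3 3
      calc l ^ 3 ≤ (2 * L) ^ 3 := this
        _ = 8 * L ^ 3 := by ring
    have h4 : C1 * (A * L) * l ^ 3 * A ≤ w * (ε / 4) * II W * T * L ^ 2 := by
      calc C1 * (A * L) * l ^ 3 * A = C1 * A ^ 2 * L * l ^ 3 := by ring
        _ ≤ C1 * A ^ 2 * L * (8 * L ^ 3) := by
            apply mul_le_mul_of_nonneg_left h3
            positivity
        _ = (L ^ 2 * (8 * C1 * A ^ 2)) * L ^ 2 := by ring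
        _ ≤ (L ^ 2 * (8 * C1 * A ^ 2 + 1)) * L ^ 2 := by
            apply mul_le_mul_of_nonneg_right _ (by positivity)
            apply mul_le_mul_of_nonneg_left (by linarith) (by positivity)
        _ ≤ (w1 * (ε / 4) * II W * T) * L ^ 2 := mul_le_mul_of_nonneg_right hL4 (by positivity)
        _ ≤ (w * (ε / 4) * II W * T) * L ^ 2 := by
            apply mul_le_mul_of_nonneg_right _ (by positivity)
            have : 0 ≤ ε / 4 * II W * T := by positivity
            have h5 := mul_le_mul_of_nonneg_right hw this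
            linarith
        _ = w * (ε / 4) * II W * T * L ^ 2 := by ring
    have h5 : L ^ 2 * P - 3 * K * L * |P| ≤ l ^ 2 * P := by
      have h6 : |l ^ 2 - L ^ 2| ≤ 3 * K * L := by
        have e : l ^ 2 - L ^ 2 = (l - L) * (l + L) := by ring
        rw [e, abs_mul]
        have h7 : |l - L| ≤ K := by
          have : l - L = Real.log w := by linarith
          rw [this]; exact hlwK
        have h8 : |l + L| ≤ 3 * L := by
          rw [abs_of_pos (by linarith)]
          linarith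
        calc |l - L| * |l + L| ≤ K * (3 * L) := mul_le_mul h7 h8 (abs_nonneg _) hK
          _ = 3 * K * L := by ring
      have h9 : |(l ^ 2 - L ^ 2) * P| ≤ 3 * K * L * |P| := by
        rw [abs_mul]
        exact mul_le_mul_of_nonneg_right h6 (abs_nonneg _)
      have h10 := (abs_le.1 h9).1
      linarith
    have h11 : 3 * K * L * |P| ≤ ε / 4 * L ^ 2 := by
      have := mul_le_mul_of_nonneg_right hL3 hL.le
      calc 3 * K * L * |P| = 3 * K * |P| * L := by ring
        _ ≤ L * (ε / 4) * L := this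
        _ = ε / 4 * L ^ 2 := by ring
    have h12 : II W * (t * (L ^ 2 * P - ε / 4 * L ^ 2)) ≤ II W * (t * (l ^ 2 * P)) := by
      apply mul_le_mul_of_nonneg_left _ hII.le
      apply mul_le_mul_of_nonneg_left _ ht0.le
      linarith
    have e1 : T * L ^ 2 * II W * (w * ((A - 1 - 2 * δ) ^ 2 / 2 - 1 / 6 - ε)) =
        II W * (t * (L ^ 2 * P - ε / 4 * L ^ 2)) - w * (ε / 4) * II W * T * L ^ 2 := by
      rw [ht_def, hP_def]
      ring
    have e2 : II W * (t * l ^ 2) * P = II W * (t * (l ^ 2 * P)) := by ring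
    rw [e1, e2]
    linarith
  rw [le_inv_mul_iff₀ hD]
  linarith

end Pool.Agent.Lib.MP_2a816b_nt.PV
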