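import Pool.Agent.Lib.MP_2a816b_nt.PV.SUp
import Pool.Agent.Lib.MP_2a816b_nt.PV.SLow

/-!
# From the variance to `Mq`
-/

open Complex Set Filter Topology MeasureTheory

namespace Pool.Agent.Lib.MP_2a816b_nt.PV

open Pool.Agent.Lib.MP_00e05b_nt Pool.Agent.Lib.MP_00e05b_nt.Mont

theorem MqLim_ratio {c : ℝ} (hc : 0 < c) :
    Tendsto (fun T : ℝ => (c * T * Real.log (c * T) ^ 2) / (T * Real.log T ^ 2)) atTop (𝓝 c) := by
  have h1 : Tendsto (fun T : ℝ => Real.log c / Real.log T + 1) atTop (𝓝 (0 + 1)) :=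
    ((tendsto_const_nhds (x := Real.log c)).div_atTop Real.tendsto_log_atTop).add_const 1
  have h2 : Tendsto (fun T : ℝ => c * (Real.log c / Real.log T + 1) ^ 2) atTop (𝓝 (c * (0 + 1) ^ 2)) :=
    (h1.pow 2).const_mul c
  have h3 : c * (0 + 1) ^ 2 = c := by ring
  rw [h3] at h2
  refine h2.congr' ?_
  filter_upwards [eventually_gt_atTop 1] with T hT
  have hT0 : (0 : ℝ) < T := by linarith
  have hL : 0 < Real.log T := Real.log_pos hT
  rw [Real.log_mul hc.ne' hT0.ne']
  field_simp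

theorem MqLim_norm (x y J : ℝ) (hy : y ≠ 0) :
    (Real.pi * x * J)⁻¹ = y / x * (Real.pi * y * J)⁻¹ := by
  rw [mul_inv, mul_inv, mul_inv, mul_inv]
  have : y / x * (Real.pi⁻¹ * y⁻¹ * J⁻¹) = (y * y⁻¹) * (Real.pi⁻¹ * x⁻¹ * J⁻¹) := by
    rw [div_eq_mul_inv]
    ring
  rw [this, mul_inv_cancel₀ hy, one_mul]

theorem MqLim_II (W : ℝ → ℝ) : 0 ≤ II W := integral_nonneg fun _ => sq_nonneg _

/-- Upper bound: `S_lower` at `T1 = (ξ/ξ1) T` (`ξ1 < 1` is its parameter `ξ`, so `ξ1 T1 = ξ T`), with `a1 = a - δ > 1`, `b1 = b + 2δ`: for `T` large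
`a1 log T1 + 1 ≤ a log T` and `b log T ≤ (b1 - δ) log T1 - 2`, so (`Mq_mono`)
`(1 - κ) (π T1 log² T1 II)⁻¹ Mq W (a L) (b L) (ξ T) - κ ≤ ∫_{a1}^{b1} RR α T1 → b - a + 3δ`, and `T1 log² T1/(T L²) → ξ/ξ1`.
Lower bound: `S_upper` at `T1 = ξ T`, with `a1 = a + 2δ`, `b1 = b - δ`: `(a1 - δ) log T1 - 2 ≥ a L`, `b1 log T1 + 1 ≤ b L`, so
`∫_{a1}^{b1} RR α T1 - κ ≤ (π T1 log² T1 II)⁻¹ Mq W (a L) (b L) (ξ T)`. Then `κ, δ → 0`, `ξ1 → 1`. -/
theorem Mq_lim (hRH : RiemannHypothesis) {W : ℝ → ℝ} (hW : EB W (1 / 8))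
    (hU : ∀ a b : ℝ, 1 ≤ a → a < b → Tendsto (fun T : ℝ => ∫ α in a..b, RR α T) atTop (𝓝 (b - a)))
    {a b ξ : ℝ} (ha : 1 < a) (hab : a < b) (hξ : 0 < ξ) :
    Tendsto (fun T : ℝ => (Real.pi * (T * Real.log T ^ 2) * II W)⁻¹ * Mq W (a * Real.log T) (b * Real.log T) (ξ * T))
      atTop (𝓝 (ξ * (b - a))) := by
  have hII := MqLim_II W
  have hES : ES W (1 / 8) := hW.es
  have hevlog : ∀ K s : ℝ, 0 < s → ∀ᶠ T : ℝ in atTop, K ≤ s * Real.log T := by
    intro K s hs
    filter_upwards [Real.tendsto_log_atTop.eventually_ge_atTop (K / s)] with T hT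
    rw [div_le_iff₀ hs] at hT
    linarith
  refine tendsto_order.2 ⟨fun y hy => ?_, fun y hy => ?_⟩
  · -- lower bound
    have hc0 : Tendsto (fun s : ℝ => ξ * (b - a - 4 * s)) (𝓝[>] 0) (𝓝 (ξ * (b - a - 4 * 0))) :=
      (Continuous.tendsto (by fun_prop) 0).mono_left nhdsWithin_le_nhds
    rw [mul_zero, sub_zero] at hc0
    have e1 := hc0.eventually_const_lt hy
    have e2 : ∀ᶠ s : ℝ in 𝓝[>] 0, s < min 1 ((b - a) / 4) :=
      (eventually_lt_nhds (lt_min one_pos (by linarith))).filter_mono nhdsWithin_le_nhds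
    obtain ⟨s, hs1, hs2, hs0⟩ := (e1.and (e2.and self_mem_nhdsWithin)).exists
    have hs3 : s < 1 := hs2.trans_le (min_le_left _ _)
    have hs4 : s < (b - a) / 4 := hs2.trans_le (min_le_right _ _)
    have hT1 : Tendsto (fun T : ℝ => ξ * T) atTop atTop := tendsto_id.const_mul_atTop hξ
    have hlim := (hU (a + 2 * s) (b - s) (by linarith) (by linarith)).comp hT1
    have hrat := MqLim_ratio hξ
    have hprod := hrat.mul (hlim.sub_const s)
    have hval : ξ * (b - s - (a + 2 * s) - s) = ξ * (b - a - 4 * s) := by ring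
    rw [hval] at hprod
    have e3 := hprod.eventually_const_lt hs1
    have e4 := hT1.eventually (S_upper hRH hW (δ := s) (κ := s) (B := b - s) hs0 hs3 hs0)
    filter_upwards [e3, e4, eventually_gt_atTop 1, hT1.eventually_gt_atTop 1,
      hevlog (2 - (a + s) * Real.log ξ) s hs0, hevlog (1 + (b - s) * Real.log ξ) s hs0] with T h3 h4 h5 h6 h7 h8
    have hT0 : (0 : ℝ) < T := by linarith
    have hlogT : 0 < Real.log T := Real.log_pos h5
    have hlogT1 : 0 < Real.log (ξ * T) := Real.log_pos h6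
    have hlog : Real.log (ξ * T) = Real.log ξ + Real.log T := Real.log_mul hξ.ne' hT0.ne'
    have h4' := h4 (a + 2 * s) (b - s) (by linarith) (by linarith) le_rfl
    have hmono : Mq W ((a + 2 * s - s) * Real.log (ξ * T) - 2) ((b - s) * Real.log (ξ * T) + 1) (ξ * T) ≤
        Mq W (a * Real.log T) (b * Real.log T) (ξ * T) := by
      apply Mq_mono hRH hES (by norm_num)
      · rw [hlog]
        nlinarith
      · rw [hlog]
        nlinarith
      · exact mul_le_mul_of_nonneg_right hab.le hlogT.le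
      · linarith
      · exact le_rfl
    have hyne : ξ * T * Real.log (ξ * T) ^ 2 ≠ 0 := by positivity
    rw [MqLim_norm (T * Real.log T ^ 2) (ξ * T * Real.log (ξ * T) ^ 2) (II W) hyne, mul_assoc]
    refine h3.trans_le ?_
    apply mul_le_mul_of_nonneg_left _ (by positivity)
    have hN : 0 ≤ (Real.pi * (ξ * T * Real.log (ξ * T) ^ 2) * II W)⁻¹ := by positivity
    have := mul_le_mul_of_nonneg_left hmono hN
    simp only [Function.comp] at h4' ⊢
    linarith
  · -- upper bound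
    have hc0 : Tendsto (fun s : ℝ => ξ / (1 - s) * ((b - a + 4 * s) / (1 - s))) (𝓝[>] 0)
        (𝓝 (ξ / (1 - 0) * ((b - a + 4 * 0) / (1 - 0)))) := by
      refine Tendsto.mono_left ?_ nhdsWithin_le_nhds
      have h1 : Tendsto (fun s : ℝ => 1 - s) (𝓝 0) (𝓝 (1 - 0)) := (Continuous.tendsto (by fun_prop) 0)
      have h2 : Tendsto (fun s : ℝ => b - a + 4 * s) (𝓝 0) (𝓝 (b - a + 4 * 0)) :=
        (Continuous.tendsto (by fun_prop) 0)
      exact (tendsto_const_nhds.div h1 (by norm_num)).mul (h2.div h1 (by norm_num))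
    have hval0 : ξ / (1 - 0) * ((b - a + 4 * 0) / (1 - 0)) = ξ * (b - a) := by
      simp
    rw [hval0] at hc0
    have e1 := hc0.eventually_lt_const hy
    have e2 : ∀ᶠ s : ℝ in 𝓝[>] 0, s < min 1 (a - 1) :=
      (eventually_lt_nhds (lt_min one_pos (by linarith))).filter_mono nhdsWithin_le_nhds
    obtain ⟨s, hs1, hs2, hs0⟩ := (e1.and (e2.and self_mem_nhdsWithin)).exists
    have hs3 : s < 1 := hs2.trans_le (min_le_left _ _)
    have hs4 : s < a - 1 := hs2.trans_le (min_le_right _ _)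
    obtain ⟨c, hc⟩ : ∃ c : ℝ, c = ξ / (1 - s) := ⟨_, rfl⟩
    have h1s : 0 < 1 - s := by linarith
    have hcpos : 0 < c := by
      rw [hc]
      positivity
    have hcs : (1 - s) * c = ξ := by
      rw [hc]
      field_simp
    rw [← hc] at hs1
    have hT1 : Tendsto (fun T : ℝ => c * T) atTop atTop := tendsto_id.const_mul_atTop hcpos
    have hlim := (hU (a - s) (b + 2 * s) (by linarith) (by linarith)).comp hT1
    have hrat := MqLim_ratio hcpos
    have hprod := hrat.mul ((hlim.add_const s).div_const (1 - s))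
    have hval : c * ((b + 2 * s - (a - s) + s) / (1 - s)) = c * ((b - a + 4 * s) / (1 - s)) := by
      congr 2
      ring
    rw [hval] at hprod
    have e3 := hprod.eventually_lt_const hs1
    have e4 := hT1.eventually (S_lower hRH hW (ξ := 1 - s) (δ := s) (κ := s) (B := b + 2 * s) h1s
      (by linarith) hs0 hs3 hs0 hs3)
    filter_upwards [e3, e4, eventually_gt_atTop 1, hT1.eventually_gt_atTop 1,
      hevlog (1 + (a - s) * Real.log c) s hs0, hevlog (2 - (b + s) * Real.log c) s hs0] with T h3 h4 h5 h6 h7 h8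
    have hT0 : (0 : ℝ) < T := by linarith
    have hlogT : 0 < Real.log T := Real.log_pos h5
    have hlogT1 : 0 < Real.log (c * T) := Real.log_pos h6
    have hlog : Real.log (c * T) = Real.log c + Real.log T := Real.log_mul hcpos.ne' hT0.ne'
    have h4' := h4 (a - s) (b + 2 * s) (by linarith) (by linarith) le_rfl
    have hxi : (1 - s) * (c * T) = ξ * T := by
      rw [← mul_assoc, hcs]
    rw [hxi] at h4'
    have hmono : Mq W (a * Real.log T) (b * Real.log T) (ξ * T) ≤
        Mq W ((a - s) * Real.log (c * T) + 1) ((b + 2 * s - s) * Real.log (c * T) - 2) (ξ * T) := by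
      have k1 : (a - s) * Real.log (c * T) + 1 ≤ a * Real.log T := by
        rw [hlog]
        nlinarith
      have k2 : b * Real.log T ≤ (b + 2 * s - s) * Real.log (c * T) - 2 := by
        rw [hlog]
        nlinarith
      have k3 : a * Real.log T ≤ b * Real.log T := mul_le_mul_of_nonneg_right hab.le hlogT.le
      exact Mq_mono hRH hES (by norm_num) k1 k2 (by linarith) (by positivity) le_rfl
    have hyne : c * T * Real.log (c * T) ^ 2 ≠ 0 := by positivity
    rw [MqLim_norm (T * Real.log T ^ 2) (c * T * Real.log (c * T) ^ 2) (II W) hyne, mul_assoc]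
    refine lt_of_le_of_lt ?_ h3
    apply mul_le_mul_of_nonneg_left _ (by positivity)
    have hN : 0 ≤ (Real.pi * (c * T * Real.log (c * T) ^ 2) * II W)⁻¹ := by positivity
    have hm := mul_le_mul_of_nonneg_left hmono hN
    simp only [Function.comp] at h4' ⊢
    rw [le_div_iff₀ h1s]
    have hm2 := mul_le_mul_of_nonneg_left hm h1s.le
    linarith

end Pool.Agent.Lib.MP_2a816b_nt.PV
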