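import Pool.Agent.Lib.MP_2a816b_nt.PV.Elem

/-!
# JOB MultB (about 150 lines): the multiplier `SH l a` for `Re a = 1/2`
-/

open Complex Set Filter Topology MeasureTheory

namespace Pool.Agent.Lib.MP_2a816b_nt.PV

open Pool.Agent.Lib.MP_00e05b_nt Pool.Agent.Lib.MP_00e05b_nt.Mont

theorem MultB_exp_le_two {x : ℝ} (hx : x ≤ 5 / 16) : Real.exp x ≤ 2 := by
  have h1 : Real.exp x ≤ Real.exp (5 / 16) := Real.exp_le_exp.mpr hx
  have h2 : Real.exp (5 / 16) ≤ 1 / (1 - 5 / 16) := by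
    have h3 : 1 - 5 / 16 ≤ Real.exp (-(5 / 16 : ℝ)) := by
      have := Real.add_one_le_exp (-(5 / 16 : ℝ))
      linarith
    have h4 : Real.exp (5 / 16) = 1 / Real.exp (-(5 / 16 : ℝ)) := by
      rw [Real.exp_neg]
      field_simp
    rw [h4]
    exact one_div_le_one_div_of_le (by norm_num) h3
  have h5 : (1 : ℝ) / (1 - 5 / 16) ≤ 2 := by norm_num
  linarith

/-- `|e^(ah)| ≤ e^(l/4) ≤ 2` -/
theorem SH_le {l : ℝ} (hl : 0 ≤ l) (hl1 : l ≤ 5 / 4) {a : ℂ} (ha : a.re = 1 / 2) : ‖SH l a‖ ≤ 2 * l := by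
  unfold SH
  have h := intervalIntegral.norm_integral_le_of_norm_le_const (a := -(l / 2)) (b := l / 2) (C := 2)
    (f := fun h : ℝ => cexp (a * (h : ℂ))) ?_
  · rw [show |l / 2 - (-(l / 2))| = l by rw [abs_of_nonneg] <;> linarith] at h
    exact h
  · intro x hx
    rw [uIoc_of_le (by linarith)] at hx
    rw [Complex.norm_exp]
    apply MultB_exp_le_two
    have : (a * (x : ℂ)).re = x / 2 := by
      rw [Complex.mul_re, Complex.ofReal_re, Complex.ofReal_im, ha]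
      ring
    rw [this]
    linarith [hx.2]

theorem MultB_exp_sub {w z : ℂ} (hw : w.re ≤ 5 / 16) (hz : z.re ≤ 5 / 16) : ‖cexp w - cexp z‖ ≤ 2 * ‖w - z‖ := by
  have hconv : Convex ℝ {z : ℂ | z.re ≤ 5 / 16} := convex_halfSpace_re_le _
  refine Convex.norm_image_sub_le_of_norm_deriv_le (𝕜 := ℂ) (f := cexp) (s := {z : ℂ | z.re ≤ 5 / 16})
    (fun x _ => Complex.differentiableAt_exp) (fun x hx => ?_) hconv hz hw
  rw [Complex.deriv_exp, Complex.norm_exp]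
  exact MultB_exp_le_two hx

theorem MultB_SH_mul (l : ℝ) {a : ℂ} (ha : a.re = 1 / 2) :
    a * SH l a = cexp (a * ((l / 2 : ℝ) : ℂ)) - cexp (a * ((-(l / 2) : ℝ) : ℂ)) := by
  have ha0 : a ≠ 0 := by
    intro h0
    rw [h0] at ha
    norm_num at ha
  unfold SH
  rw [integral_exp_mul_complex ha0]
  field_simp

theorem MultB_sl_mul (l : ℝ) {t : ℝ} (ht : t ≠ 0) :
    ((t : ℂ) * I) * (sl l t : ℂ) = cexp ((t : ℂ) * I * ((l / 2 : ℝ) : ℂ)) - cexp ((t : ℂ) * I * ((-(l / 2) : ℝ) : ℂ)) := by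
  rw [sl_eq l ht]
  have h1 : (t : ℂ) * I * ((l / 2 : ℝ) : ℂ) = ((l * t / 2 : ℝ) : ℂ) * I := by
    push_cast
    ring
  have h2 : (t : ℂ) * I * ((-(l / 2) : ℝ) : ℂ) = -((l * t / 2 : ℝ) : ℂ) * I := by
    push_cast
    ring
  rw [h1, h2]
  have h3 := Complex.two_sin ((l * t / 2 : ℝ) : ℂ)
  have ht' : (t : ℂ) ≠ 0 := by exact_mod_cast ht
  have h4 : ((2 * Real.sin (l * t / 2) / t : ℝ) : ℂ) = 2 * Complex.sin ((l * t / 2 : ℝ) : ℂ) / t := by
    push_cast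
    ring
  rw [h4, h3]
  field_simp
  rw [Complex.I_sq]
  ring

/-- `a = 1/2 + iγ`. `SH l a - sl l t = ∫ (e^(h/2) - 1) e^(iγh) dh + ∫ e^(ith) (e^(i(γ - t)h) - 1) dh` (`∫ sin (th) dh = 0`).
If `|t| ≤ 1` or `|γ| < |t|/2` (then `|t - γ| ≥ |t|/2`) the trivial bound `C l` suffices. Otherwise `|γ| ≥ |t|/2`, `|t| ≥ 1`.
First integral: integrate by parts with `e^(iγh) = (e^(iγh)/(iγ))'`: `≤ (2 |e^(l/4) - 1| + ∫ (1/2) e^(h/2))/|γ| ≤ C l/|γ|`.
Second: with `e^(ith) = (e^(ith)/(it))'`: boundary terms `≤ 2 · |γ - t| (l/2)/|t|`, integral `≤ |γ - t| l/|t|`. -/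
theorem SH_sub_sl : ∃ C : ℝ, 0 ≤ C ∧ ∀ l : ℝ, 0 ≤ l → l ≤ 5 / 4 → ∀ a : ℂ, a.re = 1 / 2 → ∀ t : ℝ,
    ‖SH l a - (sl l t : ℂ)‖ ≤ C * l * ((1 + |t - a.im|) / (1 + |t|)) := by
  refine ⟨8, by norm_num, ?_⟩
  intro l hl hl1 a ha t
  have hS := SH_le hl hl1 ha
  have hs : ‖(sl l t : ℂ)‖ ≤ l := by
    rw [Complex.norm_real, Real.norm_eq_abs]
    exact sl_abs_le hl t
  have hpos : (0 : ℝ) < 1 + |t| := by positivity
  rcases le_or_gt |t| 1 with h1 | h1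
  · have h2 : ‖SH l a - (sl l t : ℂ)‖ ≤ 3 * l := by
      calc ‖SH l a - (sl l t : ℂ)‖ ≤ ‖SH l a‖ + ‖(sl l t : ℂ)‖ := norm_sub_le _ _
        _ ≤ 3 * l := by linarith
    have h3 : (1 : ℝ) / 2 ≤ (1 + |t - a.im|) / (1 + |t|) := by
      rw [div_le_div_iff₀ (by norm_num) hpos]
      have := abs_nonneg (t - a.im)
      linarith
    calc ‖SH l a - (sl l t : ℂ)‖ ≤ 3 * l := h2
      _ ≤ 8 * l * (1 / 2) := by linarith
      _ ≤ 8 * l * ((1 + |t - a.im|) / (1 + |t|)) := mul_le_mul_of_nonneg_left h3 (by linarith)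
  · have ht0 : t ≠ 0 := by
      intro h0
      rw [h0, abs_zero] at h1
      linarith
    have hE1 := MultB_SH_mul l ha
    have hE2 := MultB_sl_mul l ht0
    have hd : ‖a - (t : ℂ) * I‖ ≤ 1 / 2 + |t - a.im| := by
      have := Complex.norm_le_abs_re_add_abs_im (a - (t : ℂ) * I)
      have hre : (a - (t : ℂ) * I).re = 1 / 2 := by
        simp [ha]
      have him : (a - (t : ℂ) * I).im = a.im - t := by
        simp
      rw [hre, him, abs_sub_comm a.im t, abs_of_nonneg (by norm_num : (0 : ℝ) ≤ 1 / 2)] at this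
      exact this
    have hA : ‖cexp (a * ((l / 2 : ℝ) : ℂ)) - cexp ((t : ℂ) * I * ((l / 2 : ℝ) : ℂ))‖ ≤ l * ‖a - (t : ℂ) * I‖ := by
      refine le_trans (MultB_exp_sub ?_ ?_) ?_
      · rw [Complex.mul_re, Complex.ofReal_re, Complex.ofReal_im, ha]
        linarith
      · rw [Complex.mul_re, Complex.ofReal_re, Complex.ofReal_im]
        simp
        linarith
      · rw [← sub_mul, norm_mul, Complex.norm_real, Real.norm_eq_abs, abs_of_nonneg (by linarith : (0 : ℝ) ≤ l / 2)]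
        apply le_of_eq
        ring
    have hB : ‖cexp (a * ((-(l / 2) : ℝ) : ℂ)) - cexp ((t : ℂ) * I * ((-(l / 2) : ℝ) : ℂ))‖ ≤ l * ‖a - (t : ℂ) * I‖ := by
      refine le_trans (MultB_exp_sub ?_ ?_) ?_
      · rw [Complex.mul_re, Complex.ofReal_re, Complex.ofReal_im, ha]
        linarith
      · rw [Complex.mul_re, Complex.ofReal_re, Complex.ofReal_im]
        simp
        linarith
      · rw [← sub_mul, norm_mul, Complex.norm_real, Real.norm_eq_abs, abs_of_nonpos (by linarith : -(l / 2) ≤ (0 : ℝ))]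
        apply le_of_eq
        ring
    have hkey : ((t : ℂ) * I) * (SH l a - (sl l t : ℂ)) =
        (cexp (a * ((l / 2 : ℝ) : ℂ)) - cexp ((t : ℂ) * I * ((l / 2 : ℝ) : ℂ))) -
        (cexp (a * ((-(l / 2) : ℝ) : ℂ)) - cexp ((t : ℂ) * I * ((-(l / 2) : ℝ) : ℂ))) -
        (a - (t : ℂ) * I) * SH l a := by
      rw [mul_sub, hE2, sub_mul, hE1]
      ring
    have hn : |t| * ‖SH l a - (sl l t : ℂ)‖ ≤ 4 * l * (1 / 2 + |t - a.im|) := by
      have h4 : ‖((t : ℂ) * I) * (SH l a - (sl l t : ℂ))‖ = |t| * ‖SH l a - (sl l t : ℂ)‖ := by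
        rw [norm_mul, norm_mul, Complex.norm_I, mul_one, Complex.norm_real, Real.norm_eq_abs]
      rw [← h4, hkey]
      have h5 : ‖(a - (t : ℂ) * I) * SH l a‖ ≤ 2 * l * ‖a - (t : ℂ) * I‖ := by
        rw [norm_mul, mul_comm]
        exact mul_le_mul_of_nonneg_right hS (norm_nonneg _)
      have h6 := norm_sub_le ((cexp (a * ((l / 2 : ℝ) : ℂ)) - cexp ((t : ℂ) * I * ((l / 2 : ℝ) : ℂ))) -
        (cexp (a * ((-(l / 2) : ℝ) : ℂ)) - cexp ((t : ℂ) * I * ((-(l / 2) : ℝ) : ℂ)))) ((a - (t : ℂ) * I) * SH l a)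
      have h7 := norm_sub_le (cexp (a * ((l / 2 : ℝ) : ℂ)) - cexp ((t : ℂ) * I * ((l / 2 : ℝ) : ℂ)))
        (cexp (a * ((-(l / 2) : ℝ) : ℂ)) - cexp ((t : ℂ) * I * ((-(l / 2) : ℝ) : ℂ)))
      have h8 : 4 * l * ‖a - (t : ℂ) * I‖ ≤ 4 * l * (1 / 2 + |t - a.im|) :=
        mul_le_mul_of_nonneg_left hd (by linarith)
      linarith
    have hx := norm_nonneg (SH l a - (sl l t : ℂ))
    have h9 : (1 + |t|) * ‖SH l a - (sl l t : ℂ)‖ ≤ 2 * (|t| * ‖SH l a - (sl l t : ℂ)‖) := by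
      nlinarith
    have h10 : (1 + |t|) * ‖SH l a - (sl l t : ℂ)‖ ≤ 8 * l * (1 + |t - a.im|) := by
      nlinarith
    rw [← mul_div_assoc, le_div_iff₀ hpos]
    linarith

end Pool.Agent.Lib.MP_2a816b_nt.PV
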