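import Pool.Agent.Lib.MP_2a816b_nt.PV.AAbd
import Pool.Agent.Lib.MP_2a816b_nt.PV.MultB

/-!
# JOB PBa (about 180 lines): error term and size of the main term
-/

open Complex Set Filter Topology MeasureTheory

namespace Pool.Agent.Lib.MP_2a816b_nt.PV

open Pool.Agent.Lib.MP_00e05b_nt Pool.Agent.Lib.MP_00e05b_nt.Mont

theorem PBa_norm {W : ℝ → ℝ} (z : ℂ) (a : ℂ) (t y : ℝ) :
    ‖(mx a : ℂ) * (z * (cexp (((a.im * y : ℝ) : ℂ) * I) * (ck W (t - a.im) : ℂ)))‖ =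
      (mx a : ℝ) * (‖z‖ * |ck W (t - a.im)|) := by
  rw [norm_mul, norm_mul, norm_mul, Complex.norm_exp_ofReal_mul_I, one_mul, Complex.norm_natCast, Complex.norm_real,
    Real.norm_eq_abs]

theorem PBa_re (hRH : RiemannHypothesis) {a : ℂ} (ha : xi a = 0) : a.re = 1 / 2 := by
  have h := re_of_RH hRH ha
  have h1 := congrArg Complex.re h
  rw [h1]
  simp

theorem PBa_term (hRH : RiemannHypothesis) {W : ℝ → ℝ} {CS C1 l t : ℝ} (hCS : 0 ≤ CS) (hC1 : 0 ≤ C1) (hl : 0 ≤ l)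
    (hS : ∀ a : ℂ, a.re = 1 / 2 → ‖SH l a - (sl l t : ℂ)‖ ≤ CS * l * ((1 + |t - a.im|) / (1 + |t|)))
    (hb : ∀ x : ℝ, |ck W x| ≤ C1 / (1 + |x|) ^ 3) (c : ℝ) (a : ℂ) :
    ‖(mx a : ℂ) * ((SH l a - (sl l t : ℂ)) * (cexp (((a.im * c : ℝ) : ℂ) * I) * (ck W (t - a.im) : ℂ)))‖ ≤
      (CS * C1 * l / (1 + |t|)) * ((mx a : ℝ) * (1 / (1 + |t - a.im|) ^ 2)) := by
  rw [PBa_norm]
  have h2 : (0 : ℝ) ≤ mx a := Nat.cast_nonneg _
  have hK : 0 ≤ CS * C1 * l / (1 + |t|) := by positivity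
  by_cases hx : xi a = 0
  · have h3 := hS a (PBa_re hRH hx)
    have h4 := hb (t - a.im)
    have hp : 0 < 1 + |t - a.im| := by positivity
    have hq : 0 < 1 + |t| := by positivity
    have h5 : ‖SH l a - (sl l t : ℂ)‖ * |ck W (t - a.im)| ≤
        (CS * l * ((1 + |t - a.im|) / (1 + |t|))) * (C1 / (1 + |t - a.im|) ^ 3) :=
      mul_le_mul h3 h4 (abs_nonneg _) (by positivity)
    have h6 : (CS * l * ((1 + |t - a.im|) / (1 + |t|))) * (C1 / (1 + |t - a.im|) ^ 3) =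
        (CS * C1 * l / (1 + |t|)) * (1 / (1 + |t - a.im|) ^ 2) := by
      have hne : 1 + |t - a.im| ≠ 0 := hp.ne'
      have hne2 : 1 + |t| ≠ 0 := hq.ne'
      field_simp
    rw [h6] at h5
    calc (mx a : ℝ) * (‖SH l a - (sl l t : ℂ)‖ * |ck W (t - a.im)|)
        ≤ (mx a : ℝ) * ((CS * C1 * l / (1 + |t|)) * (1 / (1 + |t - a.im|) ^ 2)) := mul_le_mul_of_nonneg_left h5 h2
      _ = _ := by ring
  · have h3 : mx a = 0 := mx_eq_zero hx
    rw [h3, Nat.cast_zero, zero_mul, zero_mul, mul_zero]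

theorem PBa_log {y : ℝ} (hy : 1 ≤ y) : 1 + Real.log y ≤ 5 * y ^ (1 / 4 : ℝ) := by
  have h1 := Real.log_le_rpow_div (x := y) (by linarith) (show (0 : ℝ) < 1 / 4 by norm_num)
  have h2 : (1 : ℝ) ≤ y ^ (1 / 4 : ℝ) := Real.one_le_rpow hy (by norm_num)
  have h3 : y ^ (1 / 4 : ℝ) / (1 / 4 : ℝ) = 4 * y ^ (1 / 4 : ℝ) := by ring
  rw [h3] at h1
  linarith

theorem PBa_L {l : ℝ} (hl : 0 < l) (hl1 : l ≤ 5 / 4) : 1 ≤ Real.log (4 / l) := by
  rw [Real.le_log_iff_exp_le (by positivity), le_div_iff₀ hl]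
  have h1 := Real.exp_one_lt_d9
  have h2 := Real.exp_pos 1
  nlinarith

theorem PBa_pt {A l : ℝ} (hA : 0 ≤ A) (hl : 0 < l) (hl1 : l ≤ 5 / 4) {t z : ℝ} (hz : 0 ≤ z)
    (hz1 : z ≤ A * Real.log (2 + |t|)) :
    sl l t ^ 2 * z ^ 2 ≤
      (225 * A ^ 2 * l ^ 2 * Real.log (4 / l) ^ 2) * (1 + ‖l * t‖) ^ (-(3 / 2) : ℝ) := by
  have hL := PBa_L hl hl1
  set L := Real.log (4 / l) with hLdef
  have hx : ‖l * t‖ = l * |t| := by rw [Real.norm_eq_abs, abs_mul, abs_of_pos hl]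
  rw [hx]
  set y : ℝ := 1 + l * |t| with hy
  have hy1 : 1 ≤ y := by
    have : 0 ≤ l * |t| := by positivity
    linarith
  have hy0 : 0 < y := by linarith
  have h1 : |sl l t| ≤ 3 * l / y := by
    rw [le_div_iff₀ hy0, hy]
    have h2 := sl_abs_le hl.le t
    have h3 := sl_mul_le l t
    nlinarith [abs_nonneg (sl l t)]
  have h2 : Real.log (2 + |t|) ≤ L * (5 * y ^ (1 / 4 : ℝ)) := by
    have h3 : 2 + |t| ≤ (4 / l) * y := by
      have h4 : (4 / l) * y = 4 / l + 4 * |t| := by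
        rw [hy]
        field_simp
      have h5 : 2 ≤ 4 / l := by
        rw [le_div_iff₀ hl]
        linarith
      rw [h4]
      linarith [abs_nonneg t]
    have h4 : Real.log (2 + |t|) ≤ L + Real.log y := by
      rw [hLdef, ← Real.log_mul (by positivity) hy0.ne']
      exact Real.log_le_log (by positivity) h3
    have h5 := PBa_log hy1
    have h6 : 0 ≤ Real.log y := Real.log_nonneg hy1
    calc Real.log (2 + |t|) ≤ L + Real.log y := h4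
      _ ≤ L * (1 + Real.log y) := by nlinarith
      _ ≤ L * (5 * y ^ (1 / 4 : ℝ)) := mul_le_mul_of_nonneg_left h5 (by linarith)
  have h3 : z ≤ A * (L * (5 * y ^ (1 / 4 : ℝ))) := hz1.trans (mul_le_mul_of_nonneg_left h2 hA)
  have h4 : sl l t ^ 2 ≤ (3 * l / y) ^ 2 := by
    rw [← sq_abs]
    exact pow_le_pow_left₀ (abs_nonneg _) h1 2
  have h5 : z ^ 2 ≤ (A * (L * (5 * y ^ (1 / 4 : ℝ)))) ^ 2 := pow_le_pow_left₀ hz h3 2
  have h6 : sl l t ^ 2 * z ^ 2 ≤ (3 * l / y) ^ 2 * (A * (L * (5 * y ^ (1 / 4 : ℝ)))) ^ 2 :=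
    mul_le_mul h4 h5 (sq_nonneg _) (sq_nonneg _)
  refine h6.trans (le_of_eq ?_)
  have h7 : (y ^ (1 / 4 : ℝ)) ^ 2 = y ^ (1 / 2 : ℝ) := by
    rw [← Real.rpow_natCast, ← Real.rpow_mul hy0.le]
    norm_num
  have h8 : y ^ (-(3 / 2) : ℝ) = y ^ (1 / 2 : ℝ) / y ^ 2 := by
    rw [eq_div_iff (by positivity), ← Real.rpow_natCast, ← Real.rpow_add hy0]
    norm_num
  rw [h8, ← h7]
  field_simp
  ring

theorem PBa_J : Integrable (fun x : ℝ => (1 + ‖x‖) ^ (-(3 / 2) : ℝ)) := by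
  refine integrable_one_add_norm (E := ℝ) (r := 3 / 2) ?_
  rw [Module.finrank_self]
  norm_num

/-- `mx a ≠ 0` implies `xi a = 0`, `Re a = 1/2` (`re_of_RH`), so `SH_sub_sl` applies; `|ck W x| ≤ C1/(1 + |x|)³` (`ck_bound`) and
`∑ mx a/(1 + |t - γ|)² ≤ C2 log (2 + |t|)` (`local_count`): `‖Ez‖ ≤ C C1 C2 l log (2 + |t|)/(1 + |t|)`. The identity: split the
summable series (`AA_summable`). -/
theorem Ez_bound (hRH : RiemannHypothesis) {W : ℝ → ℝ} (hW : EB W (1 / 8)) :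
    ∃ C : ℝ, 0 ≤ C ∧ ∀ l : ℝ, 0 ≤ l → l ≤ 5 / 4 → ∀ c t : ℝ,
      ‖Ez W l c t‖ ≤ C * l * (Real.log (2 + |t|) / (1 + |t|)) ∧
      ∑' a : ℂ, (mx a : ℂ) * (SH l a * (cexp (((a.im * c : ℝ) : ℂ) * I) * (ck W (t - a.im) : ℂ))) =
        (sl l t : ℂ) * AA W t c + Ez W l c t := by
  obtain ⟨CS, hCS, hS⟩ := SH_sub_sl
  obtain ⟨C1, hC1, hb⟩ := ck_bound hW.es (by norm_num)
  obtain ⟨C2, hC2, hloc⟩ := local_count hRH
  refine ⟨CS * C1 * C2, by positivity, fun l hl hl1 c t => ?_⟩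
  obtain ⟨hsum, hle⟩ := hloc t
  have hterm := PBa_term (W := W) hRH hCS hC1 hl (fun a ha => hS l hl hl1 a ha t) hb c
  have hEs : Summable (fun a : ℂ => (mx a : ℂ) * ((SH l a - (sl l t : ℂ)) *
      (cexp (((a.im * c : ℝ) : ℂ) * I) * (ck W (t - a.im) : ℂ)))) :=
    Summable.of_norm_bounded (hsum.mul_left _) hterm
  constructor
  · have h1 : ‖Ez W l c t‖ ≤ ∑' a : ℂ, (CS * C1 * l / (1 + |t|)) * ((mx a : ℝ) * (1 / (1 + |t - a.im|) ^ 2)) := by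
      unfold Ez
      exact tsum_of_norm_bounded (hsum.mul_left _).hasSum hterm
    refine h1.trans ?_
    rw [tsum_mul_left]
    have hK : 0 ≤ CS * C1 * l / (1 + |t|) := by positivity
    refine (mul_le_mul_of_nonneg_left hle hK).trans (le_of_eq ?_)
    ring
  · have hAs := (AA_summable hW.es (by norm_num) t c).mul_left (sl l t : ℂ)
    unfold AA Ez
    rw [← tsum_mul_left, ← hAs.tsum_add hEs]
    refine tsum_congr fun a => ?_
    ring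

/-- `|sl l t| ≤ min l (2/|t|)`, `‖AA‖ ≤ C log (2 + |t|)`: split at `|t| = 1/l`. -/
theorem slAA_bound (hRH : RiemannHypothesis) {W : ℝ → ℝ} (hW : EB W (1 / 8)) :
    ∃ C : ℝ, 0 ≤ C ∧ ∀ l : ℝ, 0 < l → l ≤ 5 / 4 → ∀ c : ℝ,
      Integrable (fun t : ℝ => sl l t ^ 2 * ‖AA W t c‖ ^ 2) ∧
      ∫ t : ℝ, sl l t ^ 2 * ‖AA W t c‖ ^ 2 ≤ C * l * Real.log (4 / l) ^ 2 := by
  obtain ⟨A, hA, hAA⟩ := AA_le hRH hW.es (by norm_num)
  have hJ := PBa_J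
  set J : ℝ := ∫ x : ℝ, (1 + ‖x‖) ^ (-(3 / 2) : ℝ) with hJdef
  have hJ0 : 0 ≤ J := integral_nonneg fun x => by positivity
  refine ⟨225 * A ^ 2 * J, by positivity, fun l hl hl1 c => ?_⟩
  have hcont : Continuous (fun t : ℝ => sl l t ^ 2 * ‖AA W t c‖ ^ 2) := by
    have h1 : Continuous (fun t : ℝ => sl l t) := sl_cont.comp (continuous_const.prodMk continuous_id)
    have h2 := AA_continuous hW.es (by norm_num) c
    exact (h1.pow 2).mul (h2.norm.pow 2)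
  have hpt : ∀ t : ℝ, sl l t ^ 2 * ‖AA W t c‖ ^ 2 ≤
      (225 * A ^ 2 * l ^ 2 * Real.log (4 / l) ^ 2) * (1 + ‖l * t‖) ^ (-(3 / 2) : ℝ) := fun t =>
    PBa_pt hA hl hl1 (norm_nonneg _) (hAA t c)
  have hi : Integrable (fun t : ℝ => (225 * A ^ 2 * l ^ 2 * Real.log (4 / l) ^ 2) * (1 + ‖l * t‖) ^ (-(3 / 2) : ℝ)) :=
    (hJ.comp_mul_left' hl.ne').const_mul _
  have hint : Integrable (fun t : ℝ => sl l t ^ 2 * ‖AA W t c‖ ^ 2) := by
    refine hi.mono' hcont.aestronglyMeasurable (Eventually.of_forall fun t => ?_)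
    rw [Real.norm_eq_abs, abs_of_nonneg (by positivity)]
    exact hpt t
  refine ⟨hint, (integral_mono hint hi hpt).trans (le_of_eq ?_)⟩
  rw [integral_const_mul]
  have h1 : (∫ t : ℝ, (1 + ‖l * t‖) ^ (-(3 / 2) : ℝ)) = l⁻¹ * J := by
    have h2 := Measure.integral_comp_mul_left (fun x : ℝ => (1 + ‖x‖) ^ (-(3 / 2) : ℝ)) l
    rw [h2, smul_eq_mul, abs_of_pos (inv_pos.2 hl)]
  rw [h1]
  field_simp

end Pool.Agent.Lib.MP_2a816b_nt.PV
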