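import Pool.Agent.Lib.MP_2a816b_nt.PV.Tail
import Pool.Agent.Lib.MP_2a816b_nt.PV.WinB
import Pool.Agent.Lib.MP_2a816b_nt.PV.KerG

/-!
# JOB SUp (about 200 lines): upper bound of the averaged variance
-/

open Complex Set Filter Topology MeasureTheory

namespace Pool.Agent.Lib.MP_2a816b_nt.PV

open Pool.Agent.Lib.MP_00e05b_nt Pool.Agent.Lib.MP_00e05b_nt.Mont

private lemma SUp_log_three : (1 : ℝ) ≤ Real.log 3 := by
  rw [Real.le_log_iff_exp_le (by norm_num)]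
  have := Real.exp_one_lt_d9
  linarith

private lemma SUp_Mq_nonneg {W : ℝ → ℝ} {c1 c2 τ : ℝ} (hc : c1 ≤ c2) (hτ : 0 ≤ τ) : 0 ≤ Mq W c1 c2 τ := by
  unfold Mq
  refine setIntegral_nonneg measurableSet_Ioi fun w hw => ?_
  have hw' : (0 : ℝ) < w := hw
  exact mul_nonneg (qq_nonneg hw'.le) (AC_nonneg W hc (by positivity))

/-- the power integral -/
private lemma SUp_pow {T l1 l2 : ℝ} (hT : 0 < T) (h1 : 1 / T ≤ l1) (h12 : l1 ≤ l2) :
    IntervalIntegrable (fun l : ℝ => 1 / l ^ 3 * l ^ (5 / 4 : ℝ)) volume l1 l2 ∧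
    ∫ l in l1..l2, 1 / l ^ 3 * l ^ (5 / 4 : ℝ) ≤ 4 / 3 * T ^ (3 / 4 : ℝ) := by
  have hT' : 0 < 1 / T := by positivity
  have hl1 : 0 < l1 := lt_of_lt_of_le hT' h1
  have hl2 : 0 < l2 := lt_of_lt_of_le hl1 h12
  have hc : ContinuousOn (fun l : ℝ => 1 / l ^ 3 * l ^ (5 / 4 : ℝ)) (uIcc l1 l2) := by
    rw [uIcc_of_le h12]
    intro l hl
    have hl0 : 0 < l := lt_of_lt_of_le hl1 hl.1
    refine ContinuousAt.continuousWithinAt ?_
    refine ContinuousAt.mul ?_ (Real.continuousAt_rpow_const _ _ (Or.inl hl0.ne'))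
    exact (continuousAt_const).div (continuousAt_id.pow 3) (pow_ne_zero 3 hl0.ne')
  refine ⟨hc.intervalIntegrable, ?_⟩
  have he : ∫ l in l1..l2, 1 / l ^ 3 * l ^ (5 / 4 : ℝ) = ∫ l in l1..l2, l ^ (-(7 / 4) : ℝ) := by
    apply intervalIntegral.integral_congr
    intro l hl
    rw [uIcc_of_le h12] at hl
    have hl0 : 0 < l := lt_of_lt_of_le hl1 hl.1
    simp only
    rw [one_div, ← Real.rpow_natCast, ← Real.rpow_neg hl0.le, ← Real.rpow_add hl0]
    congr 1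
    norm_num
  rw [he, integral_rpow (Or.inr ⟨by norm_num, ?_⟩)]
  · have e1 : (-(7 / 4) : ℝ) + 1 = -(3 / 4) := by norm_num
    rw [e1]
    have p2 : 0 ≤ l2 ^ (-(3 / 4) : ℝ) := (Real.rpow_pos_of_pos hl2 _).le
    have p1 : l1 ^ (-(3 / 4) : ℝ) ≤ T ^ (3 / 4 : ℝ) := by
      have h3 : l1 ^ (-(3 / 4) : ℝ) ≤ (1 / T) ^ (-(3 / 4) : ℝ) :=
        Real.rpow_le_rpow_of_nonpos hT' h1 (by norm_num)
      have h4 : (1 / T) ^ (-(3 / 4) : ℝ) = T ^ (3 / 4 : ℝ) := by
        rw [one_div, Real.inv_rpow hT.le, Real.rpow_neg hT.le, inv_inv]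
      linarith
    linarith
  · rw [uIcc_of_le h12]
    intro h
    linarith [h.1]

/-- `star_avg`; split `[lT T, log 3]` at `l2 = T^(-(1 - δ))` (`inner_ii`), `tail_small` with `κ/2`. For `l ∈ [lT T, l2]`:
`su l ≤ -log l ≤ -log (lT T) ≤ L` and `su l ≥ -log l2 - log 2 ≥ (1 - δ) L - 1`, so the window is contained in
`[(a - δ) L - 1, b L] ⊂ [c1 + 1/8, c2 - 1/8]` with `c1 = (a - δ) L - 2 ≥ 1`, `c2 = b L + 1`. By `w3_le`, `win_Dt` and `kern_GG`
the part is `≤ (1/(T L²)) ((π II)⁻¹ (Mq (1/lT T) - Mq (1/l2)) + C (c2 - c1) ∫_{lT T}^{l2} l^(5/4 - 3) dl)`;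
`1/lT T ≤ T`, `Mq_mono`, `Mq ≥ 0`, and the error is `≤ C (B L + 4) (4/3) T^(3/4)/(T L²) → 0`. -/
theorem S_upper (hRH : RiemannHypothesis) {W : ℝ → ℝ} (hW : EB W (1 / 8)) {δ κ B : ℝ} (hδ : 0 < δ) (hδ1 : δ < 1)
    (hκ : 0 < κ) :
    ∀ᶠ T : ℝ in atTop, ∀ a b : ℝ, 1 ≤ a → a ≤ b → b ≤ B →
      ∫ α in a..b, RR α T ≤ (Real.pi * (T * Real.log T ^ 2) * II W)⁻¹ *
        Mq W ((a - δ) * Real.log T - 2) (b * Real.log T + 1) T + κ := by
  obtain ⟨C, hC0, hC⟩ := win_Dt hRH hW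
  have hII : 0 < II W := II_pos hW (by norm_num)
  have hπ := Real.pi_pos
  have htail := tail_small (δ := δ) (κ := κ / 2) (B := B) hRH hδ hδ1 (by linarith)
  have hlog : ∀ᶠ T : ℝ in atTop, max 1 (3 / (1 - δ)) ≤ Real.log T := Real.tendsto_log_atTop.eventually_ge_atTop _
  have hpow : ∀ᶠ T : ℝ in atTop, 2 ≤ T ^ δ := (tendsto_rpow_atTop hδ).eventually_ge_atTop _
  have herr : ∀ᶠ T : ℝ in atTop, C * (|B| + 3) * (4 / 3) * T ^ (-(1 / 4) : ℝ) ≤ κ / 2 := by
    have h1 : Tendsto (fun T : ℝ => C * (|B| + 3) * (4 / 3) * T ^ (-(1 / 4) : ℝ)) atTop (𝓝 (C * (|B| + 3) * (4 / 3) * 0)) :=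
      (tendsto_rpow_neg_atTop (by norm_num : (0 : ℝ) < 1 / 4)).const_mul _
    rw [mul_zero] at h1
    exact h1.eventually_le_const (by linarith)
  filter_upwards [htail, hlog, hpow, herr, eventually_ge_atTop (2 : ℝ)] with T htail hlog hpow herr hT2 a b ha hab hbB
  have hT0 : 0 < T := by linarith
  have hL1 : 1 ≤ Real.log T := (le_max_left _ _).trans hlog
  have hL3 : 3 / (1 - δ) ≤ Real.log T := (le_max_right _ _).trans hlog
  have hδ' : 0 < 1 - δ := by linarith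
  set L := Real.log T with hLdef
  have hL0 : 0 < L := by linarith
  have hL3' : 3 ≤ (1 - δ) * L := by
    rw [div_le_iff₀ hδ'] at hL3
    linarith
  -- the splitting point
  set l2 := T ^ (-(1 - δ)) with hl2def
  have hl2pos : 0 < l2 := Real.rpow_pos_of_pos hT0 _
  have hl2log : Real.log l2 = -(1 - δ) * L := Real.log_rpow hT0 _
  have hlT1 : 1 / T ≤ lT T := lT_ge (by linarith)
  have hlT0 : 0 < lT T := lt_of_lt_of_le (by positivity) hlT1
  have hl2one : l2 ≤ 1 := Real.rpow_le_one_of_one_le_of_nonpos (by linarith) (by linarith)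
  have hl23 : l2 ≤ Real.log 3 := hl2one.trans SUp_log_three
  have hlTl2 : lT T ≤ l2 := by
    refine (lT_le (by linarith)).trans ?_
    have h1 : 1 / (T - 1 / 2) ≤ 2 / T := by
      rw [div_le_div_iff₀ (by linarith) hT0]
      linarith
    refine h1.trans ?_
    rw [hl2def, div_le_iff₀ hT0]
    have h2 : T ^ (-(1 - δ)) * T = T ^ δ := by
      nth_rewrite 2 [← Real.rpow_one T]
      rw [← Real.rpow_add hT0]
      congr 1
      ring
    rw [h2]
    exact hpow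
  -- the integrand
  set F : ℝ → ℝ := fun l => w3 l * ∫ u in ((a - 1) * L + su l)..((b - 1) * L + su l), Dt l u ^ 2 with hF
  have hFii : ∀ x y : ℝ, 0 < x → x ≤ y → y ≤ Real.log 3 → IntervalIntegrable F volume x y := by
    intro x y hx hxy hy
    have hsub : Icc x y ⊆ Ioi 0 := fun z hz => lt_of_lt_of_le hx hz.1
    exact inner_ii hx hxy (hy.trans log_three_le) ((su_cont.mono hsub).const_add _) ((su_cont.mono hsub).const_add _)
      (w3_cont.mono hsub)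
  have hi1 := hFii (lT T) l2 hlT0 hlTl2 hl23
  have hi2 := hFii l2 (Real.log 3) hl2pos hl23 le_rfl
  rw [(star_avg hT2 hab).2, ← hLdef]
  have hsplit : ∫ l in (lT T)..(Real.log 3), F l = (∫ l in (lT T)..l2, F l) + ∫ l in l2..(Real.log 3), F l :=
    (intervalIntegral.integral_add_adjacent_intervals hi1 hi2).symm
  have htl := htail a b ha hab hbB
  change 1 / (T * L ^ 2) * ∫ l in (lT T)..(Real.log 3), F l ≤ _
  change 1 / (T * L ^ 2) * ∫ l in l2..(Real.log 3), F l ≤ κ / 2 at htl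
  rw [hsplit, mul_add]
  set c1 := (a - δ) * L - 2 with hc1
  set c2 := b * L + 1 with hc2
  have haδ : (1 - δ) * L ≤ (a - δ) * L := mul_le_mul_of_nonneg_right (by linarith) hL0.le
  have hc1one : 1 ≤ c1 := by
    rw [hc1]
    linarith
  have habL : a * L ≤ b * L := mul_le_mul_of_nonneg_right hab hL0.le
  have hδL : 0 ≤ δ * L := by positivity
  have hc12 : c1 ≤ c2 := by
    rw [hc1, hc2, sub_mul]
    linarith
  have hB1 : 1 ≤ B := by linarith
  have hclen : c2 - c1 ≤ (|B| + 3) * L := by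
    rw [hc1, hc2, abs_of_pos (by linarith)]
    have h1 : (b - a + δ) * L ≤ B * L := mul_le_mul_of_nonneg_right (by linarith) hL0.le
    have h2 : b * L + 1 - ((a - δ) * L - 2) = (b - a + δ) * L + 3 := by ring
    have h3 : (B + 3) * L = B * L + 3 * L := by ring
    rw [h2, h3]
    linarith
  -- pointwise bound
  have hpt : ∀ l ∈ Icc (lT T) l2, F l ≤ (Real.pi * II W)⁻¹ * (1 / l ^ 3 * ∫ t in Ioi (0 : ℝ), sl l t ^ 2 * GG W c1 c2 t) +
      C * (c2 - c1) * (1 / l ^ 3 * l ^ (5 / 4 : ℝ)) := by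
    intro l hl
    have hl0 : 0 < l := lt_of_lt_of_le hlT0 hl.1
    have hl1 : l ≤ 1 := hl.2.trans hl2one
    have hl3 : 0 < l ^ 3 := by positivity
    have hw := (hC l hl0 (by linarith) c1 c2 hc1one hc12).1
    have hsu1 : su l ≤ L := by
      refine (su_le hl0).trans ?_
      have h1 : Real.log (1 / T) ≤ Real.log l := Real.log_le_log (by positivity) (hlT1.trans hl.1)
      rw [one_div, Real.log_inv] at h1
      linarith
    have hsu2 : (1 - δ) * L - 1 ≤ su l := by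
      have h1 := su_ge hl0 (by linarith : l ≤ 5 / 4)
      have h2 : Real.log l ≤ Real.log l2 := Real.log_le_log hl0 hl.2
      have h3 : Real.log 2 ≤ 1 := by
        have := Real.log_two_lt_d9
        linarith
      rw [hl2log] at h2
      linarith
    have q1 : (a - 1) * L + ((1 - δ) * L - 1) = (a - δ) * L - 1 := by ring
    have q2 : (b - 1) * L + L = b * L := by ring
    have q3 : (a - 1) * L ≤ (b - 1) * L := mul_le_mul_of_nonneg_right (by linarith) hL0.le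
    have hin : ∫ u in ((a - 1) * L + su l)..((b - 1) * L + su l), Dt l u ^ 2 ≤
        ∫ u in (c1 + 1 / 8)..(c2 - 1 / 8), Dt l u ^ 2 := by
      refine intervalIntegral.integral_mono_interval ?_ ?_ ?_ (Eventually.of_forall fun u => by positivity)
        (Dt_ii hl0.le (by linarith) _ _)
      · rw [hc1]
        linarith
      · linarith
      · rw [hc2]
        linarith
    have hin0 : 0 ≤ ∫ u in ((a - 1) * L + su l)..((b - 1) * L + su l), Dt l u ^ 2 :=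
      intervalIntegral.integral_nonneg (by linarith) (fun u _ => by positivity)
    calc F l ≤ 1 / l ^ 3 * ∫ u in ((a - 1) * L + su l)..((b - 1) * L + su l), Dt l u ^ 2 :=
          mul_le_mul_of_nonneg_right (w3_le hl0) hin0
      _ ≤ 1 / l ^ 3 * ((Real.pi * II W)⁻¹ * (∫ t in Ioi (0 : ℝ), sl l t ^ 2 * GG W c1 c2 t) +
          C * (c2 - c1) * l ^ (5 / 4 : ℝ)) := mul_le_mul_of_nonneg_left (hin.trans hw) (by positivity)
      _ = _ := by ring
  obtain ⟨hk1, hk2⟩ := kern_GG hRH hW hc12 hlT0 hlTl2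
  obtain ⟨hp1, hp2⟩ := SUp_pow hT0 hlT1 hlTl2
  have hint := intervalIntegral.integral_mono_on hlTl2 hi1
    ((hk1.const_mul (Real.pi * II W)⁻¹).add (hp1.const_mul (C * (c2 - c1)))) hpt
  have hsum : ∫ l in (lT T)..l2, ((Real.pi * II W)⁻¹ * (1 / l ^ 3 * ∫ t in Ioi (0 : ℝ), sl l t ^ 2 * GG W c1 c2 t) +
      C * (c2 - c1) * (1 / l ^ 3 * l ^ (5 / 4 : ℝ))) =
      (Real.pi * II W)⁻¹ * (Mq W c1 c2 (1 / lT T) - Mq W c1 c2 (1 / l2)) +
      C * (c2 - c1) * ∫ l in (lT T)..l2, 1 / l ^ 3 * l ^ (5 / 4 : ℝ) := by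
    rw [intervalIntegral.integral_add (hk1.const_mul _) (hp1.const_mul _), intervalIntegral.integral_const_mul,
      intervalIntegral.integral_const_mul, hk2]
  have hint' : ∫ l in (lT T)..l2, F l ≤ (Real.pi * II W)⁻¹ * (Mq W c1 c2 (1 / lT T) - Mq W c1 c2 (1 / l2)) +
      C * (c2 - c1) * ∫ l in (lT T)..l2, 1 / l ^ 3 * l ^ (5 / 4 : ℝ) := by
    rw [← hsum]
    exact hint
  have hM1 : Mq W c1 c2 (1 / lT T) ≤ Mq W c1 c2 T := by
    refine Mq_mono hRH hW.es (by norm_num) le_rfl le_rfl hc12 (by positivity) ?_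
    rw [div_le_iff₀ hlT0]
    rw [div_le_iff₀ hT0] at hlT1
    linarith
  have hM2 : 0 ≤ Mq W c1 c2 (1 / l2) := SUp_Mq_nonneg hc12 (by positivity)
  have hpi : 0 < (Real.pi * II W)⁻¹ := by positivity
  have hfin : ∫ l in (lT T)..l2, F l ≤ (Real.pi * II W)⁻¹ * Mq W c1 c2 T +
      C * ((|B| + 3) * L) * (4 / 3 * T ^ (3 / 4 : ℝ)) := by
    refine hint'.trans (add_le_add ?_ ?_)
    · exact mul_le_mul_of_nonneg_left (by linarith) hpi.le
    · have hC1 : C * (c2 - c1) ≤ C * ((|B| + 3) * L) := mul_le_mul_of_nonneg_left hclen hC0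
      have hC2 : 0 ≤ C * (c2 - c1) := mul_nonneg hC0 (by linarith)
      calc C * (c2 - c1) * ∫ l in (lT T)..l2, 1 / l ^ 3 * l ^ (5 / 4 : ℝ)
          ≤ C * (c2 - c1) * (4 / 3 * T ^ (3 / 4 : ℝ)) := mul_le_mul_of_nonneg_left hp2 hC2
        _ ≤ _ := mul_le_mul_of_nonneg_right hC1 (by positivity)
  have hTL : 0 < T * L ^ 2 := by positivity
  have h1 : 1 / (T * L ^ 2) * (∫ l in (lT T)..l2, F l) ≤ 1 / (T * L ^ 2) * ((Real.pi * II W)⁻¹ * Mq W c1 c2 T +
      C * ((|B| + 3) * L) * (4 / 3 * T ^ (3 / 4 : ℝ))) := mul_le_mul_of_nonneg_left hfin (by positivity)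
  have h2 : 1 / (T * L ^ 2) * (C * ((|B| + 3) * L) * (4 / 3 * T ^ (3 / 4 : ℝ))) ≤ κ / 2 := by
    refine le_trans ?_ herr
    have e1 : T ^ (-(1 / 4) : ℝ) = T ^ (3 / 4 : ℝ) / T := by
      rw [eq_div_iff hT0.ne']
      nth_rewrite 2 [← Real.rpow_one T]
      rw [← Real.rpow_add hT0]
      norm_num
    rw [e1]
    have e2 : 1 / (T * L ^ 2) * (C * ((|B| + 3) * L) * (4 / 3 * T ^ (3 / 4 : ℝ))) =
        (C * (|B| + 3) * (4 / 3) * (T ^ (3 / 4 : ℝ) / T)) * (1 / L) := by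
      field_simp
    rw [e2]
    have e3 : 1 / L ≤ 1 := by
      rw [div_le_one hL0]
      exact hL1
    have e4 : 0 ≤ C * (|B| + 3) * (4 / 3) * (T ^ (3 / 4 : ℝ) / T) := by positivity
    calc _ ≤ (C * (|B| + 3) * (4 / 3) * (T ^ (3 / 4 : ℝ) / T)) * 1 := mul_le_mul_of_nonneg_left e3 e4
      _ = _ := mul_one _
  have h3 : 1 / (T * L ^ 2) * ((Real.pi * II W)⁻¹ * Mq W c1 c2 T) =
      (Real.pi * (T * L ^ 2) * II W)⁻¹ * Mq W c1 c2 T := by
    field_simp
  rw [mul_add, h3] at h1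
  linarith

end Pool.Agent.Lib.MP_2a816b_nt.PV
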