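import Pool.Agent.Lib.MP_2a816b_nt.PV.Elem
import Pool.Agent.Lib.MP_2a816b_nt.PV.Meas

/-!
# JOB Star (about 220 lines): the variance in multiplicative coordinates

Checked numerically.
-/

open Complex Set Filter Topology MeasureTheory

namespace Pool.Agent.Lib.MP_2a816b_nt.PV

open Pool.Agent.Lib.MP_00e05b_nt Pool.Agent.Lib.MP_00e05b_nt.Mont

theorem Star_win {x H : ℝ} (hH : 0 ≤ H) (hx : 0 ≤ x - H / 2) (hn : ∀ n : ℕ, x ≠ n + H / 2) :
    psiWindow x H = Chebyshev.psi (x + H / 2) - Chebyshev.psi (x - H / 2) := by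
  have hx2 : 0 ≤ x + H / 2 := by linarith
  have h1 : Chebyshev.psi (x + H / 2) =
      (∑ n ∈ (Finset.Ioc 0 ⌊x + H / 2⌋₊).filter (fun n : ℕ => x - H / 2 ≤ (n : ℝ)), ArithmeticFunction.vonMangoldt n) +
      ∑ n ∈ (Finset.Ioc 0 ⌊x + H / 2⌋₊).filter (fun n : ℕ => ¬ x - H / 2 ≤ (n : ℝ)), ArithmeticFunction.vonMangoldt n := by
    rw [Finset.sum_filter_add_sum_filter_not]
    rfl
  have h2 : (Finset.Ioc 0 ⌊x + H / 2⌋₊).filter (fun n : ℕ => ¬ x - H / 2 ≤ (n : ℝ)) = Finset.Ioc 0 ⌊x - H / 2⌋₊ := by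
    ext n
    rw [Finset.mem_filter, Finset.mem_Ioc, Finset.mem_Ioc, not_le, Nat.le_floor_iff hx2, Nat.le_floor_iff hx]
    constructor
    · rintro ⟨⟨a1, a2⟩, a3⟩
      exact ⟨a1, a3.le⟩
    · rintro ⟨a1, a2⟩
      refine ⟨⟨a1, by linarith⟩, lt_of_le_of_ne a2 fun h => hn n ?_⟩
      linarith
  have h3 : Finset.Icc 1 ⌊x + H / 2⌋₊ = Finset.Ioc 0 ⌊x + H / 2⌋₊ := by
    ext n
    rw [Finset.mem_Icc, Finset.mem_Ioc, Nat.succ_le_iff]
  have h4 : Chebyshev.psi (x - H / 2) = ∑ n ∈ Finset.Ioc 0 ⌊x - H / 2⌋₊, ArithmeticFunction.vonMangoldt n := rfl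
  rw [h1, h2, h4]
  unfold psiWindow
  rw [h3]
  ring

/-- the change of variables -/
noncomputable def Star_f (H l : ℝ) : ℝ := H / 2 * ((Real.exp l + 1) / (Real.exp l - 1))

theorem Star_exp {l : ℝ} (hl : 0 < l) : 0 < Real.exp l - 1 := by
  have := Real.one_lt_exp_iff.2 hl
  linarith

theorem Star_deriv (H : ℝ) {l : ℝ} (hl : 0 < l) :
    HasDerivAt (Star_f H) (-(H / (2 * Real.sinh (l / 2)) ^ 2)) l := by
  have h0 := Star_exp hl
  have h1 : HasDerivAt (fun l => (Real.exp l + 1) / (Real.exp l - 1))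
      ((Real.exp l * (Real.exp l - 1) - (Real.exp l + 1) * Real.exp l) / (Real.exp l - 1) ^ 2) l :=
    ((Real.hasDerivAt_exp l).add_const 1).div ((Real.hasDerivAt_exp l).sub_const 1) h0.ne'
  refine (h1.const_mul (H / 2)).congr_deriv ?_
  have h2 : (2 * Real.sinh (l / 2)) ^ 2 = (Real.exp l - 1) ^ 2 / Real.exp l := by
    have h3 : 2 * Real.sinh (l / 2) = Real.exp (l / 2) - Real.exp (-(l / 2)) := by
      rw [Real.sinh_eq]
      ring
    have h4 : Real.exp l = Real.exp (l / 2) ^ 2 := by
      rw [← Real.exp_nat_mul]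
      congr 1
      push_cast
      ring
    rw [h3, h4, Real.exp_neg]
    have h5 := Real.exp_pos (l / 2)
    field_simp
  rw [h2]
  have h6 := Real.exp_pos l
  field_simp
  ring

theorem Star_sinh {l : ℝ} : 2 * Real.sinh (l / 2) * Real.exp (l / 2) = Real.exp l - 1 := by
  rw [Real.sinh_eq]
  have h4 : Real.exp l = Real.exp (l / 2) * Real.exp (l / 2) := by
    rw [← Real.exp_add]
    congr 1
    ring
  have h5 : Real.exp (-(l / 2)) * Real.exp (l / 2) = 1 := by
    rw [← Real.exp_add, neg_add_cancel, Real.exp_zero]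
  rw [h4]
  linear_combination -h5

/-- the values at `u = log H + su l` -/
theorem Star_vals {H l : ℝ} (hH : 0 < H) (hl : 0 < l) :
    Real.exp (Real.log H + su l) = H / (2 * Real.sinh (l / 2)) ∧
    Real.exp (Real.log H + su l + l / 2) = Star_f H l + H / 2 ∧
    Real.exp (Real.log H + su l - l / 2) = Star_f H l - H / 2 := by
  have hS : 0 < 2 * Real.sinh (l / 2) := Elem_sinh_pos hl
  have h0 := Star_exp hl
  have hE := Star_sinh (l := l)
  have h1 : Real.exp (Real.log H + su l) = H / (2 * Real.sinh (l / 2)) := by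
    unfold su
    rw [Real.exp_add, Real.exp_neg, Real.exp_log hH, Real.exp_log hS]
    rfl
  have hexp : Real.exp (l / 2) ≠ 0 := (Real.exp_pos _).ne'
  have hSeq : 2 * Real.sinh (l / 2) = (Real.exp l - 1) / Real.exp (l / 2) := by
    rw [← hE]
    field_simp
  have h4 : Real.exp l = Real.exp (l / 2) * Real.exp (l / 2) := by
    rw [← Real.exp_add]
    congr 1
    ring
  refine ⟨h1, ?_, ?_⟩
  · rw [Real.exp_add, h1, hSeq]
    unfold Star_f
    rw [div_div_eq_mul_div, div_mul_eq_mul_div, mul_assoc, ← h4]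
    field_simp
    ring
  · rw [sub_eq_add_neg, Real.exp_add, h1, hSeq, Real.exp_neg]
    unfold Star_f
    field_simp
    ring

theorem Star_key {H l : ℝ} (hH : 0 < H) (hl : 0 < l) :
    (Chebyshev.psi (Star_f H l + H / 2) - Chebyshev.psi (Star_f H l - H / 2) - H) ^ 2 =
      H / (2 * Real.sinh (l / 2)) * Dt l (Real.log H + su l) ^ 2 := by
  obtain ⟨h1, h2, h3⟩ := Star_vals hH hl
  have hS : 0 < 2 * Real.sinh (l / 2) := Elem_sinh_pos hl
  set u := Real.log H + su l with hu
  have e1 : Real.exp (-(u / 2)) * Real.exp (u / 2) = 1 := by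
    rw [← Real.exp_add, neg_add_cancel, Real.exp_zero]
  have e2 : Real.exp (u / 2) * Real.exp (u / 2) = H / (2 * Real.sinh (l / 2)) := by
    rw [← Real.exp_add, ← h1]
    congr 1
    ring
  have e3 : 2 * Real.sinh (l / 2) * (Real.exp (u / 2) * Real.exp (u / 2)) = H := by
    rw [e2]
    field_simp
  have e4 : Chebyshev.psi (Star_f H l + H / 2) - Chebyshev.psi (Star_f H l - H / 2) - H =
      Real.exp (u / 2) * Dt l u := by
    unfold Dt
    rw [h2, h3]
    linear_combination (-(Chebyshev.psi (Star_f H l + H / 2) - Chebyshev.psi (Star_f H l - H / 2))) * e1 + e3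
  rw [e4, mul_pow, pow_two (Real.exp (u / 2)), e2]

theorem Star_anti {H : ℝ} (hH : 0 < H) {l1 l2 : ℝ} (h1 : 0 < l1) (h12 : l1 < l2) : Star_f H l2 < Star_f H l1 := by
  have e1 := Star_exp h1
  have e2 := Star_exp (h1.trans h12)
  have e3 := Real.exp_lt_exp.2 h12
  unfold Star_f
  refine mul_lt_mul_of_pos_left ?_ (by positivity)
  rw [div_lt_div_iff₀ e2 e1]
  nlinarith

theorem Star_image {H T : ℝ} (hH : 0 < H) (hT : 2 ≤ T) :
    Star_f H '' Icc (lT T) (Real.log 3) = Icc H (T * H) := by
  have hT0 : 0 < 2 * T - 1 := by linarith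
  have hlT0 : 0 < lT T := lt_of_lt_of_le (by positivity) (lT_ge (by linarith : (1 : ℝ) ≤ T))
  have hexpT : Real.exp (lT T) = (2 * T + 1) / (2 * T - 1) := by
    unfold lT
    rw [Real.exp_log (by positivity)]
  ext x
  constructor
  · rintro ⟨l, ⟨hl1, hl2⟩, rfl⟩
    have hl0 : 0 < l := hlT0.trans_le hl1
    have e1 := Star_exp hl0
    have e2 : Real.exp l ≤ 3 := by
      have := Real.exp_le_exp.2 hl2
      rwa [Real.exp_log (by norm_num)] at this
    have e3 : (2 * T + 1) / (2 * T - 1) ≤ Real.exp l := by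
      rw [← hexpT]
      exact Real.exp_le_exp.2 hl1
    rw [div_le_iff₀ hT0] at e3
    have e4 : Star_f H l = H * ((Real.exp l + 1) / (2 * (Real.exp l - 1))) := by
      unfold Star_f
      field_simp
    rw [e4]
    constructor
    · refine le_mul_of_one_le_right hH.le ?_
      rw [one_le_div (by positivity)]
      linarith
    · rw [mul_comm T H]
      refine mul_le_mul_of_nonneg_left ?_ hH.le
      rw [div_le_iff₀ (by positivity)]
      nlinarith
  · rintro ⟨hx1, hx2⟩
    have hx0 : 0 < x - H / 2 := by linarith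
    have hy : 0 < (x + H / 2) / (x - H / 2) := by
      have : 0 < x + H / 2 := by linarith
      positivity
    refine ⟨Real.log ((x + H / 2) / (x - H / 2)), ⟨?_, ?_⟩, ?_⟩
    · unfold lT
      refine Real.log_le_log (by positivity) ?_
      rw [div_le_div_iff₀ hT0 hx0]
      nlinarith
    · refine Real.log_le_log hy ?_
      rw [div_le_iff₀ hx0]
      linarith
    · unfold Star_f
      rw [Real.exp_log hy]
      have e5 : (x + H / 2) / (x - H / 2) + 1 = 2 * x / (x - H / 2) := by
        rw [div_add_one hx0.ne']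
        congr 1
        ring
      have e6 : (x + H / 2) / (x - H / 2) - 1 = H / (x - H / 2) := by
        rw [div_sub_one hx0.ne']
        congr 1
        ring
      rw [e5, e6, div_div_div_cancel_right₀ hx0.ne']
      field_simp

/-- Change of variables `x = (H/2) coth (l/2)`, `H = T^(α-1)`, in `∫_H^X (psiWindow x H - H)² dx`.

For `l > 0` and `u = log H + su l`: `2 sinh (l/2) e^u = H`, so with `x = cosh (l/2) e^u`: `e^(u + l/2) = x + H/2`,
`e^(u - l/2) = x - H/2`. `l = log 3` gives `x = H`, `l = lT T` gives `x = T H = X`. For `x > 0`: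
`psiWindow x H = ψ (x + H/2) - ψ (x - H/2)` unless `x - H/2` is a natural number (countably many `x`, a null set), and then
`psiWindow x H - H = e^(u/2) Dt l u`. `dx = -(H/4) / sinh² (l/2) dl`, `e^u = H / (2 sinh (l/2))`, so
`∫_H^X (..)² dx = ∫_{lT T}^{log 3} e^u Dt² (H/4)/sinh² (l/2) dl = H² ∫ w3 l Dt² dl`, and `H²/(X H log T) = 1/(T log T)`.
Use `MeasureTheory.integral_image_eq_integral_abs_deriv_smul` for the injective map `l ↦ (H/2) cosh (l/2)/sinh (l/2)` on
`Icc (lT T) (log 3)` (strictly decreasing, image `Icc H X`). -/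
theorem star {T : ℝ} (hT : 2 ≤ T) (α : ℝ) :
    RR α T = (1 / (T * Real.log T)) * ∫ l in (lT T)..(Real.log 3), w3 l * Dt l ((α - 1) * Real.log T + su l) ^ 2 := by
  have hT0 : 0 < T := by linarith
  have hlT0 : 0 < lT T := lt_of_lt_of_le (by positivity) (lT_ge (by linarith : (1 : ℝ) ≤ T))
  have hlT3 : lT T ≤ Real.log 3 := lT_le_log_three (by linarith)
  set H := T ^ (α - 1) with hHdef
  have hH : 0 < H := Real.rpow_pos_of_pos hT0 _
  have hX : T ^ α = T * H := by
    rw [hHdef]
    have h1 : T * T ^ (α - 1) = T ^ (1 : ℝ) * T ^ (α - 1) := by rw [Real.rpow_one]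
    rw [h1, ← Real.rpow_add hT0]
    congr 1
    ring
  have hlogH : Real.log H = (α - 1) * Real.log T := Real.log_rpow hT0 _
  have hHX : H ≤ T * H := le_mul_of_one_le_left hH.le (by linarith)
  -- step 1
  have h1 : ∫ x in H..(T * H), (psiWindow x H - H) ^ 2 =
      ∫ x in Icc H (T * H), (Chebyshev.psi (x + H / 2) - Chebyshev.psi (x - H / 2) - H) ^ 2 := by
    rw [intervalIntegral.integral_of_le hHX, ← integral_Icc_eq_integral_Ioc]
    refine setIntegral_congr_ae measurableSet_Icc ?_
    have hcount : (Set.range fun n : ℕ => (n : ℝ) + H / 2).Countable := Set.countable_range _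
    filter_upwards [hcount.ae_notMem volume] with x hx hxm
    rw [Star_win hH.le (by linarith [hxm.1]) fun n hn => hx ⟨n, hn.symm⟩]
  -- step 2
  have h2 : ∫ x in Icc H (T * H), (Chebyshev.psi (x + H / 2) - Chebyshev.psi (x - H / 2) - H) ^ 2 =
      ∫ l in Icc (lT T) (Real.log 3), |(-(H / (2 * Real.sinh (l / 2)) ^ 2))| •
        (Chebyshev.psi (Star_f H l + H / 2) - Chebyshev.psi (Star_f H l - H / 2) - H) ^ 2 := by
    rw [← Star_image hH hT]
    refine integral_image_eq_integral_abs_deriv_smul (f := Star_f H)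
      (f' := fun l => -(H / (2 * Real.sinh (l / 2)) ^ 2)) measurableSet_Icc (fun l hl => ?_) ?_
      (fun x => (Chebyshev.psi (x + H / 2) - Chebyshev.psi (x - H / 2) - H) ^ 2)
    · exact (Star_deriv H (hlT0.trans_le hl.1)).hasDerivWithinAt
    · intro l1 hl1 l2 hl2 he
      rcases lt_trichotomy l1 l2 with h | h | h
      · exact absurd he (Star_anti hH (hlT0.trans_le hl1.1) h).ne'
      · exact h
      · exact absurd he (Star_anti hH (hlT0.trans_le hl2.1) h).ne
  have h3 : ∫ l in Icc (lT T) (Real.log 3), |(-(H / (2 * Real.sinh (l / 2)) ^ 2))| •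
        (Chebyshev.psi (Star_f H l + H / 2) - Chebyshev.psi (Star_f H l - H / 2) - H) ^ 2 =
      ∫ l in Icc (lT T) (Real.log 3), H ^ 2 * (w3 l * Dt l ((α - 1) * Real.log T + su l) ^ 2) := by
    refine setIntegral_congr_fun measurableSet_Icc fun l hl => ?_
    have hl0 : 0 < l := hlT0.trans_le hl.1
    have hS : 0 < 2 * Real.sinh (l / 2) := Elem_sinh_pos hl0
    show |(-(H / (2 * Real.sinh (l / 2)) ^ 2))| •
        (Chebyshev.psi (Star_f H l + H / 2) - Chebyshev.psi (Star_f H l - H / 2) - H) ^ 2 =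
        H ^ 2 * (w3 l * Dt l ((α - 1) * Real.log T + su l) ^ 2)
    rw [Star_key hH hl0, hlogH, abs_neg, abs_of_pos (by positivity), smul_eq_mul]
    unfold w3
    field_simp
  have h4 : VV (T ^ α) H = (1 / (T * H)) * (H ^ 2 *
      ∫ l in (lT T)..(Real.log 3), w3 l * Dt l ((α - 1) * Real.log T + su l) ^ 2) := by
    unfold VV
    rw [hX, h1, h2, h3, intervalIntegral.integral_of_le hlT3, ← integral_Icc_eq_integral_Ioc, integral_const_mul]
  unfold RR
  rw [← hHdef, h4]
  have hlog : 0 < Real.log T := Real.log_pos (by linarith)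
  field_simp

theorem RR_nonneg {T : ℝ} (hT : 2 ≤ T) (α : ℝ) : 0 ≤ RR α T := by
  have hT0 : 0 < T := by linarith
  have hlog : 0 < Real.log T := Real.log_pos (by linarith)
  unfold RR VV
  have h1 : 0 < T ^ α := Real.rpow_pos_of_pos hT0 _
  have h2 : 0 < T ^ (α - 1) := Real.rpow_pos_of_pos hT0 _
  have h3 : T ^ (α - 1) ≤ T ^ α := Real.rpow_le_rpow_of_exponent_le (by linarith) (by linarith)
  have h4 : 0 ≤ ∫ x in (T ^ (α - 1))..(T ^ α), (psiWindow x (T ^ (α - 1)) - T ^ (α - 1)) ^ 2 :=
    intervalIntegral.integral_nonneg h3 fun x _ => by positivity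
  positivity

/-- Fubini for `star` (the integrand is measurable and bounded for `α ∈ [a, b]`, `Dt_meas`, `Dt_bdd`), then the substitution
`u = (α - 1) log T + su l` in the inner integral. -/
theorem star_avg {T : ℝ} (hT : 2 ≤ T) {a b : ℝ} (hab : a ≤ b) :
    IntervalIntegrable (fun α => RR α T) volume a b ∧
    ∫ α in a..b, RR α T = (1 / (T * Real.log T ^ 2)) * ∫ l in (lT T)..(Real.log 3),
      w3 l * ∫ u in ((a - 1) * Real.log T + su l)..((b - 1) * Real.log T + su l), Dt l u ^ 2 := by
  have hT0 : 0 < T := by linarith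
  have hlog : 0 < Real.log T := Real.log_pos (by linarith)
  have hlT1 : 1 / T ≤ lT T := lT_ge (by linarith : (1 : ℝ) ≤ T)
  have hlT0 : 0 < lT T := lt_of_lt_of_le (by positivity) hlT1
  have hlT3 : lT T ≤ Real.log 3 := lT_le_log_three (by linarith)
  have hw3m : Measurable w3 := by
    unfold w3
    exact (((Real.continuous_sinh.comp (continuous_id.div_const 2)).const_mul 2).pow 3).measurable.inv
  have hsum : Measurable su := by
    unfold su
    exact (Real.measurable_log.comp ((Real.continuous_sinh.comp (continuous_id.div_const 2)).const_mul 2).measurable).neg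
  have hFm : Measurable fun p : ℝ × ℝ => w3 p.2 * Dt p.2 ((p.1 - 1) * Real.log T + su p.2) ^ 2 := by
    have e1 : Measurable fun p : ℝ × ℝ => (p.2, (p.1 - 1) * Real.log T + su p.2) :=
      measurable_snd.prodMk (((measurable_fst.sub_const 1).mul_const _).add (hsum.comp measurable_snd))
    exact (hw3m.comp measurable_snd).mul ((Dt_meas.comp e1).pow_const 2)
  obtain ⟨C, hC0, hC⟩ := Dt_bdd ((|a| + |b| + 1) * Real.log T + (1 + Real.log T))
  have hint : Integrable (Function.uncurry fun (α l : ℝ) => w3 l * Dt l ((α - 1) * Real.log T + su l) ^ 2)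
      ((volume.restrict (Ioc a b)).prod (volume.restrict (Ioc (lT T) (Real.log 3)))) := by
    rw [Measure.prod_restrict]
    refine Measure.integrableOn_of_bounded (M := 1 / (lT T) ^ 3 * C ^ 2) ?_ ?_ ?_
    · rw [Measure.prod_prod, Real.volume_Ioc, Real.volume_Ioc]
      exact ENNReal.mul_ne_top ENNReal.ofReal_ne_top ENNReal.ofReal_ne_top
    · exact hFm.aestronglyMeasurable
    · filter_upwards [ae_restrict_mem (measurableSet_Ioc.prod measurableSet_Ioc)] with p hp
      obtain ⟨hp1, hp2⟩ := hp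
      have hl0 : 0 < p.2 := hlT0.trans hp2.1
      have hw := w3_le hl0
      have hw0 := w3_pos hl0
      have hs1 := su_ge_neg_one hl0 hp2.2
      have hs2 := su_le hl0
      have hs3 : -Real.log p.2 ≤ Real.log T := by
        have := Real.log_le_log (by positivity) (hlT1.trans hp2.1.le)
        rw [one_div, Real.log_inv] at this
        linarith
      have hsabs : |su p.2| ≤ 1 + Real.log T := abs_le.2 ⟨by linarith, by linarith⟩
      have hα : |p.1 - 1| ≤ |a| + |b| + 1 := by
        have := neg_abs_le a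
        have := le_abs_self b
        have := abs_nonneg a
        have := abs_nonneg b
        rw [abs_le]
        constructor <;> linarith [hp1.1, hp1.2]
      have harg : |(p.1 - 1) * Real.log T + su p.2| ≤ (|a| + |b| + 1) * Real.log T + (1 + Real.log T) := by
        refine (abs_add_le _ _).trans (add_le_add ?_ hsabs)
        rw [abs_mul, abs_of_pos hlog]
        exact mul_le_mul_of_nonneg_right hα hlog.le
      have hD := hC p.2 _ hl0.le (hp2.2.trans log_three_le) harg
      show ‖w3 p.2 * Dt p.2 ((p.1 - 1) * Real.log T + su p.2) ^ 2‖ ≤ _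
      rw [Real.norm_of_nonneg (by positivity), ← sq_abs (Dt _ _)]
      refine mul_le_mul (hw.trans ?_) (pow_le_pow_left₀ (abs_nonneg _) hD 2) (by positivity) (by positivity)
      exact one_div_le_one_div_of_le (by positivity) (pow_le_pow_left₀ hlT0.le hp2.1.le 3)
  have hRR : ∀ α, RR α T = (1 / (T * Real.log T)) *
      ∫ l in Ioc (lT T) (Real.log 3), w3 l * Dt l ((α - 1) * Real.log T + su l) ^ 2 := by
    intro α
    rw [star hT α, intervalIntegral.integral_of_le hlT3]
  constructor
  · rw [intervalIntegrable_iff_integrableOn_Ioc_of_le hab]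
    simp only [hRR]
    exact (hint.integral_prod_left).const_mul _
  · simp only [hRR]
    rw [intervalIntegral.integral_const_mul, intervalIntegral.integral_of_le hab, integral_integral_swap hint,
      intervalIntegral.integral_of_le hlT3]
    have e1 : ∀ l, ∫ α in Ioc a b, w3 l * Dt l ((α - 1) * Real.log T + su l) ^ 2 =
        (Real.log T)⁻¹ * (w3 l * ∫ u in ((a - 1) * Real.log T + su l)..((b - 1) * Real.log T + su l), Dt l u ^ 2) := by
      intro l
      rw [integral_const_mul, ← intervalIntegral.integral_of_le hab]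
      have e2 : ∀ α : ℝ, (α - 1) * Real.log T + su l = Real.log T * α + (su l - Real.log T) := fun α => by ring
      simp only [e2]
      rw [intervalIntegral.integral_comp_mul_add (fun u => Dt l u ^ 2) hlog.ne', smul_eq_mul]
      ring
    simp only [e1]
    rw [integral_const_mul]
    field_simp

end Pool.Agent.Lib.MP_2a816b_nt.PV
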