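import Pool.Agent.Lib.MP_2a816b_nt.PV.Star
import Pool.Agent.Lib.MP_2a816b_nt.PV.CrudeD

/-!
# The range of large `l` is negligible
-/

open Complex Set Filter Topology MeasureTheory

namespace Pool.Agent.Lib.MP_2a816b_nt.PV

open Pool.Agent.Lib.MP_00e05b_nt Pool.Agent.Lib.MP_00e05b_nt.Mont

theorem Tail_one_le_log_three : 1 ≤ Real.log 3 := by
  rw [Real.le_log_iff_exp_le (by norm_num)]
  have := Real.exp_one_lt_d9
  linarith

theorem Tail_log_four : Real.log 4 ≤ 2 := by
  have h : Real.log 4 = 2 * Real.log 2 := by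
    rw [show (4 : ℝ) = 2 ^ (2 : ℕ) by norm_num, Real.log_pow]
    norm_num
  have := Real.log_two_lt_d9
  rw [h]
  linarith

/-- `l2 = T^(-(1 - δ))`. For `l ≤ log 3` the window starts at `(a - 1) L + su l ≥ -1` (`su_ge_neg_one`) and has length `(b - a) L ≤ B L`:
`Dt_crude`, `w3 l ≤ 1/l³` (`w3_le`), `log (4/l) ≤ 2 + L`: the integral over `[l2, log 3]` is
`≤ C (2 + L)² (B L + 1) ∫_{l2}^∞ dl/l² = C (2 + L)² (B L + 1) T^(1 - δ)`; divided by `T L²` it tends to `0`. Integrability: `inner_ii`. -/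
theorem tail_small (hRH : RiemannHypothesis) {δ κ B : ℝ} (hδ : 0 < δ) (hδ1 : δ < 1) (hκ : 0 < κ) :
    ∀ᶠ T : ℝ in atTop, ∀ a b : ℝ, 1 ≤ a → a ≤ b → b ≤ B →
      (1 / (T * Real.log T ^ 2)) * ∫ l in (T ^ (-(1 - δ)))..(Real.log 3),
        w3 l * ∫ u in ((a - 1) * Real.log T + su l)..((b - 1) * Real.log T + su l), Dt l u ^ 2 ≤ κ := by
  obtain ⟨C, hC0, hC⟩ := Dt_crude hRH
  have hDnn : 0 ≤ 9 * C * (|B| + 1) := by positivity
  obtain ⟨D, hD⟩ : ∃ D : ℝ, D = 9 * C * (|B| + 1) := ⟨_, rfl⟩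
  rw [← hD] at hDnn
  have ho := (isLittleO_log_rpow_atTop hδ).bound (show 0 < κ / (D + 1) by positivity)
  filter_upwards [ho, eventually_ge_atTop (Real.exp 1)] with T hT hTe
  have hT0 : 0 < T := lt_of_lt_of_le (Real.exp_pos 1) hTe
  have hL1 : 1 ≤ Real.log T := by
    rw [Real.le_log_iff_exp_le hT0]
    exact hTe
  have hT1 : 1 ≤ T := by
    have := Real.add_one_le_exp (1 : ℝ)
    linarith
  intro a b ha hab hbB
  obtain ⟨L, hLdef⟩ : ∃ L : ℝ, L = Real.log T := ⟨_, rfl⟩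
  rw [← hLdef] at hT hL1 ⊢
  have hTδ : 0 < T ^ δ := Real.rpow_pos_of_pos hT0 δ
  have hkey : D * L ≤ κ * T ^ δ := by
    rw [Real.norm_of_nonneg (by linarith : (0 : ℝ) ≤ L), Real.norm_of_nonneg hTδ.le] at hT
    have h1 : (D + 1) * L ≤ κ * T ^ δ := by
      rw [div_mul_eq_mul_div, le_div_iff₀ (by positivity)] at hT
      linarith
    nlinarith
  obtain ⟨l2, hl2⟩ : ∃ l2 : ℝ, l2 = T ^ (-(1 - δ)) := ⟨_, rfl⟩
  rw [← hl2]
  have hl20 : 0 < l2 := by
    rw [hl2]
    exact Real.rpow_pos_of_pos hT0 _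
  have hl21 : l2 ≤ 1 := by
    rw [hl2]
    exact Real.rpow_le_one_of_one_le_of_nonpos hT1 (by linarith)
  have hl23 : l2 ≤ Real.log 3 := hl21.trans Tail_one_le_log_three
  have hloglt : Real.log l2 = -(1 - δ) * L := by
    rw [hl2, Real.log_rpow hT0, hLdef]
  have hl2inv : l2⁻¹ = T / T ^ δ := by
    rw [hl2, Real.rpow_neg hT0.le, inv_inv, Real.rpow_sub hT0, Real.rpow_one]
  have hB : b - a ≤ |B| := by
    have := le_abs_self B
    linarith
  -- pointwise bound
  have hpt : ∀ l ∈ Icc l2 (Real.log 3),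
      w3 l * ∫ u in ((a - 1) * L + su l)..((b - 1) * L + su l), Dt l u ^ 2 ≤ D * L ^ 3 * l ^ (-2 : ℤ) := by
    intro l hl
    have hl0 : 0 < l := lt_of_lt_of_le hl20 hl.1
    have hl54 : l ≤ 5 / 4 := hl.2.trans log_three_le
    have hs := su_ge_neg_one hl0 hl.2
    have h1 : 0 ≤ (a - 1) * L := mul_nonneg (by linarith) (by linarith)
    have h2 : (a - 1) * L ≤ (b - 1) * L := mul_le_mul_of_nonneg_right (by linarith) (by linarith)
    have hcr := hC l hl0 hl54 ((a - 1) * L + su l) ((b - 1) * L + su l) (by linarith) (by linarith)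
    have hI0 : 0 ≤ ∫ u in ((a - 1) * L + su l)..((b - 1) * L + su l), Dt l u ^ 2 :=
      intervalIntegral.integral_nonneg (by linarith) (fun u _ => sq_nonneg _)
    have hlog0 : 0 ≤ Real.log (4 / l) := by
      apply Real.log_nonneg
      rw [le_div_iff₀ hl0]
      linarith
    have hlog1 : Real.log (4 / l) ≤ 3 * L := by
      rw [Real.log_div (by norm_num) hl0.ne']
      have h3 : Real.log l2 ≤ Real.log l := Real.log_le_log hl20 hl.1
      have h4 := Tail_log_four
      rw [hloglt] at h3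
      nlinarith
    have hlog2 : Real.log (4 / l) ^ 2 ≤ (3 * L) ^ 2 := pow_le_pow_left₀ hlog0 hlog1 2
    have hlen : (b - 1) * L + su l - ((a - 1) * L + su l) + 1 ≤ (|B| + 1) * L := by
      have : (b - a) * L ≤ |B| * L := mul_le_mul_of_nonneg_right hB (by linarith)
      nlinarith
    have hlen0 : 0 ≤ (b - 1) * L + su l - ((a - 1) * L + su l) + 1 := by linarith
    have hI1 : ∫ u in ((a - 1) * L + su l)..((b - 1) * L + su l), Dt l u ^ 2 ≤ D * L ^ 3 * l := by
      refine hcr.trans ?_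
      have e1 : C * l * Real.log (4 / l) ^ 2 ≤ C * l * (3 * L) ^ 2 :=
        mul_le_mul_of_nonneg_left hlog2 (by positivity)
      have e2 : C * l * Real.log (4 / l) ^ 2 * ((b - 1) * L + su l - ((a - 1) * L + su l) + 1) ≤
          C * l * (3 * L) ^ 2 * ((|B| + 1) * L) :=
        mul_le_mul e1 hlen hlen0 (by positivity)
      refine e2.trans (le_of_eq ?_)
      rw [hD]
      ring
    have hw := w3_le hl0
    calc w3 l * ∫ u in ((a - 1) * L + su l)..((b - 1) * L + su l), Dt l u ^ 2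
        ≤ (1 / l ^ 3) * (D * L ^ 3 * l) := mul_le_mul hw hI1 hI0 (by positivity)
      _ = D * L ^ 3 * l ^ (-2 : ℤ) := by
        rw [zpow_neg]
        have : l ^ (2 : ℤ) = l ^ (2 : ℕ) := by norm_cast
        rw [this]
        field_simp
  have hcont : ∀ c : ℝ, ContinuousOn (fun l => c * L + su l) (Icc l2 (Real.log 3)) := fun c =>
    continuousOn_const.add (su_cont.mono fun l hl => lt_of_lt_of_le hl20 hl.1)
  have hint := inner_ii hl20 hl23 log_three_le (hcont (a - 1)) (hcont (b - 1))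
    (w3_cont.mono fun l hl => lt_of_lt_of_le hl20 hl.1)
  have h0 : (0 : ℝ) ∉ uIcc l2 (Real.log 3) := by
    rw [uIcc_of_le hl23]
    intro h
    linarith [h.1]
  have hint2 : IntervalIntegrable (fun l : ℝ => D * L ^ 3 * l ^ (-2 : ℤ)) volume l2 (Real.log 3) := by
    apply ContinuousOn.intervalIntegrable
    apply ContinuousOn.mul continuousOn_const
    intro x hx
    refine (continuousAt_zpow₀ x (-2) (Or.inl ?_)).continuousWithinAt
    rintro rfl
    exact h0 hx
  have hmono := intervalIntegral.integral_mono_on hl23 hint hint2 hpt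
  have hval : ∫ l in l2..(Real.log 3), D * L ^ 3 * l ^ (-2 : ℤ) ≤ D * L ^ 3 * (T / T ^ δ) := by
    rw [intervalIntegral.integral_const_mul, integral_zpow (Or.inr ⟨by norm_num, h0⟩)]
    apply mul_le_mul_of_nonneg_left _ (by positivity)
    have e1 : (-2 : ℤ) + 1 = -1 := by norm_num
    have e2 : (((-2 : ℤ) : ℝ) + 1) = -1 := by norm_num
    rw [e1, e2, zpow_neg_one, zpow_neg_one, div_neg, div_one, neg_sub, hl2inv]
    have : 0 < (Real.log 3)⁻¹ := by
      have := Tail_one_le_log_three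
      positivity
    linarith
  have hfin := hmono.trans hval
  calc (1 / (T * L ^ 2)) * ∫ l in l2..(Real.log 3),
        w3 l * ∫ u in ((a - 1) * L + su l)..((b - 1) * L + su l), Dt l u ^ 2
      ≤ (1 / (T * L ^ 2)) * (D * L ^ 3 * (T / T ^ δ)) :=
        mul_le_mul_of_nonneg_left hfin (by positivity)
    _ = D * L / T ^ δ := by
        have : L ≠ 0 := by linarith
        field_simp
    _ ≤ κ := by
        rw [div_le_iff₀ hTδ]
        exact hkey

end Pool.Agent.Lib.MP_2a816b_nt.PV
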