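import Pool.Agent.Lib.MP_2a816b_nt.PV.Elem
import Pool.Agent.Lib.MP_2a816b_nt.PV.KKeq

/-!
# JOB TauA (about 220 lines): Tauberian theorem, first half
-/

open Complex Set Filter Topology MeasureTheory

namespace Pool.Agent.Lib.MP_2a816b_nt.PV

open Pool.Agent.Lib.MP_00e05b_nt Pool.Agent.Lib.MP_00e05b_nt.Mont

/-- the function `r` -/
private noncomputable def TauA_g (n x0 lam : ℝ) : ℝ :=
  2 / n * x0 * Real.sin (lam * x0) - (1 - lam / n) * x0 ^ 2 * Real.cos (lam * x0)

private theorem TauA_g_cont (n x0 : ℝ) : Continuous (TauA_g n x0) := by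
  unfold TauA_g
  fun_prop

private theorem TauA_g_bound {n x0 lam : ℝ} (hn : 0 < n) (hx0 : 0 < x0) (h0 : 0 ≤ lam)
    (h1 : lam ≤ n) : |TauA_g n x0 lam| ≤ 2 / n * x0 + x0 ^ 2 := by
  unfold TauA_g
  have h2 : |1 - lam / n| ≤ 1 := by
    have h3 : lam / n ≤ 1 := (div_le_one hn).2 h1
    have h4 : 0 ≤ lam / n := by positivity
    rw [abs_le]
    constructor <;> linarith
  refine (abs_sub _ _).trans ?_
  have h3 : |2 / n * x0 * Real.sin (lam * x0)| ≤ 2 / n * x0 := by
    rw [abs_mul, abs_of_pos (show 0 < 2 / n * x0 by positivity)]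
    exact mul_le_of_le_one_right (by positivity) (Real.abs_sin_le_one _)
  have h4 : |(1 - lam / n) * x0 ^ 2 * Real.cos (lam * x0)| ≤ x0 ^ 2 := by
    rw [abs_mul, abs_mul, abs_of_pos (show 0 < x0 ^ 2 by positivity)]
    calc |1 - lam / n| * x0 ^ 2 * |Real.cos (lam * x0)| ≤ 1 * x0 ^ 2 * 1 := by
          gcongr
          exact Real.abs_cos_le_one _
      _ = x0 ^ 2 := by ring
  linarith

private theorem TauA_gint {n x0 : ℝ} (hn : 0 < n) :
    ∫ lam in (0 : ℝ)..n, TauA_g n x0 lam * lam = 1 - Real.cos (n * x0) := by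
  have hn0 : n ≠ 0 := hn.ne'
  have hder : ∀ lam : ℝ, HasDerivAt (fun l : ℝ =>
      (-(1 / n) * Real.cos (l * x0) - (1 - l / n) * x0 * Real.sin (l * x0)) * l -
        (1 - l / n) * Real.cos (l * x0)) (TauA_g n x0 lam * lam) lam := by
    intro lam
    have h1 : HasDerivAt (fun l : ℝ => 1 - l / n) (-(1 / n)) lam := by
      simpa using ((hasDerivAt_id lam).div_const n).const_sub 1
    have h2 : HasDerivAt (fun l : ℝ => l * x0) x0 lam := by
      simpa using (hasDerivAt_id lam).mul_const x0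
    have h3 : HasDerivAt (fun l : ℝ => Real.sin (l * x0)) (Real.cos (lam * x0) * x0) lam := h2.sin
    have h4 : HasDerivAt (fun l : ℝ => Real.cos (l * x0)) (-Real.sin (lam * x0) * x0) lam := h2.cos
    have h5 := (((h4.const_mul (-(1 / n))).sub ((h1.mul_const x0).mul h3)).mul
      (hasDerivAt_id lam)).sub (h1.mul h4)
    refine h5.congr_deriv ?_
    simp only [Pi.mul_apply, Pi.sub_apply, TauA_g, id]
    ring
  have hint := intervalIntegral.integral_eq_sub_of_hasDerivAt (a := 0) (b := n)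
    (fun lam _ => hder lam)
    (((TauA_g_cont n x0).mul continuous_id).intervalIntegrable _ _)
  rw [hint]
  simp only [zero_mul, Real.sin_zero, Real.cos_zero, mul_zero, zero_div, sub_zero, div_self hn0,
    sub_self]
  field_simp
  ring

/-- the dominating function -/
private noncomputable def TauA_E (x : ℝ) : ℝ := min 1 (x ^ 2) * (√x + x * √x) / x ^ 3

private theorem TauA_E_nonneg {x : ℝ} (hx : 0 < x) : 0 ≤ TauA_E x := by
  unfold TauA_E
  have : 0 ≤ min 1 (x ^ 2) := le_min zero_le_one (by positivity)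
  positivity

private theorem TauA_E_int : IntegrableOn TauA_E (Ioi 0) := by
  have hu : Ioi (0 : ℝ) = Ioc 0 1 ∪ Ioi 1 := (Ioc_union_Ioi_eq_Ioi zero_le_one).symm
  rw [hu]
  refine IntegrableOn.union ?_ ?_
  · have h1 : IntegrableOn (fun x : ℝ => x ^ (-(1 / 2) : ℝ) + x ^ ((1 / 2) : ℝ)) (Ioc 0 1) := by
      have h2 := (intervalIntegral.intervalIntegrable_rpow' (a := 0) (b := 1)
        (show (-1 : ℝ) < -(1 / 2) by norm_num)).add
        (intervalIntegral.intervalIntegrable_rpow' (a := 0) (b := 1)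
        (show (-1 : ℝ) < 1 / 2 by norm_num))
      exact (intervalIntegrable_iff_integrableOn_Ioc_of_le zero_le_one).1 h2
    refine h1.congr_fun (fun x hx => ?_) measurableSet_Ioc
    have hx0 : 0 < x := hx.1
    have h3 : min 1 (x ^ 2) = x ^ 2 := min_eq_right (by
      have := hx.2
      nlinarith)
    have h4 : x ^ (-(1 / 2) : ℝ) = √x / x := by
      rw [Real.sqrt_eq_rpow, ← Real.rpow_sub_one hx0.ne']
      norm_num
    show x ^ (-(1 / 2) : ℝ) + x ^ ((1 / 2) : ℝ) = TauA_E x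
    unfold TauA_E
    rw [h3, h4, ← Real.sqrt_eq_rpow]
    field_simp
  · have h1 : IntegrableOn (fun x : ℝ => x ^ (-(5 / 2) : ℝ) + x ^ (-(3 / 2) : ℝ)) (Ioi 1) :=
      (integrableOn_Ioi_rpow_of_lt (by norm_num) one_pos).add
        (integrableOn_Ioi_rpow_of_lt (by norm_num) one_pos)
    refine h1.congr_fun (fun x hx => ?_) measurableSet_Ioi
    have hx1 : 1 < x := hx
    have hx0 : 0 < x := by linarith
    have h3 : min 1 (x ^ 2) = 1 := min_eq_left (by nlinarith)
    have h4 : x ^ (-(5 / 2) : ℝ) = √x / x ^ 3 := by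
      rw [Real.sqrt_eq_rpow, ← Real.rpow_natCast x 3, ← Real.rpow_sub hx0]
      norm_num
    have h5 : x ^ (-(3 / 2) : ℝ) = x * √x / x ^ 3 := by
      have e : x * √x = x ^ ((3 / 2 : ℝ)) := by
        rw [Real.sqrt_eq_rpow]
        nth_rw 1 [← Real.rpow_one x]
        rw [← Real.rpow_add hx0]
        norm_num
      rw [e, ← Real.rpow_natCast x 3, ← Real.rpow_sub hx0]
      norm_num
    show x ^ (-(5 / 2) : ℝ) + x ^ (-(3 / 2) : ℝ) = TauA_E x
    unfold TauA_E
    rw [h3, h4, h5]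
    ring

private theorem TauA_cos_nonneg (y : ℝ) : 0 ≤ 1 - Real.cos y := by
  linarith [Real.cos_le_one y]

private theorem TauA_cos {n lam x : ℝ} (h0 : 0 ≤ lam) (h1 : lam ≤ n) (hx : 0 < x) :
    1 - Real.cos (lam * x) ≤ (2 + n ^ 2 / 2) * min 1 (x ^ 2) := by
  have h2 : 1 - Real.cos (lam * x) ≤ 2 := by linarith [Real.neg_one_le_cos (lam * x)]
  have h3 : 1 - Real.cos (lam * x) ≤ (lam * x) ^ 2 / 2 := by
    linarith [Real.one_sub_sq_div_two_le_cos (x := lam * x)]
  have h4 : (lam * x) ^ 2 ≤ n ^ 2 * x ^ 2 := by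
    rw [mul_pow]
    gcongr
  rcases le_total 1 (x ^ 2) with h | h
  · rw [min_eq_left h]
    nlinarith [sq_nonneg n]
  · rw [min_eq_right h]
    nlinarith [sq_nonneg n, sq_nonneg x]

private theorem TauA_meas {f : ℝ → ℝ} (hf : MonotoneOn f (Ioi 0)) :
    AEStronglyMeasurable (fun x => f x / x ^ 3) (volume.restrict (Ioi (0 : ℝ))) := by
  have h1 : AEMeasurable f (volume.restrict (Ioi (0 : ℝ))) :=
    aemeasurable_restrict_of_monotoneOn measurableSet_Ioi hf
  exact (h1.div (by fun_prop)).aestronglyMeasurable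

private theorem TauA_bd {f : ℝ → ℝ} {C n lam x : ℝ} (hx : 0 < x)
    (hf : 0 ≤ f x ∧ f x ≤ C * (√x + x * √x)) (h0 : 0 ≤ lam) (h1 : lam ≤ n) :
    |(1 - Real.cos (lam * x)) * (f x / x ^ 3)| ≤ (2 + n ^ 2 / 2) * C * TauA_E x := by
  have h2 := TauA_cos_nonneg (lam * x)
  have h3 := TauA_cos h0 h1 hx
  have h4 : 0 < x ^ 3 := by positivity
  have h5 : 0 ≤ f x / x ^ 3 := div_nonneg hf.1 h4.le
  rw [abs_of_nonneg (mul_nonneg h2 h5)]
  calc (1 - Real.cos (lam * x)) * (f x / x ^ 3)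
      ≤ ((2 + n ^ 2 / 2) * min 1 (x ^ 2)) * (C * (√x + x * √x) / x ^ 3) := by
        refine mul_le_mul h3 ?_ h5 (h2.trans h3)
        gcongr
        exact hf.2
    _ = (2 + n ^ 2 / 2) * C * TauA_E x := by
        unfold TauA_E
        ring

/-- the substitution `w = λ x` -/
private theorem TauA_subst {f : ℝ → ℝ} {lam : ℝ} (hl : 0 < lam) :
    ∫ x in Ioi (0 : ℝ), (1 - Real.cos (lam * x)) * (f x / x ^ 3) =
      lam ^ 2 / 2 * ∫ w in Ioi (0 : ℝ), qq w * f (lam⁻¹ * w) := by
  have h1 := integral_comp_mul_left_Ioi (fun w => qq w * f (lam⁻¹ * w)) 0 hl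
  rw [mul_zero, smul_eq_mul] at h1
  have h2 : ∫ w in Ioi (0 : ℝ), qq w * f (lam⁻¹ * w) =
      lam * ∫ x in Ioi (0 : ℝ), qq (lam * x) * f (lam⁻¹ * (lam * x)) := by
    rw [h1, ← mul_assoc, mul_inv_cancel₀ hl.ne', one_mul]
  rw [h2, ← mul_assoc, ← integral_const_mul]
  refine setIntegral_congr_fun measurableSet_Ioi fun x hx => ?_
  have hx0 : 0 < x := hx
  show (1 - Real.cos (lam * x)) * (f x / x ^ 3) =
    lam ^ 2 / 2 * lam * (qq (lam * x) * f (lam⁻¹ * (lam * x)))
  have h3 : lam⁻¹ * (lam * x) = x := by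
    rw [← mul_assoc, inv_mul_cancel₀ hl.ne', one_mul]
  have h4 : 1 - Real.cos (lam * x) = 2 * Real.sin (lam * x / 2) ^ 2 := by
    have := Real.cos_sq (lam * x / 2)
    have h5 := Real.sin_sq_add_cos_sq (lam * x / 2)
    rw [show 2 * (lam * x / 2) = lam * x by ring] at this
    linarith
  rw [h3, h4, qq]
  field_simp
  ring

/-- `I_T(λ) = ∫_{x > 0} 2 (1 - cos λx) x^(-3) N T x dx = λ² ∫_{w > 0} qq w N T (w/λ) dw → π m λ` for `λ > 0` (substitution `w = λ x`,
`ξ = 1/λ`, `2 (1 - cos w) = 4 sin² (w/2)`), and `|I_T(λ)| ≤ C' ` for `0 ≤ λ ≤ n` uniformly in `T`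
(`2 (1 - cos λx) ≤ min (4, λ² x²)`). By `KK_eq` and Fubini
`∫ KK N T x/x dx = ∫ x² KK x^(-3) N = (1/n) cos (n x0) I_T(n) + ∫_0^n r''(λ) I_T(λ) dλ`, which tends (dominated convergence in `λ`) to
`π m (cos (n x0) + ∫_0^n r''(λ) λ dλ) = π m (cos (n x0) + n r'(n) + r(0)) = π m` (`r'(n) = -cos (n x0)/n`, `r(n) = 0`, `r(0) = 1`).
`N T` is monotone on `(0, ∞)`, hence measurable there. -/
theorem tauA {N : ℝ → ℝ → ℝ} {m C : ℝ}
    (hN : ∀ᶠ T : ℝ in atTop, MonotoneOn (N T) (Ioi 0) ∧ ∀ w : ℝ, 0 < w → 0 ≤ N T w ∧ N T w ≤ C * (√w + w * √w))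
    (hlim : ∀ ξ : ℝ, 0 < ξ → Tendsto (fun T : ℝ => ∫ w in Ioi (0 : ℝ), qq w * N T (ξ * w)) atTop (𝓝 (Real.pi * (ξ * m))))
    {n x0 : ℝ} (hn : 0 < n) (hx0 : 0 < x0) :
    Tendsto (fun T : ℝ => ∫ x in Ioi (0 : ℝ), KK n x0 x * (N T x / x)) atTop (𝓝 (Real.pi * m)) := by
  have hn0 : n ≠ 0 := hn.ne'
  set J : ℝ → ℝ → ℝ := fun T lam =>
    ∫ x in Ioi (0 : ℝ), (1 - Real.cos (lam * x)) * (N T x / x ^ 3) with hJ
  set M : ℝ := (2 + n ^ 2 / 2) * C with hM
  set G : ℝ := 2 / n * x0 + x0 ^ 2 with hG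
  have hG0 : 0 ≤ G := by positivity
  -- limits of `J`
  have hJlim : ∀ lam : ℝ, 0 < lam → Tendsto (fun T => J T lam) atTop (𝓝 (Real.pi * lam * m / 2)) := by
    intro lam hl
    have h1 := (hlim lam⁻¹ (inv_pos.2 hl)).const_mul (lam ^ 2 / 2)
    have h2 : lam ^ 2 / 2 * (Real.pi * (lam⁻¹ * m)) = Real.pi * lam * m / 2 := by
      field_simp
    rw [h2] at h1
    refine h1.congr fun T => ?_
    exact (TauA_subst hl).symm
  -- integrability
  have hDint : ∀ᶠ T : ℝ in atTop, ∀ lam ∈ Icc (0 : ℝ) n,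
      IntegrableOn (fun x => (1 - Real.cos (lam * x)) * (N T x / x ^ 3)) (Ioi 0) := by
    filter_upwards [hN] with T hT lam hlam
    refine Integrable.mono' (TauA_E_int.const_mul M) ?_ ?_
    · exact (by fun_prop : Continuous fun x : ℝ => 1 - Real.cos (lam * x)).aestronglyMeasurable.mul
        (TauA_meas hT.1)
    · rw [ae_restrict_iff' measurableSet_Ioi]
      refine Eventually.of_forall fun x hx => ?_
      rw [Real.norm_eq_abs]
      exact TauA_bd hx (hT.2 x hx) hlam.1 hlam.2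
  have hJbd : ∀ᶠ T : ℝ in atTop, ∀ lam ∈ Icc (0 : ℝ) n,
      |J T lam| ≤ M * ∫ x in Ioi (0 : ℝ), TauA_E x := by
    filter_upwards [hN] with T hT lam hlam
    rw [← integral_const_mul, ← Real.norm_eq_abs]
    refine norm_integral_le_of_norm_le (TauA_E_int.const_mul M) ?_
    rw [ae_restrict_iff' measurableSet_Ioi]
    refine Eventually.of_forall fun x hx => ?_
    rw [Real.norm_eq_abs]
    exact TauA_bd hx (hT.2 x hx) hlam.1 hlam.2
  -- Fubini
  have hfub : ∀ᶠ T : ℝ in atTop,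
      Integrable (fun p : ℝ × ℝ => TauA_g n x0 p.2 * ((1 - Real.cos (p.2 * p.1)) * (N T p.1 / p.1 ^ 3)))
        ((volume.restrict (Ioi (0 : ℝ))).prod (volume.restrict (Ioc (0 : ℝ) n))) := by
    filter_upwards [hN] with T hT
    have h1 : Integrable (fun p : ℝ × ℝ => G * (M * TauA_E p.1))
        ((volume.restrict (Ioi (0 : ℝ))).prod (volume.restrict (Ioc (0 : ℝ) n))) :=
      ((TauA_E_int.const_mul M).const_mul G).comp_fst _
    refine h1.mono' ?_ ?_
    · have h2 : AEStronglyMeasurable (fun p : ℝ × ℝ => N T p.1 / p.1 ^ 3)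
          ((volume.restrict (Ioi (0 : ℝ))).prod (volume.restrict (Ioc (0 : ℝ) n))) :=
        (TauA_meas hT.1).comp_fst
      have h3 : Continuous fun p : ℝ × ℝ => TauA_g n x0 p.2 :=
        (TauA_g_cont n x0).comp continuous_snd
      have h4 : Continuous fun p : ℝ × ℝ => 1 - Real.cos (p.2 * p.1) := by fun_prop
      exact h3.aestronglyMeasurable.mul (h4.aestronglyMeasurable.mul h2)
    · rw [Measure.prod_restrict, ae_restrict_iff' (measurableSet_Ioi.prod measurableSet_Ioc)]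
      refine Eventually.of_forall fun p hp => ?_
      have hx : 0 < p.1 := hp.1
      have hl0 : 0 < p.2 := hp.2.1
      have hl1 : p.2 ≤ n := hp.2.2
      rw [Real.norm_eq_abs, abs_mul]
      exact mul_le_mul (TauA_g_bound hn hx0 hl0.le hl1) (TauA_bd hx (hT.2 p.1 hx) hl0.le hl1)
        (abs_nonneg _) hG0
  -- the identity
  have hid : ∀ᶠ T : ℝ in atTop, ∫ x in Ioi (0 : ℝ), KK n x0 x * (N T x / x) =
      2 / n * Real.cos (n * x0) * J T n + 2 * ∫ lam in (0 : ℝ)..n, TauA_g n x0 lam * J T lam := by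
    filter_upwards [hDint, hfub] with T h1 h2
    have h3 : ∫ x in Ioi (0 : ℝ), KK n x0 x * (N T x / x) =
        ∫ x in Ioi (0 : ℝ), (2 / n * Real.cos (n * x0) * ((1 - Real.cos (n * x)) * (N T x / x ^ 3)) +
          2 * ∫ lam in Ioc (0 : ℝ) n, TauA_g n x0 lam * ((1 - Real.cos (lam * x)) * (N T x / x ^ 3))) := by
      refine setIntegral_congr_ae measurableSet_Ioi ?_
      have h4 : ∀ᵐ x : ℝ ∂volume, x ≠ x0 := by
        have h5 : ({x0}ᶜ : Set ℝ) ∈ ae volume := by
          rw [mem_ae_iff, compl_compl]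
          exact measure_singleton x0
        exact h5
      filter_upwards [h4] with x hxne hx
      have hxp : 0 < x := hx
      have h5 := KK_eq hn hxp hx0 hxne
      have h6 : ∫ lam in Ioc (0 : ℝ) n, TauA_g n x0 lam * ((1 - Real.cos (lam * x)) * (N T x / x ^ 3)) =
          (∫ lam in (0 : ℝ)..n, TauA_g n x0 lam * (1 - Real.cos (lam * x))) * (N T x / x ^ 3) := by
        rw [intervalIntegral.integral_of_le hn.le, ← integral_mul_const]
        refine setIntegral_congr_fun measurableSet_Ioc fun lam _ => ?_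
        show TauA_g n x0 lam * ((1 - Real.cos (lam * x)) * (N T x / x ^ 3)) =
          TauA_g n x0 lam * (1 - Real.cos (lam * x)) * (N T x / x ^ 3)
        ring
      have h7 : KK n x0 x * (N T x / x) = x ^ 2 * KK n x0 x * (N T x / x ^ 3) := by
        field_simp
      rw [h6, h7, h5]
      unfold TauA_g
      ring
    have h8 : Integrable (fun x => ∫ lam in Ioc (0 : ℝ) n,
        TauA_g n x0 lam * ((1 - Real.cos (lam * x)) * (N T x / x ^ 3))) (volume.restrict (Ioi (0 : ℝ))) :=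
      h2.integral_prod_left
    have h9 : ∫ x in Ioi (0 : ℝ), ∫ lam in Ioc (0 : ℝ) n,
        TauA_g n x0 lam * ((1 - Real.cos (lam * x)) * (N T x / x ^ 3)) =
        ∫ lam in (0 : ℝ)..n, TauA_g n x0 lam * J T lam := by
      rw [integral_integral_swap h2, intervalIntegral.integral_of_le hn.le]
      refine setIntegral_congr_fun measurableSet_Ioc fun lam _ => ?_
      exact integral_const_mul _ _
    rw [h3, integral_add ((h1 n ⟨hn.le, le_rfl⟩).const_mul _) (h8.const_mul 2), integral_const_mul,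
      integral_const_mul, h9]
  -- dominated convergence
  have hdom : Tendsto (fun T => ∫ lam in (0 : ℝ)..n, TauA_g n x0 lam * J T lam) atTop
      (𝓝 (∫ lam in (0 : ℝ)..n, TauA_g n x0 lam * (Real.pi * lam * m / 2))) := by
    refine intervalIntegral.tendsto_integral_filter_of_dominated_convergence
      (fun _ => G * (M * ∫ x in Ioi (0 : ℝ), TauA_E x)) ?_ ?_ (by simp) ?_
    · filter_upwards [hfub] with T h2
      rw [uIoc_of_le hn.le]
      have h3 := h2.integral_prod_right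
      refine h3.aestronglyMeasurable.congr (Eventually.of_forall fun lam => ?_)
      show ∫ x in Ioi (0 : ℝ), TauA_g n x0 lam * ((1 - Real.cos (lam * x)) * (N T x / x ^ 3)) =
        TauA_g n x0 lam * ∫ x in Ioi (0 : ℝ), (1 - Real.cos (lam * x)) * (N T x / x ^ 3)
      exact integral_const_mul _ _
    · filter_upwards [hJbd] with T h2
      refine Eventually.of_forall fun lam hlam => ?_
      rw [uIoc_of_le hn.le] at hlam
      rw [Real.norm_eq_abs, abs_mul]
      exact mul_le_mul (TauA_g_bound hn hx0 hlam.1.le hlam.2) (h2 lam ⟨hlam.1.le, hlam.2⟩)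
        (abs_nonneg _) hG0
    · refine Eventually.of_forall fun lam hlam => ?_
      rw [uIoc_of_le hn.le] at hlam
      exact (hJlim lam hlam.1).const_mul _
  have hval : ∫ lam in (0 : ℝ)..n, TauA_g n x0 lam * (Real.pi * lam * m / 2) =
      Real.pi * m / 2 * (1 - Real.cos (n * x0)) := by
    rw [← TauA_gint hn, ← intervalIntegral.integral_const_mul]
    refine intervalIntegral.integral_congr fun lam _ => ?_
    show TauA_g n x0 lam * (Real.pi * lam * m / 2) = Real.pi * m / 2 * (TauA_g n x0 lam * lam)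
    ring
  rw [hval] at hdom
  have hfin := ((hJlim n hn).const_mul (2 / n * Real.cos (n * x0))).add (hdom.const_mul 2)
  have hfv : 2 / n * Real.cos (n * x0) * (Real.pi * n * m / 2) +
      2 * (Real.pi * m / 2 * (1 - Real.cos (n * x0))) = Real.pi * m := by
    field_simp
    ring
  rw [hfv] at hfin
  refine hfin.congr' ?_
  filter_upwards [hid] with T hT
  exact hT.symm

end Pool.Agent.Lib.MP_2a816b_nt.PV
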